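import Mathlib

/-!
# Lattice lines: basic definitions (for MP_2ffb02_co, statement S07919)

Points are elements of `ℕ × ℕ`; the first coordinate is the *column*.
-/

set_option autoImplicit false

namespace NTIL

open Finset

noncomputable section

/-- lattice points; first coordinate = column -/
abbrev Pt := ℕ × ℕ

/-- collinearity determinant of three points -/
def det (z y v : Pt) : ℤ :=
  ((y.1 : ℤ) - z.1) * ((v.2 : ℤ) - z.2) - ((y.2 : ℤ) - z.2) * ((v.1 : ℤ) - z.1)

/-- gcd of the two coordinates of `p - y` -/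
def dg (y p : Pt) : ℕ := Int.gcd ((p.1 : ℤ) - y.1) ((p.2 : ℤ) - y.2)

/-- primitive direction from `y` to `p` -/
def dir (y p : Pt) : ℤ × ℤ := (((p.1 : ℤ) - y.1) / dg y p, ((p.2 : ℤ) - y.2) / dg y p)

/-- max norm of a direction -/
def nrm (d : ℤ × ℤ) : ℕ := max d.1.natAbs d.2.natAbs

/-- the box with columns `0..X` and heights `< N` -/
def Box (X N : ℕ) : Finset Pt := range (X + 1) ×ˢ range N

/-- the part of the box strictly to the left of `p` -/
def left (X N : ℕ) (p : Pt) : Finset Pt := (Box X N).filter (fun y => y.1 < p.1)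

/-- the points of the box strictly to the left of `p` seen from `p` in direction `δ` -/
def fib (X N : ℕ) (p : Pt) (δ : ℤ × ℤ) : Finset Pt :=
  (Box X N).filter (fun y => y.1 < p.1 ∧ dir y p = δ)

/-- number of points to the left of `p` on the line through `y` and `p` -/
def Lc (X N : ℕ) (y p : Pt) : ℕ := (fib X N p (dir y p)).card

/-- number of points of the line through `p` and `q` which lie to the left of both -/
def nl (X N : ℕ) (p q : Pt) : ℕ :=
  ((Box X N).filter (fun y => y.1 < p.1 ∧ y.1 < q.1 ∧ det y p q = 0)).card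

/-- the set of forward directions of norm at most `K` -/
def dirs (K : ℕ) : Finset (ℤ × ℤ) := Icc (1 : ℤ) K ×ˢ Icc (-(K : ℤ)) K

/-- the cone `0 ≤ h < H t` with columns `≤ X` -/
def cone (H X : ℕ) : Finset Pt := (Box X (H * X)).filter (fun y => y.2 < H * y.1)

/-- Diophantine condition on a point -/
def DC (A : ℝ) (v : Pt) : Prop :=
  ∀ a : ℕ, 1 ≤ a → (a : ℝ) ≤ A → ∀ b : ℤ,
    (v.1 : ℝ) ≤ 100 * (a : ℝ) ^ 2 * |((a : ℤ) * v.2 - b * v.1 : ℤ)|

/-- weighted number of points on the line through `v` with direction `δ` -/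
def Gd (H X : ℕ) (v : Pt) (δ : ℤ × ℤ) : ℝ :=
  ∑ u ∈ (cone H X).filter (fun u => u.1 < v.1 ∧ dir u v = δ), 1 / (2 * (H : ℝ) * u.1)

lemma dg_pos {y p : Pt} (h : y.1 < p.1) : 0 < dg y p := by
  unfold dg
  apply Int.gcd_pos_of_ne_zero_left
  have : (y.1 : ℤ) < p.1 := by exact_mod_cast h
  omega

lemma dir_fst_mul {y p : Pt} : (dir y p).1 * dg y p = (p.1 : ℤ) - y.1 := by
  unfold dir dg
  exact Int.ediv_mul_cancel (Int.gcd_dvd_left _ _)

lemma dir_snd_mul {y p : Pt} : (dir y p).2 * dg y p = (p.2 : ℤ) - y.2 := by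
  unfold dir dg
  exact Int.ediv_mul_cancel (Int.gcd_dvd_right _ _)

lemma dir_fst_pos {y p : Pt} (h : y.1 < p.1) : 0 < (dir y p).1 := by
  have h1 := dir_fst_mul (y := y) (p := p)
  have h2 : (0 : ℤ) < dg y p := by exact_mod_cast dg_pos h
  have h3 : (y.1 : ℤ) < p.1 := by exact_mod_cast h
  by_contra hc
  push Not at hc
  have : (dir y p).1 * dg y p ≤ 0 := mul_nonpos_of_nonpos_of_nonneg hc h2.le
  omega

lemma dir_coprime {y p : Pt} (h : y.1 < p.1) : Int.gcd (dir y p).1 (dir y p).2 = 1 := by
  unfold dir dg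
  have h2 : 0 < Int.gcd ((p.1 : ℤ) - y.1) ((p.2 : ℤ) - y.2) := dg_pos h
  exact Int.gcd_div_gcd_div_gcd h2

lemma nrm_dir_pos {y p : Pt} (h : y.1 < p.1) : 0 < nrm (dir y p) := by
  have := dir_fst_pos h
  unfold nrm
  apply lt_max_of_lt_left
  omega

/-- two points left of `p` are collinear with `p` iff they are seen in the same direction -/
lemma det_eq_zero_iff {z y p : Pt} (hz : z.1 < p.1) (hy : y.1 < p.1) :
    det z y p = 0 ↔ dir z p = dir y p := by
  have z1 := dir_fst_mul (y := z) (p := p)
  have z2 := dir_snd_mul (y := z) (p := p)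
  have y1 := dir_fst_mul (y := y) (p := p)
  have y2 := dir_snd_mul (y := y) (p := p)
  have gz : (0 : ℤ) < dg z p := by exact_mod_cast dg_pos hz
  have gy : (0 : ℤ) < dg y p := by exact_mod_cast dg_pos hy
  have az := dir_fst_pos hz
  have ay := dir_fst_pos hy
  have cz := dir_coprime hz
  have cy := dir_coprime hy
  set a := (dir z p).1 with ha
  set b := (dir z p).2 with hb
  set c := (dir y p).1 with hc
  set d := (dir y p).2 with hd
  have e : det z y p = -(dg z p * dg y p : ℤ) * (c * b - d * a) := by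
    unfold det
    have e1 : (y.1 : ℤ) - z.1 = a * dg z p - c * dg y p := by rw [z1, y1]; ring
    have e2 : (y.2 : ℤ) - z.2 = b * dg z p - d * dg y p := by rw [z2, y2]; ring
    rw [e1, e2, ← z1, ← z2]; ring
  rw [e]
  constructor
  · intro h0
    have h1 : c * b - d * a = 0 := by
      rcases mul_eq_zero.mp h0 with h | h
      · exfalso
        have : (0:ℤ) < dg z p * dg y p := mul_pos gz gy
        omega
      · exact h
    have h2 : c * b = d * a := by linarith
    -- a ∣ c and c ∣ a
    have hac : a ∣ c := by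
      have : a ∣ c * b := ⟨d, by rw [h2]; ring⟩
      exact (Int.isCoprime_iff_gcd_eq_one.mpr cz).dvd_of_dvd_mul_right this
    have hca : c ∣ a := by
      have : c ∣ a * d := ⟨b, by rw [h2]; ring⟩
      exact (Int.isCoprime_iff_gcd_eq_one.mpr cy).dvd_of_dvd_mul_right this
    have hac' : a = c := Int.dvd_antisymm az.le ay.le hac hca
    have hbd : b = d := by
      rw [hac'] at h2
      have : c * (b - d) = 0 := by rw [mul_sub, h2]; ring
      rcases mul_eq_zero.mp this with h | h
      · omega
      · linarith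
    exact Prod.ext hac' hbd
  · intro h
    have h1 : a = c := by rw [ha, hc, h]
    have h2 : b = d := by rw [hb, hd, h]
    rw [h1, h2]; ring

end

end NTIL
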