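import Mathlib
import Pool.Agent.Lib.MP_2ffb02_co.Geom

set_option autoImplicit false

namespace NTIL

open Finset

lemma mc_card_le_of_diam (S : Finset ℕ) (c : ℝ) (hc : 0 ≤ c)
    (h : ∀ x ∈ S, ∀ y ∈ S, (y : ℝ) - x ≤ c) : (S.card : ℝ) ≤ c + 1 := by
  rcases S.eq_empty_or_nonempty with rfl | hne
  · simp; linarith
  · have hsub : S ⊆ Icc (S.min' hne) (S.max' hne) := by
      intro x hx
      rw [mem_Icc]
      exact ⟨S.min'_le x hx, S.le_max' x hx⟩
    have h1 := card_le_card hsub
    rw [Nat.card_Icc] at h1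
    have h2 := h _ (S.min'_mem hne) _ (S.max'_mem hne)
    have h3 : S.min' hne ≤ S.max' hne := S.min'_le _ (S.max'_mem hne)
    have h4 : ((S.max' hne + 1 - S.min' hne : ℕ) : ℝ) = (S.max' hne : ℝ) - S.min' hne + 1 := by
      rw [Nat.cast_sub (by omega)]; push_cast; ring
    have h5 : (S.card : ℝ) ≤ ((S.max' hne + 1 - S.min' hne : ℕ) : ℝ) := by exact_mod_cast h1
    linarith

lemma mc_sum_inv_sq (n : ℕ) : ∑ a ∈ Icc 1 n, (1 : ℝ) / (a : ℝ) ^ 2 ≤ 2 := by
  have key : ∀ n : ℕ, 1 ≤ n → ∑ a ∈ Icc 1 n, (1 : ℝ) / (a : ℝ) ^ 2 ≤ 2 - 1 / n := by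
    intro n hn
    induction n, hn using Nat.le_induction with
    | base => norm_num
    | succ n hn ih =>
      rw [sum_Icc_succ_top (by omega)]
      have hn0 : (0 : ℝ) < n := by exact_mod_cast hn
      have : (1 : ℝ) / ((n + 1 : ℕ) : ℝ) ^ 2 ≤ 1 / n - 1 / ((n + 1 : ℕ) : ℝ) := by
        push_cast
        rw [div_sub_div _ _ (by positivity) (by positivity), div_le_div_iff₀ (by positivity) (by positivity)]
        nlinarith
      linarith
  rcases Nat.eq_zero_or_pos n with rfl | hn
  · simp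
  · have h1 := key n hn
    have : (0 : ℝ) ≤ 1 / n := by positivity
    linarith

lemma mc_sum_id (n : ℕ) : ∑ a ∈ Icc 1 n, (a : ℝ) = n * (n + 1) / 2 := by
  induction n with
  | zero => simp
  | succ n ih =>
    rw [sum_Icc_succ_top (by omega), ih]
    push_cast
    ring

open Classical in
/-- (M4) most points of a column are Diophantine -/
theorem card_DC_ge {H X : ℕ} (hH : 1 ≤ H) {A : ℝ} (hA : 1 ≤ A) (hX : 100 * A ^ 2 ≤ X) :
    (9 / 10 : ℝ) * (H * X) ≤ ((range (H * X)).filter (fun k => DC A (X, k))).card := by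
  have hX0 : (0 : ℝ) < X := by nlinarith
  have hXn : 0 < X := by exact_mod_cast hX0
  have hH0 : (1 : ℝ) ≤ H := by exact_mod_cast hH
  set n : ℕ := ⌊A⌋₊ with hn
  have hnA : (n : ℝ) ≤ A := Nat.floor_le (by linarith)
  have hn1 : 1 ≤ n := by
    rw [hn, Nat.one_le_floor_iff]; exact hA
  -- split
  have hsplit := card_filter_add_card_filter_not (s := range (H * X)) (fun k => DC A (X, k))
  rw [card_range] at hsplit
  -- the bad set
  let S : ℕ → ℕ → Finset ℕ := fun a b =>
    (range (H * X)).filter (fun k => 100 * (a : ℝ) ^ 2 * |(a : ℝ) * k - b * X| < X)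
  have hsub : (range (H * X)).filter (fun k => ¬ DC A (X, k)) ⊆
      (Icc 1 n).biUnion (fun a => (range (a * H + 1)).biUnion (fun b => S a b)) := by
    intro k hk
    rw [mem_filter, mem_range] at hk
    obtain ⟨hk1, hk2⟩ := hk
    unfold DC at hk2
    push Not at hk2
    obtain ⟨a, ha1, ha2, b, hb⟩ := hk2
    have ha0 : (1 : ℝ) ≤ a := by exact_mod_cast ha1
    have hk1' : (k : ℝ) + 1 ≤ H * X := by exact_mod_cast hk1
    have hk0 : (0 : ℝ) ≤ k := by positivity
    simp only at hb
    push_cast at hb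
    have hasq : (1 : ℝ) ≤ (a : ℝ) ^ 2 := by nlinarith
    have hab : |(a : ℝ) * k - b * X| < X := by
      have h0 := abs_nonneg ((a : ℝ) * k - b * X)
      nlinarith
    rw [abs_lt] at hab
    have hb0 : 0 ≤ b := by
      by_contra hc
      push Not at hc
      have : (b : ℝ) ≤ -1 := by exact_mod_cast (by omega : b ≤ -1)
      nlinarith
    have hb1 : b ≤ a * H := by
      by_contra hc
      push Not at hc
      have : (a : ℝ) * H + 1 ≤ b := by exact_mod_cast (by omega : (a : ℤ) * H + 1 ≤ b)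
      nlinarith
    simp only [mem_biUnion, mem_Icc, mem_range, S, mem_filter]
    refine ⟨a, ⟨ha1, Nat.le_floor ha2⟩, b.toNat, ?_, hk1, ?_⟩
    · have : (b.toNat : ℤ) = b := Int.toNat_of_nonneg hb0
      zify
      omega
    · have : ((b.toNat : ℕ) : ℝ) = (b : ℝ) := by
        have h := Int.toNat_of_nonneg hb0
        exact_mod_cast h
      rw [this]
      exact hb
  have hS : ∀ a ∈ Icc 1 n, ∀ b ∈ range (a * H + 1), ((S a b).card : ℝ) ≤
      (X : ℝ) / (50 * (a : ℝ) ^ 3) + 1 := by
    intro a ha b _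
    rw [mem_Icc] at ha
    have ha0 : (1 : ℝ) ≤ a := by exact_mod_cast ha.1
    apply mc_card_le_of_diam _ _ (by positivity)
    intro x hx y hy
    simp only [S, mem_filter] at hx hy
    have h1 := hx.2
    have h2 := hy.2
    have h3 : 100 * (a : ℝ) ^ 2 * ((a : ℝ) * y - a * x) < 2 * X := by
      have e1 : -((a : ℝ) * x - b * X) ≤ |(a : ℝ) * x - b * X| := neg_le_abs _
      have e2 : ((a : ℝ) * y - b * X) ≤ |(a : ℝ) * y - b * X| := le_abs_self _
      have e3 : (0 : ℝ) < 100 * (a : ℝ) ^ 2 := by positivity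
      nlinarith
    rw [le_div_iff₀ (by positivity)]
    nlinarith
  have hcard : (((range (H * X)).filter (fun k => ¬ DC A (X, k))).card : ℝ) ≤
      ∑ a ∈ Icc 1 n, ∑ b ∈ range (a * H + 1), ((X : ℝ) / (50 * (a : ℝ) ^ 3) + 1) := by
    calc (((range (H * X)).filter (fun k => ¬ DC A (X, k))).card : ℝ)
        ≤ (((Icc 1 n).biUnion (fun a => (range (a * H + 1)).biUnion (fun b => S a b))).card : ℝ) := by
          exact_mod_cast card_le_card hsub
      _ ≤ ((∑ a ∈ Icc 1 n, ((range (a * H + 1)).biUnion (fun b => S a b)).card : ℕ) : ℝ) := by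
          exact_mod_cast card_biUnion_le
      _ ≤ ((∑ a ∈ Icc 1 n, ∑ b ∈ range (a * H + 1), (S a b).card : ℕ) : ℝ) := by
          have : (∑ a ∈ Icc 1 n, ((range (a * H + 1)).biUnion (fun b => S a b)).card) ≤
              ∑ a ∈ Icc 1 n, ∑ b ∈ range (a * H + 1), (S a b).card :=
            sum_le_sum (fun a _ => card_biUnion_le)
          exact_mod_cast this
      _ = ∑ a ∈ Icc 1 n, ∑ b ∈ range (a * H + 1), ((S a b).card : ℝ) := by push_cast; rfl
      _ ≤ _ := sum_le_sum (fun a ha => sum_le_sum (fun b hb => hS a ha b hb))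
  have hterm : ∀ a ∈ Icc 1 n, ∑ b ∈ range (a * H + 1), ((X : ℝ) / (50 * (a : ℝ) ^ 3) + 1) ≤
      (H * X / 25) * (1 / (a : ℝ) ^ 2) + 2 * H * a := by
    intro a ha
    rw [mem_Icc] at ha
    have ha0 : (1 : ℝ) ≤ a := by exact_mod_cast ha.1
    rw [sum_const, card_range, nsmul_eq_mul]
    push_cast
    have h1 : (a : ℝ) * H + 1 ≤ 2 * a * H := by nlinarith
    have h2 : (0 : ℝ) ≤ (X : ℝ) / (50 * (a : ℝ) ^ 3) + 1 := by positivity
    calc ((a : ℝ) * H + 1) * ((X : ℝ) / (50 * (a : ℝ) ^ 3) + 1)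
        ≤ (2 * a * H) * ((X : ℝ) / (50 * (a : ℝ) ^ 3) + 1) := by
          exact mul_le_mul_of_nonneg_right h1 h2
      _ = (H * X / 25) * (1 / (a : ℝ) ^ 2) + 2 * H * a := by
          field_simp
          ring
  have hbad : (((range (H * X)).filter (fun k => ¬ DC A (X, k))).card : ℝ) ≤ H * X / 10 := by
    calc (((range (H * X)).filter (fun k => ¬ DC A (X, k))).card : ℝ)
        ≤ ∑ a ∈ Icc 1 n, ((H * X / 25) * (1 / (a : ℝ) ^ 2) + 2 * H * a) :=
          hcard.trans (sum_le_sum hterm)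
      _ = (H * X / 25) * ∑ a ∈ Icc 1 n, (1 / (a : ℝ) ^ 2) + 2 * H * ∑ a ∈ Icc 1 n, (a : ℝ) := by
          rw [sum_add_distrib, mul_sum, mul_sum]
      _ ≤ (H * X / 25) * 2 + 2 * H * (n * (n + 1) / 2) := by
          rw [mc_sum_id]
          gcongr
          exact mc_sum_inv_sq n
      _ ≤ H * X / 10 := by
          have hn1' : (1 : ℝ) ≤ n := by exact_mod_cast hn1
          have h1 : (n : ℝ) * (n + 1) ≤ 2 * A ^ 2 := by nlinarith
          have h2 : 100 * ((n : ℝ) * (n + 1)) ≤ 2 * X := by nlinarith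
          nlinarith
  have hs : (((range (H * X)).filter (fun k => DC A (X, k))).card : ℝ) +
      (((range (H * X)).filter (fun k => ¬ DC A (X, k))).card : ℝ) = H * X := by
    exact_mod_cast hsplit
  linarith


lemma mc_card_le_of_modeq (S : Finset ℕ) (q : ℕ) (hq : 1 ≤ q) (c : ℝ) (hc : 0 ≤ c)
    (hS : ∀ x ∈ S, ∀ y ∈ S, x ≡ y [MOD q]) (h : ∀ x ∈ S, (x : ℝ) ≤ c) :
    (S.card : ℝ) ≤ c / q + 1 := by
  have hq0 : (0 : ℝ) < q := by exact_mod_cast hq
  have hinj : Set.InjOn (fun x : ℕ => x / q) (S : Set ℕ) := by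
    intro x hx y hy hxy
    have h1 := hS x hx y hy
    unfold Nat.ModEq at h1
    simp only at hxy
    rw [← Nat.div_add_mod x q, ← Nat.div_add_mod y q, hxy, h1]
  rw [← card_image_of_injOn hinj]
  apply mc_card_le_of_diam _ _ (by positivity)
  intro x hx y hy
  rw [mem_image] at hy
  obtain ⟨w, hw, rfl⟩ := hy
  have h1 : ((w / q : ℕ) : ℝ) ≤ (w : ℝ) / q := Nat.cast_div_le
  have h2 : (w : ℝ) / q ≤ c / q := div_le_div_of_nonneg_right (h w hw) hq0.le
  have h3 : (0 : ℝ) ≤ x := by positivity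
  linarith

lemma mc_sum_inv (n X : ℕ) (h : n ≤ X) : ∑ i ∈ Icc 1 n, (1 : ℝ) / i ≤ 1 + Real.log X := by
  rcases Nat.eq_zero_or_pos n with rfl | hn
  · simp
    rcases Nat.eq_zero_or_pos X with rfl | hX
    · simp
    · have := Real.log_nonneg (by exact_mod_cast hX : (1 : ℝ) ≤ X)
      linarith
  · have h1 := harmonic_le_one_add_log n
    rw [harmonic_eq_sum_Icc] at h1
    push_cast at h1
    simp only [one_div]
    have h2 : Real.log n ≤ Real.log X := Real.log_le_log (by exact_mod_cast hn) (by exact_mod_cast h)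
    linarith

/-- the number of pairs (h', k) on a line through `(s, h)` -/
lemma mc_count {H X s t h : ℕ} (hst : s < t) (htX : t < X) :
    ((∑ h' ∈ range (H * t), ((range (H * X)).filter (fun k => det (s, h) (t, h') (X, k) = 0)).card : ℕ) : ℝ)
      ≤ (H * t : ℝ) * (Nat.gcd (t - s) (X - s)) / ((t - s : ℕ) : ℝ) + 1 := by
  classical
  set g := Nat.gcd (t - s) (X - s) with hg
  have hg0 : 0 < g := Nat.gcd_pos_of_pos_left _ (by omega)
  obtain ⟨q, hq⟩ : g ∣ (t - s) := Nat.gcd_dvd_left _ _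
  obtain ⟨r, hr⟩ : g ∣ (X - s) := Nat.gcd_dvd_right _ _
  have hq0 : 0 < q := by
    rcases Nat.eq_zero_or_pos q with h0 | h0
    · rw [h0] at hq; omega
    · exact h0
  have hcop : Nat.Coprime q r := by
    have := Nat.gcd_mul_left g q r
    rw [← hq, ← hr, ← hg] at this
    have h1 : g * Nat.gcd q r = g * 1 := by rw [← this]; ring
    exact Nat.eq_of_mul_eq_mul_left hg0 h1
  have hq' : (t : ℤ) - s = g * q := by
    have : ((t - s : ℕ) : ℤ) = g * q := by exact_mod_cast hq
    rw [← this, Nat.cast_sub hst.le]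
  have hr' : (X : ℤ) - s = g * r := by
    have : ((X - s : ℕ) : ℤ) = g * r := by exact_mod_cast hr
    rw [← this, Nat.cast_sub (by omega)]
  set T := (range (H * t)).filter (fun h' => ∃ k, det (s, h) (t, h') (X, k) = 0) with hT
  have h1 : (∑ h' ∈ range (H * t), ((range (H * X)).filter (fun k => det (s, h) (t, h') (X, k) = 0)).card) ≤
      T.card := by
    rw [hT, card_filter]
    apply sum_le_sum
    intro h' _
    split_ifs with hex
    · rw [card_le_one]
      intro k hk k' hk'
      rw [mem_filter] at hk hk'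
      have e1 := hk.2
      have e2 := hk'.2
      unfold det at e1 e2
      simp only at e1 e2
      have e3 : ((t : ℤ) - s) * ((k : ℤ) - k') = 0 := by linarith
      rcases mul_eq_zero.mp e3 with e | e
      · omega
      · omega
    · rw [Nat.le_zero, card_eq_zero, filter_eq_empty_iff]
      intro k _ hk
      exact hex ⟨k, hk⟩
  have h2 : (T.card : ℝ) ≤ (H * t : ℝ) / q + 1 := by
    apply mc_card_le_of_modeq T q hq0 _ (by positivity)
    · intro x hx y hy
      rw [hT, mem_filter] at hx hy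
      obtain ⟨-, k, hk⟩ := hx
      obtain ⟨-, k', hk'⟩ := hy
      unfold det at hk hk'
      simp only at hk hk'
      have e3 : ((t : ℤ) - s) * ((k' : ℤ) - k) = ((y : ℤ) - x) * ((X : ℤ) - s) := by linarith
      rw [hq', hr'] at e3
      have hgz : (g : ℤ) ≠ 0 := by exact_mod_cast hg0.ne'
      have e4 : (q : ℤ) * ((k' : ℤ) - k) = ((y : ℤ) - x) * r := by
        apply mul_left_cancel₀ hgz
        linarith
      have e5 : (q : ℤ) ∣ ((y : ℤ) - x) * r := ⟨_, e4.symm⟩
      have e6 : (q : ℤ) ∣ ((y : ℤ) - x) := by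
        have : IsCoprime (q : ℤ) (r : ℤ) := Nat.isCoprime_iff_coprime.mpr hcop
        exact this.dvd_of_dvd_mul_right e5
      exact (Nat.modEq_iff_dvd).mpr e6
    · intro x hx
      rw [hT, mem_filter, mem_range] at hx
      exact_mod_cast hx.1.le
  have h3 : (H * t : ℝ) * g / ((t - s : ℕ) : ℝ) = (H * t : ℝ) / q := by
    rw [hq]
    have : (0 : ℝ) < g := by exact_mod_cast hg0
    have : (0 : ℝ) < q := by exact_mod_cast hq0
    push_cast
    field_simp
  rw [h3]
  refine le_trans ?_ h2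
  exact_mod_cast h1

lemma mc_sum_gcd {m X : ℕ} (hm : 1 ≤ m) (hmX : m ≤ X) :
    ∑ i ∈ Ioo 0 m, (Nat.gcd i m : ℝ) / i ≤ (m.divisors.card : ℝ) * (1 + Real.log X) := by
  have h1 : ∀ i ∈ Ioo 0 m, (Nat.gcd i m : ℝ) / i ≤
      ∑ d ∈ m.divisors, if d ∣ i then (d : ℝ) / i else 0 := by
    intro i hi
    rw [mem_Ioo] at hi
    have hmem : Nat.gcd i m ∈ m.divisors := by
      rw [Nat.mem_divisors]
      exact ⟨Nat.gcd_dvd_right _ _, by omega⟩
    have h2 := single_le_sum (f := fun d : ℕ => if d ∣ i then (d : ℝ) / i else 0)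
      (fun d _ => by split_ifs <;> positivity) hmem
    simp only [Nat.gcd_dvd_left, if_true] at h2
    exact h2
  calc ∑ i ∈ Ioo 0 m, (Nat.gcd i m : ℝ) / i
      ≤ ∑ i ∈ Ioo 0 m, ∑ d ∈ m.divisors, (if d ∣ i then (d : ℝ) / i else 0) := sum_le_sum h1
    _ = ∑ d ∈ m.divisors, ∑ i ∈ Ioo 0 m, (if d ∣ i then (d : ℝ) / i else 0) := sum_comm
    _ ≤ ∑ d ∈ m.divisors, (1 + Real.log X) := by
        apply sum_le_sum
        intro d hd
        have hd0 : 0 < d := Nat.pos_of_mem_divisors hd
        have hd0' : (0 : ℝ) < d := by exact_mod_cast hd0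
        rw [← sum_filter]
        have hinj : Set.InjOn (fun i : ℕ => i / d) ((Ioo 0 m).filter (fun i => d ∣ i) : Finset ℕ) := by
          intro x hx y hy hxy
          rw [mem_coe, mem_filter] at hx hy
          simp only at hxy
          rw [← Nat.div_mul_cancel hx.2, ← Nat.div_mul_cancel hy.2, hxy]
        calc ∑ i ∈ (Ioo 0 m).filter (fun i => d ∣ i), (d : ℝ) / i
            = ∑ i ∈ (Ioo 0 m).filter (fun i => d ∣ i), (1 : ℝ) / ((i / d : ℕ) : ℝ) := by
              apply sum_congr rfl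
              intro i hi
              rw [mem_filter] at hi
              obtain ⟨e, rfl⟩ := hi.2
              rw [Nat.mul_div_cancel_left _ hd0]
              push_cast
              rw [mem_Ioo] at hi
              have : e ≠ 0 := by
                rintro rfl
                simp at hi
              have he : (0 : ℝ) < e := by exact_mod_cast Nat.pos_of_ne_zero this
              field_simp
          _ = ∑ j ∈ ((Ioo 0 m).filter (fun i => d ∣ i)).image (fun i => i / d), (1 : ℝ) / (j : ℝ) := by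
              rw [sum_image hinj]
          _ ≤ ∑ j ∈ Icc 1 m, (1 : ℝ) / (j : ℝ) := by
              apply sum_le_sum_of_subset_of_nonneg
              · intro j hj
                rw [mem_image] at hj
                obtain ⟨i, hi, rfl⟩ := hj
                rw [mem_filter, mem_Ioo] at hi
                rw [mem_Icc]
                constructor
                · exact Nat.div_pos (Nat.le_of_dvd hi.1.1 hi.2) hd0
                · exact (Nat.div_le_self _ _).trans hi.1.2.le
              · intros; positivity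
          _ ≤ 1 + Real.log X := mc_sum_inv m X hmX
    _ = (m.divisors.card : ℝ) * (1 + Real.log X) := by
        rw [sum_const, nsmul_eq_mul]

lemma mc_tau_le {m X : ℕ} (hmX : m ≤ X) :
    m.divisors.card ≤ 2 * ((Icc 1 (Nat.sqrt X)).filter (fun d => d ∣ m)).card := by
  set A := (Icc 1 (Nat.sqrt X)).filter (fun d => d ∣ m) with hA
  have hsub : m.divisors ⊆ A ∪ A.image (fun d => m / d) := by
    intro d hd
    rw [Nat.mem_divisors] at hd
    obtain ⟨hd, hm⟩ := hd
    have hd0 : 0 < d := Nat.pos_of_dvd_of_pos hd (Nat.pos_of_ne_zero hm)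
    rw [mem_union]
    by_cases hle : d ≤ Nat.sqrt X
    · left
      rw [hA, mem_filter, mem_Icc]
      exact ⟨⟨hd0, hle⟩, hd⟩
    · right
      push Not at hle
      rw [mem_image]
      obtain ⟨e, rfl⟩ := hd
      have he0 : 0 < e := by
        rcases Nat.eq_zero_or_pos e with h0 | h0
        · rw [h0] at hm; simp at hm
        · exact h0
      refine ⟨e, ?_, ?_⟩
      · rw [hA, mem_filter, mem_Icc]
        refine ⟨⟨he0, ?_⟩, Dvd.intro_left d rfl⟩
        by_contra hc
        push Not at hc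
        have h1 := Nat.lt_succ_sqrt X
        have h2 : (Nat.sqrt X).succ * (Nat.sqrt X).succ ≤ d * e := Nat.mul_le_mul hle hc
        omega
      · rw [Nat.mul_div_cancel _ he0]
  have h1 := card_le_card hsub
  have h2 := card_union_le A (A.image (fun d => m / d))
  have h3 := card_image_le (s := A) (f := fun d => m / d)
  omega

lemma mc_sum_tau {X : ℕ} {l : ℝ} (hl : 0 < l) :
    ∑ s ∈ (Ico 1 X).filter (fun s : ℕ => (s : ℝ) < l), ((X - s).divisors.card : ℝ) ≤
      2 * (l * (1 + Real.log X) + Real.sqrt X) := by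
  have h1 : ∀ s ∈ (Ico 1 X).filter (fun s : ℕ => (s : ℝ) < l), ((X - s).divisors.card : ℝ) ≤
      2 * ∑ d ∈ Icc 1 (Nat.sqrt X), (if d ∣ (X - s) then (1 : ℝ) else 0) := by
    intro s _
    have := mc_tau_le (m := X - s) (X := X) (Nat.sub_le _ _)
    rw [card_filter] at this
    have h2 : ((X - s).divisors.card : ℝ) ≤ ((2 * ∑ d ∈ Icc 1 (Nat.sqrt X), (if d ∣ (X - s) then 1 else 0) : ℕ) : ℝ) := by
      exact_mod_cast this
    refine h2.trans (le_of_eq ?_)
    push_cast
    rfl
  have hsq : ((Nat.sqrt X : ℕ) : ℝ) ≤ Real.sqrt X := Real.nat_sqrt_le_real_sqrt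
  calc ∑ s ∈ (Ico 1 X).filter (fun s : ℕ => (s : ℝ) < l), ((X - s).divisors.card : ℝ)
      ≤ ∑ s ∈ (Ico 1 X).filter (fun s : ℕ => (s : ℝ) < l),
          2 * ∑ d ∈ Icc 1 (Nat.sqrt X), (if d ∣ (X - s) then (1 : ℝ) else 0) := sum_le_sum h1
    _ = 2 * ∑ d ∈ Icc 1 (Nat.sqrt X), ∑ s ∈ (Ico 1 X).filter (fun s : ℕ => (s : ℝ) < l),
          (if d ∣ (X - s) then (1 : ℝ) else 0) := by
        rw [← mul_sum, sum_comm]
    _ ≤ 2 * ∑ d ∈ Icc 1 (Nat.sqrt X), (l / d + 1) := by
        gcongr with d hd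
        rw [mem_Icc] at hd
        rw [← sum_filter, sum_const, nsmul_eq_mul, mul_one]
        apply mc_card_le_of_modeq _ d hd.1 _ hl.le
        · intro x hx y hy
          simp only [mem_filter, mem_Ico] at hx hy
          have e1 := hx.2
          have e2 := hy.2
          have e3 : ((X - x : ℕ) : ℤ) = (X : ℤ) - x := by rw [Nat.cast_sub (by omega)]
          have e4 : ((X - y : ℕ) : ℤ) = (X : ℤ) - y := by rw [Nat.cast_sub (by omega)]
          rw [Nat.modEq_iff_dvd]
          have e5 : (d : ℤ) ∣ ((X - x : ℕ) : ℤ) := by exact_mod_cast e1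
          have e6 : (d : ℤ) ∣ ((X - y : ℕ) : ℤ) := by exact_mod_cast e2
          have e7 := dvd_sub e5 e6
          rw [e3, e4] at e7
          have : (X : ℤ) - x - (X - y) = y - x := by ring
          rwa [this] at e7
        · intro x hx
          simp only [mem_filter] at hx
          exact hx.1.2.le
    _ = 2 * (l * ∑ d ∈ Icc 1 (Nat.sqrt X), ((1 : ℝ) / d) + (Nat.sqrt X : ℕ)) := by
        rw [sum_add_distrib, mul_sum]
        simp [div_eq_mul_inv]
    _ ≤ 2 * (l * (1 + Real.log X) + Real.sqrt X) := by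
        have := mc_sum_inv (Nat.sqrt X) X (Nat.sqrt_le_self X)
        gcongr

lemma mc_sum_cone {H X : ℕ} (P : ℕ → Prop) [DecidablePred P] (f : Pt → ℝ) :
    ∑ z ∈ (cone H X).filter (fun z => P z.1), f z =
      ∑ s ∈ (range (X + 1)).filter P, ∑ h ∈ range (H * s), f (s, h) := by
  unfold cone Box
  rw [filter_filter, sum_filter, sum_product, sum_filter]
  apply sum_congr rfl
  intro s hs
  rw [mem_range] at hs
  have hsX : H * s ≤ H * X := Nat.mul_le_mul_left _ (by omega)
  simp only
  split_ifs with hP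
  · simp only [hP, and_true]
    rw [← sum_filter]
    apply sum_congr _ (fun _ _ => rfl)
    ext h
    simp only [mem_filter, mem_range]
    omega
  · simp [hP]

/-- (M5) early coverage -/
theorem early_le {H X : ℕ} (hH : 1 ≤ H) (hX : 1 ≤ X) {l : ℝ} (hl : 0 < l) :
    (∑ z ∈ (cone H X).filter (fun z => (z.1 : ℝ) < l),
      ∑ y ∈ (cone H X).filter (fun y => z.1 < y.1 ∧ y.1 < X),
        1 / ((z.1 : ℝ) * y.1) * ((range (H * X)).filter (fun k => det z y (X, k) = 0)).card) ≤
      4 * (H : ℝ) ^ 2 * (1 + Real.log X) * (l * (1 + Real.log X) + Real.sqrt X) := by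
  have hH0 : (1 : ℝ) ≤ H := by exact_mod_cast hH
  have hL : (0 : ℝ) ≤ Real.log X := Real.log_nonneg (by exact_mod_cast hX)
  have e1 : (∑ z ∈ (cone H X).filter (fun z => (z.1 : ℝ) < l),
      ∑ y ∈ (cone H X).filter (fun y => z.1 < y.1 ∧ y.1 < X),
        1 / ((z.1 : ℝ) * y.1) * ((range (H * X)).filter (fun k => det z y (X, k) = 0)).card) =
      ∑ s ∈ (range (X + 1)).filter (fun s : ℕ => (s : ℝ) < l), ∑ h ∈ range (H * s),
        ∑ t ∈ (range (X + 1)).filter (fun t => s < t ∧ t < X), ∑ h' ∈ range (H * t),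
          1 / ((s : ℝ) * t) * ((range (H * X)).filter (fun k => det (s, h) (t, h') (X, k) = 0)).card := by
    rw [mc_sum_cone (fun s : ℕ => (s : ℝ) < l)]
    apply sum_congr rfl
    intro s _
    apply sum_congr rfl
    intro h _
    exact mc_sum_cone (H := H) (X := X) (fun t : ℕ => s < t ∧ t < X)
      (fun y => 1 / ((s : ℝ) * y.1) * ((range (H * X)).filter (fun k => det (s, h) y (X, k) = 0)).card)
  rw [e1]
  have e2 : ∀ s, (range (X + 1)).filter (fun t => s < t ∧ t < X) = Ioo s X := by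
    intro s
    ext t
    simp only [mem_filter, mem_range, mem_Ioo]
    omega
  have e3 : ∑ s ∈ (range (X + 1)).filter (fun s : ℕ => (s : ℝ) < l), ∑ h ∈ range (H * s),
        ∑ t ∈ (range (X + 1)).filter (fun t => s < t ∧ t < X), ∑ h' ∈ range (H * t),
          1 / ((s : ℝ) * t) * (((range (H * X)).filter (fun k => det (s, h) (t, h') (X, k) = 0)).card : ℝ) =
      ∑ s ∈ (Ico 1 X).filter (fun s : ℕ => (s : ℝ) < l), ∑ h ∈ range (H * s),
        ∑ t ∈ Ioo s X, ∑ h' ∈ range (H * t),
          1 / ((s : ℝ) * t) * (((range (H * X)).filter (fun k => det (s, h) (t, h') (X, k) = 0)).card : ℝ) := by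
    symm
    simp only [e2]
    apply sum_subset
    · intro s hs
      simp only [mem_filter, mem_Ico, mem_range] at hs ⊢
      exact ⟨by omega, hs.2⟩
    · intro s hs hs'
      simp only [mem_filter, mem_Ico, mem_range, not_and, not_lt] at hs hs'
      have : s = 0 ∨ X ≤ s := by
        by_contra hc
        push Not at hc
        have := hs' ⟨by omega, hc.2⟩
        linarith [hs.2]
      rcases this with rfl | hXs
      · simp
      · have : Ioo s X = ∅ := Ioo_eq_empty (by omega)
        simp [this]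
  rw [e3]
  have e4 : ∀ s ∈ (Ico 1 X).filter (fun s : ℕ => (s : ℝ) < l), ∑ h ∈ range (H * s),
        ∑ t ∈ Ioo s X, ∑ h' ∈ range (H * t),
          1 / ((s : ℝ) * t) * (((range (H * X)).filter (fun k => det (s, h) (t, h') (X, k) = 0)).card : ℝ) ≤
      2 * (H : ℝ) ^ 2 * (1 + Real.log X) * ((X - s).divisors.card : ℝ) := by
    intro s hs
    simp only [mem_filter, mem_Ico] at hs
    obtain ⟨⟨hs1, hsX⟩, -⟩ := hs
    have hs0 : (0 : ℝ) < s := by exact_mod_cast hs1
    have f1 : ∀ h ∈ range (H * s), ∀ t ∈ Ioo s X, ∑ h' ∈ range (H * t),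
          1 / ((s : ℝ) * t) * (((range (H * X)).filter (fun k => det (s, h) (t, h') (X, k) = 0)).card : ℝ) ≤
        1 / ((s : ℝ) * t) * ((H * t : ℝ) * (Nat.gcd (t - s) (X - s)) / ((t - s : ℕ) : ℝ) + 1) := by
      intro h _ t ht
      rw [mem_Ioo] at ht
      rw [← mul_sum]
      have := mc_count (H := H) (h := h) ht.1 ht.2
      push_cast at this
      apply mul_le_mul_of_nonneg_left _ (by positivity)
      convert this using 2
    calc _ ≤ ∑ h ∈ range (H * s), ∑ t ∈ Ioo s X,
            1 / ((s : ℝ) * t) * ((H * t : ℝ) * (Nat.gcd (t - s) (X - s)) / ((t - s : ℕ) : ℝ) + 1) :=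
          sum_le_sum (fun h hh => sum_le_sum (fun t ht => f1 h hh t ht))
      _ = ∑ t ∈ Ioo s X, ((H : ℝ) ^ 2 * ((Nat.gcd (t - s) (X - s) : ℝ) / ((t - s : ℕ) : ℝ)) +
            H * (1 / (t : ℝ))) := by
          rw [sum_const, card_range, nsmul_eq_mul, mul_sum]
          apply sum_congr rfl
          intro t ht
          rw [mem_Ioo] at ht
          have ht0 : (0 : ℝ) < t := by exact_mod_cast (by omega : 0 < t)
          have hts : (0 : ℝ) < ((t - s : ℕ) : ℝ) := by exact_mod_cast (by omega : 0 < t - s)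
          push_cast [Nat.cast_mul]
          field_simp
      _ = (H : ℝ) ^ 2 * ∑ t ∈ Ioo s X, ((Nat.gcd (t - s) (X - s) : ℝ) / ((t - s : ℕ) : ℝ)) +
            H * ∑ t ∈ Ioo s X, (1 / (t : ℝ)) := by
          rw [sum_add_distrib, mul_sum, mul_sum]
      _ ≤ (H : ℝ) ^ 2 * (((X - s).divisors.card : ℝ) * (1 + Real.log X)) + H * (1 + Real.log X) := by
          have g1 : ∑ t ∈ Ioo s X, ((Nat.gcd (t - s) (X - s) : ℝ) / ((t - s : ℕ) : ℝ)) =
              ∑ i ∈ Ioo 0 (X - s), (Nat.gcd i (X - s) : ℝ) / i := by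
            apply sum_nbij' (fun t => t - s) (fun i => i + s)
            · intro t ht; simp only [mem_Ioo] at ht ⊢; omega
            · intro i hi; simp only [mem_Ioo] at hi ⊢; omega
            · intro t ht; simp only [mem_Ioo] at ht ⊢; omega
            · intro i hi; simp only [mem_Ioo] at hi ⊢; omega
            · intro t ht; rfl
          have g2 : ∑ t ∈ Ioo s X, (1 / (t : ℝ)) ≤ 1 + Real.log X := by
            refine le_trans ?_ (mc_sum_inv X X le_rfl)
            apply sum_le_sum_of_subset_of_nonneg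
            · intro t ht
              rw [mem_Ioo] at ht
              rw [mem_Icc]
              omega
            · intros; positivity
          rw [g1]
          have g3 := mc_sum_gcd (m := X - s) (X := X) (by omega) (Nat.sub_le _ _)
          gcongr
      _ ≤ 2 * (H : ℝ) ^ 2 * (1 + Real.log X) * ((X - s).divisors.card : ℝ) := by
          have g4 : (1 : ℝ) ≤ ((X - s).divisors.card : ℝ) := by
            have : 0 < (X - s).divisors.card := by
              rw [card_pos, Nat.nonempty_divisors]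
              omega
            exact_mod_cast this
          have g5 : (H : ℝ) ≤ (H : ℝ) ^ 2 * ((X - s).divisors.card : ℝ) := by
            nlinarith [mul_le_mul hH0 g4 (by norm_num) (by linarith)]
          nlinarith [mul_le_mul_of_nonneg_right g5 (by linarith : (0:ℝ) ≤ 1 + Real.log X)]
  calc _ ≤ ∑ s ∈ (Ico 1 X).filter (fun s : ℕ => (s : ℝ) < l),
        2 * (H : ℝ) ^ 2 * (1 + Real.log X) * ((X - s).divisors.card : ℝ) := sum_le_sum e4
    _ = 2 * (H : ℝ) ^ 2 * (1 + Real.log X) *
        ∑ s ∈ (Ico 1 X).filter (fun s : ℕ => (s : ℝ) < l), ((X - s).divisors.card : ℝ) := by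
        rw [mul_sum]
    _ ≤ 2 * (H : ℝ) ^ 2 * (1 + Real.log X) * (2 * (l * (1 + Real.log X) + Real.sqrt X)) := by
        gcongr
        exact mc_sum_tau hl
    _ = _ := by ring

end NTIL
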