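import Mathlib
import Pool.Agent.Lib.MP_2ffb02_co.Geom

set_option autoImplicit false

namespace NTIL

open Finset

lemma CountA_mem_Box {X N : ℕ} {p : Pt} : p ∈ Box X N ↔ p.1 ≤ X ∧ p.2 < N := by
  simp [Box]

lemma CountA_mem_fib {X N : ℕ} {p y : Pt} {δ : ℤ × ℤ} :
    y ∈ fib X N p δ ↔ (y.1 ≤ X ∧ y.2 < N) ∧ y.1 < p.1 ∧ dir y p = δ := by
  rw [fib, mem_filter, CountA_mem_Box]

lemma CountA_mem_left {X N : ℕ} {p y : Pt} :
    y ∈ left X N p ↔ (y.1 ≤ X ∧ y.2 < N) ∧ y.1 < p.1 := by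
  rw [left, mem_filter, CountA_mem_Box]

/-- The points left of `p` in direction `δ` are `p - k δ`, `k ≥ 1`; so there are at most
`N / nrm δ` of them in the box. -/
theorem card_fib_mul_nrm_le {X N : ℕ} (hXN : X ≤ N) {p : Pt} (hp : p ∈ Box X N) (δ : ℤ × ℤ) :
    (fib X N p δ).card * nrm δ ≤ N := by
  rcases Nat.eq_zero_or_pos (nrm δ) with h0 | h0
  · rw [h0]; simp
  have hp' := CountA_mem_Box.1 hp
  have hmem : ∀ y ∈ fib X N p δ, dg y p ∈ Icc 1 (N / nrm δ) := by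
    intro y hy
    obtain ⟨⟨hy1, hy2⟩, hy3, hy4⟩ := CountA_mem_fib.1 hy
    have h1 := dir_fst_mul (y := y) (p := p)
    have h2 := dir_snd_mul (y := y) (p := p)
    have hg := dg_pos hy3
    rw [mem_Icc]
    refine ⟨hg, ?_⟩
    rw [Nat.le_div_iff_mul_le h0, ← hy4]
    have e1 : dg y p * (dir y p).1.natAbs = ((p.1 : ℤ) - y.1).natAbs := by
      rw [← h1, Int.natAbs_mul, Int.natAbs_natCast, mul_comm]
    have e2 : dg y p * (dir y p).2.natAbs = ((p.2 : ℤ) - y.2).natAbs := by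
      rw [← h2, Int.natAbs_mul, Int.natAbs_natCast, mul_comm]
    unfold nrm
    rcases max_choice (dir y p).1.natAbs (dir y p).2.natAbs with h | h
    · rw [h, e1]; omega
    · rw [h, e2]; omega
  have hinj : Set.InjOn (fun y => dg y p) (fib X N p δ : Set Pt) := by
    intro y hy y' hy' hyy
    obtain ⟨-, hy3, hy4⟩ := CountA_mem_fib.1 (mem_coe.1 hy)
    obtain ⟨-, hy3', hy4'⟩ := CountA_mem_fib.1 (mem_coe.1 hy')
    have hyy' : dg y p = dg y' p := hyy
    have h1 := dir_fst_mul (y := y) (p := p)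
    have h2 := dir_snd_mul (y := y) (p := p)
    have h1' := dir_fst_mul (y := y') (p := p)
    have h2' := dir_snd_mul (y := y') (p := p)
    rw [hy4, hyy'] at h1 h2
    rw [hy4'] at h1' h2'
    apply Prod.ext
    · have := h1.symm.trans h1'; omega
    · have := h2.symm.trans h2'; omega
  have hcard : (fib X N p δ).card ≤ N / nrm δ := by
    calc (fib X N p δ).card ≤ (Icc 1 (N / nrm δ)).card :=
          card_le_card_of_injOn _ hmem hinj
      _ = N / nrm δ := by simp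
  calc (fib X N p δ).card * nrm δ ≤ N / nrm δ * nrm δ := Nat.mul_le_mul_right _ hcard
    _ ≤ N := Nat.div_mul_le_self _ _

lemma CountA_card_nrm (S : Finset (ℤ × ℤ)) (hS : ∀ δ ∈ S, 1 ≤ δ.1) (m : ℕ) :
    (S.filter (fun δ => nrm δ = m)).card ≤ 4 * m := by
  rcases Nat.eq_zero_or_pos m with rfl | hm
  · have h0 : S.filter (fun δ => nrm δ = 0) = ∅ := by
      rw [filter_eq_empty_iff]
      intro δ hδ h
      have h1 := hS δ hδ
      have h2 : δ.1.natAbs ≤ nrm δ := le_max_left _ _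
      omega
    rw [h0]
    simp
  · have hsub : S.filter (fun δ => nrm δ = m) ⊆
        ({(m : ℤ)} ×ˢ Icc (-(m : ℤ)) m) ∪ (Icc (1 : ℤ) (m - 1) ×ˢ {(m : ℤ), -(m : ℤ)}) := by
      intro δ hδ
      obtain ⟨h1, h2⟩ := mem_filter.1 hδ
      have h3 := hS δ h1
      have h4 : δ.1.natAbs ≤ nrm δ := le_max_left _ _
      have h5 : δ.2.natAbs ≤ nrm δ := le_max_right _ _
      rw [h2] at h4 h5
      rw [mem_union, mem_product, mem_product, mem_singleton, mem_Icc, mem_Icc, mem_insert,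
        mem_singleton]
      by_cases hc : δ.1 = m
      · left
        exact ⟨hc, by omega, by omega⟩
      · right
        have h6 : δ.2.natAbs = m := by
          rcases max_choice δ.1.natAbs δ.2.natAbs with h | h
          · have : nrm δ = δ.1.natAbs := h
            omega
          · have : nrm δ = δ.2.natAbs := h
            omega
        exact ⟨⟨h3, by omega⟩, by omega⟩
    calc (S.filter (fun δ => nrm δ = m)).card
        ≤ (({(m : ℤ)} ×ˢ Icc (-(m : ℤ)) m) ∪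
            (Icc (1 : ℤ) (m - 1) ×ˢ {(m : ℤ), -(m : ℤ)})).card := card_le_card hsub
      _ ≤ ({(m : ℤ)} ×ˢ Icc (-(m : ℤ)) m).card +
            (Icc (1 : ℤ) (m - 1) ×ˢ {(m : ℤ), -(m : ℤ)}).card := card_union_le _ _
      _ ≤ 1 * (2 * m + 1) + (m - 1) * 2 := by
          rw [card_product, card_product, card_singleton, Int.card_Icc, Int.card_Icc]
          have h1 : ({(m : ℤ), -(m : ℤ)} : Finset ℤ).card ≤ 2 := card_le_two
          have h2 : ((m : ℤ) + 1 - -(m : ℤ)).toNat = 2 * m + 1 := by omega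
          have h3 : ((m : ℤ) - 1 + 1 - 1).toNat = m - 1 := by omega
          rw [h2, h3]
          gcongr
      _ ≤ 4 * m := by omega

lemma CountA_sum_nrm (S : Finset (ℤ × ℤ)) (K : ℕ) (hS : ∀ δ ∈ S, 1 ≤ δ.1 ∧ nrm δ ≤ K)
    (g : ℕ → ℝ) (hg : ∀ m, 0 ≤ g m) :
    ∑ δ ∈ S, g (nrm δ) ≤ ∑ m ∈ Icc 1 K, 4 * (m : ℝ) * g m := by
  have hmaps : ∀ δ ∈ S, nrm δ ∈ Icc 1 K := by
    intro δ hδ
    obtain ⟨h1, h2⟩ := hS δ hδ
    have h4 : δ.1.natAbs ≤ nrm δ := le_max_left _ _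
    rw [mem_Icc]
    exact ⟨by omega, h2⟩
  rw [← sum_fiberwise_of_maps_to hmaps]
  refine sum_le_sum fun m _ => ?_
  have h1 : ∀ δ ∈ S.filter (fun δ => nrm δ = m), g (nrm δ) = g m := by
    intro δ hδ
    rw [(mem_filter.1 hδ).2]
  rw [sum_congr rfl h1, sum_const, nsmul_eq_mul]
  have h2 : ((S.filter (fun δ => nrm δ = m)).card : ℝ) ≤ 4 * m := by
    exact_mod_cast CountA_card_nrm S (fun δ hδ => (hS δ hδ).1) m
  exact mul_le_mul_of_nonneg_right h2 (hg m)

lemma CountA_card_fib_le {X N : ℕ} (hXN : X ≤ N) {p : Pt} (hp : p ∈ Box X N) {δ : ℤ × ℤ}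
    (hδ : 0 < nrm δ) : ((fib X N p δ).card : ℝ) ≤ (N : ℝ) / nrm δ := by
  rw [le_div_iff₀ (by exact_mod_cast hδ)]
  exact_mod_cast card_fib_mul_nrm_le hXN hp δ

lemma CountA_Lc_le {X N : ℕ} (hXN : X ≤ N) {p y : Pt} (hp : p ∈ Box X N) (h : y.1 < p.1) :
    (Lc X N y p : ℝ) ≤ (N : ℝ) / nrm (dir y p) :=
  CountA_card_fib_le hXN hp (nrm_dir_pos h)

lemma CountA_nrm_le {X N : ℕ} (hXN : X ≤ N) {p y : Pt} (hp : p ∈ Box X N)
    (hy : y ∈ left X N p) : nrm (dir y p) ≤ N := by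
  have h1 := CountA_mem_left.1 hy
  have h2 : y ∈ fib X N p (dir y p) := CountA_mem_fib.2 ⟨h1.1, h1.2, rfl⟩
  have h3 : 0 < (fib X N p (dir y p)).card := card_pos.2 ⟨y, h2⟩
  calc nrm (dir y p) ≤ (fib X N p (dir y p)).card * nrm (dir y p) := Nat.le_mul_of_pos_left _ h3
    _ ≤ N := card_fib_mul_nrm_le hXN hp _

/-- (C1) `∑_y Lc y p = ∑_δ |fib δ|²`; there are at most `4m` forward directions of norm `m`. -/
theorem sum_Lc_le {X N : ℕ} (hXN : X ≤ N) (hN : 1 ≤ N) {p : Pt} (hp : p ∈ Box X N) :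
    (∑ y ∈ left X N p, (Lc X N y p : ℝ)) ≤ 4 * (N : ℝ) ^ 2 * (1 + Real.log N) := by
  set D := (left X N p).image (fun y => dir y p) with hD
  have hmaps : ∀ y ∈ left X N p, dir y p ∈ D := fun y hy => mem_image_of_mem _ hy
  rw [← sum_fiberwise_of_maps_to hmaps]
  have hDS : ∀ δ ∈ D, 1 ≤ δ.1 ∧ nrm δ ≤ N := by
    intro δ hδ
    obtain ⟨y, hy, rfl⟩ := mem_image.1 hδ
    exact ⟨dir_fst_pos (CountA_mem_left.1 hy).2, CountA_nrm_le hXN hp hy⟩
  calc ∑ δ ∈ D, ∑ y ∈ (left X N p).filter (fun y => dir y p = δ), (Lc X N y p : ℝ)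
      ≤ ∑ δ ∈ D, ((N : ℝ) / (nrm δ : ℕ)) ^ 2 := by
        refine sum_le_sum fun δ hδ => ?_
        have h1 : ∀ y ∈ (left X N p).filter (fun y => dir y p = δ),
            (Lc X N y p : ℝ) = (fib X N p δ).card := by
          intro y hy
          rw [Lc, (mem_filter.1 hy).2]
        have h2 : (left X N p).filter (fun y => dir y p = δ) = fib X N p δ := by
          rw [left, filter_filter]; rfl
        rw [sum_congr rfl h1, sum_const, nsmul_eq_mul, h2, pow_two]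
        have hδ' := hDS δ hδ
        have h4 : δ.1.natAbs ≤ nrm δ := le_max_left _ _
        have h3 := CountA_card_fib_le hXN hp (δ := δ) (by omega)
        exact mul_le_mul h3 h3 (Nat.cast_nonneg _) (by positivity)
    _ ≤ ∑ m ∈ Icc 1 N, 4 * (m : ℝ) * ((N : ℝ) / m) ^ 2 :=
        CountA_sum_nrm D N hDS (fun m => ((N : ℝ) / m) ^ 2) (fun m => by positivity)
    _ = ∑ m ∈ Icc 1 N, 4 * (N : ℝ) ^ 2 * (m : ℝ)⁻¹ := by
        refine sum_congr rfl fun m hm => ?_
        have hm0 : (m : ℝ) ≠ 0 := by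
          have := (mem_Icc.1 hm).1
          positivity
        field_simp
    _ = 4 * (N : ℝ) ^ 2 * ∑ m ∈ Icc 1 N, (m : ℝ)⁻¹ := by rw [mul_sum]
    _ ≤ 4 * (N : ℝ) ^ 2 * (1 + Real.log N) := by
        have h1 : ∑ m ∈ Icc 1 N, (m : ℝ)⁻¹ ≤ 1 + Real.log N := by
          have := harmonic_le_one_add_log N
          rw [harmonic_eq_sum_Icc] at this
          push_cast at this
          exact this
        exact mul_le_mul_of_nonneg_left h1 (by positivity)

/-- (C3) if the points of `E` are seen from `p` in different directions. Split at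
`nrm (dir y p) ≤ K`, `K = ⌈√N⌉`. -/
theorem sum_Lc_inj_le {X N : ℕ} (hXN : X ≤ N) (hN : 1 ≤ N) {p : Pt} (hp : p ∈ Box X N)
    (E : Finset Pt) (hE : E ⊆ left X N p) (hcard : E.card ≤ N)
    (hinj : Set.InjOn (fun y => dir y p) (E : Set Pt)) :
    (∑ y ∈ E, (Lc X N y p : ℝ)) ≤ 9 * (N : ℝ) ^ (3 / 2 : ℝ) := by
  have hN1 : (1 : ℝ) ≤ N := by exact_mod_cast hN
  have hs1 : 1 ≤ √(N : ℝ) := by
    rw [show (1 : ℝ) = √1 by simp]
    exact Real.sqrt_le_sqrt hN1
  have hss : √(N : ℝ) * √(N : ℝ) = N := Real.mul_self_sqrt (by linarith)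
  have hpow : (N : ℝ) ^ (3 / 2 : ℝ) = N * √(N : ℝ) := by
    rw [Real.sqrt_eq_rpow, show (3 / 2 : ℝ) = 1 + 1 / 2 by norm_num,
      Real.rpow_add (by linarith), Real.rpow_one]
  set K := ⌈√(N : ℝ)⌉₊ with hK
  have hK1 : √(N : ℝ) ≤ K := Nat.le_ceil _
  have hK2 : (K : ℝ) < √(N : ℝ) + 1 := Nat.ceil_lt_add_one (by linarith)
  rw [← sum_filter_add_sum_filter_not E (fun y => nrm (dir y p) ≤ K)]
  have hleft : ∀ y ∈ E, y.1 < p.1 := fun y hy => (CountA_mem_left.1 (hE hy)).2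
  have h1 : ∑ y ∈ E.filter (fun y => nrm (dir y p) ≤ K), (Lc X N y p : ℝ) ≤
      4 * N * K := by
    calc ∑ y ∈ E.filter (fun y => nrm (dir y p) ≤ K), (Lc X N y p : ℝ)
        ≤ ∑ y ∈ E.filter (fun y => nrm (dir y p) ≤ K), (N : ℝ) / (nrm (dir y p) : ℕ) := by
          refine sum_le_sum fun y hy => ?_
          exact CountA_Lc_le hXN hp (hleft y (mem_filter.1 hy).1)
      _ = ∑ δ ∈ (E.filter (fun y => nrm (dir y p) ≤ K)).image (fun y => dir y p),
            (N : ℝ) / (nrm δ : ℕ) := by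
          rw [sum_image]
          intro y hy y' hy' h
          exact hinj (mem_coe.2 (mem_filter.1 hy).1) (mem_coe.2 (mem_filter.1 hy').1) h
      _ ≤ ∑ m ∈ Icc 1 K, 4 * (m : ℝ) * ((N : ℝ) / m) := by
          refine CountA_sum_nrm _ K ?_ (fun m => (N : ℝ) / m) (fun m => by positivity)
          intro δ hδ
          obtain ⟨y, hy, rfl⟩ := mem_image.1 hδ
          obtain ⟨hy1, hy2⟩ := mem_filter.1 hy
          exact ⟨dir_fst_pos (hleft y hy1), hy2⟩
      _ = ∑ m ∈ Icc 1 K, 4 * (N : ℝ) := by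
          refine sum_congr rfl fun m hm => ?_
          have hm0 : (m : ℝ) ≠ 0 := by
            have := (mem_Icc.1 hm).1
            positivity
          field_simp
      _ = 4 * N * K := by
          rw [sum_const, nsmul_eq_mul, Nat.card_Icc]
          push_cast
          ring
  have h2 : ∑ y ∈ E.filter (fun y => ¬ nrm (dir y p) ≤ K), (Lc X N y p : ℝ) ≤
      N * √(N : ℝ) := by
    calc ∑ y ∈ E.filter (fun y => ¬ nrm (dir y p) ≤ K), (Lc X N y p : ℝ)
        ≤ ∑ y ∈ E.filter (fun y => ¬ nrm (dir y p) ≤ K), √(N : ℝ) := by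
          refine sum_le_sum fun y hy => ?_
          obtain ⟨hy1, hy2⟩ := mem_filter.1 hy
          push Not at hy2
          have h3 := CountA_Lc_le hXN hp (hleft y hy1)
          have h4 : (K : ℝ) < nrm (dir y p) := by exact_mod_cast hy2
          refine h3.trans ?_
          rw [div_le_iff₀ (by linarith)]
          calc (N : ℝ) = √(N : ℝ) * √(N : ℝ) := hss.symm
            _ ≤ √(N : ℝ) * nrm (dir y p) := by gcongr; linarith
      _ = ((E.filter (fun y => ¬ nrm (dir y p) ≤ K)).card : ℝ) * √(N : ℝ) := by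
          rw [sum_const, nsmul_eq_mul]
      _ ≤ N * √(N : ℝ) := by
          gcongr
          exact (card_filter_le _ _).trans hcard
  rw [hpow]
  nlinarith
 
end NTIL
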