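import Mathlib
import Pool.Agent.Lib.MP_2ffb02_co.Geom
import Pool.Agent.Lib.MP_2ffb02_co.CountA

set_option autoImplicit false

namespace NTIL

open Finset

/-- a point `y` off the line `p q` is determined by its directions to `p` and to `q` -/
theorem eq_of_dir_eq {y y' p q : Pt} (h1 : y.1 < p.1) (h2 : y'.1 < p.1) (h3 : y.1 < q.1)
    (h4 : y'.1 < q.1) (hp : dir y p = dir y' p) (hq : dir y q = dir y' q)
    (hd : det y p q ≠ 0) : y = y' := by
  have e1 := (det_eq_zero_iff h1 h2).2 hp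
  have e2 := (det_eq_zero_iff h3 h4).2 hq
  by_contra hne
  apply hd
  unfold det at e1 e2 ⊢
  by_cases hc : ((y'.1 : ℤ) - y.1) = 0
  · have hc2 : ((y'.2 : ℤ) - y.2) ≠ 0 := by
      intro hc2
      apply hne
      apply Prod.ext <;> omega
    rw [hc] at e1 e2
    apply mul_left_cancel₀ hc2
    linear_combination (-((q.2 : ℤ) - y.2)) * e1 + ((p.2 : ℤ) - y.2) * e2
  · apply mul_left_cancel₀ hc
    linear_combination (-((q.1 : ℤ) - y.1)) * e1 + ((p.1 : ℤ) - y.1) * e2

/-- no point to the left is on a vertical line -/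
theorem nl_eq_zero_of_col_eq {X N : ℕ} {p q : Pt} (h : p.1 = q.1) (hne : p ≠ q) :
    nl X N p q = 0 := by
  unfold nl
  rw [card_eq_zero, filter_eq_empty_iff]
  rintro y - ⟨h1, h2, h3⟩
  unfold det at h3
  rw [h] at h3
  have h4 : ((q.1 : ℤ) - y.1) * ((q.2 : ℤ) - p.2) = 0 := by linear_combination h3
  rcases mul_eq_zero.1 h4 with h5 | h5
  · omega
  · apply hne
    apply Prod.ext <;> omega

theorem nl_comm (X N : ℕ) (p q : Pt) : nl X N p q = nl X N q p := by
  unfold nl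
  congr 1
  apply filter_congr
  intro y _
  have : det y p q = - det y q p := by unfold det; ring
  rw [this, neg_eq_zero]
  tauto

theorem nl_mul_nrm_le {X N : ℕ} (hXN : X ≤ N) {p q : Pt} (hq : q ∈ Box X N) (h : p.1 < q.1) :
    nl X N p q * nrm (dir p q) ≤ N := by
  have h1 : nl X N p q ≤ (fib X N q (dir p q)).card := by
    unfold nl fib
    apply card_le_card
    intro y hy
    rw [mem_filter] at hy ⊢
    obtain ⟨hy0, hy1, hy2, hy3⟩ := hy
    exact ⟨hy0, hy2, (det_eq_zero_iff hy2 h).1 hy3⟩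
  exact (Nat.mul_le_mul_right _ h1).trans (card_fib_mul_nrm_le hXN hq _)

lemma CountB_Lc_le_N {X N : ℕ} (hXN : X ≤ N) {p y : Pt} (hp : p ∈ Box X N) (h : y.1 < p.1) :
    (Lc X N y p : ℝ) ≤ N := by
  have h1 := nrm_dir_pos h
  have h2 := card_fib_mul_nrm_le hXN hp (dir y p)
  have h3 : Lc X N y p ≤ N := (Nat.le_mul_of_pos_right _ h1).trans h2
  exact_mod_cast h3

lemma CountB_mem_dirs {K : ℕ} {y p : Pt} (h : y.1 < p.1) (hK : nrm (dir y p) ≤ K) :
    dir y p ∈ dirs K := by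
  have h1 := dir_fst_pos h
  have h4 : (dir y p).1.natAbs ≤ nrm (dir y p) := le_max_left _ _
  have h5 : (dir y p).2.natAbs ≤ nrm (dir y p) := le_max_right _ _
  rw [dirs, mem_product, mem_Icc, mem_Icc]
  refine ⟨⟨by omega, by omega⟩, by omega, by omega⟩

lemma CountB_card_dirs (K : ℕ) : (dirs K).card = K * (2 * K + 1) := by
  rw [dirs, card_product, Int.card_Icc, Int.card_Icc]
  congr 1 <;> omega

/-- (C2) Split according to `nrm (dir y p) > K` or `nrm (dir y q) > K` (use C1) or both `≤ K`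
(at most `(K(2K+1))²` such points by `eq_of_dir_eq`), with `K = ⌊N^{1/5}⌋`. -/
theorem sum_Lc_mul_Lc_le {X N : ℕ} (hXN : X ≤ N) (hN : 1 ≤ N) {p q : Pt} (hp : p ∈ Box X N)
    (hq : q ∈ Box X N) :
    (∑ y ∈ (Box X N).filter (fun y => y.1 < p.1 ∧ y.1 < q.1 ∧ det y p q ≠ 0),
      (Lc X N y p : ℝ) * Lc X N y q) ≤ 30 * (N : ℝ) ^ (14 / 5 : ℝ) * (1 + Real.log N) := by
  have hN1 : (1 : ℝ) ≤ N := by exact_mod_cast hN
  have hN0 : (0 : ℝ) < N := by linarith
  have hlog : 0 ≤ Real.log N := Real.log_nonneg hN1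
  set E := (Box X N).filter (fun y => y.1 < p.1 ∧ y.1 < q.1 ∧ det y p q ≠ 0) with hE
  set a := (N : ℝ) ^ (1 / 5 : ℝ) with ha
  have ha1 : 1 ≤ a := Real.one_le_rpow hN1 (by norm_num)
  have ha5 : a ^ 5 = N := by
    rw [ha, ← Real.rpow_natCast, ← Real.rpow_mul hN0.le]; norm_num
  have h14 : (N : ℝ) ^ (14 / 5 : ℝ) = a ^ 14 := by
    rw [ha, ← Real.rpow_natCast, ← Real.rpow_mul hN0.le]; norm_num
  set K := ⌊a⌋₊ with hK
  have hK1 : (K : ℝ) ≤ a := Nat.floor_le (by linarith)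
  have hK2 : a < K + 1 := Nat.lt_floor_add_one a
  have hEmem : ∀ y ∈ E, (y.1 ≤ X ∧ y.2 < N) ∧ y.1 < p.1 ∧ y.1 < q.1 ∧ det y p q ≠ 0 := by
    intro y hy
    rw [hE, mem_filter, CountA_mem_Box] at hy
    exact hy
  -- far directions
  have far : ∀ (r : Pt), r ∈ Box X N → ∀ y : Pt, y.1 < r.1 → ¬ nrm (dir y r) ≤ K →
      (Lc X N y r : ℝ) ≤ a ^ 4 := by
    intro r hr y hy hn
    push Not at hn
    refine (CountA_Lc_le hXN hr hy).trans ?_
    have h4 : (K : ℝ) + 1 ≤ nrm (dir y r) := by exact_mod_cast hn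
    rw [div_le_iff₀ (by linarith), ← ha5]
    calc a ^ 5 = a ^ 4 * a := by ring
      _ ≤ a ^ 4 * nrm (dir y r) := by gcongr; linarith
  have hS : ∀ (r : Pt), r ∈ Box X N → (∑ y ∈ left X N r, (Lc X N y r : ℝ)) ≤
      4 * a ^ 10 * (1 + Real.log N) := by
    intro r hr
    refine (sum_Lc_le hXN hN hr).trans_eq ?_
    rw [← ha5]; ring_nf
  rw [← sum_filter_add_sum_filter_not E (fun y => nrm (dir y p) ≤ K)]
  have hA : ∑ y ∈ E.filter (fun y => ¬ nrm (dir y p) ≤ K), (Lc X N y p : ℝ) * Lc X N y q ≤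
      a ^ 4 * (4 * a ^ 10 * (1 + Real.log N)) := by
    calc ∑ y ∈ E.filter (fun y => ¬ nrm (dir y p) ≤ K), (Lc X N y p : ℝ) * Lc X N y q
        ≤ ∑ y ∈ E.filter (fun y => ¬ nrm (dir y p) ≤ K), a ^ 4 * (Lc X N y q : ℝ) := by
          refine sum_le_sum fun y hy => ?_
          obtain ⟨hy1, hy2⟩ := mem_filter.1 hy
          obtain ⟨h0, h1, h2, h3⟩ := hEmem y hy1
          exact mul_le_mul_of_nonneg_right (far p hp y h1 hy2) (Nat.cast_nonneg _)
      _ = a ^ 4 * ∑ y ∈ E.filter (fun y => ¬ nrm (dir y p) ≤ K), (Lc X N y q : ℝ) := by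
          rw [mul_sum]
      _ ≤ a ^ 4 * ∑ y ∈ left X N q, (Lc X N y q : ℝ) := by
          refine mul_le_mul_of_nonneg_left ?_ (by positivity)
          refine sum_le_sum_of_subset_of_nonneg ?_ (fun _ _ _ => Nat.cast_nonneg _)
          intro y hy
          obtain ⟨h0, h1, h2, h3⟩ := hEmem y (mem_filter.1 hy).1
          exact CountA_mem_left.2 ⟨h0, h2⟩
      _ ≤ a ^ 4 * (4 * a ^ 10 * (1 + Real.log N)) :=
          mul_le_mul_of_nonneg_left (hS q hq) (by positivity)
  rw [← sum_filter_add_sum_filter_not (E.filter (fun y => nrm (dir y p) ≤ K))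
    (fun y => nrm (dir y q) ≤ K)]
  have hB : ∑ y ∈ (E.filter (fun y => nrm (dir y p) ≤ K)).filter (fun y => ¬ nrm (dir y q) ≤ K),
      (Lc X N y p : ℝ) * Lc X N y q ≤ a ^ 4 * (4 * a ^ 10 * (1 + Real.log N)) := by
    calc ∑ y ∈ (E.filter (fun y => nrm (dir y p) ≤ K)).filter (fun y => ¬ nrm (dir y q) ≤ K),
        (Lc X N y p : ℝ) * Lc X N y q
        ≤ ∑ y ∈ (E.filter (fun y => nrm (dir y p) ≤ K)).filter
            (fun y => ¬ nrm (dir y q) ≤ K), a ^ 4 * (Lc X N y p : ℝ) := by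
          refine sum_le_sum fun y hy => ?_
          obtain ⟨hy1, hy2⟩ := mem_filter.1 hy
          obtain ⟨h0, h1, h2, h3⟩ := hEmem y (mem_filter.1 hy1).1
          rw [mul_comm]
          exact mul_le_mul_of_nonneg_right (far q hq y h2 hy2) (Nat.cast_nonneg _)
      _ = a ^ 4 * ∑ y ∈ (E.filter (fun y => nrm (dir y p) ≤ K)).filter
            (fun y => ¬ nrm (dir y q) ≤ K), (Lc X N y p : ℝ) := by
          rw [mul_sum]
      _ ≤ a ^ 4 * ∑ y ∈ left X N p, (Lc X N y p : ℝ) := by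
          refine mul_le_mul_of_nonneg_left ?_ (by positivity)
          refine sum_le_sum_of_subset_of_nonneg ?_ (fun _ _ _ => Nat.cast_nonneg _)
          intro y hy
          obtain ⟨h0, h1, h2, h3⟩ := hEmem y (mem_filter.1 (mem_filter.1 hy).1).1
          exact CountA_mem_left.2 ⟨h0, h1⟩
      _ ≤ a ^ 4 * (4 * a ^ 10 * (1 + Real.log N)) :=
          mul_le_mul_of_nonneg_left (hS p hp) (by positivity)
  have hC : ∑ y ∈ (E.filter (fun y => nrm (dir y p) ≤ K)).filter (fun y => nrm (dir y q) ≤ K),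
      (Lc X N y p : ℝ) * Lc X N y q ≤ 9 * a ^ 14 := by
    set F := (E.filter (fun y => nrm (dir y p) ≤ K)).filter (fun y => nrm (dir y q) ≤ K) with hF
    have hcard : F.card ≤ (dirs K ×ˢ dirs K).card := by
      apply card_le_card_of_injOn (fun y => (dir y p, dir y q))
      · intro y hy
        obtain ⟨hy1, hy2⟩ := mem_filter.1 (mem_coe.1 hy)
        obtain ⟨hy3, hy4⟩ := mem_filter.1 hy1
        obtain ⟨h0, h1, h2, h3⟩ := hEmem y hy3
        exact mem_coe.2 (mem_product.2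
          ⟨CountB_mem_dirs h1 hy4, CountB_mem_dirs h2 hy2⟩)
      · intro y hy y' hy' hyy
        obtain ⟨h0, h1, h2, h3⟩ := hEmem y (mem_filter.1 (mem_filter.1 (mem_coe.1 hy)).1).1
        obtain ⟨h0', h1', h2', h3'⟩ := hEmem y' (mem_filter.1 (mem_filter.1 (mem_coe.1 hy')).1).1
        have hyy' : (dir y p, dir y q) = (dir y' p, dir y' q) := hyy
        rw [Prod.mk.injEq] at hyy'
        exact eq_of_dir_eq h1 h1' h2 h2' hyy'.1 hyy'.2 h3
    have hcard2 : (F.card : ℝ) ≤ 9 * a ^ 4 := by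
      have h1 : (F.card : ℝ) ≤ (K * (2 * K + 1) : ℝ) * (K * (2 * K + 1)) := by
        rw [card_product, CountB_card_dirs] at hcard
        exact_mod_cast hcard
      have h2 : (K * (2 * K + 1) : ℝ) ≤ 3 * a ^ 2 := by
        have hK0 : (0 : ℝ) ≤ K := Nat.cast_nonneg _
        nlinarith
      have hK0 : (0 : ℝ) ≤ K * (2 * K + 1) := by positivity
      calc (F.card : ℝ) ≤ (K * (2 * K + 1) : ℝ) * (K * (2 * K + 1)) := h1
        _ ≤ (3 * a ^ 2) * (3 * a ^ 2) := mul_le_mul h2 h2 hK0 (by positivity)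
        _ = 9 * a ^ 4 := by ring
    calc ∑ y ∈ F, (Lc X N y p : ℝ) * Lc X N y q ≤ ∑ y ∈ F, (N : ℝ) * N := by
          refine sum_le_sum fun y hy => ?_
          obtain ⟨h0, h1, h2, h3⟩ := hEmem y (mem_filter.1 (mem_filter.1 hy).1).1
          exact mul_le_mul (CountB_Lc_le_N hXN hp h1) (CountB_Lc_le_N hXN hq h2)
            (Nat.cast_nonneg _) hN0.le
      _ = (F.card : ℝ) * (N * N) := by rw [sum_const, nsmul_eq_mul]
      _ ≤ 9 * a ^ 4 * (N * N) := by gcongr
      _ = 9 * a ^ 14 := by rw [← ha5]; ring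
  rw [h14]
  have ha14 : 0 ≤ a ^ 14 := by positivity
  nlinarith [mul_nonneg ha14 hlog]

/-- (C3') the sum of `Lc y q` over the points of a line not through `q` -/
theorem sum_fib_Lc_le {X N : ℕ} (hXN : X ≤ N) (hN : 1 ≤ N) {p q : Pt} (hp : p ∈ Box X N)
    (hq : q ∈ Box X N) (δ : ℤ × ℤ) :
    (∑ y ∈ (Box X N).filter (fun y => y.1 < p.1 ∧ y.1 < q.1 ∧ det y p q ≠ 0 ∧ dir y p = δ),
      (Lc X N y q : ℝ)) ≤ 9 * (N : ℝ) ^ (3 / 2 : ℝ) := by
  apply sum_Lc_inj_le hXN hN hq
  · intro y hy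
    rw [mem_filter, CountA_mem_Box] at hy
    exact CountA_mem_left.2 ⟨hy.1, hy.2.2.1⟩
  · rcases ((Box X N).filter
      (fun y => y.1 < p.1 ∧ y.1 < q.1 ∧ det y p q ≠ 0 ∧ dir y p = δ)).eq_empty_or_nonempty with
      h | ⟨y, hy⟩
    · rw [h]; simp
    · rw [mem_filter, CountA_mem_Box] at hy
      obtain ⟨h0, h1, h2, h3, h4⟩ := hy
      have h5 := nrm_dir_pos h1
      rw [h4] at h5
      have h6 := card_fib_mul_nrm_le hXN hp δ
      have h7 : ((Box X N).filter
          (fun y => y.1 < p.1 ∧ y.1 < q.1 ∧ det y p q ≠ 0 ∧ dir y p = δ)).card ≤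
          (fib X N p δ).card := by
        apply card_le_card
        intro z hz
        rw [mem_filter] at hz
        rw [fib, mem_filter]
        exact ⟨hz.1, hz.2.1, hz.2.2.2.2⟩
      exact h7.trans ((Nat.le_mul_of_pos_right _ h5).trans h6)
  · intro y hy y' hy' hyy
    rw [mem_coe, mem_filter] at hy hy'
    obtain ⟨h0, h1, h2, h3, h4⟩ := hy
    obtain ⟨h0', h1', h2', h3', h4'⟩ := hy'
    exact eq_of_dir_eq h1 h1' h2 h2' (h4.trans h4'.symm) hyy h3

/-- (C3'') the sum of `Lc y q` over the points of one column -/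
theorem sum_col_Lc_le {X N : ℕ} (hXN : X ≤ N) (hN : 1 ≤ N) {q : Pt}
    (hq : q ∈ Box X N) {r : ℕ} (hr : r < q.1) :
    (∑ y ∈ (Box X N).filter (fun y => y.1 = r), (Lc X N y q : ℝ)) ≤
      9 * (N : ℝ) ^ (3 / 2 : ℝ) := by
  apply sum_Lc_inj_le hXN hN hq
  · intro y hy
    rw [mem_filter, CountA_mem_Box] at hy
    exact CountA_mem_left.2 ⟨hy.1, by rw [hy.2]; exact hr⟩
  · calc ((Box X N).filter (fun y => y.1 = r)).card ≤ (range N).card := by
          apply card_le_card_of_injOn (fun y => y.2)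
          · intro y hy
            have hy' := mem_filter.1 (mem_coe.1 hy)
            rw [CountA_mem_Box] at hy'
            exact mem_coe.2 (mem_range.2 hy'.1.2)
          · intro y hy y' hy' hyy
            have h1 := (mem_filter.1 (mem_coe.1 hy)).2
            have h2 := (mem_filter.1 (mem_coe.1 hy')).2
            exact Prod.ext (h1.trans h2.symm) hyy
      _ = N := card_range N
  · intro y hy y' hy' hyy
    have h1 := (mem_filter.1 (mem_coe.1 hy)).2
    have h2 := (mem_filter.1 (mem_coe.1 hy')).2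
    have hyy' : dir y q = dir y' q := hyy
    have e1 := dir_fst_mul (y := y) (p := q)
    have e2 := dir_snd_mul (y := y) (p := q)
    have e1' := dir_fst_mul (y := y') (p := q)
    have e2' := dir_snd_mul (y := y') (p := q)
    have hpos := dir_fst_pos (y := y) (p := q) (by rw [h1]; exact hr)
    rw [← hyy'] at e1' e2'
    have hc : y.1 = y'.1 := h1.trans h2.symm
    have h3 : (dir y q).1 * (dg y q : ℤ) = (dir y q).1 * (dg y' q : ℤ) := by
      rw [e1, e1', hc]
    have h4 : (dg y q : ℤ) = dg y' q := mul_left_cancel₀ hpos.ne' h3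
    rw [h4] at e2
    have h5 := e2.symm.trans e2'
    exact Prod.ext hc (by omega)

/-- pairs `(p, q)` with `p.1 < q.1` and many points on the line `p q` -/
lemma CountB_near {X N K : ℕ} (hXN : X ≤ N) (hN : 1 ≤ N) {v : Pt}
    (hv : v ∈ Box X N) {p : Pt} (hp : p ∈ left X N v) :
    (∑ q ∈ (left X N v).filter (fun q => dir q v ≠ dir p v ∧ p.1 < q.1 ∧ nrm (dir p q) ≤ K),
      (Lc X N q v : ℝ)) ≤ (K * (2 * K + 1) : ℝ) * (9 * (N : ℝ) ^ (3 / 2 : ℝ)) := by
  have hp' := CountA_mem_left.1 hp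
  have hmaps : ∀ q ∈ (left X N v).filter
      (fun q => dir q v ≠ dir p v ∧ p.1 < q.1 ∧ nrm (dir p q) ≤ K), dir p q ∈ dirs K := by
    intro q hq
    obtain ⟨h0, h1, h2, h3⟩ := mem_filter.1 hq
    exact CountB_mem_dirs h2 h3
  rw [← sum_fiberwise_of_maps_to hmaps]
  have h1 : ∀ δ ∈ dirs K, ∑ q ∈ ((left X N v).filter
      (fun q => dir q v ≠ dir p v ∧ p.1 < q.1 ∧ nrm (dir p q) ≤ K)).filter
        (fun q => dir p q = δ), (Lc X N q v : ℝ) ≤ 9 * (N : ℝ) ^ (3 / 2 : ℝ) := by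
    intro δ _
    have hmem : ∀ q ∈ ((left X N v).filter
      (fun q => dir q v ≠ dir p v ∧ p.1 < q.1 ∧ nrm (dir p q) ≤ K)).filter
        (fun q => dir p q = δ), ((q.1 ≤ X ∧ q.2 < N) ∧ q.1 < v.1) ∧ dir q v ≠ dir p v ∧
          p.1 < q.1 ∧ dir p q = δ := by
      intro q hq
      obtain ⟨h1, h2⟩ := mem_filter.1 hq
      obtain ⟨h3, h4, h5, h6⟩ := mem_filter.1 h1
      exact ⟨CountA_mem_left.1 h3, h4, h5, h2⟩
    apply sum_Lc_inj_le hXN hN hv
    · intro q hq
      exact (mem_filter.1 (mem_filter.1 hq).1).1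
    · refine le_trans (card_le_card_of_injOn (fun q => q.1) (t := Icc 1 X) ?_ ?_) ?_
      · intro q hq
        obtain ⟨⟨⟨h1, h2⟩, h3⟩, h4, h5, h6⟩ := hmem q (mem_coe.1 hq)
        have h7 : 1 ≤ q.1 := by omega
        exact mem_coe.2 (mem_Icc.2 ⟨h7, h1⟩)
      · intro q hq q' hq' hqq
        obtain ⟨-, -, h5, h6⟩ := hmem q (mem_coe.1 hq)
        obtain ⟨-, -, h5', h6'⟩ := hmem q' (mem_coe.1 hq')
        have hqq' : q.1 = q'.1 := hqq
        have e1 := dir_fst_mul (y := p) (p := q)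
        have e2 := dir_snd_mul (y := p) (p := q)
        have e1' := dir_fst_mul (y := p) (p := q')
        have e2' := dir_snd_mul (y := p) (p := q')
        have hpos := dir_fst_pos h5
        rw [h6] at e1 e2 hpos
        rw [h6'] at e1' e2'
        have h3 : δ.1 * (dg p q : ℤ) = δ.1 * (dg p q' : ℤ) := by
          rw [e1, e1', hqq']
        have h4 : (dg p q : ℤ) = dg p q' := mul_left_cancel₀ hpos.ne' h3
        rw [h4] at e2
        have h7 := e2.symm.trans e2'
        exact Prod.ext hqq' (by omega)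
      · simpa using hXN
    · intro q hq q' hq' hqq
      obtain ⟨⟨h1, h3⟩, h4, h5, h6⟩ := hmem q (mem_coe.1 hq)
      obtain ⟨⟨h1', h3'⟩, h4', h5', h6'⟩ := hmem q' (mem_coe.1 hq')
      have hqq' : dir q v = dir q' v := hqq
      by_contra hne
      apply h4
      rw [← det_eq_zero_iff h3 hp'.2]
      have d0 := (det_eq_zero_iff h3 h3').2 hqq'
      have e1 := dir_fst_mul (y := p) (p := q)
      have e2 := dir_snd_mul (y := p) (p := q)
      have e1' := dir_fst_mul (y := p) (p := q')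
      have e2' := dir_snd_mul (y := p) (p := q')
      have hpos := dir_fst_pos h5
      rw [h6] at e1 e2 hpos
      rw [h6'] at e1' e2'
      -- `q' - q = m δ`
      have f1 : (q'.1 : ℤ) - q.1 = δ.1 * ((dg p q' : ℤ) - dg p q) := by
        linear_combination e1 - e1'
      have f2 : (q'.2 : ℤ) - q.2 = δ.2 * ((dg p q' : ℤ) - dg p q) := by
        linear_combination e2 - e2'
      have hm : ((dg p q' : ℤ) - dg p q) ≠ 0 := by
        intro h0
        rw [h0, mul_zero] at f1 f2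
        apply hne
        apply Prod.ext <;> omega
      unfold det at d0 ⊢
      rw [f1, f2] at d0
      have d1 : δ.1 * ((v.2 : ℤ) - q.2) - δ.2 * ((v.1 : ℤ) - q.1) = 0 := by
        apply mul_left_cancel₀ hm
        linear_combination d0
      -- `p - q = - k δ`
      have g1 : (p.1 : ℤ) - q.1 = - (δ.1 * dg p q) := by linear_combination e1
      have g2 : (p.2 : ℤ) - q.2 = - (δ.2 * dg p q) := by linear_combination e2
      rw [g1, g2]
      linear_combination (-(dg p q : ℤ)) * d1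
  calc _ ≤ ∑ δ ∈ dirs K, 9 * (N : ℝ) ^ (3 / 2 : ℝ) := sum_le_sum h1
    _ = (K * (2 * K + 1) : ℝ) * (9 * (N : ℝ) ^ (3 / 2 : ℝ)) := by
      rw [sum_const, nsmul_eq_mul, CountB_card_dirs]
      push_cast
      ring

lemma CountB_nl_le {X N : ℕ} (hXN : X ≤ N) {p q : Pt} (hq : q ∈ Box X N) (h : p.1 < q.1) :
    (nl X N p q : ℝ) ≤ N := by
  have h1 := nrm_dir_pos h
  have h2 := nl_mul_nrm_le hXN hq h
  have h3 : nl X N p q ≤ N := (Nat.le_mul_of_pos_right _ h1).trans h2
  exact_mod_cast h3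

/-- (C5) Pairs with `nl ≤ N / K` (use C1 twice); otherwise, if `p.1 < q.1`, `q` is one of the
points of one of the `#dirs K ≤ 3 K²` lines through `p` with direction norm `≤ K`, this line does
not contain `v`, so C3 applies to it; the case `q.1 < p.1` is symmetric. -/
theorem sum_nl_le {X N K : ℕ} (hXN : X ≤ N) (hN : 1 ≤ N) (hK : 1 ≤ K) {v : Pt}
    (hv : v ∈ Box X N) :
    (∑ p ∈ left X N v, ∑ q ∈ (left X N v).filter (fun q => dir q v ≠ dir p v),
      (Lc X N p v : ℝ) * Lc X N q v * nl X N p q) ≤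
      (N / K) * (4 * (N : ℝ) ^ 2 * (1 + Real.log N)) ^ 2 +
        6 * (K : ℝ) ^ 2 * N * (4 * (N : ℝ) ^ 2 * (1 + Real.log N)) * (9 * (N : ℝ) ^ (3 / 2 : ℝ)) := by
  have hN1 : (1 : ℝ) ≤ N := by exact_mod_cast hN
  have hK1 : (1 : ℝ) ≤ K := by exact_mod_cast hK
  have hlog : 0 ≤ Real.log N := Real.log_nonneg hN1
  set S := 4 * (N : ℝ) ^ 2 * (1 + Real.log N) with hS
  set T := 9 * (N : ℝ) ^ (3 / 2 : ℝ) with hT
  have hS0 : 0 ≤ S := by positivity
  have hT0 : 0 ≤ T := by positivity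
  have hC1 : (∑ y ∈ left X N v, (Lc X N y v : ℝ)) ≤ S := sum_Lc_le hXN hN hv
  have hL0 : ∀ y z : Pt, (0 : ℝ) ≤ Lc X N y z := fun _ _ => Nat.cast_nonneg _
  set U := left X N v with hU
  -- the near pairs
  set nr : Pt → Pt → ℝ := fun p q =>
    if dir q v ≠ dir p v ∧ p.1 < q.1 ∧ nrm (dir p q) ≤ K then
      (Lc X N p v : ℝ) * Lc X N q v * N else 0 with hnr
  have hnr0 : ∀ p q, 0 ≤ nr p q := by
    intro p q
    simp only [hnr]
    split_ifs
    · exact mul_nonneg (mul_nonneg (hL0 _ _) (hL0 _ _)) (by linarith)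
    · exact le_rfl
  have hnear : ∑ p ∈ U, ∑ q ∈ U, nr p q ≤ 3 * (K : ℝ) ^ 2 * N * S * T := by
    calc ∑ p ∈ U, ∑ q ∈ U, nr p q
        = ∑ p ∈ U, (Lc X N p v : ℝ) * N *
            ∑ q ∈ U.filter (fun q => dir q v ≠ dir p v ∧ p.1 < q.1 ∧ nrm (dir p q) ≤ K),
              (Lc X N q v : ℝ) := by
          refine sum_congr rfl fun p _ => ?_
          rw [mul_sum, sum_filter]
          refine sum_congr rfl fun q _ => ?_
          simp only [hnr]
          split_ifs <;> ring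
      _ ≤ ∑ p ∈ U, (Lc X N p v : ℝ) * N * ((K * (2 * K + 1) : ℝ) * T) := by
          refine sum_le_sum fun p hp => ?_
          exact mul_le_mul_of_nonneg_left (CountB_near hXN hN hv hp)
            (mul_nonneg (hL0 _ _) (by linarith))
      _ = (∑ p ∈ U, (Lc X N p v : ℝ)) * (N * ((K * (2 * K + 1) : ℝ) * T)) := by
          rw [sum_mul]
          refine sum_congr rfl fun p _ => ?_
          ring
      _ ≤ S * (N * ((K * (2 * K + 1) : ℝ) * T)) := by
          gcongr
      _ ≤ S * (N * ((3 * (K : ℝ) ^ 2) * T)) := by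
          have h1 : (K * (2 * K + 1) : ℝ) ≤ 3 * (K : ℝ) ^ 2 := by nlinarith
          have h2 := mul_le_mul_of_nonneg_right h1 hT0
          exact mul_le_mul_of_nonneg_left (mul_le_mul_of_nonneg_left h2 (by linarith)) hS0
      _ = 3 * (K : ℝ) ^ 2 * N * S * T := by ring
  -- pointwise bound
  have hpt : ∀ p ∈ U, ∀ q ∈ U, dir q v ≠ dir p v →
      (Lc X N p v : ℝ) * Lc X N q v * nl X N p q ≤
        (Lc X N p v : ℝ) * Lc X N q v * (N / K) + nr p q + nr q p := by
    intro p hp q hq hne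
    have hp' := CountA_mem_left.1 hp
    have hq' := CountA_mem_left.1 hq
    have hLL : 0 ≤ (Lc X N p v : ℝ) * Lc X N q v := mul_nonneg (hL0 _ _) (hL0 _ _)
    have hNK : (0 : ℝ) ≤ N / K := by positivity
    by_cases hsmall : (nl X N p q : ℝ) ≤ N / K
    · have h1 := mul_le_mul_of_nonneg_left hsmall hLL
      linarith [hnr0 p q, hnr0 q p]
    · push Not at hsmall
      rcases lt_trichotomy p.1 q.1 with h | h | h
      · have hb : q ∈ Box X N := CountA_mem_Box.2 hq'.1
        have h2 := nl_mul_nrm_le hXN hb h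
        have h3 : nrm (dir p q) ≤ K := by
          by_contra hc
          push Not at hc
          have h4 : (nl X N p q : ℝ) * nrm (dir p q) ≤ N := by exact_mod_cast h2
          have h5 : (K : ℝ) < nrm (dir p q) := by exact_mod_cast hc
          rw [div_lt_iff₀ (by linarith)] at hsmall
          have h6 : (0 : ℝ) ≤ nl X N p q := Nat.cast_nonneg _
          nlinarith
        have h7 : nr p q = (Lc X N p v : ℝ) * Lc X N q v * N := by
          simp only [hnr]
          rw [if_pos ⟨hne, h, h3⟩]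
        have h8 := mul_le_mul_of_nonneg_left (CountB_nl_le hXN hb h) hLL
        have h9 := hnr0 q p
        have h10 := mul_nonneg hLL hNK
        linarith
      · exfalso
        have hpq : p ≠ q := by
          rintro rfl
          exact hne rfl
        rw [nl_eq_zero_of_col_eq h hpq, Nat.cast_zero] at hsmall
        linarith
      · have hb : p ∈ Box X N := CountA_mem_Box.2 hp'.1
        rw [nl_comm] at hsmall ⊢
        have h2 := nl_mul_nrm_le hXN hb h
        have h3 : nrm (dir q p) ≤ K := by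
          by_contra hc
          push Not at hc
          have h4 : (nl X N q p : ℝ) * nrm (dir q p) ≤ N := by exact_mod_cast h2
          have h5 : (K : ℝ) < nrm (dir q p) := by exact_mod_cast hc
          rw [div_lt_iff₀ (by linarith)] at hsmall
          have h6 : (0 : ℝ) ≤ nl X N q p := Nat.cast_nonneg _
          nlinarith
        have h7 : nr q p = (Lc X N q v : ℝ) * Lc X N p v * N := by
          simp only [hnr]
          rw [if_pos ⟨hne.symm, h, h3⟩]
        have h8 := mul_le_mul_of_nonneg_left (CountB_nl_le hXN hb h) hLL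
        have h9 := hnr0 p q
        have h10 := mul_nonneg hLL hNK
        linarith
  calc ∑ p ∈ U, ∑ q ∈ U.filter (fun q => dir q v ≠ dir p v),
      (Lc X N p v : ℝ) * Lc X N q v * nl X N p q
      ≤ ∑ p ∈ U, ∑ q ∈ U.filter (fun q => dir q v ≠ dir p v),
          ((Lc X N p v : ℝ) * Lc X N q v * (N / K) + nr p q + nr q p) := by
        refine sum_le_sum fun p hp => sum_le_sum fun q hq => ?_
        exact hpt p hp q (mem_filter.1 hq).1 (mem_filter.1 hq).2
    _ ≤ ∑ p ∈ U, ∑ q ∈ U, ((Lc X N p v : ℝ) * Lc X N q v * (N / K) + nr p q + nr q p) := by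
        refine sum_le_sum fun p _ => sum_le_sum_of_subset_of_nonneg (filter_subset _ _) ?_
        intro q _ _
        have h1 : 0 ≤ (Lc X N p v : ℝ) * Lc X N q v * (N / K) :=
          mul_nonneg (mul_nonneg (hL0 _ _) (hL0 _ _)) (by positivity)
        linarith [hnr0 p q, hnr0 q p]
    _ = (N / K) * ((∑ p ∈ U, (Lc X N p v : ℝ)) * ∑ q ∈ U, (Lc X N q v : ℝ)) +
          (∑ p ∈ U, ∑ q ∈ U, nr p q) + ∑ p ∈ U, ∑ q ∈ U, nr q p := by
        rw [sum_mul_sum, mul_sum, ← sum_add_distrib, ← sum_add_distrib]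
        refine sum_congr rfl fun p _ => ?_
        rw [mul_sum, ← sum_add_distrib, ← sum_add_distrib]
        refine sum_congr rfl fun q _ => ?_
        ring
    _ ≤ (N / K) * (S * S) + 3 * (K : ℝ) ^ 2 * N * S * T + 3 * (K : ℝ) ^ 2 * N * S * T := by
        have h1 : (∑ p ∈ U, (Lc X N p v : ℝ)) * ∑ q ∈ U, (Lc X N q v : ℝ) ≤ S * S :=
          mul_le_mul hC1 hC1 (sum_nonneg fun _ _ => hL0 _ _) hS0
        have h2 : ∑ p ∈ U, ∑ q ∈ U, nr q p ≤ 3 * (K : ℝ) ^ 2 * N * S * T := by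
          rw [sum_comm]; exact hnear
        have h3 := mul_le_mul_of_nonneg_left h1 (by positivity : (0 : ℝ) ≤ N / K)
        linarith
    _ = (N / K) * S ^ 2 + 6 * (K : ℝ) ^ 2 * N * S * T := by ring

end NTIL
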