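import Mathlib
import Pool.Agent.Lib.MP_2ffb02_co.Geom

/-!
# The random process (definitions)

A history is the list of the picks of the columns `1, …, n` (most recent first), `r = n + 1` is the
next column.
-/

set_option autoImplicit false

namespace NTIL

open Finset

noncomputable section

open scoped Classical in
/-- the huge constant `H` -/
irreducible_def H : ℕ := 10 ^ 9

lemma H_ge : 10 ^ 9 ≤ H := by rw [H_def]

lemma H_pos : 0 < H := lt_of_lt_of_le (by norm_num) H_ge

/-- `Y(x) = x^{1/100000}` -/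
def Yx (x : ℕ) : ℝ := (x : ℝ) ^ (1 / 100000 : ℝ)

/-- cutoff: for a point of column `x` only pairs whose first member has column `≥ lo x` are
considered -/
def lo (x : ℕ) : ℝ := x / Yx x ^ 10

/-- cap for the total compensator -/
def Th (x : ℕ) : ℝ := Real.log x / 100000

open scoped Classical in
/-- allowed heights in column `x` -/
def V (x : ℕ) : Finset ℕ := (range (H * x)).filter (fun k => DC (Yx x ^ 300) (x, k))

/-- histories -/
abbrev Hist := List (Option ℕ)

/-- the set of picks -/
def Z : Hist → Finset Pt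
  | [] => ∅
  | none :: h => Z h
  | some k :: h => insert (h.length + 1, k) (Z h)

/-- state: total compensator and (blind) frozen weights -/
structure St where
  S : Pt → ℝ
  W : Set Pt → Pt → ℝ

/-- total weight of column `r` -/
def tot (s : St) (r : ℕ) : ℝ := ∑ k ∈ V r, s.W ∅ (r, k)

open scoped Classical in
/-- probability to pick `(r,k)` -/
def pr (s : St) (r k : ℕ) : ℝ :=
  if tot s r ≤ 2 * H * r then s.W ∅ (r, k) / (2 * H * r) else 0

/-- `(r,k)` together with an earlier pick covers `v` -/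
def cv (Zs : Finset Pt) (r k : ℕ) (v : Pt) : Prop :=
  r < v.1 ∧ ∃ z ∈ Zs, z.1 < r ∧ lo v.1 ≤ z.1 ∧ det z (r, k) v = 0

open scoped Classical in
/-- probability that the next pick covers `v` (outside `B`) -/
def dd (s : St) (Zs : Finset Pt) (r : ℕ) (B : Set Pt) (v : Pt) : ℝ :=
  ∑ k ∈ V r, pr s r k * (if cv Zs r k v ∧ (r, k) ∉ B then 1 else 0)

open scoped Classical in
/-- the state after a history -/
def st : Hist → St
  | [] => ⟨fun _ => 0, fun _ _ => 1⟩
  | o :: h =>
    ⟨fun v => (st h).S v + dd (st h) (Z h) (h.length + 1) ∅ v,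
     fun B v =>
      if (st h).S v + dd (st h) (Z h) (h.length + 1) ∅ v ≤ Th v.1 then
        (st h).W B v * Real.exp (dd (st h) (Z h) (h.length + 1) B v) *
          (if ∃ k, o = some k ∧ cv (Z h) (h.length + 1) k v ∧ (h.length + 1, k) ∉ B then 0 else 1)
      else (st h).W B v⟩

/-- accumulated compensator -/
def S (h : Hist) (v : Pt) : ℝ := (st h).S v
/-- frozen weight, blind to `B` -/
def W (h : Hist) (B : Set Pt) (v : Pt) : ℝ := (st h).W B v
/-- pick probabilities for the next column -/
def pi (h : Hist) (k : ℕ) : ℝ := pr (st h) (h.length + 1) k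
/-- covering by the next pick -/
def cov (h : Hist) (k : ℕ) (v : Pt) : Prop := cv (Z h) (h.length + 1) k v
/-- covering probability by the next pick -/
def D (h : Hist) (B : Set Pt) (v : Pt) : ℝ := dd (st h) (Z h) (h.length + 1) B v
/-- total weight of the next column -/
def T (h : Hist) : ℝ := tot (st h) (h.length + 1)

open scoped Classical in
/-- covering indicator -/
def cvi (h : Hist) (B : Set Pt) (v : Pt) (k : ℕ) : ℝ :=
  if cov h k v ∧ (h.length + 1, k) ∉ B then 1 else 0

/-- one step expectation -/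
def stp (F : Hist → ℝ) (h : Hist) : ℝ :=
  (∑ k ∈ V (h.length + 1), pi h k * F (some k :: h)) +
    (1 - ∑ k ∈ V (h.length + 1), pi h k) * F (none :: h)

/-- expectation over the history of length `n` -/
def Ex : ℕ → (Hist → ℝ) → ℝ
  | 0, F => F []
  | n + 1, F => Ex n (stp F)

/-- valid histories -/
def Val : Hist → Prop
  | [] => True
  | o :: h => (∀ k, o = some k → k ∈ V (h.length + 1)) ∧ Val h

open scoped Classical in
/-- indicator of `Q ⊆ Z h` -/
def N1 (Q : Finset Pt) (h : Hist) : ℝ := if Q ⊆ Z h then 1 else 0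

/-! ### basic lemmas -/

lemma S_nil (v : Pt) : S [] v = 0 := rfl
lemma S_cons (o : Option ℕ) (h : Hist) (v : Pt) : S (o :: h) v = S h v + D h ∅ v := rfl
lemma W_nil (B : Set Pt) (v : Pt) : W [] B v = 1 := rfl
open scoped Classical in
lemma W_cons (o : Option ℕ) (h : Hist) (B : Set Pt) (v : Pt) :
    W (o :: h) B v = if S h v + D h ∅ v ≤ Th v.1 then
      W h B v * Real.exp (D h B v) *
        (if ∃ k, o = some k ∧ cov h k v ∧ (h.length + 1, k) ∉ B then 0 else 1)
      else W h B v := rfl

lemma D_eq (h : Hist) (B : Set Pt) (v : Pt) :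
    D h B v = ∑ k ∈ V (h.length + 1), pi h k * cvi h B v k := rfl

lemma T_eq (h : Hist) : T h = ∑ k ∈ V (h.length + 1), W h ∅ (h.length + 1, k) := rfl

lemma pi_eq (h : Hist) (k : ℕ) : pi h k =
    if T h ≤ 2 * H * (h.length + 1 : ℕ) then
      W h ∅ (h.length + 1, k) / (2 * H * (h.length + 1 : ℕ)) else 0 := by
  unfold pi pr T W
  split_ifs <;> rfl

lemma cvi_nonneg (h : Hist) (B : Set Pt) (v : Pt) (k : ℕ) : 0 ≤ cvi h B v k := by
  unfold cvi; split_ifs <;> norm_num

lemma cvi_le_one (h : Hist) (B : Set Pt) (v : Pt) (k : ℕ) : cvi h B v k ≤ 1 := by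
  unfold cvi; split_ifs <;> norm_num

lemma W_nonneg (h : Hist) (B : Set Pt) (v : Pt) : 0 ≤ W h B v := by
  classical
  induction h with
  | nil => rw [W_nil]; norm_num
  | cons o h ih =>
    rw [W_cons]
    split_ifs
    · simp
    · simpa using mul_nonneg ih (Real.exp_pos _).le
    · exact ih

lemma pi_nonneg (h : Hist) (k : ℕ) : 0 ≤ pi h k := by
  rw [pi_eq]
  split_ifs
  · exact div_nonneg (W_nonneg _ _ _) (by positivity)
  · exact le_refl _

lemma D_nonneg (h : Hist) (B : Set Pt) (v : Pt) : 0 ≤ D h B v := by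
  rw [D_eq]
  exact sum_nonneg fun k _ => mul_nonneg (pi_nonneg _ _) (cvi_nonneg _ _ _ _)

lemma S_nonneg (h : Hist) (v : Pt) : 0 ≤ S h v := by
  induction h with
  | nil => rw [S_nil]
  | cons o h ih => rw [S_cons]; have := D_nonneg h ∅ v; linarith

lemma sum_pi_le_one (h : Hist) : ∑ k ∈ V (h.length + 1), pi h k ≤ 1 := by
  by_cases hT : T h ≤ 2 * H * (h.length + 1 : ℕ)
  · have hpos : (0 : ℝ) < 2 * H * (h.length + 1 : ℕ) := by
      have := H_pos
      positivity
    calc ∑ k ∈ V (h.length + 1), pi h k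
        = ∑ k ∈ V (h.length + 1), W h ∅ (h.length + 1, k) / (2 * H * (h.length + 1 : ℕ)) := by
          apply sum_congr rfl
          intro k _
          rw [pi_eq, if_pos hT]
      _ = T h / (2 * H * (h.length + 1 : ℕ)) := by rw [T_eq, sum_div]
      _ ≤ 1 := by rw [div_le_one hpos]; exact hT
  · calc ∑ k ∈ V (h.length + 1), pi h k = ∑ k ∈ V (h.length + 1), (0 : ℝ) := by
          apply sum_congr rfl
          intro k _
          rw [pi_eq, if_neg hT]
      _ ≤ 1 := by simp

lemma cvi_anti {h : Hist} {B : Set Pt} {v : Pt} {k : ℕ} : cvi h B v k ≤ cvi h ∅ v k := by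
  unfold cvi
  split_ifs with h1 h2 h2
  · exact le_refl _
  · exact absurd ⟨h1.1, by simp⟩ h2
  · norm_num
  · exact le_refl _

lemma D_anti (h : Hist) (B : Set Pt) (v : Pt) : D h B v ≤ D h ∅ v := by
  rw [D_eq, D_eq]
  exact sum_le_sum fun k _ => mul_le_mul_of_nonneg_left cvi_anti (pi_nonneg _ _)

lemma D_le_one (h : Hist) (B : Set Pt) (v : Pt) : D h B v ≤ 1 := by
  rw [D_eq]
  calc ∑ k ∈ V (h.length + 1), pi h k * cvi h B v k
      ≤ ∑ k ∈ V (h.length + 1), pi h k * 1 :=
        sum_le_sum fun k _ => mul_le_mul_of_nonneg_left (cvi_le_one _ _ _ _) (pi_nonneg _ _)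
    _ ≤ 1 := by simpa using sum_pi_le_one h

lemma W_le_exp (h : Hist) (B : Set Pt) (v : Pt) (hv : 0 ≤ Th v.1) :
    W h B v ≤ Real.exp (min (S h v) (Th v.1)) := by
  classical
  induction h with
  | nil => rw [W_nil, S_nil, min_eq_left hv, Real.exp_zero]
  | cons o h ih =>
    have hD := D_nonneg h ∅ v
    rw [W_cons, S_cons]
    split_ifs with h1 h2
    · simp only [mul_zero]; exact (Real.exp_pos _).le
    · rw [mul_one, min_eq_left h1, Real.exp_add]
      have h3 : S h v ≤ Th v.1 := by linarith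
      rw [min_eq_left h3] at ih
      exact mul_le_mul ih (Real.exp_le_exp.mpr (D_anti h B v)) (Real.exp_pos _).le
        (Real.exp_pos _).le
    · refine ih.trans (Real.exp_le_exp.mpr ?_)
      exact min_le_min_right _ (by linarith)

end

end NTIL
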