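import Mathlib
import Pool.Agent.Lib.MP_2ffb02_co.Defs

/-!
# Expectation calculus
-/

set_option autoImplicit false

namespace NTIL

open Finset

noncomputable section

lemma stp_add (F G : Hist → ℝ) (h : Hist) : stp (fun h => F h + G h) h = stp F h + stp G h := by
  unfold stp
  simp only [mul_add, sum_add_distrib]
  ring

lemma stp_const_mul (c : ℝ) (F : Hist → ℝ) (h : Hist) : stp (fun h => c * F h) h = c * stp F h := by
  unfold stp
  rw [mul_add, mul_sum]
  congr 1
  · exact sum_congr rfl fun k _ => by ring
  · ring

lemma stp_const (c : ℝ) (h : Hist) : stp (fun _ => c) h = c := by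
  unfold stp
  rw [← sum_mul]; ring

lemma stp_mono {F G : Hist → ℝ} {h : Hist}
    (hs : ∀ k ∈ V (h.length + 1), F (some k :: h) ≤ G (some k :: h))
    (hn : F (none :: h) ≤ G (none :: h)) : stp F h ≤ stp G h := by
  unfold stp
  apply add_le_add
  · exact sum_le_sum fun k hk => mul_le_mul_of_nonneg_left (hs k hk) (pi_nonneg _ _)
  · exact mul_le_mul_of_nonneg_left hn (by linarith [sum_pi_le_one h])

lemma Ex_zero (F : Hist → ℝ) : Ex 0 F = F [] := rfl
lemma Ex_succ (n : ℕ) (F : Hist → ℝ) : Ex (n + 1) F = Ex n (stp F) := rfl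

/-- monotonicity (only valid histories of the right length matter) -/
lemma Ex_mono {n : ℕ} {F G : Hist → ℝ} (hFG : ∀ h : Hist, Val h → h.length = n → F h ≤ G h) :
    Ex n F ≤ Ex n G := by
  induction n generalizing F G with
  | zero => exact hFG [] trivial rfl
  | succ n ih =>
    rw [Ex_succ, Ex_succ]
    apply ih
    intro h hv hl
    apply stp_mono
    · intro k hk
      apply hFG
      · exact ⟨fun k' hk' => by rw [Option.some.injEq] at hk'; rw [← hk']; exact hk, hv⟩
      · simp [hl]
    · apply hFG
      · exact ⟨fun k' hk' => by simp at hk', hv⟩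
      · simp [hl]

lemma Ex_congr {n : ℕ} {F G : Hist → ℝ} (hFG : ∀ h : Hist, Val h → h.length = n → F h = G h) :
    Ex n F = Ex n G :=
  le_antisymm (Ex_mono fun h h1 h2 => (hFG h h1 h2).le) (Ex_mono fun h h1 h2 => (hFG h h1 h2).ge)

lemma Ex_add (n : ℕ) (F G : Hist → ℝ) : Ex n (fun h => F h + G h) = Ex n F + Ex n G := by
  induction n generalizing F G with
  | zero => rfl
  | succ n ih =>
    rw [Ex_succ, Ex_succ, Ex_succ, ← ih]
    congr 1
    funext h
    exact stp_add F G h

lemma Ex_const_mul (n : ℕ) (c : ℝ) (F : Hist → ℝ) : Ex n (fun h => c * F h) = c * Ex n F := by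
  induction n generalizing F with
  | zero => rfl
  | succ n ih =>
    rw [Ex_succ, Ex_succ, ← ih]
    congr 1
    funext h
    exact stp_const_mul c F h

lemma Ex_mul_const (n : ℕ) (c : ℝ) (F : Hist → ℝ) : Ex n (fun h => F h * c) = Ex n F * c := by
  rw [mul_comm, ← Ex_const_mul]
  congr 1
  funext h
  ring

lemma Ex_const (n : ℕ) (c : ℝ) : Ex n (fun _ => c) = c := by
  induction n with
  | zero => rfl
  | succ n ih =>
    rw [Ex_succ]
    conv_rhs => rw [← ih]
    congr 1
    funext h
    exact stp_const c h

lemma Ex_neg (n : ℕ) (F : Hist → ℝ) : Ex n (fun h => - F h) = - Ex n F := by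
  have := Ex_const_mul n (-1) F
  simpa using this

lemma Ex_sub (n : ℕ) (F G : Hist → ℝ) : Ex n (fun h => F h - G h) = Ex n F - Ex n G := by
  have := Ex_add n F (fun h => - G h)
  rw [Ex_neg] at this
  simpa [sub_eq_add_neg] using this

lemma Ex_sum {ι : Type*} (n : ℕ) (s : Finset ι) (F : ι → Hist → ℝ) :
    Ex n (fun h => ∑ i ∈ s, F i h) = ∑ i ∈ s, Ex n (F i) := by
  classical
  induction s using Finset.induction_on with
  | empty => simpa using Ex_const n 0
  | insert a s ha ih =>
    simp only [sum_insert ha]
    rw [Ex_add, ih]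

lemma Ex_nonneg {n : ℕ} {F : Hist → ℝ} (hF : ∀ h : Hist, Val h → h.length = n → 0 ≤ F h) :
    0 ≤ Ex n F := by
  have := Ex_mono (F := fun _ => 0) (G := F) hF
  rwa [Ex_const] at this

/-- telescoping upper bound -/
lemma Ex_le_telescope {F err : Hist → ℝ} (n : ℕ)
    (hstep : ∀ h : Hist, Val h → h.length < n → stp F h ≤ F h + err h) :
    Ex n F ≤ F [] + ∑ m ∈ range n, Ex m err := by
  induction n with
  | zero => simp [Ex_zero]
  | succ n ih =>
    rw [Ex_succ, sum_range_succ]
    have h1 : Ex n (stp F) ≤ Ex n (fun h => F h + err h) :=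
      Ex_mono fun h hv hl => hstep h hv (by omega)
    rw [Ex_add] at h1
    have h2 := ih (fun h hv hl => hstep h hv (by omega))
    linarith

/-- telescoping lower bound -/
lemma Ex_ge_telescope {F err : Hist → ℝ} (n : ℕ)
    (hstep : ∀ h : Hist, Val h → h.length < n → F h - err h ≤ stp F h) :
    F [] - ∑ m ∈ range n, Ex m err ≤ Ex n F := by
  induction n with
  | zero => simp [Ex_zero]
  | succ n ih =>
    rw [Ex_succ, sum_range_succ]
    have h1 : Ex n (fun h => F h - err h) ≤ Ex n (stp F) :=
      Ex_mono fun h hv hl => hstep h hv (by omega)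
    rw [Ex_sub] at h1
    have h2 := ih (fun h hv hl => hstep h hv (by omega))
    linarith

/-! ### picks -/

lemma Z_nil : Z [] = ∅ := rfl
lemma Z_none (h : Hist) : Z (none :: h) = Z h := rfl
lemma Z_some (k : ℕ) (h : Hist) : Z (some k :: h) = insert (h.length + 1, k) (Z h) := rfl

lemma Z_col {h : Hist} {z : Pt} (hz : z ∈ Z h) : 1 ≤ z.1 ∧ z.1 ≤ h.length := by
  induction h with
  | nil => simp [Z_nil] at hz
  | cons o h ih =>
    cases o with
    | none =>
      rw [Z_none] at hz
      have := ih hz
      simp only [List.length_cons]; omega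
    | some k =>
      rw [Z_some, mem_insert] at hz
      rcases hz with hz | hz
      · subst hz; simp
      · have := ih hz
        simp only [List.length_cons]; omega

lemma Z_subset_cons (o : Option ℕ) (h : Hist) : Z h ⊆ Z (o :: h) := by
  cases o with
  | none => rw [Z_none]
  | some k => rw [Z_some]; exact subset_insert _ _

lemma mem_Z_cons_of_le {o : Option ℕ} {h : Hist} {z : Pt} (hz : z.1 ≤ h.length) :
    z ∈ Z (o :: h) ↔ z ∈ Z h := by
  cases o with
  | none => rw [Z_none]
  | some k =>
    rw [Z_some, mem_insert]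
    constructor
    · rintro (h1 | h1)
      · subst h1; simp at hz
      · exact h1
    · exact fun h1 => Or.inr h1

lemma mem_Z_cons_new {o : Option ℕ} {h : Hist} {k : ℕ} :
    (h.length + 1, k) ∈ Z (o :: h) ↔ o = some k := by
  have hn : (h.length + 1, k) ∉ Z h := by
    intro hc
    have := (Z_col hc).2
    simp at this
  cases o with
  | none => rw [Z_none]; simp [hn]
  | some k' =>
    rw [Z_some, mem_insert]
    constructor
    · rintro (h1 | h1)
      · simp at h1; rw [h1]
      · exact absurd h1 hn
    · intro h1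
      left
      simp at h1; rw [h1]

/-- at most one pick per column -/
lemma Z_unique {h : Hist} {z z' : Pt} (hz : z ∈ Z h) (hz' : z' ∈ Z h) (hc : z.1 = z'.1) :
    z = z' := by
  induction h with
  | nil => simp [Z_nil] at hz
  | cons o h ih =>
    by_cases h1 : z.1 ≤ h.length
    · rw [mem_Z_cons_of_le h1] at hz
      rw [mem_Z_cons_of_le (by omega)] at hz'
      exact ih hz hz'
    · have h2 := (Z_col hz).2
      simp only [List.length_cons] at h2
      have h3 : z.1 = h.length + 1 := by omega
      have h4 : z'.1 = h.length + 1 := by omega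
      obtain ⟨a, b⟩ := z
      obtain ⟨a', b'⟩ := z'
      simp only at h3 h4
      subst h3 h4
      rw [mem_Z_cons_new] at hz hz'
      rw [hz] at hz'
      simp at hz'
      rw [hz']

lemma Z_mem_V {h : Hist} (hv : Val h) {z : Pt} (hz : z ∈ Z h) : z.2 ∈ V z.1 := by
  induction h with
  | nil => simp [Z_nil] at hz
  | cons o h ih =>
    by_cases h1 : z.1 ≤ h.length
    · rw [mem_Z_cons_of_le h1] at hz
      exact ih hv.2 hz
    · have h2 := (Z_col hz).2
      simp only [List.length_cons] at h2
      have h3 : z.1 = h.length + 1 := by omega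
      obtain ⟨a, b⟩ := z
      simp only at h3
      subst h3
      rw [mem_Z_cons_new] at hz
      exact hv.1 b hz

/-- upper bound for the pick probability in column `s` -/
def bb (s : ℕ) : ℝ := Yx s / (2 * H * s)

lemma Yx_one_le {x : ℕ} (hx : 1 ≤ x) : 1 ≤ Yx x := by
  unfold Yx
  apply Real.one_le_rpow _ (by norm_num)
  exact_mod_cast hx

lemma Yx_pos {x : ℕ} (hx : 1 ≤ x) : 0 < Yx x := lt_of_lt_of_le one_pos (Yx_one_le hx)

lemma Yx_mono {x y : ℕ} (h : x ≤ y) : Yx x ≤ Yx y := by
  unfold Yx
  apply Real.rpow_le_rpow (by positivity) _ (by norm_num)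
  exact_mod_cast h

lemma Th_nonneg (x : ℕ) : 0 ≤ Th x := by
  unfold Th
  apply div_nonneg _ (by norm_num)
  exact Real.log_natCast_nonneg x

lemma exp_Th {x : ℕ} (hx : 1 ≤ x) : Real.exp (Th x) = Yx x := by
  unfold Th Yx
  rw [Real.rpow_def_of_pos (by exact_mod_cast hx)]
  congr 1
  ring

lemma W_le_Yx {h : Hist} {B : Set Pt} {v : Pt} (hv : 1 ≤ v.1) : W h B v ≤ Yx v.1 := by
  rw [← exp_Th hv]
  exact (W_le_exp h B v (Th_nonneg _)).trans (Real.exp_le_exp.mpr (min_le_right _ _))

lemma pi_le_W (h : Hist) (k : ℕ) : pi h k ≤ W h ∅ (h.length + 1, k) / (2 * H * (h.length + 1 : ℕ)) := by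
  rw [pi_eq]
  split_ifs
  · exact le_refl _
  · exact div_nonneg (W_nonneg _ _ _) (by positivity)

lemma pi_le_bb (h : Hist) (k : ℕ) : pi h k ≤ bb (h.length + 1) := by
  refine (pi_le_W h k).trans ?_
  unfold bb
  gcongr
  exact W_le_Yx (by simp)

lemma bb_nonneg (s : ℕ) : 0 ≤ bb s := by
  unfold bb
  rcases Nat.eq_zero_or_pos s with h | h
  · subst h; simp
  · exact div_nonneg (Yx_pos h).le (by positivity)

lemma N1_nonneg (Q : Finset Pt) (h : Hist) : 0 ≤ N1 Q h := by
  unfold N1; split_ifs <;> norm_num

lemma N1_le_one (Q : Finset Pt) (h : Hist) : N1 Q h ≤ 1 := by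
  unfold N1; split_ifs <;> norm_num

lemma N1_mul (Q R : Finset Pt) (h : Hist) : N1 Q h * N1 R h = N1 (Q ∪ R) h := by
  classical
  unfold N1
  by_cases h1 : Q ⊆ Z h <;> by_cases h2 : R ⊆ Z h <;> simp [h1, h2, union_subset_iff]

/-- the probability that all points of `Q` are picked -/
lemma Ex_N1_le (Q : Finset Pt) (n : ℕ) : Ex n (N1 Q) ≤ ∏ q ∈ Q, bb q.1 := by
  classical
  induction n generalizing Q with
  | zero =>
    rw [Ex_zero]
    unfold N1
    split_ifs with h1
    · have : Q = ∅ := by
        rw [Z_nil] at h1
        exact subset_empty.mp h1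
      rw [this]; simp
    · exact prod_nonneg fun q _ => bb_nonneg _
  | succ n ih =>
    rw [Ex_succ]
    by_cases hq : ∃ q ∈ Q, q.1 = n + 1
    · obtain ⟨q, hqQ, hq1⟩ := hq
      have h1 : Ex n (stp (N1 Q)) ≤ Ex n (fun h => bb (n + 1) * N1 (Q.erase q) h) := by
        apply Ex_mono
        intro h hv hl
        unfold stp
        have hq' : q = (h.length + 1, q.2) := by
          rw [hl, ← hq1]
        have hnone : N1 Q (none :: h) = 0 := by
          unfold N1
          rw [if_neg]
          intro hc
          have := hc hqQ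
          rw [hq', mem_Z_cons_new] at this
          simp at this
        have hsome : ∀ k, N1 Q (some k :: h) ≤ if k = q.2 then N1 (Q.erase q) h else 0 := by
          intro k
          split_ifs with hk
          · unfold N1
            by_cases hs : Q ⊆ Z (some k :: h)
            · rw [if_pos hs, if_pos]
              intro x hx
              have hx1 := mem_of_mem_erase hx
              have hx2 := hs hx1
              rw [Z_some, mem_insert] at hx2
              rcases hx2 with hx2 | hx2
              · exfalso
                apply ne_of_mem_erase hx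
                rw [hx2, hk, ← hq']
              · exact hx2
            · rw [if_neg hs]
              split_ifs <;> norm_num
          · unfold N1
            rw [if_neg]
            intro hc
            have := hc hqQ
            rw [hq', mem_Z_cons_new] at this
            simp at this
            exact hk this
        rw [hnone, mul_zero, add_zero]
        calc ∑ k ∈ V (h.length + 1), pi h k * N1 Q (some k :: h)
            ≤ ∑ k ∈ V (h.length + 1), (if k = q.2 then bb (n + 1) * N1 (Q.erase q) h else 0) := by
              apply sum_le_sum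
              intro k _
              have := hsome k
              split_ifs at this ⊢ with hk
              · apply mul_le_mul _ this (N1_nonneg _ _) (bb_nonneg _)
                rw [← hl]; exact pi_le_bb h k
              · have h0 : N1 Q (some k :: h) = 0 := le_antisymm this (N1_nonneg _ _)
                rw [h0, mul_zero]
          _ ≤ bb (n + 1) * N1 (Q.erase q) h := by
              rw [sum_ite_eq']
              split_ifs
              · exact le_refl _
              · exact mul_nonneg (bb_nonneg _) (N1_nonneg _ _)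
      refine h1.trans ?_
      rw [Ex_const_mul, ← mul_prod_erase Q _ hqQ, hq1]
      exact mul_le_mul_of_nonneg_left (ih _) (bb_nonneg _)
    · push Not at hq
      refine le_trans ?_ (ih Q)
      apply Ex_mono
      intro h hv hl
      have hc : ∀ o : Option ℕ, N1 Q (o :: h) ≤ N1 Q h := by
        intro o
        unfold N1
        by_cases hs : Q ⊆ Z (o :: h)
        · rw [if_pos hs, if_pos]
          intro x hx
          have hx2 := hs hx
          have hx3 := (Z_col hx2).2
          have hx4 := hq x hx
          simp only [List.length_cons] at hx3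
          rw [mem_Z_cons_of_le (by omega)] at hx2
          exact hx2
        · rw [if_neg hs]
          split_ifs <;> norm_num
      calc stp (N1 Q) h ≤ stp (fun _ => N1 Q h) h := stp_mono (fun k _ => hc _) (hc _)
        _ = N1 Q h := stp_const _ _

lemma Ex_N1_le_pow {Q : Finset Pt} {β : ℝ} (n : ℕ) (hQ : ∀ q ∈ Q, bb q.1 ≤ β) :
    Ex n (N1 Q) ≤ β ^ Q.card := by
  refine (Ex_N1_le Q n).trans ?_
  rw [← prod_const]
  exact prod_le_prod (fun q _ => bb_nonneg _) hQ

end

end NTIL
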