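import Mathlib
import Pool.Agent.Lib.MP_2ffb02_co.Expect

/-!
# Expectations of products of sums of pick indicators
-/

set_option autoImplicit false

namespace NTIL

open Finset

noncomputable section

open scoped Classical in
lemma sum_wt_le (P A : Finset Pt) {β : ℝ} (hβ : 0 ≤ β) :
    ∑ a ∈ A, (if a ∈ P then (1 : ℝ) else β) ≤ β * A.card + (P ∩ A).card := by
  have h1 : ∀ a ∈ A, (if a ∈ P then (1 : ℝ) else β) ≤ β + (if a ∈ P then 1 else 0) := by
    intro a _
    split_ifs <;> linarith
  refine (sum_le_sum h1).trans ?_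
  rw [sum_add_distrib, sum_const, nsmul_eq_mul, mul_comm]
  apply add_le_add_right
  rw [← sum_filter, sum_const, nsmul_eq_mul, mul_one]
  have : A.filter (fun a => a ∈ P) = P ∩ A := by
    ext x; simp [and_comm]
  rw [this]

open scoped Classical in
lemma pow_card_insert (P : Finset Pt) (a : Pt) (β : ℝ) :
    β ^ (insert a P).card = β ^ P.card * (if a ∈ P then (1 : ℝ) else β) := by
  split_ifs with h
  · rw [insert_eq_of_mem h, mul_one]
  · rw [card_insert_of_notMem h, pow_succ]

open scoped Classical in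
/-- (P1) -/
lemma Ex_N1_sum_le {P A : Finset Pt} {β : ℝ} (hβ : 0 ≤ β) (n : ℕ)
    (hP : ∀ q ∈ P, bb q.1 ≤ β) (hA : ∀ q ∈ A, bb q.1 ≤ β) :
    Ex n (fun h => N1 P h * ∑ a ∈ A, N1 {a} h) ≤ β ^ P.card * (β * A.card + (P ∩ A).card) := by
  have h1 : Ex n (fun h => N1 P h * ∑ a ∈ A, N1 {a} h) = ∑ a ∈ A, Ex n (N1 (insert a P)) := by
    rw [← Ex_sum]
    congr 1
    funext h
    rw [mul_sum]
    apply sum_congr rfl
    intro a _
    rw [N1_mul, union_comm]
    rfl
  rw [h1]
  calc ∑ a ∈ A, Ex n (N1 (insert a P)) ≤ ∑ a ∈ A, β ^ (insert a P).card := by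
        apply sum_le_sum
        intro a ha
        apply Ex_N1_le_pow
        intro q hq
        rw [mem_insert] at hq
        rcases hq with hq | hq
        · subst hq; exact hA _ ha
        · exact hP _ hq
    _ = β ^ P.card * ∑ a ∈ A, (if a ∈ P then (1 : ℝ) else β) := by
        rw [mul_sum]
        exact sum_congr rfl fun a _ => pow_card_insert P a β
    _ ≤ _ := mul_le_mul_of_nonneg_left (sum_wt_le P A hβ) (pow_nonneg hβ _)

open scoped Classical in
/-- (P2) -/
lemma Ex_N1_sum_sum_le {P A B : Finset Pt} {β : ℝ} (hβ : 0 ≤ β) (n : ℕ)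
    (hP : ∀ q ∈ P, bb q.1 ≤ β) (hA : ∀ q ∈ A, bb q.1 ≤ β) (hB : ∀ q ∈ B, bb q.1 ≤ β) :
    Ex n (fun h => N1 P h * ((∑ a ∈ A, N1 {a} h) * ∑ b ∈ B, N1 {b} h)) ≤
      β ^ P.card * ((β * A.card + (P ∩ A).card) * (β * B.card + (P ∩ B).card) +
        (β * (A ∩ B).card + (P ∩ (A ∩ B)).card)) := by
  have h1 : Ex n (fun h => N1 P h * ((∑ a ∈ A, N1 {a} h) * ∑ b ∈ B, N1 {b} h)) =
      ∑ a ∈ A, ∑ b ∈ B, Ex n (N1 (insert a (insert b P))) := by
    simp only [← Ex_sum]
    congr 1
    funext h
    rw [sum_mul_sum, mul_sum]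
    apply sum_congr rfl
    intro a _
    rw [mul_sum]
    apply sum_congr rfl
    intro b _
    rw [N1_mul, N1_mul]
    congr 1
    ext x
    simp only [mem_union, mem_insert, mem_singleton]
    tauto
  rw [h1]
  have h2 : ∀ a ∈ A, ∀ b ∈ B, Ex n (N1 (insert a (insert b P))) ≤
      β ^ P.card * ((if a ∈ P then (1 : ℝ) else β) * (if b ∈ P then (1 : ℝ) else β) +
        (if a = b then (if a ∈ P then (1 : ℝ) else β) else 0)) := by
    intro a ha b hb
    have h3 : Ex n (N1 (insert a (insert b P))) ≤ β ^ (insert a (insert b P)).card := by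
      apply Ex_N1_le_pow
      intro q hq
      rw [mem_insert, mem_insert] at hq
      rcases hq with hq | hq | hq
      · subst hq; exact hA _ ha
      · subst hq; exact hB _ hb
      · exact hP _ hq
    refine h3.trans ?_
    rw [pow_card_insert, pow_card_insert, mul_assoc]
    apply mul_le_mul_of_nonneg_left _ (pow_nonneg hβ _)
    have hw : ∀ c : Pt, (0 : ℝ) ≤ (if c ∈ P then (1 : ℝ) else β) := by
      intro c; split_ifs <;> linarith
    by_cases hab : a = b
    · subst hab
      rw [if_pos (mem_insert_self _ _), if_pos rfl, mul_one]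
      have := mul_nonneg (hw a) (hw a)
      linarith
    · rw [if_neg hab, add_zero, mul_comm]
      have : (a ∈ insert b P) ↔ a ∈ P := by
        rw [mem_insert]; tauto
      rw [if_congr this rfl rfl]
  calc ∑ a ∈ A, ∑ b ∈ B, Ex n (N1 (insert a (insert b P)))
      ≤ ∑ a ∈ A, ∑ b ∈ B, β ^ P.card * ((if a ∈ P then (1 : ℝ) else β) *
        (if b ∈ P then (1 : ℝ) else β) + (if a = b then (if a ∈ P then (1 : ℝ) else β) else 0)) :=
        sum_le_sum fun a ha => sum_le_sum fun b hb => h2 a ha b hb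
    _ = β ^ P.card * ((∑ a ∈ A, (if a ∈ P then (1 : ℝ) else β)) *
          (∑ b ∈ B, (if b ∈ P then (1 : ℝ) else β)) +
          ∑ a ∈ A ∩ B, (if a ∈ P then (1 : ℝ) else β)) := by
        simp only [← mul_sum]
        congr 1
        simp only [sum_add_distrib]
        congr 1
        · rw [sum_mul_sum]
        · simp only [sum_ite_eq]
          rw [← sum_filter]
          rw [filter_mem_eq_inter]
    _ ≤ _ := by
        apply mul_le_mul_of_nonneg_left _ (pow_nonneg hβ _)
        apply add_le_add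
        · apply mul_le_mul (sum_wt_le P A hβ) (sum_wt_le P B hβ)
          · apply sum_nonneg
            intro c _
            split_ifs <;> linarith
          · positivity
        · exact sum_wt_le P (A ∩ B) hβ

end

end NTIL
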