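import Mathlib
import Pool.Agent.Lib.MP_2ffb02_co.Pairs
import Pool.Agent.Lib.MP_2ffb02_co.CountA
import Pool.Agent.Lib.MP_2ffb02_co.CountB

/-!
# Expectations of the error terms
-/

set_option autoImplicit false

namespace NTIL

open Finset

noncomputable section

/-- height of the box -/
def Nn (X : ℕ) : ℕ := H * X
def QQf (X : ℕ) (ρ : ℝ) : ℝ := Yx X * ρ
/-- uniform bound for the pick probabilities in columns `≥ X/ρ` -/
def be (X : ℕ) (ρ : ℝ) : ℝ := QQf X ρ / (2 * H * X)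
def c1 (X : ℕ) : ℝ := 4 * (Nn X : ℝ) ^ 2 * (1 + Real.log (Nn X))
def c2 (X : ℕ) : ℝ := 30 * (Nn X : ℝ) ^ (14 / 5 : ℝ) * (1 + Real.log (Nn X))
def c3 (X : ℕ) : ℝ := 9 * (Nn X : ℝ) ^ (3 / 2 : ℝ)

open scoped Classical in
/-- candidates `z` which together with `y` cover `p` -/
def cA (X : ℕ) (ρ : ℝ) (y p : Pt) : Finset Pt :=
  (fib X (Nn X) p (dir y p)).filter (fun z => z.1 < y.1 ∧ (X : ℝ) ≤ ρ * z.1)

/-- number of points of `P` on the line `y p` left of `p` -/
def cP (P : Finset Pt) (y p : Pt) : ℕ := (P.filter (fun z => z.1 < p.1 ∧ dir z p = dir y p)).card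

lemma X_le_Nn (X : ℕ) : X ≤ Nn X := by
  unfold Nn; exact Nat.le_mul_of_pos_left X H_pos

lemma one_le_Nn {X : ℕ} (hX : 1 ≤ X) : 1 ≤ Nn X := hX.trans (X_le_Nn X)

lemma QQf_one_le {X : ℕ} {ρ : ℝ} (hX : 1 ≤ X) (hρ : 1 ≤ ρ) : 1 ≤ QQf X ρ := by
  unfold QQf
  have := Yx_one_le hX
  nlinarith

lemma be_nonneg {X : ℕ} {ρ : ℝ} (hX : 1 ≤ X) (hρ : 1 ≤ ρ) : 0 ≤ be X ρ := by
  unfold be
  have := QQf_one_le hX hρ
  positivity

lemma be_mul {X : ℕ} {ρ : ℝ} (hX : 1 ≤ X) : 2 * H * X * be X ρ = QQf X ρ := by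
  unfold be
  have h1 : (0 : ℝ) < H := by exact_mod_cast H_pos
  have h2 : (0 : ℝ) < X := by exact_mod_cast hX
  field_simp

lemma bb_le_be {X : ℕ} {ρ : ℝ} (hX : 1 ≤ X) (hρ : 1 ≤ ρ) {s : ℕ} (hs : s ≤ X)
    (hs' : (X : ℝ) ≤ ρ * s) : bb s ≤ be X ρ := by
  have hX' : (1 : ℝ) ≤ X := by exact_mod_cast hX
  have hs0 : 0 < s := by
    rcases Nat.eq_zero_or_pos s with h | h
    · subst h; simp at hs'; linarith
    · exact h
  have hs0' : (0 : ℝ) < s := by exact_mod_cast hs0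
  have hH : (0 : ℝ) < H := by exact_mod_cast H_pos
  unfold bb be QQf
  rw [div_le_div_iff₀ (by positivity) (by positivity)]
  have h1 := Yx_mono hs
  have h2 := Yx_pos hs0
  have h3 := (Yx_pos hX).le
  calc Yx s * (2 * H * X) ≤ Yx X * (2 * H * (ρ * s)) := by gcongr
    _ = Yx X * ρ * (2 * H * s) := by ring

lemma mem_Box_of_mem_Z {h : Hist} (hv : Val h) {X : ℕ} (hl : h.length ≤ X) {z : Pt}
    (hz : z ∈ Z h) : z ∈ Box X (Nn X) := by
  classical
  have h1 := Z_col hz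
  have h2 := Z_mem_V hv hz
  unfold V at h2
  rw [mem_filter, mem_range] at h2
  unfold Box Nn
  rw [mem_product, mem_range, mem_range]
  constructor
  · omega
  · exact lt_of_lt_of_le h2.1 (Nat.mul_le_mul_left _ (by omega))

lemma V_lt {r k : ℕ} (hk : k ∈ V r) : k < H * r := by
  classical
  unfold V at hk
  rw [mem_filter, mem_range] at hk
  exact hk.1

lemma mem_cA {X : ℕ} {ρ : ℝ} {y p z : Pt} (hz : z ∈ cA X ρ y p) :
    z ∈ Box X (Nn X) ∧ z.1 < p.1 ∧ dir z p = dir y p ∧ z.1 < y.1 ∧ (X : ℝ) ≤ ρ * z.1 := by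
  classical
  unfold cA fib at hz
  rw [mem_filter, mem_filter] at hz
  tauto

lemma cA_bb {X : ℕ} {ρ : ℝ} (hX : 1 ≤ X) (hρ : 1 ≤ ρ) {y p z : Pt} (hz : z ∈ cA X ρ y p) :
    bb z.1 ≤ be X ρ := by
  have h := mem_cA hz
  apply bb_le_be hX hρ _ h.2.2.2.2
  have := h.1
  unfold Box at this
  rw [mem_product, mem_range] at this
  omega

/-- covering implies that some candidate is picked -/
lemma cvi_le_sum {X : ℕ} {ρ : ℝ} (hρ : 1 ≤ ρ) {h : Hist} (hv : Val h) (hl : h.length < X)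
    {p : Pt} (hlo : (X : ℝ) ≤ ρ * lo p.1) (B : Set Pt) (k : ℕ) :
    cvi h B p k ≤ ∑ z ∈ cA X ρ (h.length + 1, k) p, N1 {z} h := by
  classical
  unfold cvi
  split_ifs with hc
  · obtain ⟨⟨hr, z, hz, hz1, hz2, hz3⟩, _⟩ := hc
    have hzp : z.1 < p.1 := lt_trans hz1 hr
    have hd : dir z p = dir (h.length + 1, k) p := (det_eq_zero_iff hzp hr).mp hz3
    have hmem : z ∈ cA X ρ (h.length + 1, k) p := by
      unfold cA fib
      rw [mem_filter, mem_filter]
      refine ⟨⟨mem_Box_of_mem_Z hv hl.le hz, hzp, hd⟩, hz1, ?_⟩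
      calc (X : ℝ) ≤ ρ * lo p.1 := hlo
        _ ≤ ρ * z.1 := mul_le_mul_of_nonneg_left hz2 (by linarith)
    calc (1 : ℝ) = N1 {z} h := by
          unfold N1
          rw [if_pos (by simpa using hz)]
      _ ≤ _ := single_le_sum (f := fun z => N1 {z} h) (fun z _ => N1_nonneg _ _) hmem
  · exact sum_nonneg fun z _ => N1_nonneg _ _

/-- in case of covering the next column is not too far left -/
lemma col_ge_of_cvi {X : ℕ} {ρ : ℝ} (hρ : 1 ≤ ρ) {h : Hist}
    {p : Pt} (hlo : (X : ℝ) ≤ ρ * lo p.1) {B : Set Pt} {k : ℕ} (hc : cvi h B p k ≠ 0) :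
    h.length + 1 < p.1 ∧ (X : ℝ) ≤ ρ * (h.length + 1 : ℕ) ∧ (h.length + 1, k) ∉ B := by
  classical
  unfold cvi at hc
  rw [ne_eq, ite_eq_right_iff, Classical.not_imp] at hc
  obtain ⟨⟨⟨hr, z, hz, hz1, hz2, hz3⟩, hB⟩, _⟩ := hc
  refine ⟨hr, ?_, hB⟩
  calc (X : ℝ) ≤ ρ * lo p.1 := hlo
    _ ≤ ρ * z.1 := mul_le_mul_of_nonneg_left hz2 (by linarith)
    _ ≤ ρ * (h.length + 1 : ℕ) := by
        apply mul_le_mul_of_nonneg_left _ (by linarith)
        exact_mod_cast hz1.le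

/-- joint covering probability -/
def Jh (h : Hist) (B : Set Pt) (p : Pt) (B' : Set Pt) (q : Pt) : ℝ :=
  ∑ k ∈ V (h.length + 1), pi h k * (cvi h B p k * cvi h B' q k)

lemma Jh_nonneg (h : Hist) (B : Set Pt) (p : Pt) (B' : Set Pt) (q : Pt) : 0 ≤ Jh h B p B' q :=
  sum_nonneg fun _ _ => mul_nonneg (pi_nonneg _ _) (mul_nonneg (cvi_nonneg _ _ _ _)
    (cvi_nonneg _ _ _ _))

open scoped Classical in
/-- random variable bounding the joint covering by `y` -/
def gJ (X : ℕ) (ρ : ℝ) (B : Set Pt) (p : Pt) (B' : Set Pt) (q : Pt) (y : Pt) (h : Hist) : ℝ :=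
  if y.1 < p.1 ∧ y.1 < q.1 then
    (if det y p q ≠ 0 then (∑ z ∈ cA X ρ y p, N1 {z} h) * ∑ z ∈ cA X ρ y q, N1 {z} h
      else if y ∉ B ∧ y ∉ B' then ∑ z ∈ cA X ρ y p, N1 {z} h else 0)
  else 0

open scoped Classical in
/-- its expectation -/
def gE (X : ℕ) (ρ : ℝ) (P : Finset Pt) (B : Set Pt) (p : Pt) (B' : Set Pt) (q : Pt) (y : Pt) : ℝ :=
  if y.1 < p.1 ∧ y.1 < q.1 then
    (if det y p q ≠ 0 then (be X ρ * Lc X (Nn X) y p + cP P y p) *
        (be X ρ * Lc X (Nn X) y q + cP P y q)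
      else if y ∉ B ∧ y ∉ B' then be X ρ * Lc X (Nn X) y p + cP P y p else 0)
  else 0

lemma sumN1_nonneg (A : Finset Pt) (h : Hist) : 0 ≤ ∑ z ∈ A, N1 {z} h :=
  sum_nonneg fun _ _ => N1_nonneg _ _

lemma gJ_nonneg (X : ℕ) (ρ : ℝ) (B : Set Pt) (p : Pt) (B' : Set Pt) (q : Pt) (y : Pt) (h : Hist) :
    0 ≤ gJ X ρ B p B' q y h := by
  unfold gJ
  have h1 := sumN1_nonneg (cA X ρ y p) h
  have h2 := sumN1_nonneg (cA X ρ y q) h
  have := mul_nonneg h1 h2
  split_ifs <;> simp_all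

lemma Jh_le {X : ℕ} {ρ : ℝ} (hX : 1 ≤ X) (hρ : 1 ≤ ρ) {h : Hist} (hv : Val h)
    (hl : h.length < X) {p q : Pt} (hp : (X : ℝ) ≤ ρ * lo p.1) (hq : (X : ℝ) ≤ ρ * lo q.1)
    (B B' : Set Pt) :
    Jh h B p B' q ≤ be X ρ * ∑ k ∈ range (Nn X), gJ X ρ B p B' q (h.length + 1, k) h := by
  classical
  have hsub : V (h.length + 1) ⊆ range (Nn X) := by
    intro k hk
    rw [mem_range]
    exact lt_of_lt_of_le (V_lt hk) (Nat.mul_le_mul_left _ (by omega))
  have hβ := be_nonneg hX hρ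
  unfold Jh
  rw [mul_sum]
  refine le_trans (sum_le_sum fun k _ => ?_)
    (sum_le_sum_of_subset_of_nonneg hsub fun k _ _ => mul_nonneg hβ (gJ_nonneg _ _ _ _ _ _ _ _))
  by_cases h1 : cvi h B p k = 0
  · rw [h1]; simpa using mul_nonneg hβ (gJ_nonneg X ρ B p B' q (h.length + 1, k) h)
  by_cases h2 : cvi h B' q k = 0
  · rw [h2]; simpa using mul_nonneg hβ (gJ_nonneg X ρ B p B' q (h.length + 1, k) h)
  obtain ⟨h3, h4, h5⟩ := col_ge_of_cvi hρ hp h1
  obtain ⟨h6, h7, h8⟩ := col_ge_of_cvi hρ hq h2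
  have hpi : pi h k ≤ be X ρ := (pi_le_bb h k).trans (bb_le_be hX hρ (by omega) h4)
  have e1 : cvi h B p k ≤ 1 := cvi_le_one _ _ _ _
  have e2 : cvi h B' q k ≤ 1 := cvi_le_one _ _ _ _
  have e1' : cvi h B p k = 1 := by
    unfold cvi at h1 ⊢; split_ifs at h1 ⊢ with hh
    · rfl
    · exact absurd rfl h1
  have e2' : cvi h B' q k = 1 := by
    unfold cvi at h2 ⊢; split_ifs at h2 ⊢ with hh
    · rfl
    · exact absurd rfl h2
  have s1 := cvi_le_sum hρ hv hl hp B k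
  have s2 := cvi_le_sum hρ hv hl hq B' k
  rw [e1'] at s1
  rw [e2'] at s2
  rw [e1', e2', mul_one, mul_one]
  have hg : 1 ≤ gJ X ρ B p B' q (h.length + 1, k) h := by
    unfold gJ
    rw [if_pos ⟨h3, h6⟩]
    by_cases hd : det (h.length + 1, k) p q ≠ 0
    · rw [if_pos hd]
      nlinarith
    · rw [if_neg hd, if_pos ⟨h5, h8⟩]
      exact s1
  calc pi h k ≤ be X ρ := hpi
    _ = be X ρ * 1 := by ring
    _ ≤ _ := mul_le_mul_of_nonneg_left hg hβ

open scoped Classical in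
lemma card_cA_le (X : ℕ) (ρ : ℝ) (y p : Pt) : (cA X ρ y p).card ≤ Lc X (Nn X) y p := by
  unfold cA Lc
  exact card_filter_le _ _

open scoped Classical in
lemma card_inter_cA_le {X : ℕ} {ρ : ℝ} {P P0 : Finset Pt} (hP : P0 ⊆ P) (y p : Pt) :
    (P0 ∩ cA X ρ y p).card ≤ cP P y p := by
  unfold cP
  apply card_le_card
  intro z hz
  rw [mem_inter] at hz
  rw [mem_filter]
  have := mem_cA hz.2
  exact ⟨hP hz.1, this.2.1, this.2.2.1⟩

lemma Ex_N1_gJ_le {X : ℕ} {ρ : ℝ} (hX : 1 ≤ X) (hρ : 1 ≤ ρ) {P P0 : Finset Pt} (hPP : P0 ⊆ P)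
    (hP : ∀ z ∈ P, bb z.1 ≤ be X ρ) (B B' : Set Pt) (p q y : Pt) (n : ℕ) :
    Ex n (fun h => N1 P0 h * gJ X ρ B p B' q y h) ≤ be X ρ ^ P0.card * gE X ρ P B p B' q y := by
  classical
  have hβ := be_nonneg hX hρ
  have hP0 : ∀ z ∈ P0, bb z.1 ≤ be X ρ := fun z hz => hP z (hPP hz)
  unfold gJ gE
  by_cases h1 : y.1 < p.1 ∧ y.1 < q.1
  · simp only [if_pos h1]
    by_cases h2 : det y p q ≠ 0
    · simp only [if_pos h2]
      refine (Ex_N1_sum_sum_le hβ n hP0 (fun z hz => cA_bb hX hρ hz)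
        (fun z hz => cA_bb hX hρ hz)).trans ?_
      have hdis : cA X ρ y p ∩ cA X ρ y q = ∅ := by
        rw [eq_empty_iff_forall_notMem]
        intro z hz
        rw [mem_inter] at hz
        have a := mem_cA hz.1
        have b := mem_cA hz.2
        have := eq_of_dir_eq h1.1 a.2.1 h1.2 b.2.1 a.2.2.1.symm b.2.2.1.symm h2
        rw [this] at a
        exact lt_irrefl _ a.2.2.2.1
      rw [hdis]
      simp only [card_empty, inter_empty, Nat.cast_zero, mul_zero, add_zero]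
      apply mul_le_mul_of_nonneg_left _ (pow_nonneg hβ _)
      have a1 : ((cA X ρ y p).card : ℝ) ≤ Lc X (Nn X) y p := by exact_mod_cast card_cA_le X ρ y p
      have a2 : ((cA X ρ y q).card : ℝ) ≤ Lc X (Nn X) y q := by exact_mod_cast card_cA_le X ρ y q
      have a3 : ((P0 ∩ cA X ρ y p).card : ℝ) ≤ cP P y p := by
        exact_mod_cast card_inter_cA_le hPP y p
      have a4 : ((P0 ∩ cA X ρ y q).card : ℝ) ≤ cP P y q := by
        exact_mod_cast card_inter_cA_le hPP y q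
      gcongr
    · simp only [if_neg h2]
      by_cases h3 : y ∉ B ∧ y ∉ B'
      · simp only [if_pos h3]
        refine (Ex_N1_sum_le hβ n hP0 (fun z hz => cA_bb hX hρ hz)).trans ?_
        apply mul_le_mul_of_nonneg_left _ (pow_nonneg hβ _)
        have a1 : ((cA X ρ y p).card : ℝ) ≤ Lc X (Nn X) y p := by exact_mod_cast card_cA_le X ρ y p
        have a3 : ((P0 ∩ cA X ρ y p).card : ℝ) ≤ cP P y p := by
          exact_mod_cast card_inter_cA_le hPP y p
        gcongr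
      · simp only [if_neg h3, mul_zero]
        rw [Ex_const]
  · simp only [if_neg h1, mul_zero]
    rw [Ex_const]

lemma gE_nonneg {X : ℕ} {ρ : ℝ} (hX : 1 ≤ X) (hρ : 1 ≤ ρ) (P : Finset Pt) (B B' : Set Pt)
    (p q y : Pt) : 0 ≤ gE X ρ P B p B' q y := by
  have hβ := be_nonneg hX hρ
  unfold gE
  split_ifs <;> positivity

/-- the picked part of `P` at time `n` -/
def dec (P : Finset Pt) (n : ℕ) : Finset Pt := P.filter (fun z => z.1 ≤ n)

/-- normalization -/
def nf (X : ℕ) (P : Finset Pt) (n : ℕ) : ℝ := (2 * H * X : ℝ) ^ (dec P n).card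

lemma nf_mul_le {X : ℕ} {ρ : ℝ} (hX : 1 ≤ X) (hρ : 1 ≤ ρ) (P : Finset Pt) (n : ℕ) :
    nf X P n * be X ρ ^ (dec P n).card ≤ QQf X ρ ^ P.card := by
  unfold nf
  rw [← mul_pow, be_mul hX]
  apply pow_le_pow_right₀ (QQf_one_le hX hρ)
  exact card_filter_le _ _

lemma nf_nonneg (X : ℕ) (P : Finset Pt) (n : ℕ) : 0 ≤ nf X P n := by
  unfold nf; positivity

lemma Ex_J_le {X : ℕ} {ρ : ℝ} (hX : 1 ≤ X) (hρ : 1 ≤ ρ) {P : Finset Pt}
    (hP : ∀ z ∈ P, bb z.1 ≤ be X ρ) (B B' : Set Pt) {p q : Pt} (hp : (X : ℝ) ≤ ρ * lo p.1)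
    (hq : (X : ℝ) ≤ ρ * lo q.1) {n : ℕ} (hn : n < X) :
    Ex n (fun h => nf X P n * (N1 (dec P n) h * Jh h B p B' q)) ≤
      QQf X ρ ^ P.card * be X ρ * ∑ k ∈ range (Nn X), gE X ρ P B p B' q (n + 1, k) := by
  have hβ := be_nonneg hX hρ
  have h1 : Ex n (fun h => nf X P n * (N1 (dec P n) h * Jh h B p B' q)) ≤
      Ex n (fun h => nf X P n * (be X ρ *
        ∑ k ∈ range (Nn X), N1 (dec P n) h * gJ X ρ B p B' q (n + 1, k) h)) := by
    apply Ex_mono
    intro h hv hl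
    apply mul_le_mul_of_nonneg_left _ (nf_nonneg _ _ _)
    rw [← mul_sum, mul_left_comm]
    apply mul_le_mul_of_nonneg_left _ (N1_nonneg _ _)
    have := Jh_le hX hρ hv (by omega) hp hq B B'
    rw [hl] at this
    exact this
  refine h1.trans ?_
  rw [Ex_const_mul, Ex_const_mul, Ex_sum]
  have h2 : ∑ k ∈ range (Nn X), Ex n (fun h => N1 (dec P n) h * gJ X ρ B p B' q (n + 1, k) h) ≤
      ∑ k ∈ range (Nn X), be X ρ ^ (dec P n).card * gE X ρ P B p B' q (n + 1, k) :=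
    sum_le_sum fun k _ => Ex_N1_gJ_le hX hρ (filter_subset _ _) hP B B' p q (n + 1, k) n
  rw [← mul_sum] at h2
  have h3 : 0 ≤ ∑ k ∈ range (Nn X), gE X ρ P B p B' q (n + 1, k) :=
    sum_nonneg fun k _ => gE_nonneg hX hρ _ _ _ _ _ _
  calc nf X P n * (be X ρ * ∑ k ∈ range (Nn X),
        Ex n (fun h => N1 (dec P n) h * gJ X ρ B p B' q (n + 1, k) h))
      ≤ nf X P n * (be X ρ * (be X ρ ^ (dec P n).card *
          ∑ k ∈ range (Nn X), gE X ρ P B p B' q (n + 1, k))) := by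
        apply mul_le_mul_of_nonneg_left _ (nf_nonneg _ _ _)
        exact mul_le_mul_of_nonneg_left h2 hβ
    _ = (nf X P n * be X ρ ^ (dec P n).card) * (be X ρ *
          ∑ k ∈ range (Nn X), gE X ρ P B p B' q (n + 1, k)) := by ring
    _ ≤ QQf X ρ ^ P.card * (be X ρ *
          ∑ k ∈ range (Nn X), gE X ρ P B p B' q (n + 1, k)) :=
        mul_le_mul_of_nonneg_right (nf_mul_le hX hρ P n) (mul_nonneg hβ h3)
    _ = _ := by ring

/-- sum over columns -/
lemma sum_cols_le {X N m : ℕ} (hm : m ≤ X) (F : Pt → ℝ) (hF : ∀ y, 0 ≤ F y) :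
    ∑ n ∈ range m, ∑ k ∈ range N, F (n + 1, k) ≤ ∑ y ∈ Box X N, F y := by
  unfold Box
  rw [sum_product, sum_range_succ' (n := X)]
  have h1 : ∑ n ∈ range m, ∑ k ∈ range N, F (n + 1, k) ≤
      ∑ n ∈ range X, ∑ k ∈ range N, F (n + 1, k) :=
    sum_le_sum_of_subset_of_nonneg (range_subset_range.mpr hm)
      fun n _ _ => sum_nonneg fun k _ => hF _
  have h2 : 0 ≤ ∑ k ∈ range N, F (0, k) := sum_nonneg fun k _ => hF _
  linarith

open scoped Classical in
/-- number of degenerate positions -/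
def nB (X : ℕ) (B : Set Pt) (p : Pt) (B' : Set Pt) (q : Pt) : ℕ :=
  ((Box X (Nn X)).filter (fun y => y.1 < p.1 ∧ y.1 < q.1 ∧ det y p q = 0 ∧ y ∉ B ∧ y ∉ B')).card

lemma Lc_le {X : ℕ} {y p : Pt} (hp : p ∈ Box X (Nn X)) (hy : y.1 < p.1) :
    Lc X (Nn X) y p ≤ Nn X := by
  have h1 := card_fib_mul_nrm_le (X_le_Nn X) hp (dir y p)
  have h2 := nrm_dir_pos hy
  unfold Lc
  calc (fib X (Nn X) p (dir y p)).card ≤ (fib X (Nn X) p (dir y p)).card * nrm (dir y p) :=
        Nat.le_mul_of_pos_right _ h2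
    _ ≤ _ := h1

lemma cP_le (P : Finset Pt) (y p : Pt) : cP P y p ≤ P.card := card_filter_le _ _

lemma det_swap (y p q : Pt) : det y q p = - det y p q := by
  unfold det; ring

/-- sum over the box of the expected joint coverings -/
lemma sum_gE_le {X : ℕ} {ρ : ℝ} (hX : 1 ≤ X) (hρ : 1 ≤ ρ) (P : Finset Pt) (B B' : Set Pt)
    {p q : Pt} (hp : p ∈ Box X (Nn X)) (hq : q ∈ Box X (Nn X)) :
    ∑ y ∈ Box X (Nn X), gE X ρ P B p B' q y ≤
      be X ρ ^ 2 * c2 X + 2 * P.card * be X ρ * c3 X + (P.card : ℝ) ^ 2 +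
        nB X B p B' q * (be X ρ * Nn X + P.card) := by
  classical
  have hβ := be_nonneg hX hρ
  set β := be X ρ
  set N := Nn X with hN
  set E1 := (Box X N).filter (fun y => y.1 < p.1 ∧ y.1 < q.1 ∧ det y p q ≠ 0) with hE1
  set E2 := (Box X N).filter (fun y => y.1 < p.1 ∧ y.1 < q.1 ∧ det y p q = 0 ∧ y ∉ B ∧ y ∉ B')
    with hE2
  have hXN := X_le_Nn X
  have hN1 := one_le_Nn hX
  have hc3 : 0 ≤ c3 X := by unfold c3; positivity
  have key : ∀ y ∈ Box X N, gE X ρ P B p B' q y ≤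
      (if y ∈ E1 then (β * Lc X N y p + cP P y p) * (β * Lc X N y q + cP P y q) else 0) +
      (if y ∈ E2 then (β * N + P.card) else 0) := by
    intro y hy
    unfold gE
    by_cases h1 : y.1 < p.1 ∧ y.1 < q.1
    · rw [if_pos h1]
      by_cases h2 : det y p q ≠ 0
      · rw [if_pos h2]
        have : y ∈ E1 := by rw [hE1, mem_filter]; exact ⟨hy, h1.1, h1.2, h2⟩
        rw [if_pos this]
        have : 0 ≤ (if y ∈ E2 then (β * N + P.card : ℝ) else 0) := by
          split_ifs <;> positivity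
        linarith
      · rw [if_neg h2]
        have e1 : y ∉ E1 := by rw [hE1, mem_filter]; tauto
        rw [if_neg e1, zero_add]
        push Not at h2
        by_cases h3 : y ∉ B ∧ y ∉ B'
        · rw [if_pos h3]
          have : y ∈ E2 := by rw [hE2, mem_filter]; exact ⟨hy, h1.1, h1.2, h2, h3.1, h3.2⟩
          rw [if_pos this]
          have a : (Lc X N y p : ℝ) ≤ N := by exact_mod_cast Lc_le hp h1.1
          have b : (cP P y p : ℝ) ≤ P.card := by exact_mod_cast cP_le P y p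
          have := mul_le_mul_of_nonneg_left a hβ
          linarith
        · rw [if_neg h3]
          split_ifs <;> positivity
    · rw [if_neg h1]
      have : 0 ≤ (if y ∈ E2 then (β * N + P.card : ℝ) else 0) := by
        split_ifs <;> positivity
      have : 0 ≤ (if y ∈ E1 then (β * Lc X N y p + cP P y p) * (β * Lc X N y q + cP P y q)
          else 0) := by
        split_ifs <;> positivity
      linarith
  refine (sum_le_sum key).trans ?_
  rw [sum_add_distrib]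
  apply add_le_add
  · -- nondegenerate part
    rw [← sum_filter]
    have hfe : (Box X N).filter (fun y => y ∈ E1) = E1 := by
      rw [filter_mem_eq_inter, inter_eq_right]
      exact filter_subset _ _
    rw [hfe]
    have t1 : ∑ y ∈ E1, (Lc X N y p : ℝ) * Lc X N y q ≤ c2 X := sum_Lc_mul_Lc_le hXN hN1 hp hq
    have t2 : ∑ y ∈ E1, (cP P y p : ℝ) * Lc X N y q ≤ P.card * c3 X := by
      have e : ∀ y ∈ E1, (cP P y p : ℝ) * Lc X N y q =
          ∑ z ∈ P.filter (fun z => z.1 < p.1), if dir y p = dir z p then (Lc X N y q : ℝ) else 0 := by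
        intro y _
        rw [← sum_filter, sum_const, nsmul_eq_mul]
        congr 2
        unfold cP
        rw [filter_filter]
        congr 1
        ext z
        simp only [mem_filter]
        constructor
        · rintro ⟨a, b, c⟩; exact ⟨a, b, c.symm⟩
        · rintro ⟨a, b, c⟩; exact ⟨a, b, c.symm⟩
      rw [sum_congr rfl e, sum_comm]
      have e2 : ∀ z ∈ P.filter (fun z => z.1 < p.1),
          ∑ y ∈ E1, (if dir y p = dir z p then (Lc X N y q : ℝ) else 0) ≤ c3 X := by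
        intro z _
        rw [← sum_filter]
        have : E1.filter (fun y => dir y p = dir z p) =
            (Box X N).filter (fun y => y.1 < p.1 ∧ y.1 < q.1 ∧ det y p q ≠ 0 ∧ dir y p = dir z p) := by
          rw [hE1, filter_filter]
          congr 1
          ext y
          tauto
        rw [this]
        exact sum_fib_Lc_le hXN hN1 hp hq (dir z p)
      refine (sum_le_card_nsmul _ _ _ e2).trans ?_
      rw [nsmul_eq_mul]
      apply mul_le_mul_of_nonneg_right _ hc3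
      exact_mod_cast card_filter_le _ _
    have t3 : ∑ y ∈ E1, (cP P y q : ℝ) * Lc X N y p ≤ P.card * c3 X := by
      have e : ∀ y ∈ E1, (cP P y q : ℝ) * Lc X N y p =
          ∑ z ∈ P.filter (fun z => z.1 < q.1), if dir y q = dir z q then (Lc X N y p : ℝ) else 0 := by
        intro y _
        rw [← sum_filter, sum_const, nsmul_eq_mul]
        congr 2
        unfold cP
        rw [filter_filter]
        congr 1
        ext z
        simp only [mem_filter]
        constructor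
        · rintro ⟨a, b, c⟩; exact ⟨a, b, c.symm⟩
        · rintro ⟨a, b, c⟩; exact ⟨a, b, c.symm⟩
      rw [sum_congr rfl e, sum_comm]
      have e2 : ∀ z ∈ P.filter (fun z => z.1 < q.1),
          ∑ y ∈ E1, (if dir y q = dir z q then (Lc X N y p : ℝ) else 0) ≤ c3 X := by
        intro z _
        rw [← sum_filter]
        have : E1.filter (fun y => dir y q = dir z q) =
            (Box X N).filter (fun y => y.1 < q.1 ∧ y.1 < p.1 ∧ det y q p ≠ 0 ∧ dir y q = dir z q) := by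
          rw [hE1, filter_filter]
          congr 1
          ext y
          rw [det_swap y p q, neg_ne_zero]
          tauto
        rw [this]
        exact sum_fib_Lc_le hXN hN1 hq hp (dir z q)
      refine (sum_le_card_nsmul _ _ _ e2).trans ?_
      rw [nsmul_eq_mul]
      apply mul_le_mul_of_nonneg_right _ hc3
      exact_mod_cast card_filter_le _ _
    have t4 : ∑ y ∈ E1, (cP P y p : ℝ) * cP P y q ≤ (P.card : ℝ) ^ 2 := by
      have e : ∀ y ∈ E1, (cP P y p : ℝ) * cP P y q =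
          ∑ zz ∈ P ×ˢ P, if (zz.1.1 < p.1 ∧ dir zz.1 p = dir y p) ∧
            (zz.2.1 < q.1 ∧ dir zz.2 q = dir y q) then (1 : ℝ) else 0 := by
        intro y _
        unfold cP
        rw [← Nat.cast_mul, ← card_product, ← sum_filter, sum_const, nsmul_eq_mul, mul_one]
        congr 2
        ext zz
        simp only [mem_product, mem_filter]
        tauto
      rw [sum_congr rfl e, sum_comm]
      have e2 : ∀ zz ∈ P ×ˢ P, ∑ y ∈ E1, (if (zz.1.1 < p.1 ∧ dir zz.1 p = dir y p) ∧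
            (zz.2.1 < q.1 ∧ dir zz.2 q = dir y q) then (1 : ℝ) else 0) ≤ 1 := by
        intro zz _
        rw [← sum_filter, sum_const, nsmul_eq_mul, mul_one]
        have : (E1.filter (fun y => (zz.1.1 < p.1 ∧ dir zz.1 p = dir y p) ∧
            (zz.2.1 < q.1 ∧ dir zz.2 q = dir y q))).card ≤ 1 := by
          rw [card_le_one]
          intro a ha b hb
          rw [mem_filter, hE1, mem_filter] at ha hb
          exact eq_of_dir_eq ha.1.2.1 hb.1.2.1 ha.1.2.2.1 hb.1.2.2.1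
            (ha.2.1.2.symm.trans hb.2.1.2) (ha.2.2.2.symm.trans hb.2.2.2) ha.1.2.2.2
        exact_mod_cast this
      refine (sum_le_card_nsmul _ _ _ e2).trans ?_
      rw [card_product, nsmul_eq_mul, mul_one, sq]
      push_cast
      exact le_refl _
    calc ∑ y ∈ E1, (β * Lc X N y p + cP P y p) * (β * Lc X N y q + cP P y q)
        = β ^ 2 * ∑ y ∈ E1, (Lc X N y p : ℝ) * Lc X N y q +
          β * ∑ y ∈ E1, (cP P y p : ℝ) * Lc X N y q +
          β * ∑ y ∈ E1, (cP P y q : ℝ) * Lc X N y p +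
          ∑ y ∈ E1, (cP P y p : ℝ) * cP P y q := by
          simp only [mul_sum, ← sum_add_distrib]
          apply sum_congr rfl
          intro y _
          ring
      _ ≤ β ^ 2 * c2 X + β * (P.card * c3 X) + β * (P.card * c3 X) + (P.card : ℝ) ^ 2 := by
          gcongr
      _ = _ := by ring
  · -- degenerate part
    rw [← sum_filter]
    have hfe : (Box X N).filter (fun y => y ∈ E2) = E2 := by
      rw [filter_mem_eq_inter, inter_eq_right]
      exact filter_subset _ _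
    rw [hfe, sum_const, nsmul_eq_mul]
    exact le_refl _

/-- bound for the joint covering errors -/
def eJ (X : ℕ) (ρ : ℝ) (k : ℕ) (nb : ℕ) : ℝ :=
  QQf X ρ ^ k * be X ρ * (be X ρ ^ 2 * c2 X + 2 * k * be X ρ * c3 X + (k : ℝ) ^ 2 +
        nb * (be X ρ * Nn X + k))

theorem sum_Ex_J_le {X : ℕ} {ρ : ℝ} (hX : 1 ≤ X) (hρ : 1 ≤ ρ) {P : Finset Pt} (hP : ∀ z ∈ P, bb z.1 ≤ be X ρ)
    (B B' : Set Pt) {p q : Pt} (hp : p ∈ Box X (Nn X)) (hq : q ∈ Box X (Nn X))
    (hpl : (X : ℝ) ≤ ρ * lo p.1)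
    (hql : (X : ℝ) ≤ ρ * lo q.1) {m : ℕ} (hm : m ≤ X) :
    ∑ n ∈ range m, Ex n (fun h => nf X P n * (N1 (dec P n) h * Jh h B p B' q)) ≤
      eJ X ρ P.card (nB X B p B' q) := by
  have hβ := be_nonneg hX hρ
  have hQ := QQf_one_le hX hρ
  have h1 : ∑ n ∈ range m, Ex n (fun h => nf X P n * (N1 (dec P n) h * Jh h B p B' q)) ≤
      ∑ n ∈ range m, QQf X ρ ^ P.card * be X ρ *
        ∑ k ∈ range (Nn X), gE X ρ P B p B' q (n + 1, k) := by
    apply sum_le_sum
    intro n hn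
    rw [mem_range] at hn
    exact Ex_J_le hX hρ hP B B' hpl hql (by omega)
  refine h1.trans ?_
  rw [← mul_sum]
  unfold eJ
  apply mul_le_mul_of_nonneg_left _ (by positivity)
  refine (sum_cols_le hm (gE X ρ P B p B' q) (fun y => gE_nonneg hX hρ _ _ _ _ _ _)).trans ?_
  exact sum_gE_le hX hρ P B B' hp hq

end

end NTIL
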