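import Mathlib
import Pool.Agent.Lib.MP_2ffb02_co.Err

/-!
# Expectations of the covering probabilities `D` and of their squares
-/

set_option autoImplicit false

namespace NTIL

open Finset

noncomputable section

open scoped Classical in
/-- points left of column `r` whose line with `q` hits column `r` in the box -/
def Hit (X : ℕ) (ρ : ℝ) (r : ℕ) (q : Pt) : Finset Pt :=
  (Box X (Nn X)).filter (fun z => z.1 < r ∧ r < q.1 ∧ (X : ℝ) ≤ ρ * z.1 ∧
    ∃ k < Nn X, dir z q = dir (r, k) q)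

lemma mem_Hit {X : ℕ} {ρ : ℝ} {r : ℕ} {q z : Pt} :
    z ∈ Hit X ρ r q ↔ z ∈ Box X (Nn X) ∧ z.1 < r ∧ r < q.1 ∧ (X : ℝ) ≤ ρ * z.1 ∧
      ∃ k < Nn X, dir z q = dir (r, k) q := by
  classical
  unfold Hit
  rw [mem_filter]

lemma Hit_bb {X : ℕ} {ρ : ℝ} (hX : 1 ≤ X) (hρ : 1 ≤ ρ) {r : ℕ} {q z : Pt}
    (hz : z ∈ Hit X ρ r q) : bb z.1 ≤ be X ρ := by
  have h := mem_Hit.1 hz
  apply bb_le_be hX hρ _ h.2.2.2.1
  exact (CountA_mem_Box.1 h.1).1

/-- two points of one column seen in the same direction coincide -/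
lemma col_inj {r k k' : ℕ} {q : Pt} (hr : r < q.1) (h : dir (r, k) q = dir (r, k') q) :
    k = k' := by
  have h1 := (det_eq_zero_iff (z := (r, k)) (y := (r, k')) hr hr).2 h
  unfold det at h1
  simp only [sub_self, zero_mul, zero_sub, neg_eq_zero, mul_eq_zero] at h1
  rcases h1 with h1 | h1
  · omega
  · omega

/-- each picked `z` determines at most one `k`. Use `cvi_le_sum`, `col_ge_of_cvi`, `pi_le_bb`,
`bb_le_be` as in `Jh_le`. -/
theorem D_le_hit {X : ℕ} {ρ : ℝ} (hX : 1 ≤ X) (hρ : 1 ≤ ρ) {h : Hist} (hv : Val h)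
    (hl : h.length < X) {q : Pt} (hq : (X : ℝ) ≤ ρ * lo q.1) (B : Set Pt) :
    D h B q ≤ be X ρ * ∑ z ∈ Hit X ρ (h.length + 1) q, N1 {z} h := by
  classical
  have hβ := be_nonneg hX hρ
  rw [D_eq]
  -- the columns which are really hit
  set K := (V (h.length + 1)).filter (fun k => cvi h B q k ≠ 0) with hK
  have h1 : ∑ k ∈ V (h.length + 1), pi h k * cvi h B q k = ∑ k ∈ K, pi h k * cvi h B q k := by
    rw [hK, sum_filter_of_ne]
    intro k _ hk hk0
    apply hk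
    rw [hk0, mul_zero]
  rw [h1]
  have hKmem : ∀ k ∈ K, k < Nn X ∧ h.length + 1 < q.1 ∧
      (X : ℝ) ≤ ρ * (h.length + 1 : ℕ) := by
    intro k hk
    rw [hK, mem_filter] at hk
    obtain ⟨h3, h4, -⟩ := col_ge_of_cvi hρ hq hk.2
    exact ⟨lt_of_lt_of_le (V_lt hk.1) (Nat.mul_le_mul_left _ (by omega)), h3, h4⟩
  have h2 : ∀ k ∈ K, pi h k * cvi h B q k ≤
      be X ρ * ∑ z ∈ cA X ρ (h.length + 1, k) q, N1 {z} h := by
    intro k hk
    obtain ⟨-, -, h4⟩ := hKmem k hk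
    have hpi : pi h k ≤ be X ρ := (pi_le_bb h k).trans (bb_le_be hX hρ (by omega) h4)
    exact mul_le_mul hpi (cvi_le_sum hρ hv hl hq B k) (cvi_nonneg _ _ _ _) hβ
  refine (sum_le_sum h2).trans ?_
  rw [← mul_sum]
  apply mul_le_mul_of_nonneg_left _ hβ
  have h3 : ∀ k ∈ K, ∑ z ∈ cA X ρ (h.length + 1, k) q, N1 {z} h =
      ∑ z ∈ Hit X ρ (h.length + 1) q,
        if z ∈ cA X ρ (h.length + 1, k) q then N1 {z} h else 0 := by
    intro k hk
    rw [← sum_filter]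
    apply sum_congr _ fun _ _ => rfl
    rw [filter_mem_eq_inter]
    symm
    rw [inter_eq_right]
    intro z hz
    obtain ⟨c1, c2, c3, c4, c5⟩ := mem_cA hz
    obtain ⟨d1, d2, -⟩ := hKmem k hk
    exact mem_Hit.2 ⟨c1, c4, d2, c5, k, d1, c3⟩
  rw [sum_congr rfl h3, sum_comm]
  apply sum_le_sum
  intro z hz
  obtain ⟨-, -, hr, -, -⟩ := mem_Hit.1 hz
  rw [← sum_filter, sum_const, nsmul_eq_mul]
  have hc : (K.filter (fun k => z ∈ cA X ρ (h.length + 1, k) q)).card ≤ 1 := by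
    rw [card_le_one]
    intro k hk k' hk'
    rw [mem_filter] at hk hk'
    have e1 := (mem_cA hk.2).2.2.1
    have e2 := (mem_cA hk'.2).2.2.1
    exact col_inj hr (e1.symm.trans e2)
  have hc' : ((K.filter (fun k => z ∈ cA X ρ (h.length + 1, k) q)).card : ℝ) ≤ 1 := by
    exact_mod_cast hc
  calc _ ≤ 1 * N1 {z} h := mul_le_mul_of_nonneg_right hc' (N1_nonneg _ _)
    _ = N1 {z} h := one_mul _

lemma card_Hit_le_sum (X : ℕ) (ρ : ℝ) (r : ℕ) (q : Pt) :
    (Hit X ρ r q).card ≤ ∑ k ∈ range (Nn X), Lc X (Nn X) (r, k) q := by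
  classical
  have hsub : Hit X ρ r q ⊆ (range (Nn X)).biUnion (fun k => fib X (Nn X) q (dir (r, k) q)) := by
    intro z hz
    obtain ⟨c1, c2, c3, c4, k, hk, c5⟩ := mem_Hit.1 hz
    rw [mem_biUnion]
    refine ⟨k, mem_range.2 hk, ?_⟩
    rw [CountA_mem_fib]
    exact ⟨CountA_mem_Box.1 c1, lt_trans c2 c3, c5⟩
  exact (card_le_card hsub).trans card_biUnion_le

lemma Hit_eq_empty {X : ℕ} {ρ : ℝ} {r : ℕ} {q : Pt} (h : ¬ r < q.1) : Hit X ρ r q = ∅ := by
  rw [eq_empty_iff_forall_notMem]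
  intro z hz
  exact h (mem_Hit.1 hz).2.2.1

lemma filter_col {X N r : ℕ} (hr : r ≤ X) (F : Pt → ℝ) :
    ∑ y ∈ (Box X N).filter (fun y => y.1 = r), F y = ∑ k ∈ range N, F (r, k) := by
  classical
  have : (Box X N).filter (fun y => y.1 = r) = (range N).image (fun k => (r, k)) := by
    ext ⟨a, b⟩
    simp only [mem_filter, CountA_mem_Box, mem_image, mem_range, Prod.mk.injEq]
    constructor
    · rintro ⟨⟨h1, h2⟩, h3⟩
      exact ⟨b, h2, h3.symm, rfl⟩
    · rintro ⟨k, hk, rfl, rfl⟩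
      exact ⟨⟨hr, hk⟩, rfl⟩
  rw [this, sum_image]
  intro a _ b _ hab
  exact (Prod.mk.inj hab).2

/-- `∑_k |cA| ≤ ∑_k Lc (r,k) q ≤ c3` -/
theorem card_Hit_le {X : ℕ} {ρ : ℝ} (hX : 1 ≤ X) {q : Pt} (hq : q ∈ Box X (Nn X)) (r : ℕ) :
    ((Hit X ρ r q).card : ℝ) ≤ c3 X := by
  have hc3 : 0 ≤ c3 X := by unfold c3; positivity
  by_cases hr : r < q.1
  · have h1 : ((Hit X ρ r q).card : ℝ) ≤ ∑ k ∈ range (Nn X), (Lc X (Nn X) (r, k) q : ℝ) := by
      exact_mod_cast card_Hit_le_sum X ρ r q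
    have hrX : r ≤ X := hr.le.trans (CountA_mem_Box.1 hq).1
    have h2 := sum_col_Lc_le (X_le_Nn X) (one_le_Nn hX) hq hr
    rw [filter_col hrX (fun y => (Lc X (Nn X) y q : ℝ))] at h2
    exact h1.trans h2
  · rw [Hit_eq_empty hr]
    simpa using hc3

theorem sum_card_Hit_le {X : ℕ} {ρ : ℝ} (hX : 1 ≤ X) {q : Pt} (hq : q ∈ Box X (Nn X)) {m : ℕ} :
    ∑ n ∈ range m, ((Hit X ρ (n + 1) q).card : ℝ) ≤ c1 X := by
  classical
  have h0 : ∑ n ∈ range m, ((Hit X ρ (n + 1) q).card : ℝ) =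
      ∑ n ∈ (range m).filter (fun n => n + 1 < q.1), ((Hit X ρ (n + 1) q).card : ℝ) := by
    rw [sum_filter_of_ne]
    intro n _ hn
    by_contra hc
    rw [Hit_eq_empty hc] at hn
    simp at hn
  rw [h0]
  have h1 : ∀ n ∈ (range m).filter (fun n => n + 1 < q.1), ((Hit X ρ (n + 1) q).card : ℝ) ≤
      ∑ k ∈ range (Nn X), (Lc X (Nn X) (n + 1, k) q : ℝ) := by
    intro n _
    exact_mod_cast card_Hit_le_sum X ρ (n + 1) q
  refine (sum_le_sum h1).trans ?_
  refine le_trans ?_ (sum_Lc_le (X_le_Nn X) (one_le_Nn hX) hq)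
  rw [← sum_product' (f := fun n k => (Lc X (Nn X) (n + 1, k) q : ℝ))]
  have hinj : Set.InjOn (fun x : ℕ × ℕ => ((x.1 + 1, x.2) : Pt))
      (((range m).filter (fun n => n + 1 < q.1) ×ˢ range (Nn X) : Finset (ℕ × ℕ)) :
        Set (ℕ × ℕ)) := by
    rintro ⟨a, b⟩ _ ⟨c, d⟩ _ h
    simp only [Prod.mk.injEq] at h
    refine Prod.ext ?_ h.2
    have := h.1
    simp only at this ⊢
    omega
  have h2 := sum_image (f := fun y : Pt => (Lc X (Nn X) y q : ℝ)) hinj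
  rw [← h2]
  apply sum_le_sum_of_subset_of_nonneg
  · intro y hy
    rw [mem_image] at hy
    obtain ⟨⟨n, k⟩, hnk, rfl⟩ := hy
    simp only [mem_product, mem_filter, mem_range] at hnk
    rw [CountA_mem_left]
    have := (CountA_mem_Box.1 hq).1
    exact ⟨⟨by simp only; omega, hnk.2⟩, hnk.1.2⟩
  · intro y _ _
    positivity

def eD (X : ℕ) (ρ : ℝ) (k : ℕ) : ℝ := QQf X ρ ^ k * be X ρ * (be X ρ * c3 X + k)

def eD2 (X : ℕ) (ρ : ℝ) (k : ℕ) : ℝ :=
  QQf X ρ ^ k * be X ρ ^ 2 * (2 * be X ρ ^ 2 * c3 X * c1 X + be X ρ * c1 X + X * (2 * k ^ 2 + k))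

/-- expectation of `D` at a single time; `Ex_N1_sum_le` with `A = Hit` -/
theorem Ex_D_le {X : ℕ} {ρ : ℝ} (hX : 1 ≤ X) (hρ : 1 ≤ ρ) {P : Finset Pt}
    (hP : ∀ z ∈ P, bb z.1 ≤ be X ρ) (B : Set Pt) {q : Pt} (hq : q ∈ Box X (Nn X))
    (hql : (X : ℝ) ≤ ρ * lo q.1) {n : ℕ} (hn : n < X) :
    Ex n (fun h => nf X P n * (N1 (dec P n) h * D h B q)) ≤ eD X ρ P.card := by
  classical
  have hβ := be_nonneg hX hρ
  have h1 : Ex n (fun h => nf X P n * (N1 (dec P n) h * D h B q)) ≤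
      Ex n (fun h => nf X P n * (be X ρ * (N1 (dec P n) h *
        ∑ z ∈ Hit X ρ (n + 1) q, N1 {z} h))) := by
    apply Ex_mono
    intro h hv hl
    apply mul_le_mul_of_nonneg_left _ (nf_nonneg _ _ _)
    rw [mul_left_comm]
    apply mul_le_mul_of_nonneg_left _ (N1_nonneg _ _)
    have := D_le_hit hX hρ hv (by omega) hql B
    rw [hl] at this
    exact this
  refine h1.trans ?_
  rw [Ex_const_mul, Ex_const_mul]
  have h2 := Ex_N1_sum_le hβ n (P := dec P n) (A := Hit X ρ (n + 1) q)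
    (fun z hz => hP z (mem_of_mem_filter z hz)) (fun z hz => Hit_bb hX hρ hz)
  have h3 : ((dec P n ∩ Hit X ρ (n + 1) q).card : ℝ) ≤ P.card := by
    have : (dec P n ∩ Hit X ρ (n + 1) q).card ≤ P.card :=
      card_le_card (inter_subset_left.trans (filter_subset _ _))
    exact_mod_cast this
  have h4 := card_Hit_le (ρ := ρ) hX hq (n + 1)
  have hpos : 0 ≤ be X ρ * c3 X + (P.card : ℝ) := by
    have : 0 ≤ c3 X := by unfold c3; positivity
    positivity
  have h5 : be X ρ * (Hit X ρ (n + 1) q).card + ((dec P n ∩ Hit X ρ (n + 1) q).card : ℝ) ≤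
      be X ρ * c3 X + P.card := by
    have := mul_le_mul_of_nonneg_left h4 hβ
    linarith
  unfold eD
  calc nf X P n * (be X ρ * Ex n (fun h => N1 (dec P n) h *
        ∑ z ∈ Hit X ρ (n + 1) q, N1 {z} h))
      ≤ nf X P n * (be X ρ * (be X ρ ^ (dec P n).card * (be X ρ * c3 X + P.card))) := by
        apply mul_le_mul_of_nonneg_left _ (nf_nonneg _ _ _)
        apply mul_le_mul_of_nonneg_left _ hβ
        exact h2.trans (mul_le_mul_of_nonneg_left h5 (pow_nonneg hβ _))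
    _ = (nf X P n * be X ρ ^ (dec P n).card) * (be X ρ * (be X ρ * c3 X + P.card)) := by ring
    _ ≤ QQf X ρ ^ P.card * (be X ρ * (be X ρ * c3 X + P.card)) :=
        mul_le_mul_of_nonneg_right (nf_mul_le hX hρ P n) (mul_nonneg hβ hpos)
    _ = _ := by ring

/-- `D² ≤ be² (∑_{Hit} N1)²`, then `Ex_N1_sum_sum_le` with `A = B = Hit`:
`be^{k0} (f² + f)`, `f = be |Hit| + k`; `f² + f ≤ 2 be² |Hit|² + 2k² + be |Hit| + k`. -/
theorem sum_Ex_D_sq_le {X : ℕ} {ρ : ℝ} (hX : 1 ≤ X) (hρ : 1 ≤ ρ) {P : Finset Pt}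
    (hP : ∀ z ∈ P, bb z.1 ≤ be X ρ) (B : Set Pt) {q : Pt} (hq : q ∈ Box X (Nn X))
    (hql : (X : ℝ) ≤ ρ * lo q.1) {m : ℕ} (hm : m ≤ X) :
    ∑ n ∈ range m, Ex n (fun h => nf X P n * (N1 (dec P n) h * D h B q ^ 2)) ≤
      eD2 X ρ P.card := by
  classical
  have hβ := be_nonneg hX hρ
  have hQ := QQf_one_le hX hρ
  have hc1 : 0 ≤ c1 X := by
    unfold c1
    have : 0 ≤ Real.log (Nn X) := Real.log_natCast_nonneg _
    positivity
  have hc3 : 0 ≤ c3 X := by unfold c3; positivity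
  set β := be X ρ with hβdef
  set k : ℝ := (P.card : ℝ) with hk
  have hk0 : 0 ≤ k := by positivity
  set c : ℕ → ℝ := fun n => ((Hit X ρ (n + 1) q).card : ℝ) with hc
  have hcn : ∀ n, 0 ≤ c n := fun n => by simp only [hc]; positivity
  have hcc : ∀ n, c n ≤ c3 X := fun n => card_Hit_le (ρ := ρ) hX hq (n + 1)
  have key : ∀ n ∈ range m, Ex n (fun h => nf X P n * (N1 (dec P n) h * D h B q ^ 2)) ≤
      QQf X ρ ^ P.card * β ^ 2 * ((2 * β ^ 2 * c3 X) * c n + β * c n + (2 * k ^ 2 + k)) := by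
    intro n hn
    rw [mem_range] at hn
    have h1 : Ex n (fun h => nf X P n * (N1 (dec P n) h * D h B q ^ 2)) ≤
        Ex n (fun h => nf X P n * (β ^ 2 * (N1 (dec P n) h *
          ((∑ z ∈ Hit X ρ (n + 1) q, N1 {z} h) * ∑ z ∈ Hit X ρ (n + 1) q, N1 {z} h)))) := by
      apply Ex_mono
      intro h hv hl
      apply mul_le_mul_of_nonneg_left _ (nf_nonneg _ _ _)
      rw [mul_left_comm]
      apply mul_le_mul_of_nonneg_left _ (N1_nonneg _ _)
      have h2 := D_le_hit hX hρ hv (by omega) hql B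
      rw [hl] at h2
      have h3 := pow_le_pow_left₀ (D_nonneg h B q) h2 2
      refine h3.trans (le_of_eq ?_)
      ring
    refine h1.trans ?_
    rw [Ex_const_mul, Ex_const_mul]
    have h2 := Ex_N1_sum_sum_le hβ n (P := dec P n) (A := Hit X ρ (n + 1) q)
      (B := Hit X ρ (n + 1) q) (fun z hz => hP z (mem_of_mem_filter z hz))
      (fun z hz => Hit_bb hX hρ hz) (fun z hz => Hit_bb hX hρ hz)
    rw [inter_self] at h2
    have h3 : ((dec P n ∩ Hit X ρ (n + 1) q).card : ℝ) ≤ k := by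
      have : (dec P n ∩ Hit X ρ (n + 1) q).card ≤ P.card :=
        card_le_card (inter_subset_left.trans (filter_subset _ _))
      rw [hk]
      exact_mod_cast this
    set f : ℝ := β * (Hit X ρ (n + 1) q).card + ((dec P n ∩ Hit X ρ (n + 1) q).card : ℝ) with hf
    have hf0 : 0 ≤ f := by positivity
    have hf1 : f ≤ β * c n + k := by
      rw [hf]
      linarith
    have hg0 : 0 ≤ β * c n + k := add_nonneg (mul_nonneg hβ (hcn n)) hk0
    have h5 : f * f + f ≤ (2 * β ^ 2 * c3 X) * c n + β * c n + (2 * k ^ 2 + k) := by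
      have e1 : f * f ≤ (β * c n + k) * (β * c n + k) := mul_le_mul hf1 hf1 hf0 hg0
      have e2 : (β * c n + k) * (β * c n + k) ≤ 2 * (β * c n) ^ 2 + 2 * k ^ 2 := by
        nlinarith [sq_nonneg (β * c n - k)]
      have e3 : (β * c n) ^ 2 ≤ β ^ 2 * (c3 X * c n) := by
        have : c n * c n ≤ c3 X * c n := mul_le_mul_of_nonneg_right (hcc n) (hcn n)
        calc (β * c n) ^ 2 = β ^ 2 * (c n * c n) := by ring
          _ ≤ _ := mul_le_mul_of_nonneg_left this (sq_nonneg _)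
      linarith
    have hpos : 0 ≤ f * f + f := by positivity
    calc nf X P n * (β ^ 2 * Ex n (fun h => N1 (dec P n) h *
          ((∑ z ∈ Hit X ρ (n + 1) q, N1 {z} h) * ∑ z ∈ Hit X ρ (n + 1) q, N1 {z} h)))
        ≤ nf X P n * (β ^ 2 * (β ^ (dec P n).card * (f * f + f))) := by
          apply mul_le_mul_of_nonneg_left _ (nf_nonneg _ _ _)
          exact mul_le_mul_of_nonneg_left h2 (sq_nonneg _)
      _ = (nf X P n * β ^ (dec P n).card) * (β ^ 2 * (f * f + f)) := by ring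
      _ ≤ QQf X ρ ^ P.card * (β ^ 2 * (f * f + f)) :=
          mul_le_mul_of_nonneg_right (nf_mul_le hX hρ P n) (mul_nonneg (sq_nonneg _) hpos)
      _ ≤ QQf X ρ ^ P.card * (β ^ 2 *
          ((2 * β ^ 2 * c3 X) * c n + β * c n + (2 * k ^ 2 + k))) := by
          apply mul_le_mul_of_nonneg_left _ (by positivity)
          exact mul_le_mul_of_nonneg_left h5 (sq_nonneg _)
      _ = _ := by ring
  refine (sum_le_sum key).trans ?_
  rw [← mul_sum]
  unfold eD2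
  apply mul_le_mul_of_nonneg_left _ (by positivity)
  rw [sum_add_distrib, sum_add_distrib, ← mul_sum, ← mul_sum, sum_const, card_range,
    nsmul_eq_mul]
  have hs := sum_card_Hit_le (ρ := ρ) hX hq (m := m)
  have hs' : ∑ n ∈ range m, c n ≤ c1 X := hs
  have hm' : (m : ℝ) ≤ X := by exact_mod_cast hm
  have a1 : 2 * β ^ 2 * c3 X * ∑ n ∈ range m, c n ≤ 2 * β ^ 2 * c3 X * c1 X :=
    mul_le_mul_of_nonneg_left hs' (by positivity)
  have a2 : β * ∑ n ∈ range m, c n ≤ β * c1 X := mul_le_mul_of_nonneg_left hs' hβ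
  have a3 : (m : ℝ) * (2 * k ^ 2 + k) ≤ X * (2 * k ^ 2 + k) :=
    mul_le_mul_of_nonneg_right hm' (by positivity)
  linarith

end

end NTIL
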