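import Mathlib
import Pool.Agent.Lib.MP_2ffb02_co.Err2

/-!
# Upper bound for expectations of products of weights and pick indicators
-/

set_option autoImplicit false

namespace NTIL

open Finset

noncomputable section

open scoped Classical in
/-- a factor: weight type (`pk = False`) is the frozen weight; pick type (`pk = True`) is the weight
before the column of `p` and the normalized pick indicator afterwards -/
def chi (pk : Prop) (B : Set Pt) (p : Pt) (h : Hist) : ℝ :=
  if pk ∧ p.1 ≤ h.length then (if p ∈ Z h then 2 * H * p.1 else 0) else W h B p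

/-- total error of the product lemma -/
def eU {ι : Type*} (X : ℕ) (ρ : ℝ) (I : Finset ι) (B : ι → Set Pt) (p : ι → Pt) : ℝ :=
  Real.exp I.card * Yx X ^ I.card * ((I.card : ℝ) ^ 2 * (eD X ρ I.card + eJ X ρ I.card 0) +
    ∑ i ∈ I, ∑ j ∈ I, (if p i = p j then 0 else
      QQf X ρ ^ I.card * be X ρ * (be X ρ * Nn X + I.card) * nB X (B i) (p i) (B j) (p j)))

namespace PL

open scoped Classical in
/-- effective covering indicator -/
def xt (pk : Prop) (B : Set Pt) (p : Pt) (h : Hist) (k : ℕ) : ℝ :=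
  if ¬ (pk ∧ p.1 ≤ h.length) ∧ S h p + D h ∅ p ≤ Th p.1 then cvi h B p k else 0

open scoped Classical in
/-- effective compensator -/
def dt (pk : Prop) (B : Set Pt) (p : Pt) (h : Hist) : ℝ :=
  if ¬ (pk ∧ p.1 ≤ h.length) ∧ S h p + D h ∅ p ≤ Th p.1 then D h B p else 0

lemma chi_nonneg (pk : Prop) (B : Set Pt) (p : Pt) (h : Hist) : 0 ≤ chi pk B p h := by
  unfold chi
  split_ifs
  · positivity
  · exact le_rfl
  · exact W_nonneg _ _ _

lemma xt_nonneg (pk : Prop) (B : Set Pt) (p : Pt) (h : Hist) (k : ℕ) : 0 ≤ xt pk B p h k := by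
  unfold xt; split_ifs
  · exact cvi_nonneg _ _ _ _
  · exact le_rfl

lemma xt_le_cvi (pk : Prop) (B : Set Pt) (p : Pt) (h : Hist) (k : ℕ) :
    xt pk B p h k ≤ cvi h B p k := by
  unfold xt; split_ifs
  · exact le_rfl
  · exact cvi_nonneg _ _ _ _

lemma xt_le_one (pk : Prop) (B : Set Pt) (p : Pt) (h : Hist) (k : ℕ) : xt pk B p h k ≤ 1 :=
  (xt_le_cvi _ _ _ _ _).trans (cvi_le_one _ _ _ _)

lemma dt_nonneg (pk : Prop) (B : Set Pt) (p : Pt) (h : Hist) : 0 ≤ dt pk B p h := by
  unfold dt; split_ifs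
  · exact D_nonneg _ _ _
  · exact le_rfl

lemma dt_le_D (pk : Prop) (B : Set Pt) (p : Pt) (h : Hist) : dt pk B p h ≤ D h B p := by
  unfold dt; split_ifs
  · exact le_rfl
  · exact D_nonneg _ _ _

lemma dt_le_one (pk : Prop) (B : Set Pt) (p : Pt) (h : Hist) : dt pk B p h ≤ 1 :=
  (dt_le_D _ _ _ _).trans (D_le_one _ _ _)

lemma sum_pi_xt (pk : Prop) (B : Set Pt) (p : Pt) (h : Hist) :
    ∑ k ∈ V (h.length + 1), pi h k * xt pk B p h k = dt pk B p h := by
  unfold xt dt
  split_ifs with h1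
  · rfl
  · simp

lemma chi_dec {pk : Prop} {p : Pt} {h : Hist} (h1 : pk ∧ p.1 ≤ h.length) (B : Set Pt) :
    chi pk B p h = 2 * H * p.1 * N1 {p} h := by
  classical
  unfold chi N1
  rw [if_pos h1]
  by_cases h2 : p ∈ Z h
  · rw [if_pos h2, if_pos (by simpa using h2), mul_one]
  · rw [if_neg h2, if_neg (by simpa using h2), mul_zero]

lemma chi_und {pk : Prop} {p : Pt} {h : Hist} (h1 : ¬ (pk ∧ p.1 ≤ h.length)) (B : Set Pt) :
    chi pk B p h = W h B p := by
  unfold chi
  rw [if_neg h1]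

lemma xt_pos {pk : Prop} {p : Pt} {h : Hist}
    (h1 : ¬ (pk ∧ p.1 ≤ h.length) ∧ S h p + D h ∅ p ≤ Th p.1) (B : Set Pt) (k : ℕ) :
    xt pk B p h k = cvi h B p k := by
  unfold xt; rw [if_pos h1]

lemma xt_neg {pk : Prop} {p : Pt} {h : Hist}
    (h1 : ¬ (¬ (pk ∧ p.1 ≤ h.length) ∧ S h p + D h ∅ p ≤ Th p.1)) (B : Set Pt) (k : ℕ) :
    xt pk B p h k = 0 := by
  unfold xt; rw [if_neg h1]

lemma dt_pos {pk : Prop} {p : Pt} {h : Hist}
    (h1 : ¬ (pk ∧ p.1 ≤ h.length) ∧ S h p + D h ∅ p ≤ Th p.1) (B : Set Pt) :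
    dt pk B p h = D h B p := by
  unfold dt; rw [if_pos h1]

lemma dt_neg {pk : Prop} {p : Pt} {h : Hist}
    (h1 : ¬ (¬ (pk ∧ p.1 ≤ h.length) ∧ S h p + D h ∅ p ≤ Th p.1)) (B : Set Pt) :
    dt pk B p h = 0 := by
  unfold dt; rw [if_neg h1]

lemma N1_cons_of_le {o : Option ℕ} {h : Hist} {p : Pt} (hp : p.1 ≤ h.length) :
    N1 {p} (o :: h) = N1 {p} h := by
  classical
  unfold N1
  have : ({p} : Finset Pt) ⊆ Z (o :: h) ↔ ({p} : Finset Pt) ⊆ Z h := by
    simp only [singleton_subset_iff]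
    exact mem_Z_cons_of_le hp
  by_cases h2 : ({p} : Finset Pt) ⊆ Z h
  · rw [if_pos h2, if_pos (this.mpr h2)]
  · rw [if_neg h2, if_neg (fun hc => h2 (this.mp hc))]

lemma W_some_act {h : Hist} {B : Set Pt} {v : Pt} {k : ℕ} (h3 : S h v + D h ∅ v ≤ Th v.1) :
    W (some k :: h) B v = W h B v * Real.exp (D h B v) * (1 - cvi h B v k) := by
  classical
  rw [W_cons, if_pos h3]
  congr 1
  unfold cvi
  by_cases h4 : cov h k v ∧ (h.length + 1, k) ∉ B
  · rw [if_pos ⟨k, rfl, h4⟩, if_pos h4]; norm_num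
  · rw [if_neg h4, if_neg]
    · norm_num
    · rintro ⟨k', hk', h5⟩
      rw [Option.some.injEq] at hk'
      subst hk'
      exact h4 h5

lemma W_none_act {h : Hist} {B : Set Pt} {v : Pt} (h3 : S h v + D h ∅ v ≤ Th v.1) :
    W (none :: h) B v = W h B v * Real.exp (D h B v) := by
  classical
  rw [W_cons, if_pos h3, if_neg, mul_one]
  rintro ⟨k', hk', h5⟩
  simp at hk'

lemma W_inact {o : Option ℕ} {h : Hist} {B : Set Pt} {v : Pt}
    (h3 : ¬ S h v + D h ∅ v ≤ Th v.1) : W (o :: h) B v = W h B v := by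
  rw [W_cons, if_neg h3]

lemma und_cons {pk : Prop} {p : Pt} {h : Hist} {o : Option ℕ}
    (hn : ¬ (pk ∧ p.1 = h.length + 1)) (h1 : ¬ (pk ∧ p.1 ≤ h.length)) :
    ¬ (pk ∧ p.1 ≤ (o :: h).length) := by
  simp only [List.length_cons]
  rintro ⟨a, b⟩
  rcases Nat.lt_or_ge h.length p.1 with c | c
  · exact hn ⟨a, by omega⟩
  · exact h1 ⟨a, c⟩

lemma chi_step_some {pk : Prop} {B : Set Pt} {p : Pt} {h : Hist}
    (hn : ¬ (pk ∧ p.1 = h.length + 1)) (k : ℕ) :
    chi pk B p (some k :: h) = chi pk B p h * Real.exp (dt pk B p h) * (1 - xt pk B p h k) := by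
  by_cases h1 : pk ∧ p.1 ≤ h.length
  · have h2 : pk ∧ p.1 ≤ (some k :: h).length := ⟨h1.1, by simp only [List.length_cons]; omega⟩
    rw [chi_dec h2, chi_dec h1, xt_neg (by tauto), dt_neg (by tauto), N1_cons_of_le h1.2]
    simp
  · rw [chi_und (und_cons hn h1), chi_und h1]
    by_cases h3 : S h p + D h ∅ p ≤ Th p.1
    · rw [xt_pos ⟨h1, h3⟩, dt_pos ⟨h1, h3⟩, W_some_act h3]
    · rw [xt_neg (by tauto), dt_neg (by tauto), W_inact h3]
      simp

lemma chi_step_none {pk : Prop} {B : Set Pt} {p : Pt} {h : Hist}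
    (hn : ¬ (pk ∧ p.1 = h.length + 1)) :
    chi pk B p (none :: h) = chi pk B p h * Real.exp (dt pk B p h) := by
  by_cases h1 : pk ∧ p.1 ≤ h.length
  · have h2 : pk ∧ p.1 ≤ (none :: h : Hist).length :=
      ⟨h1.1, by simp only [List.length_cons]; omega⟩
    rw [chi_dec h2, chi_dec h1, dt_neg (by tauto), N1_cons_of_le h1.2]
    simp
  · rw [chi_und (und_cons hn h1), chi_und h1]
    by_cases h3 : S h p + D h ∅ p ≤ Th p.1
    · rw [dt_pos ⟨h1, h3⟩, W_none_act h3]
    · rw [dt_neg (by tauto), W_inact h3]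
      simp

lemma chi_pick {pk : Prop} {B : Set Pt} {p : Pt} {h : Hist}
    (hp : pk) (hc : p.1 = h.length + 1) (o : Option ℕ) :
    chi pk B p (o :: h) = if o = some p.2 then 2 * (H : ℝ) * p.1 else 0 := by
  classical
  unfold chi
  rw [if_pos ⟨hp, by simp only [List.length_cons]; omega⟩]
  have : p = (h.length + 1, p.2) := by rw [← hc]
  have h2 : p ∈ Z (o :: h) ↔ o = some p.2 := by
    rw [this]
    exact mem_Z_cons_new
  by_cases h3 : o = some p.2
  · rw [if_pos h3, if_pos (h2.mpr h3)]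
  · rw [if_neg h3, if_neg (fun hc => h3 (h2.mp hc))]

/-- Bonferroni -/
lemma prod_one_sub_le {ι : Type*} [DecidableEq ι] (I : Finset ι) (x : ι → ℝ)
    (h0 : ∀ i ∈ I, 0 ≤ x i) (h1 : ∀ i ∈ I, x i ≤ 1) :
    ∏ i ∈ I, (1 - x i) ≤ 1 - ∑ i ∈ I, x i +
      ∑ i ∈ I, ∑ j ∈ I, (if i = j then 0 else x i * x j) := by
  induction I using Finset.induction_on with
  | empty => simp
  | insert a s ha ih =>
    rw [prod_insert ha, sum_insert ha, sum_insert ha]
    have ih' := ih (fun i hi => h0 i (mem_insert_of_mem hi)) (fun i hi => h1 i (mem_insert_of_mem hi))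
    have ha0 := h0 a (mem_insert_self _ _)
    have ha1 := h1 a (mem_insert_self _ _)
    have hs0 : 0 ≤ ∑ i ∈ s, x i := sum_nonneg fun i hi => h0 i (mem_insert_of_mem hi)
    have hq0 : 0 ≤ ∑ i ∈ s, ∑ j ∈ s, (if i = j then 0 else x i * x j) := by
      apply sum_nonneg; intro i hi; apply sum_nonneg; intro j hj
      split_ifs
      · exact le_rfl
      · exact mul_nonneg (h0 i (mem_insert_of_mem hi)) (h0 j (mem_insert_of_mem hj))
    have e1 : ∑ j ∈ insert a s, (if a = j then 0 else x a * x j) = x a * ∑ j ∈ s, x j := by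
      rw [sum_insert ha, if_pos rfl, zero_add, mul_sum]
      apply sum_congr rfl
      intro j hj
      rw [if_neg]
      rintro rfl
      exact ha hj
    have e2 : ∑ i ∈ s, ∑ j ∈ insert a s, (if i = j then 0 else x i * x j) =
        x a * ∑ j ∈ s, x j + ∑ i ∈ s, ∑ j ∈ s, (if i = j then 0 else x i * x j) := by
      rw [mul_sum, ← sum_add_distrib]
      apply sum_congr rfl
      intro i hi
      rw [sum_insert ha, if_neg, mul_comm]
      rintro rfl
      exact ha hi
    rw [e1, e2]
    have h3 := mul_le_mul_of_nonneg_left ih' (sub_nonneg.mpr ha1)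
    nlinarith [mul_nonneg ha0 hs0, mul_nonneg ha0 hq0]

variable {ι : Type*}

open scoped Classical in
/-- joint coverings -/
def JJ (I : Finset ι) (pk : ι → Prop) (B : ι → Set Pt) (p : ι → Pt) (h : Hist) : ℝ :=
  ∑ i ∈ I, ∑ j ∈ I, (if i = j then 0 else Jh h (B i) (p i) (B j) (p j))

lemma JJ_nonneg (I : Finset ι) (pk : ι → Prop) (B : ι → Set Pt) (p : ι → Pt) (h : Hist) :
    0 ≤ JJ I pk B p h := by
  unfold JJ
  apply sum_nonneg; intro i _; apply sum_nonneg; intro j _
  split_ifs
  · exact le_rfl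
  · exact Jh_nonneg _ _ _ _ _

lemma step_A (I : Finset ι) (pk : ι → Prop) (B : ι → Set Pt) (p : ι → Pt) (h : Hist)
    (hA : ∀ i ∈ I, ¬ (pk i ∧ (p i).1 = h.length + 1)) :
    stp (fun h => ∏ i ∈ I, chi (pk i) (B i) (p i) h) h ≤
      (∏ i ∈ I, chi (pk i) (B i) (p i) h) * (1 + Real.exp I.card * JJ I pk B p h) := by
  classical
  set Φ := ∏ i ∈ I, chi (pk i) (B i) (p i) h with hΦ
  have hΦ0 : 0 ≤ Φ := prod_nonneg fun i _ => chi_nonneg _ _ _ _
  set t := ∑ i ∈ I, dt (pk i) (B i) (p i) h with ht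
  have ht0 : 0 ≤ t := sum_nonneg fun i _ => dt_nonneg _ _ _ _
  have ht1 : t ≤ I.card := by
    calc t ≤ ∑ i ∈ I, (1 : ℝ) := sum_le_sum fun i _ => dt_le_one _ _ _ _
      _ = I.card := by simp
  have es : ∀ k, ∏ i ∈ I, chi (pk i) (B i) (p i) (some k :: h) =
      Φ * Real.exp t * ∏ i ∈ I, (1 - xt (pk i) (B i) (p i) h k) := by
    intro k
    rw [prod_congr rfl (fun i hi => chi_step_some (hA i hi) k), prod_mul_distrib, prod_mul_distrib,
      ← Real.exp_sum]
  have en : ∏ i ∈ I, chi (pk i) (B i) (p i) (none :: h) = Φ * Real.exp t := by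
    rw [prod_congr rfl (fun i hi => chi_step_none (hA i hi)), prod_mul_distrib,
      ← Real.exp_sum]
  unfold stp
  simp only []
  rw [en]
  simp only [es]
  have hb : ∀ k, ∏ i ∈ I, (1 - xt (pk i) (B i) (p i) h k) ≤
      1 - ∑ i ∈ I, xt (pk i) (B i) (p i) h k + ∑ i ∈ I, ∑ j ∈ I, (if i = j then 0 else
        xt (pk i) (B i) (p i) h k * xt (pk j) (B j) (p j) h k) := fun k =>
    prod_one_sub_le I _ (fun i _ => xt_nonneg _ _ _ _ _) (fun i _ => xt_le_one _ _ _ _ _)
  have hb2 : ∀ k, ∑ i ∈ I, ∑ j ∈ I, (if i = j then 0 else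
        xt (pk i) (B i) (p i) h k * xt (pk j) (B j) (p j) h k) ≤
      ∑ i ∈ I, ∑ j ∈ I, (if i = j then 0 else cvi h (B i) (p i) k * cvi h (B j) (p j) k) := by
    intro k
    apply sum_le_sum; intro i _; apply sum_le_sum; intro j _
    split_ifs
    · exact le_rfl
    · exact mul_le_mul (xt_le_cvi _ _ _ _ _) (xt_le_cvi _ _ _ _ _) (xt_nonneg _ _ _ _ _)
        (cvi_nonneg _ _ _ _)
  have hsum : ∑ k ∈ V (h.length + 1), pi h k * ∏ i ∈ I, (1 - xt (pk i) (B i) (p i) h k) ≤
      ∑ k ∈ V (h.length + 1), pi h k - t + JJ I pk B p h := by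
    calc ∑ k ∈ V (h.length + 1), pi h k * ∏ i ∈ I, (1 - xt (pk i) (B i) (p i) h k)
        ≤ ∑ k ∈ V (h.length + 1), pi h k * (1 - ∑ i ∈ I, xt (pk i) (B i) (p i) h k +
          ∑ i ∈ I, ∑ j ∈ I, (if i = j then 0 else
            cvi h (B i) (p i) k * cvi h (B j) (p j) k)) := by
          apply sum_le_sum
          intro k _
          apply mul_le_mul_of_nonneg_left _ (pi_nonneg _ _)
          exact (hb k).trans (by linarith [hb2 k])
      _ = ∑ k ∈ V (h.length + 1), pi h k -
            ∑ i ∈ I, ∑ k ∈ V (h.length + 1), pi h k * xt (pk i) (B i) (p i) h k +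
            ∑ i ∈ I, ∑ j ∈ I, (if i = j then 0 else ∑ k ∈ V (h.length + 1),
              pi h k * (cvi h (B i) (p i) k * cvi h (B j) (p j) k)) := by
          simp only [mul_add, mul_sub, mul_one, sum_add_distrib, sum_sub_distrib, mul_sum]
          congr 1
          · congr 1
            exact sum_comm
          · rw [sum_comm]
            apply sum_congr rfl
            intro i _
            rw [sum_comm]
            apply sum_congr rfl
            intro j _
            split_ifs
            · simp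
            · rfl
      _ = _ := by
          rw [sum_congr rfl (fun i _ => sum_pi_xt (pk i) (B i) (p i) h)]
          rfl
  have hE : 0 ≤ Real.exp t := (Real.exp_pos _).le
  calc ∑ k ∈ V (h.length + 1), pi h k * (Φ * Real.exp t *
          ∏ i ∈ I, (1 - xt (pk i) (B i) (p i) h k)) +
        (1 - ∑ k ∈ V (h.length + 1), pi h k) * (Φ * Real.exp t)
      = Φ * (Real.exp t * (∑ k ∈ V (h.length + 1), pi h k *
          ∏ i ∈ I, (1 - xt (pk i) (B i) (p i) h k) +
          (1 - ∑ k ∈ V (h.length + 1), pi h k))) := by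
        have : ∑ k ∈ V (h.length + 1), pi h k * (Φ * Real.exp t *
            ∏ i ∈ I, (1 - xt (pk i) (B i) (p i) h k)) =
            Φ * Real.exp t * ∑ k ∈ V (h.length + 1), pi h k *
            ∏ i ∈ I, (1 - xt (pk i) (B i) (p i) h k) := by
          rw [mul_sum]
          exact sum_congr rfl fun k _ => by ring
        rw [this]; ring
    _ ≤ Φ * (1 + Real.exp I.card * JJ I pk B p h) := by
        apply mul_le_mul_of_nonneg_left _ hΦ0
        have hJ := JJ_nonneg I pk B p h
        have a1 : Real.exp t * (∑ k ∈ V (h.length + 1), pi h k *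
          ∏ i ∈ I, (1 - xt (pk i) (B i) (p i) h k) +
          (1 - ∑ k ∈ V (h.length + 1), pi h k)) ≤ Real.exp t * (1 - t + JJ I pk B p h) := by
          apply mul_le_mul_of_nonneg_left _ hE
          linarith
        have a2 : Real.exp t * (1 - t) ≤ 1 := by
          have := Real.add_one_le_exp (-t)
          have h2 : Real.exp t * Real.exp (-t) = 1 := by rw [← Real.exp_add]; simp
          calc Real.exp t * (1 - t) ≤ Real.exp t * Real.exp (-t) :=
                mul_le_mul_of_nonneg_left (by linarith) hE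
            _ = 1 := h2
        have a3 : Real.exp t * JJ I pk B p h ≤ Real.exp I.card * JJ I pk B p h :=
          mul_le_mul_of_nonneg_right (Real.exp_le_exp.mpr ht1) hJ
        linarith [mul_add (Real.exp t) (1 - t) (JJ I pk B p h)]

lemma step_B [DecidableEq ι] (I : Finset ι) (pk : ι → Prop) (B : ι → Set Pt) (p : ι → Pt) (h : Hist)
    (hpk : ∀ i ∈ I, pk i → B i = ∅) (hinj : ∀ i ∈ I, ∀ j ∈ I, i ≠ j → p i ≠ p j)
    {i0 : ι} (hi0 : i0 ∈ I) (hp0 : pk i0) (hc0 : (p i0).1 = h.length + 1) :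
    stp (fun h => ∏ i ∈ I, chi (pk i) (B i) (p i) h) h ≤
      (∏ i ∈ I, chi (pk i) (B i) (p i) h) *
        (1 + Real.exp I.card * ∑ i ∈ I, D h (B i) (p i)) := by
  classical
  have hchi0 : chi (pk i0) (B i0) (p i0) h = W h ∅ (p i0) := by
    unfold chi
    rw [if_neg, hpk i0 hi0 hp0]
    rintro ⟨_, h1⟩
    omega
  set R := ∏ i ∈ I.erase i0, chi (pk i) (B i) (p i) h with hR
  have hR0 : 0 ≤ R := prod_nonneg fun i _ => chi_nonneg _ _ _ _
  have hΦ : ∏ i ∈ I, chi (pk i) (B i) (p i) h = W h ∅ (p i0) * R := by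
    rw [← mul_prod_erase I _ hi0, hchi0]
  set t := ∑ i ∈ I.erase i0, dt (pk i) (B i) (p i) h with ht
  have ht0 : 0 ≤ t := sum_nonneg fun i _ => dt_nonneg _ _ _ _
  have ht1 : t ≤ I.card := by
    calc t ≤ ∑ i ∈ I.erase i0, (1 : ℝ) := sum_le_sum fun i _ => dt_le_one _ _ _ _
      _ = (I.erase i0).card := by simp
      _ ≤ I.card := by exact_mod_cast card_le_card (erase_subset _ _)
  have htD : t ≤ ∑ i ∈ I, D h (B i) (p i) := by
    calc t ≤ ∑ i ∈ I.erase i0, D h (B i) (p i) := sum_le_sum fun i _ => dt_le_D _ _ _ _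
      _ ≤ ∑ i ∈ I, D h (B i) (p i) :=
        sum_le_sum_of_subset_of_nonneg (erase_subset _ _) fun i _ _ => D_nonneg _ _ _
  have hrest : ∏ i ∈ I.erase i0, chi (pk i) (B i) (p i) (some (p i0).2 :: h) ≤
      R * Real.exp t := by
    rw [ht, Real.exp_sum, hR, ← prod_mul_distrib]
    apply prod_le_prod
    · intro i _; exact chi_nonneg _ _ _ _
    · intro i hi
      have hiI := mem_of_mem_erase hi
      have hne := ne_of_mem_erase hi
      by_cases hc : pk i ∧ (p i).1 = h.length + 1
      · rw [chi_pick hc.1 hc.2, if_neg]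
        · exact mul_nonneg (chi_nonneg _ _ _ _) (Real.exp_pos _).le
        · intro heq
          rw [Option.some.injEq] at heq
          apply hinj i hiI i0 hi0 hne
          apply Prod.ext
          · rw [hc.2, hc0]
          · exact heq.symm
      · rw [chi_step_some hc]
        have a := xt_nonneg (pk i) (B i) (p i) h (p i0).2
        have b : 0 ≤ chi (pk i) (B i) (p i) h * Real.exp (dt (pk i) (B i) (p i) h) :=
          mul_nonneg (chi_nonneg _ _ _ _) (Real.exp_pos _).le
        nlinarith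
  have hsome : ∀ k, ∏ i ∈ I, chi (pk i) (B i) (p i) (some k :: h) =
      if k = (p i0).2 then 2 * (H : ℝ) * (p i0).1 *
        ∏ i ∈ I.erase i0, chi (pk i) (B i) (p i) (some (p i0).2 :: h) else 0 := by
    intro k
    rw [← mul_prod_erase I _ hi0, chi_pick hp0 hc0]
    by_cases hk : k = (p i0).2
    · rw [if_pos hk, hk, if_pos rfl]
    · rw [if_neg hk, if_neg (by rw [Option.some.injEq]; exact hk), zero_mul]
  have hnone : ∏ i ∈ I, chi (pk i) (B i) (p i) (none :: h) = 0 := by
    rw [← mul_prod_erase I _ hi0, chi_pick hp0 hc0, if_neg (by simp), zero_mul]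
  unfold stp
  simp only []
  rw [hnone, mul_zero, add_zero]
  simp only [hsome, mul_ite, mul_zero, sum_ite_eq']
  have hfin : pi h (p i0).2 * (2 * (H : ℝ) * (p i0).1 *
        ∏ i ∈ I.erase i0, chi (pk i) (B i) (p i) (some (p i0).2 :: h)) ≤
      W h ∅ (p i0) * (R * Real.exp t) := by
    have hH : (0 : ℝ) < 2 * H * (p i0).1 := by
      have := H_pos
      rw [hc0]; positivity
    have h1 : pi h (p i0).2 * (2 * H * (p i0).1) ≤ W h ∅ (p i0) := by
      have := pi_le_W h (p i0).2
      rw [← hc0] at this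
      calc pi h (p i0).2 * (2 * H * (p i0).1) ≤ W h ∅ ((p i0).1, (p i0).2) /
            (2 * H * (p i0).1) * (2 * H * (p i0).1) :=
            mul_le_mul_of_nonneg_right this hH.le
        _ = W h ∅ (p i0) := by
            rw [div_mul_cancel₀ _ hH.ne']
    calc pi h (p i0).2 * (2 * (H : ℝ) * (p i0).1 *
          ∏ i ∈ I.erase i0, chi (pk i) (B i) (p i) (some (p i0).2 :: h))
        = (pi h (p i0).2 * (2 * (H : ℝ) * (p i0).1)) *
          ∏ i ∈ I.erase i0, chi (pk i) (B i) (p i) (some (p i0).2 :: h) := by ring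
      _ ≤ W h ∅ (p i0) * (R * Real.exp t) :=
          mul_le_mul h1 hrest (prod_nonneg fun i _ => chi_nonneg _ _ _ _) (W_nonneg _ _ _)
  have hexp : Real.exp t ≤ 1 + Real.exp I.card * ∑ i ∈ I, D h (B i) (p i) := by
    have h1 : Real.exp t ≤ 1 + t * Real.exp t := by
      have := Real.add_one_le_exp (-t)
      have h2 : Real.exp t * Real.exp (-t) = 1 := by rw [← Real.exp_add]; simp
      have h3 : Real.exp t * (1 - t) ≤ 1 := by
        calc Real.exp t * (1 - t) ≤ Real.exp t * Real.exp (-t) :=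
              mul_le_mul_of_nonneg_left (by linarith) (Real.exp_pos _).le
          _ = 1 := h2
      linarith
    have h2 : t * Real.exp t ≤ (∑ i ∈ I, D h (B i) (p i)) * Real.exp I.card :=
      mul_le_mul htD (Real.exp_le_exp.mpr ht1) (Real.exp_pos _).le (ht0.trans htD)
    linarith
  have hW := W_nonneg h ∅ (p i0)
  rw [hΦ]
  split_ifs with hV
  · refine hfin.trans ?_
    rw [← mul_assoc]
    exact mul_le_mul_of_nonneg_left hexp (mul_nonneg hW hR0)
  · apply mul_nonneg (mul_nonneg hW hR0)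
    have : 0 ≤ ∑ i ∈ I, D h (B i) (p i) := sum_nonneg fun i _ => D_nonneg _ _ _
    positivity

open scoped Classical in
/-- the product of the factors is small unless all decided pick type points are picked -/
lemma prod_chi_le {X : ℕ} (hX : 1 ≤ X) (I : Finset ι) (pk : ι → Prop) (B : ι → Set Pt)
    (p : ι → Pt) (hinj : ∀ i ∈ I, ∀ j ∈ I, i ≠ j → p i ≠ p j)
    (hcol : ∀ i ∈ I, 1 ≤ (p i).1 ∧ (p i).1 ≤ X) (h : Hist) :
    ∏ i ∈ I, chi (pk i) (B i) (p i) h ≤
      Yx X ^ I.card * (nf X ((I.filter pk).image p) h.length *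
        N1 (dec ((I.filter pk).image p) h.length) h) := by
  set P := (I.filter pk).image p with hP
  have hY := Yx_one_le hX
  by_cases hs : dec P h.length ⊆ Z h
  · have hN : N1 (dec P h.length) h = 1 := by unfold N1; rw [if_pos hs]
    rw [hN, mul_one]
    have h1 : ∏ i ∈ I, chi (pk i) (B i) (p i) h ≤
        ∏ i ∈ I, (Yx X * (if pk i ∧ (p i).1 ≤ h.length then (2 * H * X : ℝ) else 1)) := by
      apply prod_le_prod
      · intro i _; exact chi_nonneg _ _ _ _
      · intro i hi
        have hc := hcol i hi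
        unfold chi
        by_cases h2 : pk i ∧ (p i).1 ≤ h.length
        · rw [if_pos h2, if_pos h2]
          have h3 : (0 : ℝ) ≤ 2 * H * X := by positivity
          have h4 : (2 * H * (p i).1 : ℝ) ≤ 2 * H * X := by
            have : ((p i).1 : ℝ) ≤ X := by exact_mod_cast hc.2
            gcongr
          split_ifs
          · nlinarith
          · positivity
        · rw [if_neg h2, if_neg h2, mul_one]
          exact (W_le_Yx hc.1).trans (Yx_mono hc.2)
    refine h1.trans (le_of_eq ?_)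
    rw [prod_mul_distrib, prod_const]
    congr 1
    unfold nf
    rw [prod_ite, prod_const, prod_const_one, mul_one]
    congr 1
    unfold dec
    rw [hP, filter_image, filter_filter, card_image_of_injOn]
    intro i hi j hj hij
    rw [mem_coe, mem_filter] at hi hj
    by_contra hne
    exact hinj i hi.1 j hj.1 hne hij
  · have hN : N1 (dec P h.length) h = 0 := by unfold N1; rw [if_neg hs]
    rw [hN, mul_zero, mul_zero]
    rw [not_subset] at hs
    obtain ⟨x, hx, hxZ⟩ := hs
    unfold dec at hx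
    rw [mem_filter, hP, mem_image] at hx
    obtain ⟨⟨i, hi, rfl⟩, hx2⟩ := hx
    rw [mem_filter] at hi
    apply le_of_eq
    apply prod_eq_zero hi.1
    unfold chi
    rw [if_pos ⟨hi.2, hx2⟩, if_neg hxZ]

lemma eJ_mono {X : ℕ} {ρ : ℝ} (hX : 1 ≤ X) (hρ : 1 ≤ ρ) {k l : ℕ} (hkl : k ≤ l) (nb : ℕ) :
    eJ X ρ k nb ≤ eJ X ρ l nb := by
  have hβ := be_nonneg hX hρ
  have hQ := QQf_one_le hX hρ
  have hc2 : 0 ≤ c2 X := by
    unfold c2
    have : 0 ≤ Real.log (Nn X) := Real.log_natCast_nonneg _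
    positivity
  have hc3 : 0 ≤ c3 X := by unfold c3; positivity
  have hkl' : (k : ℝ) ≤ l := by exact_mod_cast hkl
  unfold eJ
  have := pow_le_pow_right₀ hQ hkl
  gcongr

lemma eD_mono {X : ℕ} {ρ : ℝ} (hX : 1 ≤ X) (hρ : 1 ≤ ρ) {k l : ℕ} (hkl : k ≤ l) :
    eD X ρ k ≤ eD X ρ l := by
  have hβ := be_nonneg hX hρ
  have hQ := QQf_one_le hX hρ
  have hc3 : 0 ≤ c3 X := by unfold c3; positivity
  have hkl' : (k : ℝ) ≤ l := by exact_mod_cast hkl
  unfold eD
  have := pow_le_pow_right₀ hQ hkl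
  gcongr

lemma eD_nonneg {X : ℕ} {ρ : ℝ} (hX : 1 ≤ X) (hρ : 1 ≤ ρ) (k : ℕ) : 0 ≤ eD X ρ k := by
  have hβ := be_nonneg hX hρ
  have hQ := QQf_one_le hX hρ
  have hc3 : 0 ≤ c3 X := by unfold c3; positivity
  unfold eD
  positivity

lemma eJ_nonneg {X : ℕ} {ρ : ℝ} (hX : 1 ≤ X) (hρ : 1 ≤ ρ) (k nb : ℕ) : 0 ≤ eJ X ρ k nb := by
  have hβ := be_nonneg hX hρ
  have hQ := QQf_one_le hX hρ
  have hc2 : 0 ≤ c2 X := by
    unfold c2
    have : 0 ≤ Real.log (Nn X) := Real.log_natCast_nonneg _
    positivity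
  have hc3 : 0 ≤ c3 X := by unfold c3; positivity
  unfold eJ
  positivity

lemma eJ_split (X : ℕ) (ρ : ℝ) (k nb : ℕ) :
    eJ X ρ k nb = eJ X ρ k 0 + QQf X ρ ^ k * be X ρ * (be X ρ * Nn X + k) * nb := by
  unfold eJ
  push_cast
  ring

end PL

open PL in
/-- **product lemma** -/
theorem prod_upper {ι : Type*} {X : ℕ} {ρ : ℝ} (hX : 1 ≤ X) (hρ : 1 ≤ ρ) (I : Finset ι)
    (pk : ι → Prop) (B : ι → Set Pt) (p : ι → Pt) (hpk : ∀ i ∈ I, pk i → B i = ∅)
    (hinj : ∀ i ∈ I, ∀ j ∈ I, i ≠ j → p i ≠ p j) (hbox : ∀ i ∈ I, p i ∈ Box X (Nn X))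
    (hlo : ∀ i ∈ I, (X : ℝ) ≤ ρ * lo (p i).1) {m : ℕ} (hm : m ≤ X) :
    Ex m (fun h => ∏ i ∈ I, chi (pk i) (B i) (p i) h) ≤ 1 + eU X ρ I B p := by
  classical
  have hX' : (1 : ℝ) ≤ X := by exact_mod_cast hX
  have hY := Yx_one_le hX
  have hcol : ∀ i ∈ I, 1 ≤ (p i).1 ∧ (p i).1 ≤ X := by
    intro i hi
    have h1 := hbox i hi
    unfold Box at h1
    rw [mem_product, mem_range] at h1
    refine ⟨?_, by omega⟩
    by_contra hc
    have h2 : (p i).1 = 0 := by omega
    have h3 := hlo i hi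
    rw [h2] at h3
    unfold lo at h3
    simp at h3
    linarith
  -- columns of all points are admissible
  have hlocol : ∀ i ∈ I, (X : ℝ) ≤ ρ * (p i).1 := by
    intro i hi
    refine (hlo i hi).trans ?_
    apply mul_le_mul_of_nonneg_left _ (by linarith)
    unfold lo
    apply div_le_self (Nat.cast_nonneg _)
    exact one_le_pow₀ (Yx_one_le (hcol i hi).1)
  set P := (I.filter pk).image p with hP
  have hPbb : ∀ z ∈ P, bb z.1 ≤ be X ρ := by
    intro z hz
    rw [hP, mem_image] at hz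
    obtain ⟨i, hi, rfl⟩ := hz
    rw [mem_filter] at hi
    exact bb_le_be hX hρ (hcol i hi.1).2 (hlocol i hi.1)
  have hPcard : P.card ≤ I.card := card_image_le.trans (card_filter_le _ _)
  set Φ : Hist → ℝ := fun h => ∏ i ∈ I, chi (pk i) (B i) (p i) h with hΦ
  have hΦ0 : ∀ h, 0 ≤ Φ h := fun h => prod_nonneg fun i _ => chi_nonneg _ _ _ _
  set E := Real.exp I.card with hE
  have hE0 : 0 ≤ E := (Real.exp_pos _).le
  -- columns of pick type points
  set C : Finset ℕ := (I.filter pk).image (fun i => (p i).1) with hC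
  have hCcard : C.card ≤ I.card := card_image_le.trans (card_filter_le _ _)
  set ind : ℕ → ℝ := fun r => if r ∈ C then 1 else 0 with hind
  have hind0 : ∀ r, 0 ≤ ind r := by intro r; simp only [hind]; split_ifs <;> norm_num
  set err : Hist → ℝ := fun h => E * (Φ h * JJ I pk B p h) +
    E * (ind (h.length + 1) * (Φ h * ∑ i ∈ I, D h (B i) (p i))) with herr
  have hstep : ∀ h : Hist, Val h → h.length < m → stp Φ h ≤ Φ h + err h := by
    intro h _ _
    have hJ := JJ_nonneg I pk B p h
    have hD : 0 ≤ ∑ i ∈ I, D h (B i) (p i) := sum_nonneg fun i _ => D_nonneg _ _ _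
    by_cases hA : ∀ i ∈ I, ¬ (pk i ∧ (p i).1 = h.length + 1)
    · have := step_A I pk B p h hA
      have h2 : 0 ≤ E * (ind (h.length + 1) * (Φ h * ∑ i ∈ I, D h (B i) (p i))) :=
        mul_nonneg hE0 (mul_nonneg (hind0 _) (mul_nonneg (hΦ0 h) hD))
      calc stp Φ h ≤ Φ h * (1 + E * JJ I pk B p h) := this
        _ = Φ h + E * (Φ h * JJ I pk B p h) := by ring
        _ ≤ Φ h + err h := by rw [herr]; linarith
    · push Not at hA
      obtain ⟨i0, hi0, hp0, hc0⟩ := hA
      have := step_B I pk B p h hpk hinj hi0 hp0 hc0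
      have hi : ind (h.length + 1) = 1 := by
        simp only [hind]
        rw [if_pos]
        rw [hC, mem_image]
        exact ⟨i0, mem_filter.mpr ⟨hi0, hp0⟩, hc0⟩
      have h2 : 0 ≤ E * (Φ h * JJ I pk B p h) := mul_nonneg hE0 (mul_nonneg (hΦ0 h) hJ)
      calc stp Φ h ≤ Φ h * (1 + E * ∑ i ∈ I, D h (B i) (p i)) := this
        _ = Φ h + E * (1 * (Φ h * ∑ i ∈ I, D h (B i) (p i))) := by ring
        _ ≤ Φ h + err h := by rw [herr]; simp only [hi]; linarith
  have htel := Ex_le_telescope m hstep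
  have hnil : Φ [] = 1 := by
    rw [hΦ]
    apply prod_eq_one
    intro i hi
    unfold chi
    rw [if_neg]
    · rfl
    · rintro ⟨_, h1⟩
      have := (hcol i hi).1
      simp at h1
      omega
  rw [hnil] at htel
  refine htel.trans ?_
  apply add_le_add_right
  -- bound the errors
  set Yk := Yx X ^ I.card with hYk
  have hYk0 : 0 ≤ Yk := by positivity
  set G : ℕ → Hist → ℝ := fun n h => nf X P n * N1 (dec P n) h with hG
  have hΦG : ∀ n h, h.length = n → Φ h ≤ Yk * G n h := by
    intro n h hl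
    have := prod_chi_le hX I pk B p hinj hcol h
    rw [hl] at this
    exact this
  have hJn : ∀ n, n < X → Ex n (fun h => Φ h * JJ I pk B p h) ≤
      Yk * ∑ i ∈ I, ∑ j ∈ I, (if i = j then 0 else
        Ex n (fun h => nf X P n * (N1 (dec P n) h * Jh h (B i) (p i) (B j) (p j)))) := by
    intro n hn
    calc Ex n (fun h => Φ h * JJ I pk B p h) ≤ Ex n (fun h => Yk * ∑ i ∈ I, ∑ j ∈ I,
          (if i = j then 0 else nf X P n * (N1 (dec P n) h * Jh h (B i) (p i) (B j) (p j)))) := by
          apply Ex_mono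
          intro h _ hl
          have h1 := hΦG n h hl
          have h2 := JJ_nonneg I pk B p h
          calc Φ h * JJ I pk B p h ≤ Yk * G n h * JJ I pk B p h := mul_le_mul_of_nonneg_right h1 h2
            _ = _ := by
              rw [mul_assoc]
              congr 1
              unfold JJ
              rw [mul_sum]
              apply sum_congr rfl
              intro i _
              rw [mul_sum]
              apply sum_congr rfl
              intro j _
              split_ifs
              · simp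
              · rw [hG]; ring
      _ = _ := by
          rw [Ex_const_mul, Ex_sum]
          congr 1
          apply sum_congr rfl
          intro i _
          rw [Ex_sum]
          apply sum_congr rfl
          intro j _
          split_ifs
          · exact Ex_const n 0
          · rfl
  have hDn : ∀ n, n < X → Ex n (fun h => Φ h * ∑ i ∈ I, D h (B i) (p i)) ≤
      Yk * (I.card * eD X ρ I.card) := by
    intro n hn
    calc Ex n (fun h => Φ h * ∑ i ∈ I, D h (B i) (p i)) ≤ Ex n (fun h => Yk * ∑ i ∈ I,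
          (nf X P n * (N1 (dec P n) h * D h (B i) (p i)))) := by
          apply Ex_mono
          intro h _ hl
          have h1 := hΦG n h hl
          have h2 : 0 ≤ ∑ i ∈ I, D h (B i) (p i) := sum_nonneg fun i _ => D_nonneg _ _ _
          calc Φ h * ∑ i ∈ I, D h (B i) (p i) ≤ Yk * G n h * ∑ i ∈ I, D h (B i) (p i) :=
                mul_le_mul_of_nonneg_right h1 h2
            _ = _ := by
              rw [mul_assoc]
              congr 1
              rw [mul_sum]
              apply sum_congr rfl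
              intro i _
              rw [hG]; ring
      _ = Yk * ∑ i ∈ I, Ex n (fun h => nf X P n * (N1 (dec P n) h * D h (B i) (p i))) := by
          rw [Ex_const_mul, Ex_sum]
      _ ≤ Yk * ∑ i ∈ I, eD X ρ I.card := by
          apply mul_le_mul_of_nonneg_left _ hYk0
          apply sum_le_sum
          intro i hi
          exact (Ex_D_le hX hρ hPbb (B i) (hbox i hi) (hlo i hi) hn).trans
            (eD_mono hX hρ hPcard)
      _ = _ := by rw [sum_const, nsmul_eq_mul]
  have hsplit : ∑ n ∈ range m, Ex n err =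
      E * ∑ n ∈ range m, Ex n (fun h => Φ h * JJ I pk B p h) +
      E * ∑ n ∈ range m, ind (n + 1) * Ex n (fun h => Φ h * ∑ i ∈ I, D h (B i) (p i)) := by
    rw [mul_sum, mul_sum, ← sum_add_distrib]
    apply sum_congr rfl
    intro n _
    rw [herr, Ex_add, Ex_const_mul, Ex_const_mul]
    congr 2
    rw [← Ex_const_mul]
    apply Ex_congr
    intro h _ hl
    rw [hl]
  rw [hsplit]
  have hA : ∑ n ∈ range m, Ex n (fun h => Φ h * JJ I pk B p h) ≤
      Yk * ((I.card : ℝ) ^ 2 * eJ X ρ I.card 0 + ∑ i ∈ I, ∑ j ∈ I, (if p i = p j then 0 else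
      QQf X ρ ^ I.card * be X ρ * (be X ρ * Nn X + I.card) * nB X (B i) (p i) (B j) (p j))) := by
    calc ∑ n ∈ range m, Ex n (fun h => Φ h * JJ I pk B p h)
        ≤ ∑ n ∈ range m, Yk * ∑ i ∈ I, ∑ j ∈ I, (if i = j then 0 else
          Ex n (fun h => nf X P n * (N1 (dec P n) h * Jh h (B i) (p i) (B j) (p j)))) := by
          apply sum_le_sum
          intro n hn
          rw [mem_range] at hn
          exact hJn n (by omega)
      _ = Yk * ∑ i ∈ I, ∑ j ∈ I, (if i = j then 0 else ∑ n ∈ range m,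
          Ex n (fun h => nf X P n * (N1 (dec P n) h * Jh h (B i) (p i) (B j) (p j)))) := by
          rw [← mul_sum]
          congr 1
          rw [sum_comm]
          apply sum_congr rfl
          intro i _
          rw [sum_comm]
          apply sum_congr rfl
          intro j _
          split_ifs
          · simp
          · rfl
      _ ≤ Yk * ∑ i ∈ I, ∑ j ∈ I, (eJ X ρ I.card 0 + (if p i = p j then 0 else
            QQf X ρ ^ I.card * be X ρ * (be X ρ * Nn X + I.card) *
              nB X (B i) (p i) (B j) (p j))) := by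
          apply mul_le_mul_of_nonneg_left _ hYk0
          apply sum_le_sum; intro i hi; apply sum_le_sum; intro j hj
          by_cases hij : i = j
          · rw [if_pos hij, hij, if_pos rfl, add_zero]
            exact eJ_nonneg hX hρ _ _
          · rw [if_neg hij, if_neg (hinj i hi j hj hij), ← eJ_split]
            exact (sum_Ex_J_le hX hρ hPbb (B i) (B j) (hbox i hi) (hbox j hj) (hlo i hi)
              (hlo j hj) hm).trans (eJ_mono hX hρ hPcard _)
      _ = _ := by
          congr 1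
          simp only [sum_add_distrib, sum_const, nsmul_eq_mul]
          ring
  have hB : ∑ n ∈ range m, ind (n + 1) * Ex n (fun h => Φ h * ∑ i ∈ I, D h (B i) (p i)) ≤
      Yk * ((I.card : ℝ) ^ 2 * eD X ρ I.card) := by
    have hc : ∑ n ∈ range m, ind (n + 1) ≤ I.card := by
      calc ∑ n ∈ range m, ind (n + 1) = (((range m).filter (fun n => n + 1 ∈ C)).card : ℝ) := by
            simp only [hind]
            rw [← sum_filter, sum_const, nsmul_eq_mul, mul_one]
        _ ≤ (C.card : ℝ) := by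
            have : ((range m).filter (fun n => n + 1 ∈ C)).card ≤ C.card := by
              apply card_le_card_of_injOn (fun n => n + 1)
              · intro n hn
                rw [mem_coe, mem_filter] at hn
                exact hn.2
              · intro a _ b _ hab
                simpa using hab
            exact_mod_cast this
        _ ≤ I.card := by exact_mod_cast hCcard
    have hnn : 0 ≤ Yk * (I.card * eD X ρ I.card) :=
      mul_nonneg hYk0 (mul_nonneg (Nat.cast_nonneg _) (eD_nonneg hX hρ _))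
    calc ∑ n ∈ range m, ind (n + 1) * Ex n (fun h => Φ h * ∑ i ∈ I, D h (B i) (p i))
        ≤ ∑ n ∈ range m, ind (n + 1) * (Yk * (I.card * eD X ρ I.card)) := by
          apply sum_le_sum
          intro n hn
          rw [mem_range] at hn
          exact mul_le_mul_of_nonneg_left (hDn n (by omega)) (hind0 _)
      _ = (∑ n ∈ range m, ind (n + 1)) * (Yk * (I.card * eD X ρ I.card)) := by rw [sum_mul]
      _ ≤ I.card * (Yk * (I.card * eD X ρ I.card)) := mul_le_mul_of_nonneg_right hc hnn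
      _ = _ := by ring
  calc E * ∑ n ∈ range m, Ex n (fun h => Φ h * JJ I pk B p h) +
      E * ∑ n ∈ range m, ind (n + 1) * Ex n (fun h => Φ h * ∑ i ∈ I, D h (B i) (p i))
      ≤ E * (Yk * ((I.card : ℝ) ^ 2 * eJ X ρ I.card 0 + ∑ i ∈ I, ∑ j ∈ I,
          (if p i = p j then 0 else QQf X ρ ^ I.card * be X ρ * (be X ρ * Nn X + I.card) *
            nB X (B i) (p i) (B j) (p j)))) + E * (Yk * ((I.card : ℝ) ^ 2 * eD X ρ I.card)) :=
        add_le_add (mul_le_mul_of_nonneg_left hA hE0) (mul_le_mul_of_nonneg_left hB hE0)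
    _ = eU X ρ I B p := by
        unfold eU
        ring

end

end NTIL
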