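import Mathlib
import Pool.Agent.Lib.MP_2ffb02_co.Prod

/-!
# Lower bounds for expectations of weights
-/

set_option autoImplicit false

namespace NTIL

open Finset

noncomputable section

open scoped Classical in
/-- effective covering indicator of the next step -/
def low_c (h : Hist) (B : Set Pt) (v : Pt) : Option ℕ → ℝ
  | none => 0
  | some k => if S h v + D h ∅ v ≤ Th v.1 then cvi h B v k else 0

open scoped Classical in
/-- effective compensator of the next step -/
def low_D (h : Hist) (B : Set Pt) (v : Pt) : ℝ :=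
  if S h v + D h ∅ v ≤ Th v.1 then D h B v else 0

lemma low_c_some (h : Hist) (B : Set Pt) (v : Pt) (k : ℕ) :
    low_c h B v (some k) = if S h v + D h ∅ v ≤ Th v.1 then cvi h B v k else 0 := by
  classical
  unfold low_c
  rfl

lemma low_c_none (h : Hist) (B : Set Pt) (v : Pt) : low_c h B v none = 0 := rfl

lemma low_W_cons (o : Option ℕ) (h : Hist) (B : Set Pt) (v : Pt) :
    W (o :: h) B v = W h B v * Real.exp (low_D h B v) * (1 - low_c h B v o) := by
  classical
  rw [W_cons]
  unfold low_D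
  by_cases hact : S h v + D h ∅ v ≤ Th v.1
  · rw [if_pos hact, if_pos hact]
    congr 1
    cases o with
    | none => simp [low_c_none]
    | some k =>
      rw [low_c_some, if_pos hact]
      unfold cvi
      by_cases hc : cov h k v ∧ (h.length + 1, k) ∉ B
      · rw [if_pos ⟨k, rfl, hc⟩, if_pos hc]; norm_num
      · rw [if_neg, if_neg hc]
        · norm_num
        · rintro ⟨k', hk', hc'⟩
          rw [Option.some.injEq] at hk'
          rw [← hk'] at hc'
          exact hc hc'
  · rw [if_neg hact, if_neg hact]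
    cases o with
    | none => simp [low_c_none]
    | some k =>
      rw [low_c_some, if_neg hact]
      simp

lemma low_c_nonneg (h : Hist) (B : Set Pt) (v : Pt) (o : Option ℕ) : 0 ≤ low_c h B v o := by
  cases o with
  | none => exact le_refl _
  | some k =>
    rw [low_c_some]
    split_ifs
    · exact cvi_nonneg _ _ _ _
    · exact le_refl _

lemma low_c_le_one (h : Hist) (B : Set Pt) (v : Pt) (o : Option ℕ) : low_c h B v o ≤ 1 := by
  cases o with
  | none => exact zero_le_one
  | some k =>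
    rw [low_c_some]
    split_ifs
    · exact cvi_le_one _ _ _ _
    · exact zero_le_one

lemma low_c_le_cvi (h : Hist) (B : Set Pt) (v : Pt) (k : ℕ) : low_c h B v (some k) ≤ cvi h B v k := by
  rw [low_c_some]
  split_ifs
  · exact le_refl _
  · exact cvi_nonneg _ _ _ _

lemma low_D_eq (h : Hist) (B : Set Pt) (v : Pt) :
    low_D h B v = ∑ k ∈ V (h.length + 1), pi h k * low_c h B v (some k) := by
  classical
  simp only [low_c_some]
  unfold low_D
  split_ifs
  · rw [D_eq]
  · simp

lemma low_D_nonneg (h : Hist) (B : Set Pt) (v : Pt) : 0 ≤ low_D h B v := by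
  unfold low_D
  split_ifs
  · exact D_nonneg _ _ _
  · exact le_refl _

lemma low_D_le (h : Hist) (B : Set Pt) (v : Pt) : low_D h B v ≤ D h B v := by
  unfold low_D
  split_ifs
  · exact le_refl _
  · exact D_nonneg _ _ _

lemma low_D_le_one (h : Hist) (B : Set Pt) (v : Pt) : low_D h B v ≤ 1 :=
  (low_D_le h B v).trans (D_le_one h B v)

/-- `e^t (1-t) ≥ 1 - t²` for `0 ≤ t ≤ 1` -/
lemma low_exp {t : ℝ} (_h0 : 0 ≤ t) (h1 : t ≤ 1) : 1 - t ^ 2 ≤ Real.exp t * (1 - t) := by
  have := Real.add_one_le_exp t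
  nlinarith

lemma low_stp_one (h : Hist) (B : Set Pt) (v : Pt) :
    stp (fun h => W h B v) h = W h B v * Real.exp (low_D h B v) * (1 - low_D h B v) := by
  unfold stp
  have h1 : ∀ o, W (o :: h) B v = W h B v * Real.exp (low_D h B v) * (1 - low_c h B v o) :=
    fun o => low_W_cons o h B v
  simp only [h1]
  have h2 : ∑ k ∈ V (h.length + 1), pi h k * (W h B v * Real.exp (low_D h B v) *
      (1 - low_c h B v (some k))) = W h B v * Real.exp (low_D h B v) *
      ((∑ k ∈ V (h.length + 1), pi h k) - low_D h B v) := by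
    rw [low_D_eq, ← sum_sub_distrib, mul_sum]
    apply sum_congr rfl
    intro k _
    rw [← low_D_eq]
    ring
  rw [h2, low_c_none]
  ring

lemma low_step (h : Hist) (B : Set Pt) (v : Pt) :
    W h B v - W h B v * D h B v ^ 2 ≤ stp (fun h => W h B v) h := by
  rw [low_stp_one]
  have h0 := low_D_nonneg h B v
  have h1 := low_D_le_one h B v
  have h2 := low_exp h0 h1
  have h3 := W_nonneg h B v
  have h4 : low_D h B v ^ 2 ≤ D h B v ^ 2 := pow_le_pow_left₀ h0 (low_D_le h B v) 2
  calc W h B v - W h B v * D h B v ^ 2 ≤ W h B v - W h B v * low_D h B v ^ 2 := by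
        have := mul_le_mul_of_nonneg_left h4 h3
        linarith
    _ = W h B v * (1 - low_D h B v ^ 2) := by ring
    _ ≤ W h B v * (Real.exp (low_D h B v) * (1 - low_D h B v)) :=
        mul_le_mul_of_nonneg_left h2 h3
    _ = _ := by ring

lemma low_col {X : ℕ} {ρ : ℝ} (hX : 1 ≤ X) {p : Pt} (hlo : (X : ℝ) ≤ ρ * lo p.1) : 1 ≤ p.1 := by
  by_contra hcon
  have h0 : p.1 = 0 := by omega
  have hX' : (1 : ℝ) ≤ X := by exact_mod_cast hX
  rw [h0] at hlo
  unfold lo at hlo
  simp at hlo
  linarith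

lemma low_col_le {X : ℕ} {p : Pt} (hp : p ∈ Box X (Nn X)) : p.1 ≤ X := by
  unfold Box at hp
  rw [mem_product, mem_range] at hp
  omega

lemma low_W_le {X : ℕ} {ρ : ℝ} (hX : 1 ≤ X) {p : Pt} (hp : p ∈ Box X (Nn X))
    (hlo : (X : ℝ) ≤ ρ * lo p.1) (h : Hist) (B : Set Pt) : W h B p ≤ Yx X :=
  (W_le_Yx (low_col hX hlo)).trans (Yx_mono (low_col_le hp))

lemma low_nf_empty (X : ℕ) (n : ℕ) (h : Hist) : nf X ∅ n * (N1 (dec ∅ n) h * 1) = 1 := by
  classical
  unfold nf dec N1
  simp

/-- one step: `stp W ≥ W - Yx X * D²` since `e^D (1-D) ≥ 1 - D²`; telescoping and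
`sum_Ex_D_sq_le` with `P = ∅`. -/
theorem single_lower {X : ℕ} {ρ : ℝ} (hX : 1 ≤ X) (hρ : 1 ≤ ρ) (B : Set Pt) {p : Pt}
    (hp : p ∈ Box X (Nn X)) (hlo : (X : ℝ) ≤ ρ * lo p.1) {m : ℕ} (hm : m ≤ X) :
    1 - Yx X * eD2 X ρ 0 ≤ Ex m (fun h => W h B p) := by
  have h1 := Ex_ge_telescope (F := fun h => W h B p) (err := fun h => Yx X * D h B p ^ 2) m (by
    intro h _ _
    refine le_trans ?_ (low_step h B p)
    have := mul_le_mul_of_nonneg_right (low_W_le hX hp hlo h B) (sq_nonneg (D h B p))
    linarith)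
  have h2 : ∑ n ∈ range m, Ex n (fun h => Yx X * D h B p ^ 2) ≤ Yx X * eD2 X ρ 0 := by
    have h3 := sum_Ex_D_sq_le hX hρ (P := ∅) (by simp) B hp hlo hm
    rw [card_empty] at h3
    have h4 : ∀ n ∈ range m, Ex n (fun h => Yx X * D h B p ^ 2) =
        Yx X * Ex n (fun h => nf X ∅ n * (N1 (dec ∅ n) h * D h B p ^ 2)) := by
      intro n _
      rw [Ex_const_mul]
      congr 2
      funext h
      have := low_nf_empty X n h
      linear_combination (-(D h B p ^ 2)) * this
    rw [sum_congr rfl h4, ← mul_sum]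
    exact mul_le_mul_of_nonneg_left h3 (Yx_pos hX).le
  rw [W_nil] at h1
  linarith

open scoped Classical in
/-- probability that the total weight of column `s` is too large -/
def PT (s : ℕ) : ℝ := Ex (s - 1) (fun h => if 2 * H * s < T h then 1 else 0)

/-! ### pairs -/

lemma low_chi_before {z : Pt} {h : Hist} (hl : h.length < z.1) : chi True ∅ z h = W h ∅ z := by
  unfold chi
  rw [if_neg]
  rintro ⟨_, h1⟩
  omega

open scoped Classical in
lemma low_chi_after {z : Pt} {h : Hist} (hl : z.1 ≤ h.length) :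
    chi True ∅ z h = if z ∈ Z h then (2 * H * z.1 : ℝ) else 0 := by
  unfold chi
  rw [if_pos ⟨trivial, hl⟩]

/-- case `r < z.1` -/
lemma low_pair_before {z u : Pt} {h : Hist} (hl : h.length + 1 < z.1) :
    chi True ∅ z h * W h ∅ u - W h ∅ z * W h ∅ u * (2 * D h ∅ z ^ 2 + 2 * D h ∅ u ^ 2) ≤
      stp (fun h => chi True ∅ z h * W h ∅ u) h := by
  rw [low_chi_before (by omega)]
  set a := W h ∅ z with ha
  set b := W h ∅ u with hb
  set x := low_D h ∅ z with hx
  set y := low_D h ∅ u with hy
  have ha0 : 0 ≤ a := W_nonneg _ _ _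
  have hb0 : 0 ≤ b := W_nonneg _ _ _
  have hx0 : 0 ≤ x := low_D_nonneg _ _ _
  have hy0 : 0 ≤ y := low_D_nonneg _ _ _
  have hcons : ∀ o : Option ℕ, chi True ∅ z (o :: h) * W (o :: h) ∅ u =
      a * b * Real.exp (x + y) * ((1 - low_c h ∅ z o) * (1 - low_c h ∅ u o)) := by
    intro o
    rw [low_chi_before (by simpa using hl), low_W_cons, low_W_cons, Real.exp_add]
    ring
  have hnn : ∀ o : Option ℕ, 0 ≤ chi True ∅ z (o :: h) * W (o :: h) ∅ u := by
    intro o
    rw [hcons]
    have h1 := low_c_le_one h ∅ z o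
    have h2 := low_c_le_one h ∅ u o
    have : 0 ≤ (1 - low_c h ∅ z o) * (1 - low_c h ∅ u o) :=
      mul_nonneg (by linarith) (by linarith)
    positivity
  have hstp0 : 0 ≤ stp (fun h => chi True ∅ z h * W h ∅ u) h := by
    unfold stp
    apply add_nonneg
    · exact sum_nonneg fun k _ => mul_nonneg (pi_nonneg _ _) (hnn _)
    · exact mul_nonneg (by linarith [sum_pi_le_one h]) (hnn _)
  have hsq : (x + y) ^ 2 ≤ 2 * D h ∅ z ^ 2 + 2 * D h ∅ u ^ 2 := by
    have h1 : x ^ 2 ≤ D h ∅ z ^ 2 := pow_le_pow_left₀ hx0 (low_D_le _ _ _) 2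
    have h2 : y ^ 2 ≤ D h ∅ u ^ 2 := pow_le_pow_left₀ hy0 (low_D_le _ _ _) 2
    nlinarith [sq_nonneg (x - y)]
  have hab : 0 ≤ a * b := mul_nonneg ha0 hb0
  have hmain : a * b * (1 - (x + y) ^ 2) ≤ stp (fun h => chi True ∅ z h * W h ∅ u) h := by
    by_cases ht : x + y ≤ 1
    · have hlow : a * b * Real.exp (x + y) * (1 - (x + y)) ≤
          stp (fun h => chi True ∅ z h * W h ∅ u) h := by
        unfold stp
        have h3 : ∑ k ∈ V (h.length + 1), pi h k * (a * b * Real.exp (x + y) *
            (1 - low_c h ∅ z (some k) - low_c h ∅ u (some k))) ≤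
            ∑ k ∈ V (h.length + 1), pi h k * (chi True ∅ z (some k :: h) *
              W (some k :: h) ∅ u) := by
          apply sum_le_sum
          intro k _
          apply mul_le_mul_of_nonneg_left _ (pi_nonneg _ _)
          rw [hcons]
          apply mul_le_mul_of_nonneg_left _ (by positivity)
          have h1 := low_c_nonneg h ∅ z (some k)
          have h2 := low_c_nonneg h ∅ u (some k)
          nlinarith [mul_nonneg h1 h2]
        have h4 : ∑ k ∈ V (h.length + 1), pi h k * (a * b * Real.exp (x + y) *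
            (1 - low_c h ∅ z (some k) - low_c h ∅ u (some k))) =
            a * b * Real.exp (x + y) * ((∑ k ∈ V (h.length + 1), pi h k) - x - y) := by
          have e1 : x = ∑ k ∈ V (h.length + 1), pi h k * low_c h ∅ z (some k) := low_D_eq _ _ _
          have e2 : y = ∑ k ∈ V (h.length + 1), pi h k * low_c h ∅ u (some k) := low_D_eq _ _ _
          have e3 : (∑ k ∈ V (h.length + 1), pi h k) - x - y =
              ∑ k ∈ V (h.length + 1), (pi h k - pi h k * low_c h ∅ z (some k) -
                pi h k * low_c h ∅ u (some k)) := by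
            rw [sum_sub_distrib, sum_sub_distrib, ← e1, ← e2]
          rw [e3, mul_sum]
          apply sum_congr rfl
          intro k _
          ring
        rw [h4] at h3
        have h5 : chi True ∅ z (none :: h) * W (none :: h) ∅ u = a * b * Real.exp (x + y) := by
          rw [hcons]
          rw [low_c_none, low_c_none]
          ring
        simp only
        rw [h5]
        calc a * b * Real.exp (x + y) * (1 - (x + y)) =
            a * b * Real.exp (x + y) * ((∑ k ∈ V (h.length + 1), pi h k) - x - y) +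
              (1 - ∑ k ∈ V (h.length + 1), pi h k) * (a * b * Real.exp (x + y)) := by ring
          _ ≤ _ := by linarith
      refine le_trans ?_ hlow
      rw [mul_assoc (a * b)]
      exact mul_le_mul_of_nonneg_left (low_exp (by linarith) ht) hab
    · push Not at ht
      refine le_trans ?_ hstp0
      apply mul_nonpos_of_nonneg_of_nonpos hab
      nlinarith
  calc a * b - a * b * (2 * D h ∅ z ^ 2 + 2 * D h ∅ u ^ 2) ≤ a * b * (1 - (x + y) ^ 2) := by
        nlinarith [mul_le_mul_of_nonneg_left hsq hab]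
    _ ≤ _ := hmain

open scoped Classical in
/-- case `r = z.1` -/
lemma low_pair_at {z u : Pt} {h : Hist} (hl : h.length + 1 = z.1) (hzV : z.2 ∈ V z.1) :
    chi True ∅ z h * W h ∅ u - W h ∅ z * W h ∅ u * ((if 2 * H * z.1 < T h then 1 else 0) +
      cvi h ∅ u z.2) ≤ stp (fun h => chi True ∅ z h * W h ∅ u) h := by
  rw [low_chi_before (by omega)]
  have hz : z = (h.length + 1, z.2) := by rw [hl]
  have hz0 : (0 : ℝ) < z.1 := by
    have : 0 < z.1 := by omega
    exact_mod_cast this
  have hH : (0 : ℝ) < H := by exact_mod_cast H_pos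
  have hmem : ∀ o : Option ℕ, z ∈ Z (o :: h) ↔ o = some z.2 := by
    intro o
    rw [hz]
    exact mem_Z_cons_new
  have hchi : ∀ o : Option ℕ, chi True ∅ z (o :: h) =
      if o = some z.2 then (2 * H * z.1 : ℝ) else 0 := by
    intro o
    rw [low_chi_after (by simp [hl])]
    simp only [hmem]
  have hstp : stp (fun h => chi True ∅ z h * W h ∅ u) h =
      pi h z.2 * (2 * H * z.1) * W (some z.2 :: h) ∅ u := by
    unfold stp
    simp only [hchi]
    rw [if_neg (by simp), zero_mul, mul_zero, add_zero]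
    rw [sum_eq_single z.2]
    · rw [if_pos rfl]; ring
    · intro k _ hk
      rw [if_neg (by simpa using hk)]; ring
    · intro hk
      exfalso
      apply hk
      rw [hl]
      exact hzV
  rw [hstp, pi_eq]
  have ha0 : 0 ≤ W h ∅ z := W_nonneg _ _ _
  have hb0 : 0 ≤ W h ∅ u := W_nonneg _ _ _
  have hc0 := cvi_nonneg h ∅ u z.2
  rw [hl]
  by_cases hT : T h ≤ 2 * H * z.1
  · rw [if_pos hT, if_neg (not_lt.mpr hT), zero_add]
    have e1 : W h ∅ (z.1, z.2) / (2 * H * z.1) * (2 * H * z.1) = W h ∅ z := by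
      rw [div_mul_cancel₀]
      positivity
    rw [e1]
    have h3 : W h ∅ u * (1 - cvi h ∅ u z.2) ≤ W (some z.2 :: h) ∅ u := by
      rw [low_W_cons]
      have h4 : 1 ≤ Real.exp (low_D h ∅ u) := Real.one_le_exp (low_D_nonneg _ _ _)
      have h5 := low_c_le_cvi h ∅ u z.2
      have h6 := low_c_le_one h ∅ u (some z.2)
      calc W h ∅ u * (1 - cvi h ∅ u z.2) ≤ W h ∅ u * (1 - low_c h ∅ u (some z.2)) := by
            apply mul_le_mul_of_nonneg_left _ hb0
            linarith
        _ = W h ∅ u * 1 * (1 - low_c h ∅ u (some z.2)) := by ring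
        _ ≤ W h ∅ u * Real.exp (low_D h ∅ u) * (1 - low_c h ∅ u (some z.2)) := by
            apply mul_le_mul_of_nonneg_right _ (by linarith)
            exact mul_le_mul_of_nonneg_left h4 hb0
    calc W h ∅ z * W h ∅ u - W h ∅ z * W h ∅ u * cvi h ∅ u z.2 =
        W h ∅ z * (W h ∅ u * (1 - cvi h ∅ u z.2)) := by ring
      _ ≤ _ := mul_le_mul_of_nonneg_left h3 ha0
  · rw [if_neg hT, if_pos (not_le.mp hT)]
    have h7 : 0 ≤ W h ∅ z * W h ∅ u := mul_nonneg ha0 hb0
    nlinarith [mul_nonneg h7 hc0]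

open scoped Classical in
/-- case `r > z.1` -/
lemma low_pair_after {z u : Pt} {h : Hist} (hl : z.1 ≤ h.length) :
    chi True ∅ z h * W h ∅ u - chi True ∅ z h * (W h ∅ u * D h ∅ u ^ 2) ≤
      stp (fun h => chi True ∅ z h * W h ∅ u) h := by
  have hchi : ∀ o : Option ℕ, chi True ∅ z (o :: h) = chi True ∅ z h := by
    intro o
    rw [low_chi_after (by simp; omega), low_chi_after hl]
    simp only [mem_Z_cons_of_le hl]
  have hstp : stp (fun h => chi True ∅ z h * W h ∅ u) h = chi True ∅ z h *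
      stp (fun h => W h ∅ u) h := by
    unfold stp
    simp only [hchi]
    rw [mul_add, mul_sum]
    congr 1
    · exact sum_congr rfl fun k _ => by ring
    · ring
  rw [hstp]
  have h0 : 0 ≤ chi True ∅ z h := by
    rw [low_chi_after hl]
    split_ifs <;> positivity
  have h1 := low_step h ∅ u
  calc chi True ∅ z h * W h ∅ u - chi True ∅ z h * (W h ∅ u * D h ∅ u ^ 2) =
      chi True ∅ z h * (W h ∅ u - W h ∅ u * D h ∅ u ^ 2) := by ring
    _ ≤ _ := mul_le_mul_of_nonneg_left h1 h0

lemma low_Ex_ite {s : ℕ} (G : Hist → ℝ) (hG : ∀ h, 0 ≤ G h) (m : ℕ) (hs : 1 ≤ s) :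
    ∑ n ∈ range m, Ex n (fun h => if h.length + 1 = s then G h else 0) ≤ Ex (s - 1) G := by
  have h1 : ∀ n ∈ range m, Ex n (fun h => if h.length + 1 = s then G h else 0) =
      if n = s - 1 then Ex (s - 1) G else 0 := by
    intro n _
    split_ifs with hn
    · rw [← hn]
      apply Ex_congr
      intro h _ hl
      rw [if_pos (by omega)]
    · have h2 := Ex_const n 0
      refine Eq.trans ?_ h2
      apply Ex_congr
      intro h _ hl
      rw [if_neg (by omega)]
  rw [sum_congr rfl h1, sum_ite_eq']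
  split_ifs
  · exact le_refl _
  · exact Ex_nonneg fun h _ _ => hG h

/-- one step at column `r`: for `r < z.1`: `stp ≥ W_z W_u (1 - (D_z+D_u)²)`; for `r = z.1`:
`stp ≥ W_z W_u - Y² (1[T > 2 H r] + 1[cov h z.2 u])`; for `r > z.1`: `≥ chi_z W_u (1 - D_u²)`.
The expectation of `1[cov h z.2 u]` is bounded with `cvi_le_sum` and `Ex_N1_sum_le` (`P = ∅`,
`A = cA X ρ z u`, `card_cA_le`). -/
theorem pair_lower {X : ℕ} {ρ : ℝ} (hX : 1 ≤ X) (hρ : 1 ≤ ρ) {z u : Pt}
    (hz : z ∈ Box X (Nn X)) (hu : u ∈ Box X (Nn X)) (hzu : z.1 < u.1) (hzV : z.2 ∈ V z.1)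
    (hzlo : (X : ℝ) ≤ ρ * lo z.1) (hulo : (X : ℝ) ≤ ρ * lo u.1) {m : ℕ} (hm : m ≤ X) :
    1 - (4 * Yx X ^ 2 * eD2 X ρ 0 + Yx X ^ 2 * PT z.1 + Yx X ^ 2 * (be X ρ * Lc X (Nn X) z u) +
      Yx X * eD2 X ρ 1) ≤ Ex m (fun h => chi True ∅ z h * W h ∅ u) := by
  classical
  have hY : 0 ≤ Yx X := (Yx_pos hX).le
  have hz1 : 1 ≤ z.1 := low_col hX hzlo
  have hzX : z.1 ≤ X := low_col_le hz
  have hβ := be_nonneg hX hρ
  have hlo_le : lo z.1 ≤ z.1 := by
    unfold lo
    apply div_le_self (by positivity)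
    exact one_le_pow₀ (Yx_one_le hz1)
  have hbbz : bb z.1 ≤ be X ρ := by
    apply bb_le_be hX hρ hzX
    exact hzlo.trans (mul_le_mul_of_nonneg_left hlo_le (by linarith))
  set e1 : Hist → ℝ := fun h => 2 * Yx X ^ 2 * (D h ∅ z ^ 2 + D h ∅ u ^ 2) with he1
  set G : Hist → ℝ := fun h => Yx X ^ 2 * ((if 2 * H * z.1 < T h then 1 else 0) +
    cvi h ∅ u z.2) with hG
  set e2 : Hist → ℝ := fun h => if h.length + 1 = z.1 then G h else 0 with he2
  set e3 : Hist → ℝ := fun h => Yx X * (nf X {z} h.length *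
    (N1 (dec {z} h.length) h * D h ∅ u ^ 2)) with he3
  have hG0 : ∀ h, 0 ≤ G h := by
    intro h
    have := cvi_nonneg h ∅ u z.2
    simp only [hG]
    split_ifs <;> positivity
  have he10 : ∀ h, 0 ≤ e1 h := by intro h; simp only [he1]; positivity
  have he20 : ∀ h, 0 ≤ e2 h := by
    intro h
    simp only [he2]
    split_ifs
    · exact hG0 h
    · exact le_refl _
  have he30 : ∀ h, 0 ≤ e3 h := by
    intro h
    simp only [he3]
    have := nf_nonneg X {z} h.length
    have := N1_nonneg (dec {z} h.length) h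
    positivity
  have hWz : ∀ h, W h ∅ z ≤ Yx X := fun h => low_W_le hX hz hzlo h ∅
  have hWu : ∀ h, W h ∅ u ≤ Yx X := fun h => low_W_le hX hu hulo h ∅
  have hWW : ∀ h, W h ∅ z * W h ∅ u ≤ Yx X ^ 2 := by
    intro h
    calc W h ∅ z * W h ∅ u ≤ Yx X * Yx X := mul_le_mul (hWz h) (hWu h) (W_nonneg _ _ _) hY
      _ = Yx X ^ 2 := by ring
  have h1 := Ex_ge_telescope (F := fun h => chi True ∅ z h * W h ∅ u)
    (err := fun h => e1 h + e2 h + e3 h) m (by
    intro h hv hl
    rcases lt_trichotomy (h.length + 1) z.1 with hc | hc | hc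
    · have h2 := low_pair_before (u := u) hc
      have h3 : W h ∅ z * W h ∅ u * (2 * D h ∅ z ^ 2 + 2 * D h ∅ u ^ 2) ≤ e1 h := by
        simp only [he1]
        calc W h ∅ z * W h ∅ u * (2 * D h ∅ z ^ 2 + 2 * D h ∅ u ^ 2) ≤
            Yx X ^ 2 * (2 * D h ∅ z ^ 2 + 2 * D h ∅ u ^ 2) :=
              mul_le_mul_of_nonneg_right (hWW h) (by positivity)
          _ = _ := by ring
      have := he20 h
      have := he30 h
      linarith
    · have h2 := low_pair_at (u := u) hc hzV
      have h3 : W h ∅ z * W h ∅ u * ((if 2 * H * z.1 < T h then 1 else 0) + cvi h ∅ u z.2) ≤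
          e2 h := by
        simp only [he2, hG]
        rw [if_pos hc]
        apply mul_le_mul_of_nonneg_right (hWW h)
        have := cvi_nonneg h ∅ u z.2
        split_ifs <;> positivity
      have := he10 h
      have := he30 h
      linarith
    · have h2 := low_pair_after (z := z) (u := u) (h := h) (by omega)
      have h3 : chi True ∅ z h * (W h ∅ u * D h ∅ u ^ 2) ≤ e3 h := by
        have hdec : dec {z} h.length = {z} := by
          unfold dec
          rw [filter_singleton, if_pos (by omega)]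
        simp only [he3]
        rw [hdec]
        unfold nf
        rw [hdec, card_singleton, pow_one]
        have hchi : chi True ∅ z h ≤ 2 * H * X * N1 {z} h := by
          rw [low_chi_after (by omega)]
          unfold N1
          by_cases hzZ : z ∈ Z h
          · rw [if_pos hzZ, if_pos (by simpa using hzZ), mul_one]
            gcongr
          · rw [if_neg hzZ, if_neg (by simpa using hzZ), mul_zero]
        calc chi True ∅ z h * (W h ∅ u * D h ∅ u ^ 2) ≤
            (2 * H * X * N1 {z} h) * (Yx X * D h ∅ u ^ 2) := by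
              apply mul_le_mul hchi _ (mul_nonneg (W_nonneg _ _ _) (sq_nonneg _))
              · have := N1_nonneg {z} h
                positivity
              · exact mul_le_mul_of_nonneg_right (hWu h) (sq_nonneg _)
          _ = _ := by ring
      have := he10 h
      have := he20 h
      linarith)
  have hF0 : chi True ∅ z [] * W [] ∅ u = 1 := by
    have hl0 : ([] : Hist).length < z.1 := by
      rw [List.length_nil]; omega
    rw [low_chi_before hl0, W_nil, W_nil, mul_one]
  rw [hF0] at h1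
  have hsum : ∑ n ∈ range m, Ex n (fun h => e1 h + e2 h + e3 h) =
      ∑ n ∈ range m, Ex n e1 + ∑ n ∈ range m, Ex n e2 + ∑ n ∈ range m, Ex n e3 := by
    rw [← sum_add_distrib, ← sum_add_distrib]
    apply sum_congr rfl
    intro n _
    rw [Ex_add, Ex_add]
  have hs1 : ∑ n ∈ range m, Ex n e1 ≤ 4 * Yx X ^ 2 * eD2 X ρ 0 := by
    have h3 := sum_Ex_D_sq_le hX hρ (P := ∅) (by simp) ∅ hz hzlo hm
    have h4 := sum_Ex_D_sq_le hX hρ (P := ∅) (by simp) ∅ hu hulo hm
    rw [card_empty] at h3 h4
    have h5 : ∀ n ∈ range m, Ex n e1 = 2 * Yx X ^ 2 *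
        (Ex n (fun h => nf X ∅ n * (N1 (dec ∅ n) h * D h ∅ z ^ 2)) +
         Ex n (fun h => nf X ∅ n * (N1 (dec ∅ n) h * D h ∅ u ^ 2))) := by
      intro n _
      rw [← Ex_add, ← Ex_const_mul]
      congr 1
      funext h
      simp only [he1]
      have := low_nf_empty X n h
      linear_combination (-(2 * Yx X ^ 2 * (D h ∅ z ^ 2 + D h ∅ u ^ 2))) * this
    rw [sum_congr rfl h5, ← mul_sum, sum_add_distrib]
    have hY2 : 0 ≤ 2 * Yx X ^ 2 := by positivity
    calc _ ≤ 2 * Yx X ^ 2 * (eD2 X ρ 0 + eD2 X ρ 0) :=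
          mul_le_mul_of_nonneg_left (add_le_add h3 h4) hY2
      _ = _ := by ring
  have hs2 : ∑ n ∈ range m, Ex n e2 ≤
      Yx X ^ 2 * PT z.1 + Yx X ^ 2 * (be X ρ * Lc X (Nn X) z u) := by
    refine (low_Ex_ite G hG0 m hz1).trans ?_
    simp only [hG]
    rw [Ex_const_mul, Ex_add, mul_add]
    unfold PT
    apply add_le_add_right
    apply mul_le_mul_of_nonneg_left _ (by positivity)
    have h6 : Ex (z.1 - 1) (fun h => cvi h ∅ u z.2) ≤
        Ex (z.1 - 1) (fun h => N1 ∅ h * ∑ a ∈ cA X ρ z u, N1 {a} h) := by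
      apply Ex_mono
      intro h hv hl
      have h7 := cvi_le_sum hρ hv (by omega) hulo ∅ z.2
      have hzz : (h.length + 1, z.2) = z := by
        have : h.length + 1 = z.1 := by omega
        rw [this]
      rw [hzz] at h7
      have h8 : N1 ∅ h = 1 := by unfold N1; simp
      rw [h8, one_mul]
      exact h7
    refine h6.trans ?_
    refine (Ex_N1_sum_le hβ _ (by simp) (fun q hq => cA_bb hX hρ hq)).trans ?_
    rw [card_empty, pow_zero, one_mul, empty_inter, card_empty, Nat.cast_zero, add_zero]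
    apply mul_le_mul_of_nonneg_left _ hβ
    exact_mod_cast card_cA_le X ρ z u
  have hs3 : ∑ n ∈ range m, Ex n e3 ≤ Yx X * eD2 X ρ 1 := by
    have h3 := sum_Ex_D_sq_le hX hρ (P := {z}) (by
      intro q hq
      rw [mem_singleton] at hq
      rw [hq]
      exact hbbz) ∅ hu hulo hm
    rw [card_singleton] at h3
    have h5 : ∀ n ∈ range m, Ex n e3 = Yx X *
        Ex n (fun h => nf X {z} n * (N1 (dec {z} n) h * D h ∅ u ^ 2)) := by
      intro n _
      rw [← Ex_const_mul]
      apply Ex_congr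
      intro h _ hl
      simp only [he3]
      rw [hl]
    rw [sum_congr rfl h5, ← mul_sum]
    exact mul_le_mul_of_nonneg_left h3 hY
  rw [hsum] at h1
  linarith

end

end NTIL
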