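import Mathlib
import Pool.Agent.Lib.MP_2ffb02_co.Prod

/-!
# Numerical estimates
-/

set_option autoImplicit false

namespace NTIL

open Finset

noncomputable section

lemma Yx_pow (X : ℕ) : Yx X ^ 100000 = X := by
  unfold Yx
  rw [← Real.rpow_natCast, ← Real.rpow_mul (Nat.cast_nonneg X)]
  norm_num

lemma Th_eq_log {X : ℕ} (hX : 1 ≤ X) : Th X = Real.log (Yx X) := by
  rw [← exp_Th hX, Real.log_exp]

/-- `X` is large -/
structure Big (X : ℕ) : Prop where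
  one_le : 1 ≤ X
  H_le : (10 : ℝ) ^ 20 * (H : ℝ) ^ 10 ≤ Yx X
  log_le : 1 + Real.log (Nn X) ≤ Yx X

/-- all columns `≥ lo X` are large -/
def Good (X : ℕ) : Prop := ∀ s : ℕ, s ≤ X → (X : ℝ) ≤ Yx X ^ 10 * s → Big s

lemma Num_tendsto_Yx : Filter.Tendsto (fun X : ℕ => Yx X) Filter.atTop Filter.atTop := by
  unfold Yx
  exact (tendsto_rpow_atTop (by norm_num)).comp tendsto_natCast_atTop_atTop

theorem eventually_big : ∃ X₀ : ℕ, ∀ X, X₀ ≤ X → Big X := by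
  have h1 : ∀ᶠ X : ℕ in Filter.atTop, 1 ≤ X := Filter.eventually_ge_atTop 1
  have h2 : ∀ᶠ X : ℕ in Filter.atTop, (10 : ℝ) ^ 20 * (H : ℝ) ^ 10 ≤ Yx X :=
    Num_tendsto_Yx.eventually_ge_atTop _
  have h3 : ∀ᶠ X : ℕ in Filter.atTop, 2 * (1 + Real.log H) ≤ Yx X :=
    Num_tendsto_Yx.eventually_ge_atTop _
  have h4 : ∀ᶠ X : ℕ in Filter.atTop, Real.log X ≤ 1 / 2 * Yx X := by
    have h5 := (isLittleO_log_rpow_atTop (r := 1 / 100000) (by norm_num)).bound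
      (c := 1 / 2) (by norm_num)
    have h6 := tendsto_natCast_atTop_atTop (R := ℝ) |>.eventually h5
    filter_upwards [h6] with X hX
    unfold Yx
    have h7 : (0 : ℝ) ≤ (X : ℝ) ^ (1 / 100000 : ℝ) := by positivity
    rw [Real.norm_eq_abs, Real.norm_eq_abs, abs_of_nonneg h7] at hX
    exact (le_abs_self _).trans hX
  obtain ⟨X₀, h⟩ := Filter.eventually_atTop.mp (h1.and (h2.and (h3.and h4)))
  refine ⟨X₀, fun X hX => ?_⟩
  obtain ⟨a1, a2, a3, a4⟩ := h X hX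
  refine ⟨a1, a2, ?_⟩
  have hH : (H : ℝ) ≠ 0 := by
    have := H_pos
    positivity
  have hX0 : (X : ℝ) ≠ 0 := by positivity
  unfold Nn
  push_cast
  rw [Real.log_mul hH hX0]
  linarith

theorem eventually_good : ∃ X₀ : ℕ, 1 ≤ X₀ ∧ ∀ X, X₀ ≤ X → Good X := by
  obtain ⟨X₁, h1⟩ := eventually_big
  obtain ⟨X₂, h2⟩ := Filter.eventually_atTop.mp
    (Num_tendsto_Yx.eventually_ge_atTop (X₁ : ℝ))
  refine ⟨max 1 X₂, le_max_left _ _, fun X hX s _ hs => h1 s ?_⟩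
  have hX1 : 1 ≤ X := (le_max_left _ _).trans hX
  have hy := Yx_one_le hX1
  have hy2 := h2 X ((le_max_right _ _).trans hX)
  have hp := Yx_pow X
  set y := Yx X with hydef
  have h3 : y ^ 10 * y ^ 99990 ≤ y ^ 10 * s := by
    rw [← pow_add]
    norm_num
    rw [hp]
    exact hs
  have h4 : y ^ 99990 ≤ s := le_of_mul_le_mul_left h3 (by positivity)
  have h5 : y ≤ y ^ 99990 := by
    calc y = y ^ 1 := (pow_one y).symm
      _ ≤ y ^ 99990 := pow_le_pow_right₀ hy (by norm_num)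
  exact_mod_cast hy2.trans (h5.trans h4)

lemma Good.big {X : ℕ} (h : Good X) (hX : 1 ≤ X) : Big X := by
  apply h X le_rfl
  have := Yx_one_le hX
  have h2 : (1 : ℝ) ≤ Yx X ^ 10 := one_le_pow₀ this
  have h3 : (0 : ℝ) ≤ X := Nat.cast_nonneg X
  nlinarith

lemma be_mul_Nn {X : ℕ} {ρ : ℝ} (hX : 1 ≤ X) : be X ρ * Nn X = QQf X ρ / 2 := by
  have := be_mul (ρ := ρ) hX
  unfold Nn
  push_cast
  linarith

/-- if `s ≥ X / Y^b` then `X ≤ Y^(b+10) lo s` -/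
theorem le_mul_lo {X s b : ℕ} (hs : s ≤ X) (hsb : (X : ℝ) ≤ Yx X ^ b * s) (hX : 1 ≤ X) :
    (X : ℝ) ≤ Yx X ^ (b + 10) * lo s := by
  have hs0 : 1 ≤ s := by
    rcases Nat.eq_zero_or_pos s with h | h
    · exfalso
      rw [h] at hsb
      have : (1 : ℝ) ≤ X := by exact_mod_cast hX
      norm_num at hsb
      linarith
    · exact h
  have h1 := Yx_pos hs0
  have h2 := Yx_mono hs
  have h3 : 1 ≤ Yx X ^ 10 / Yx s ^ 10 := by
    rw [one_le_div (by positivity)]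
    gcongr
  unfold lo
  have h4 : Yx X ^ (b + 10) * (s / Yx s ^ 10) = (Yx X ^ b * s) * (Yx X ^ 10 / Yx s ^ 10) := by
    rw [pow_add]
    ring
  rw [h4]
  have h5 : (0 : ℝ) ≤ Yx X ^ b * s := le_trans (by positivity) hsb
  nlinarith

/-- the numbers used in the estimates -/
lemma Num_data {X : ℕ} (hB : Big X) {a : ℕ} (ha : a ≤ 950) : ∃ (n5 n2 : ℝ),
    Yx X ^ 20000 ≤ n5 ∧ Yx X ^ 50000 ≤ n2 ∧ Yx X ^ 100000 ≤ (Nn X : ℝ) ∧
    (Nn X : ℝ) ^ (14 / 5 : ℝ) = (Nn X : ℝ) ^ 3 / n5 ∧ (Nn X : ℝ) ^ (3 / 2 : ℝ) = (Nn X : ℝ) ^ 2 / n2 ∧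
    (10 : ℝ) ^ 20 ≤ Yx X ∧ (X : ℝ) ≤ Nn X ∧ 1 ≤ QQf X (Yx X ^ a) ∧ QQf X (Yx X ^ a) ≤ Yx X ^ 951 ∧
    be X (Yx X ^ a) = QQf X (Yx X ^ a) / 2 / Nn X := by
  have hX := hB.one_le
  have hy := Yx_one_le hX
  have hN1 : (1 : ℝ) ≤ Nn X := by exact_mod_cast one_le_Nn hX
  have hN0 : (0 : ℝ) < Nn X := by linarith
  have hXN : (X : ℝ) ≤ Nn X := by exact_mod_cast X_le_Nn X
  have hH1 : (1 : ℝ) ≤ (H : ℝ) ^ 10 := by
    have : (1 : ℝ) ≤ H := by exact_mod_cast H_pos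
    exact one_le_pow₀ this
  have hy20 : (10 : ℝ) ^ 20 ≤ Yx X := by
    refine le_trans ?_ hB.H_le
    nlinarith
  have hp := Yx_pow X
  have hNp : Yx X ^ 100000 ≤ (Nn X : ℝ) := by rw [hp]; exact hXN
  refine ⟨(Nn X : ℝ) ^ (1 / 5 : ℝ), (Nn X : ℝ) ^ (1 / 2 : ℝ), ?_, ?_, hNp, ?_, ?_, hy20, hXN, ?_, ?_, ?_⟩
  · have h1 : Yx X ^ 20000 = (Yx X ^ 100000) ^ (1 / 5 : ℝ) := by
      rw [← Real.rpow_natCast, ← Real.rpow_natCast, ← Real.rpow_mul (by linarith)]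
      norm_num
    rw [h1]
    exact Real.rpow_le_rpow (by positivity) hNp (by norm_num)
  · have h1 : Yx X ^ 50000 = (Yx X ^ 100000) ^ (1 / 2 : ℝ) := by
      rw [← Real.rpow_natCast, ← Real.rpow_natCast, ← Real.rpow_mul (by linarith)]
      norm_num
    rw [h1]
    exact Real.rpow_le_rpow (by positivity) hNp (by norm_num)
  · rw [eq_div_iff (by positivity), ← Real.rpow_add hN0, ← Real.rpow_natCast]
    norm_num
  · rw [eq_div_iff (by positivity), ← Real.rpow_add hN0, ← Real.rpow_natCast]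
    norm_num
  · exact QQf_one_le hX (one_le_pow₀ hy)
  · unfold QQf
    calc Yx X * Yx X ^ a = Yx X ^ (a + 1) := by rw [pow_succ]; ring
      _ ≤ Yx X ^ 951 := pow_le_pow_right₀ hy (by omega)
  · rw [eq_div_iff hN0.ne']
    have := be_mul (ρ := Yx X ^ a) hX
    unfold Nn
    push_cast
    linarith

lemma Num_small {y n t : ℝ} (hy : 0 < y) (hn : 0 < n) (h : 3 * t * y ^ 13000 ≤ n) :
    t / n ≤ 1 / 3 * (y ^ 13000)⁻¹ := by
  have h1 : 1 / 3 * (y ^ 13000)⁻¹ = 1 / (3 * y ^ 13000) := by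
    field_simp
  rw [h1, div_le_div_iff₀ hn (by positivity)]
  linarith

/-- powers of `y` absorb constants -/
lemma Num_pow {y : ℝ} (hy : (10 : ℝ) ^ 20 ≤ y) {c : ℝ} (hc : c ≤ 1000) {m n : ℕ} (h : m + 1 ≤ n) :
    c * y ^ m ≤ y ^ n := by
  have hy1 : (1 : ℝ) ≤ y := le_trans (by norm_num) hy
  calc c * y ^ m ≤ y * y ^ m := by
        gcongr
        exact hc.trans (le_trans (by norm_num) hy)
    _ = y ^ (m + 1) := by rw [pow_succ]; ring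
    _ ≤ y ^ n := pow_le_pow_right₀ hy1 h

lemma Num_Q {y Q : ℝ} (hy : 1 ≤ y) (hQ1 : 1 ≤ Q) (hQ : Q ≤ y ^ 951) {m n : ℕ} (h : m ≤ n) :
    Q ^ m ≤ y ^ (951 * n) := by
  calc Q ^ m ≤ Q ^ n := pow_le_pow_right₀ hQ1 h
    _ ≤ (y ^ 951) ^ n := by gcongr
    _ = y ^ (951 * n) := by rw [← pow_mul]

/-- error of the joint coverings; `be * Nn = QQf/2`, `N^{-1/5} ≤ Y^{-20000}` -/
theorem eJ_le {X : ℕ} (hB : Big X) {a k : ℕ} (ha : a ≤ 950) (hk : k ≤ 4) (nb : ℕ) :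
    eJ X (Yx X ^ a) k nb ≤ (Yx X ^ 13000)⁻¹ + 3 * Yx X ^ (6 * (a + 1)) * nb / Nn X := by
  obtain ⟨n5, n2, h5, h2, hN, e14, e32, hy20, hXN, hQ1, hQ, hbe⟩ := Num_data hB ha
  have hX := hB.one_le
  have hlog := hB.log_le
  have hQy : QQf X (Yx X ^ a) = Yx X ^ (a + 1) := by
    unfold QQf
    rw [pow_succ]
    ring
  unfold eJ c2 c3
  rw [e14, e32, hbe]
  set y := Yx X with hydef
  set Q := QQf X (y ^ a) with hQdef
  set N : ℝ := (Nn X : ℝ) with hNdef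
  set L : ℝ := 1 + Real.log N with hL
  have hy1 : (1 : ℝ) ≤ y := le_trans (by norm_num) hy20
  have hy0 : (0 : ℝ) < y := by linarith
  have hn5 : 0 < n5 := lt_of_lt_of_le (by positivity) h5
  have hn2 : 0 < n2 := lt_of_lt_of_le (by positivity) h2
  have hN0 : 0 < N := lt_of_lt_of_le (by positivity) hN
  have hk' : (k : ℝ) ≤ 4 := by exact_mod_cast hk
  have hk0 : (0 : ℝ) ≤ k := Nat.cast_nonneg k
  have hnb : (0 : ℝ) ≤ nb := Nat.cast_nonneg nb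
  have hQ0 : 0 < Q := by linarith
  have e1 : Q ^ k * (Q / 2 / N) * ((Q / 2 / N) ^ 2 * (30 * (N ^ 3 / n5) * L) +
      2 * k * (Q / 2 / N) * (9 * (N ^ 2 / n2)) + (k : ℝ) ^ 2 + nb * (Q / 2 / N * N + k)) =
      (30 / 8 * Q ^ (k + 3) * L) / n5 + (9 / 2 * k * Q ^ (k + 2)) / n2 +
      (k ^ 2 / 2 * Q ^ (k + 1)) / N + (Q ^ (k + 1) / 2 * (Q / 2 + k)) * nb / N := by
    field_simp
    ring
  rw [e1]
  have b1 : (30 / 8 * Q ^ (k + 3) * L) / n5 ≤ 1 / 3 * (y ^ 13000)⁻¹ := by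
    refine Num_small hy0 hn5 (le_trans ?_ h5)
    have h6 := Num_Q hy1 hQ1 hQ (show k + 3 ≤ 7 by omega)
    calc 3 * (30 / 8 * Q ^ (k + 3) * L) * y ^ 13000
        ≤ 3 * (30 / 8 * y ^ (951 * 7) * y) * y ^ 13000 := by gcongr
      _ = 45 / 4 * y ^ 19658 := by ring
      _ ≤ y ^ 20000 := Num_pow hy20 (by norm_num) (by norm_num)
  have b2 : (9 / 2 * k * Q ^ (k + 2)) / n2 ≤ 1 / 3 * (y ^ 13000)⁻¹ := by
    refine Num_small hy0 hn2 (le_trans ?_ h2)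
    have h6 := Num_Q hy1 hQ1 hQ (show k + 2 ≤ 6 by omega)
    calc 3 * (9 / 2 * k * Q ^ (k + 2)) * y ^ 13000
        ≤ 3 * (9 / 2 * 4 * y ^ (951 * 6)) * y ^ 13000 := by gcongr
      _ = 54 * y ^ 18706 := by ring
      _ ≤ y ^ 50000 := Num_pow hy20 (by norm_num) (by norm_num)
  have b3 : (k ^ 2 / 2 * Q ^ (k + 1)) / N ≤ 1 / 3 * (y ^ 13000)⁻¹ := by
    refine Num_small hy0 hN0 (le_trans ?_ hN)
    have h6 := Num_Q hy1 hQ1 hQ (show k + 1 ≤ 5 by omega)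
    calc 3 * ((k : ℝ) ^ 2 / 2 * Q ^ (k + 1)) * y ^ 13000
        ≤ 3 * ((4 : ℝ) ^ 2 / 2 * y ^ (951 * 5)) * y ^ 13000 := by gcongr
      _ = 24 * y ^ 17755 := by ring
      _ ≤ y ^ 100000 := Num_pow hy20 (by norm_num) (by norm_num)
  have b4 : (Q ^ (k + 1) / 2 * (Q / 2 + k)) * nb / N ≤ 3 * y ^ (6 * (a + 1)) * nb / N := by
    have h6 : Q ^ (k + 1) / 2 * (Q / 2 + k) ≤ 3 * y ^ (6 * (a + 1)) := by
      have h7 : Q / 2 + k ≤ 9 / 2 * Q := by nlinarith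
      have h8 : Q ^ (k + 2) ≤ y ^ (6 * (a + 1)) := by
        rw [hQy, ← pow_mul]
        apply pow_le_pow_right₀ hy1
        nlinarith
      calc Q ^ (k + 1) / 2 * (Q / 2 + k) ≤ Q ^ (k + 1) / 2 * (9 / 2 * Q) := by gcongr
        _ = 9 / 4 * Q ^ (k + 2) := by ring
        _ ≤ 3 * y ^ (6 * (a + 1)) := by nlinarith [pow_pos hy0 (6 * (a + 1))]
    gcongr
  linarith

theorem eD_le {X : ℕ} (hB : Big X) {a k : ℕ} (ha : a ≤ 950) (hk : k ≤ 4) :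
    eD X (Yx X ^ a) k ≤ (Yx X ^ 13000)⁻¹ := by
  obtain ⟨n5, n2, h5, h2, hN, e14, e32, hy20, hXN, hQ1, hQ, hbe⟩ := Num_data hB ha
  unfold eD c3
  rw [e32, hbe]
  set y := Yx X with hydef
  set Q := QQf X (y ^ a) with hQdef
  set N : ℝ := (Nn X : ℝ) with hNdef
  have hy1 : (1 : ℝ) ≤ y := le_trans (by norm_num) hy20
  have hy0 : (0 : ℝ) < y := by linarith
  have hn2 : 0 < n2 := lt_of_lt_of_le (by positivity) h2
  have hN0 : 0 < N := lt_of_lt_of_le (by positivity) hN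
  have hk' : (k : ℝ) ≤ 4 := by exact_mod_cast hk
  have hk0 : (0 : ℝ) ≤ k := Nat.cast_nonneg k
  have hQ0 : 0 < Q := by linarith
  have e1 : Q ^ k * (Q / 2 / N) * (Q / 2 / N * (9 * (N ^ 2 / n2)) + k) =
      (9 / 4 * Q ^ (k + 2)) / n2 + (k / 2 * Q ^ (k + 1)) / N := by
    field_simp
    ring
  rw [e1]
  have b2 : (9 / 4 * Q ^ (k + 2)) / n2 ≤ 1 / 3 * (y ^ 13000)⁻¹ := by
    refine Num_small hy0 hn2 (le_trans ?_ h2)
    have h6 := Num_Q hy1 hQ1 hQ (show k + 2 ≤ 6 by omega)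
    calc 3 * (9 / 4 * Q ^ (k + 2)) * y ^ 13000
        ≤ 3 * (9 / 4 * y ^ (951 * 6)) * y ^ 13000 := by gcongr
      _ = 27 / 4 * y ^ 18706 := by ring
      _ ≤ y ^ 50000 := Num_pow hy20 (by norm_num) (by norm_num)
  have b3 : (k / 2 * Q ^ (k + 1)) / N ≤ 1 / 3 * (y ^ 13000)⁻¹ := by
    refine Num_small hy0 hN0 (le_trans ?_ hN)
    have h6 := Num_Q hy1 hQ1 hQ (show k + 1 ≤ 5 by omega)
    calc 3 * ((k : ℝ) / 2 * Q ^ (k + 1)) * y ^ 13000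
        ≤ 3 * (4 / 2 * y ^ (951 * 5)) * y ^ 13000 := by gcongr
      _ = 6 * y ^ 17755 := by ring
      _ ≤ y ^ 100000 := Num_pow hy20 (by norm_num) (by norm_num)
  have h0 : 0 < (y ^ 13000)⁻¹ := by positivity
  linarith

theorem eD2_le {X : ℕ} (hB : Big X) {a k : ℕ} (ha : a ≤ 950) (hk : k ≤ 4) :
    eD2 X (Yx X ^ a) k ≤ (Yx X ^ 13000)⁻¹ := by
  obtain ⟨n5, n2, h5, h2, hN, e14, e32, hy20, hXN, hQ1, hQ, hbe⟩ := Num_data hB ha
  have hlog := hB.log_le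
  unfold eD2 c3 c1
  rw [e32, hbe]
  set y := Yx X with hydef
  set Q := QQf X (y ^ a) with hQdef
  set N : ℝ := (Nn X : ℝ) with hNdef
  set L : ℝ := 1 + Real.log N with hL
  have hy1 : (1 : ℝ) ≤ y := le_trans (by norm_num) hy20
  have hy0 : (0 : ℝ) < y := by linarith
  have hn2 : 0 < n2 := lt_of_lt_of_le (by positivity) h2
  have hN0 : 0 < N := lt_of_lt_of_le (by positivity) hN
  have hk' : (k : ℝ) ≤ 4 := by exact_mod_cast hk
  have hk0 : (0 : ℝ) ≤ k := Nat.cast_nonneg k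
  have hQ0 : 0 < Q := by linarith
  have hkk : 2 * (k : ℝ) ^ 2 + k ≤ 36 := by nlinarith
  have e1 : Q ^ k * (Q / 2 / N) ^ 2 * (2 * (Q / 2 / N) ^ 2 * (9 * (N ^ 2 / n2)) * (4 * N ^ 2 * L) +
      Q / 2 / N * (4 * N ^ 2 * L) + X * (2 * (k : ℝ) ^ 2 + k)) =
      (9 / 2 * Q ^ (k + 4) * L) / n2 + (1 / 2 * Q ^ (k + 3) * L) / N +
      (1 / 4 * Q ^ (k + 2) * (2 * (k : ℝ) ^ 2 + k)) * (X / N) / N := by
    field_simp
    ring
  rw [e1]
  have b2 : (9 / 2 * Q ^ (k + 4) * L) / n2 ≤ 1 / 3 * (y ^ 13000)⁻¹ := by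
    refine Num_small hy0 hn2 (le_trans ?_ h2)
    have h6 := Num_Q hy1 hQ1 hQ (show k + 4 ≤ 8 by omega)
    calc 3 * (9 / 2 * Q ^ (k + 4) * L) * y ^ 13000
        ≤ 3 * (9 / 2 * y ^ (951 * 8) * y) * y ^ 13000 := by gcongr
      _ = 27 / 2 * y ^ 20609 := by ring
      _ ≤ y ^ 50000 := Num_pow hy20 (by norm_num) (by norm_num)
  have b3 : (1 / 2 * Q ^ (k + 3) * L) / N ≤ 1 / 3 * (y ^ 13000)⁻¹ := by
    refine Num_small hy0 hN0 (le_trans ?_ hN)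
    have h6 := Num_Q hy1 hQ1 hQ (show k + 3 ≤ 7 by omega)
    calc 3 * (1 / 2 * Q ^ (k + 3) * L) * y ^ 13000
        ≤ 3 * (1 / 2 * y ^ (951 * 7) * y) * y ^ 13000 := by gcongr
      _ = 3 / 2 * y ^ 19658 := by ring
      _ ≤ y ^ 100000 := Num_pow hy20 (by norm_num) (by norm_num)
  have b4 : (1 / 4 * Q ^ (k + 2) * (2 * (k : ℝ) ^ 2 + k)) * (X / N) / N ≤
      1 / 3 * (y ^ 13000)⁻¹ := by
    refine Num_small hy0 hN0 (le_trans ?_ hN)
    have h6 := Num_Q hy1 hQ1 hQ (show k + 2 ≤ 6 by omega)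
    have h7 : (X : ℝ) / N ≤ 1 := by
      rw [div_le_one hN0]
      exact hXN
    calc 3 * ((1 / 4 * Q ^ (k + 2) * (2 * (k : ℝ) ^ 2 + k)) * (X / N)) * y ^ 13000
        ≤ 3 * ((1 / 4 * y ^ (951 * 6) * 36) * 1) * y ^ 13000 := by gcongr
      _ = 27 * y ^ 18706 := by ring
      _ ≤ y ^ 100000 := Num_pow hy20 (by norm_num) (by norm_num)
  linarith

/-- the error of the product lemma with at most 4 factors -/
theorem eU_le {ι : Type*} {X : ℕ} (hB : Big X) {a : ℕ} (ha : a ≤ 950) (I : Finset ι)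
    (hI : I.card ≤ 4) (B : ι → Set Pt) (p : ι → Pt) :
    eU X (Yx X ^ a) I B p ≤ (Yx X ^ 12000)⁻¹ +
      Yx X ^ (6 * (a + 1) + 5) / Nn X *
        ∑ i ∈ I, ∑ j ∈ I, (if p i = p j then 0 else (nB X (B i) (p i) (B j) (p j) : ℝ)) := by
  have hD := eD_le hB ha hI
  have hJ := eJ_le hB ha hI 0
  obtain ⟨n5, n2, h5, h2, hN, e14, e32, hy20, hXN, hQ1, hQ, hbe⟩ := Num_data hB ha
  have hQy : QQf X (Yx X ^ a) = Yx X ^ (a + 1) := by
    unfold QQf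
    rw [pow_succ]
    ring
  unfold eU
  set k := I.card with hkdef
  have hk' : (k : ℝ) ≤ 4 := by exact_mod_cast hI
  have hk0 : (0 : ℝ) ≤ k := Nat.cast_nonneg k
  have hexp : Real.exp k ≤ 55 := by
    calc Real.exp k ≤ Real.exp 4 := Real.exp_le_exp.mpr hk'
      _ = Real.exp 1 ^ 4 := by rw [← Real.exp_nat_mul]; norm_num
      _ ≤ 2.7182818286 ^ 4 := by
        gcongr
        exact Real.exp_one_lt_d9.le
      _ ≤ 55 := by norm_num
  rw [hbe]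
  simp only [Nat.cast_zero, mul_zero, zero_div, add_zero] at hJ
  set y := Yx X with hydef
  set Q := QQf X (y ^ a) with hQdef
  set N : ℝ := (Nn X : ℝ) with hNdef
  have hy1 : (1 : ℝ) ≤ y := le_trans (by norm_num) hy20
  have hy0 : (0 : ℝ) < y := by linarith
  have hN0 : 0 < N := lt_of_lt_of_le (by positivity) hN
  have hQ0 : 0 < Q := by linarith
  have hyk : y ^ k ≤ y ^ 4 := pow_le_pow_right₀ hy1 hI
  set T : ℝ := ∑ i ∈ I, ∑ j ∈ I, (if p i = p j then 0 else (nB X (B i) (p i) (B j) (p j) : ℝ)) with hT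
  have hT0 : 0 ≤ T := by
    apply sum_nonneg
    intro i _
    apply sum_nonneg
    intro j _
    split_ifs
    · exact le_rfl
    · positivity
  have e1 : ∑ i ∈ I, ∑ j ∈ I, (if p i = p j then 0 else
      Q ^ k * (Q / 2 / N) * (Q / 2 / N * N + k) * nB X (B i) (p i) (B j) (p j)) =
      Q ^ k * (Q / 2 / N) * (Q / 2 / N * N + k) * T := by
    rw [hT, mul_sum]
    apply sum_congr rfl
    intro i _
    rw [mul_sum]
    apply sum_congr rfl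
    intro j _
    split_ifs
    · rw [mul_zero]
    · rfl
  rw [e1]
  have e2 : Q ^ k * (Q / 2 / N) * (Q / 2 / N * N + k) * T =
      (Q ^ (k + 1) / 2 * (Q / 2 + k)) * T / N := by
    field_simp
    ring
  rw [e2]
  have h6 : Q ^ (k + 1) / 2 * (Q / 2 + k) ≤ 9 / 4 * y ^ (6 * (a + 1)) := by
    have h7 : Q / 2 + k ≤ 9 / 2 * Q := by nlinarith
    have h8 : Q ^ (k + 2) ≤ y ^ (6 * (a + 1)) := by
      rw [hQy, ← pow_mul]
      apply pow_le_pow_right₀ hy1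
      nlinarith
    calc Q ^ (k + 1) / 2 * (Q / 2 + k) ≤ Q ^ (k + 1) / 2 * (9 / 2 * Q) := by gcongr
      _ = 9 / 4 * Q ^ (k + 2) := by ring
      _ ≤ 9 / 4 * y ^ (6 * (a + 1)) := by gcongr
  have b1 : Real.exp k * y ^ k * ((k : ℝ) ^ 2 * (eD X (y ^ a) k + eJ X (y ^ a) k 0)) ≤
      (y ^ 12000)⁻¹ := by
    have hsum : (k : ℝ) ^ 2 * (eD X (y ^ a) k + eJ X (y ^ a) k 0) ≤ 32 * (y ^ 13000)⁻¹ := by
      have h0 : (0:ℝ) < (y ^ 13000)⁻¹ := by positivity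
      have h9 : (k : ℝ) ^ 2 ≤ 16 := by nlinarith
      calc (k : ℝ) ^ 2 * (eD X (y ^ a) k + eJ X (y ^ a) k 0) ≤
          (k : ℝ) ^ 2 * ((y ^ 13000)⁻¹ + (y ^ 13000)⁻¹) := by gcongr
        _ ≤ 16 * ((y ^ 13000)⁻¹ + (y ^ 13000)⁻¹) := by gcongr
        _ = 32 * (y ^ 13000)⁻¹ := by ring
    calc Real.exp k * y ^ k * ((k : ℝ) ^ 2 * (eD X (y ^ a) k + eJ X (y ^ a) k 0)) ≤
        Real.exp k * y ^ k * (32 * (y ^ 13000)⁻¹) := by gcongr
      _ ≤ 55 * y ^ 4 * (32 * (y ^ 13000)⁻¹) := by gcongr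
      _ ≤ (y ^ 12000)⁻¹ := by
        have h10 : (y ^ 12000)⁻¹ = (y ^ 996 * y ^ 4) * (y ^ 13000)⁻¹ := by
          rw [← pow_add]
          norm_num
          rw [← div_eq_mul_inv, eq_div_iff (by positivity), inv_mul_eq_div,
            div_eq_iff (by positivity), ← pow_add]
        rw [h10]
        have h11 : (1760 : ℝ) ≤ y ^ 996 := by
          calc (1760 : ℝ) ≤ y := le_trans (by norm_num) hy20
            _ = y ^ 1 := (pow_one y).symm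
            _ ≤ y ^ 996 := pow_le_pow_right₀ hy1 (by norm_num)
        calc 55 * y ^ 4 * (32 * (y ^ 13000)⁻¹) = (1760 * y ^ 4) * (y ^ 13000)⁻¹ := by ring
          _ ≤ (y ^ 996 * y ^ 4) * (y ^ 13000)⁻¹ := by gcongr
  have b2 : Real.exp k * y ^ k * ((Q ^ (k + 1) / 2 * (Q / 2 + k)) * T / N) ≤
      y ^ (6 * (a + 1) + 5) / N * T := by
    calc Real.exp k * y ^ k * ((Q ^ (k + 1) / 2 * (Q / 2 + k)) * T / N) ≤
        55 * y ^ 4 * ((9 / 4 * y ^ (6 * (a + 1))) * T / N) := by gcongr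
      _ = (495 / 4 * y ^ 4 * y ^ (6 * (a + 1))) / N * T := by ring
      _ ≤ (y * y ^ 4 * y ^ (6 * (a + 1))) / N * T := by
        gcongr
        exact le_trans (by norm_num) hy20
      _ = y ^ (6 * (a + 1) + 5) / N * T := by
        rw [pow_add]
        ring
  calc _ = Real.exp k * y ^ k * ((k : ℝ) ^ 2 * (eD X (y ^ a) k + eJ X (y ^ a) k 0)) +
      Real.exp k * y ^ k * ((Q ^ (k + 1) / 2 * (Q / 2 + k)) * T / N) := by ring
    _ ≤ _ := add_le_add b1 b2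

end

end NTIL
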