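import Mathlib
import Pool.Agent.Lib.MP_2ffb02_co.Low
import Pool.Agent.Lib.MP_2ffb02_co.Num
import Pool.Agent.Lib.MP_2ffb02_co.MainC

/-!
# Concentration of the total weight of a column
-/

set_option autoImplicit false

namespace NTIL

open Finset

noncomputable section

/-- General second moment lemma: `Q` is a finite set of points, `w ≥ 0` weights, `B` a blind set.
If `E W_p W_q ≤ 1 + e` for `p ≠ q` in `Q` and `E W_p ≥ 1 - e'`, then
`E (∑ w_p W_p - ∑ w_p)² ≤ (∑ w_p)² (e + 2 e') + Y² ∑ w_p²`. -/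
theorem second_moment {X : ℕ} (hX : 1 ≤ X) (Q : Finset Pt) (w : Pt → ℝ) (hw : ∀ p ∈ Q, 0 ≤ w p)
    (B : Set Pt) (hcol : ∀ p ∈ Q, 1 ≤ p.1 ∧ p.1 ≤ X) {m : ℕ} {e e' : ℝ} (he' : 0 ≤ e')
    (h2 : ∀ p ∈ Q, ∀ q ∈ Q, p ≠ q → Ex m (fun h => W h B p * W h B q) ≤ 1 + e)
    (h1 : ∀ p ∈ Q, 1 - e' ≤ Ex m (fun h => W h B p)) (he : 0 ≤ e) :
    Ex m (fun h => (∑ p ∈ Q, w p * W h B p - ∑ p ∈ Q, w p) ^ 2) ≤
      (∑ p ∈ Q, w p) ^ 2 * (e + 2 * e') + Yx X ^ 2 * ∑ p ∈ Q, w p ^ 2 := by
  classical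
  set S0 := ∑ p ∈ Q, w p with hS0
  have hS0n : 0 ≤ S0 := sum_nonneg hw
  have hexp : ∀ h : Hist, (∑ p ∈ Q, w p * W h B p - S0) ^ 2 =
      ∑ p ∈ Q, ∑ q ∈ Q, w p * w q * (W h B p * W h B q) +
        (∑ p ∈ Q, (-2 * S0 * w p) * W h B p + S0 ^ 2) := by
    intro h
    have h3 : (∑ p ∈ Q, w p * W h B p) ^ 2 =
        ∑ p ∈ Q, ∑ q ∈ Q, w p * w q * (W h B p * W h B q) := by
      rw [sq, sum_mul_sum]
      apply sum_congr rfl
      intro p _
      apply sum_congr rfl
      intro q _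
      ring
    have h4 : ∑ p ∈ Q, (-2 * S0 * w p) * W h B p = -2 * S0 * ∑ p ∈ Q, w p * W h B p := by
      rw [Finset.mul_sum Q (fun p => w p * W h B p) (-2 * S0)]
      apply sum_congr rfl
      intro p _
      ring
    rw [← h3, h4]
    ring
  have hE : Ex m (fun h => (∑ p ∈ Q, w p * W h B p - S0) ^ 2) =
      ∑ p ∈ Q, ∑ q ∈ Q, w p * w q * Ex m (fun h => W h B p * W h B q) +
        (∑ p ∈ Q, (-2 * S0 * w p) * Ex m (fun h => W h B p) + S0 ^ 2) := by
    rw [Ex_congr (G := fun h => ∑ p ∈ Q, ∑ q ∈ Q, w p * w q * (W h B p * W h B q) +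
        (∑ p ∈ Q, (-2 * S0 * w p) * W h B p + S0 ^ 2)) (fun h _ _ => hexp h)]
    rw [Ex_add, Ex_add, Ex_const, Ex_sum, Ex_sum]
    congr 1
    · apply sum_congr rfl
      intro p _
      rw [Ex_sum]
      apply sum_congr rfl
      intro q _
      rw [Ex_const_mul]
    · congr 1
      apply sum_congr rfl
      intro p _
      rw [Ex_const_mul]
  rw [hE]
  have hY : ∀ p ∈ Q, Ex m (fun h => W h B p * W h B p) ≤ Yx X ^ 2 := by
    intro p hp
    obtain ⟨c1, c2⟩ := hcol p hp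
    calc Ex m (fun h => W h B p * W h B p) ≤ Ex m (fun _ => Yx X ^ 2) := by
          apply Ex_mono
          intro h _ _
          have a1 := W_nonneg h B p
          have a2 : W h B p ≤ Yx X := (W_le_Yx c1).trans (Yx_mono c2)
          nlinarith
      _ = Yx X ^ 2 := Ex_const _ _
  have hA : ∑ p ∈ Q, ∑ q ∈ Q, w p * w q * Ex m (fun h => W h B p * W h B q) ≤
      ∑ p ∈ Q, ∑ q ∈ Q, (w p * w q * (1 + e) + if p = q then Yx X ^ 2 * w p ^ 2 else 0) := by
    apply sum_le_sum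
    intro p hp
    apply sum_le_sum
    intro q hq
    have b1 := hw p hp
    have b2 := hw q hq
    have b3 : 0 ≤ w p * w q := mul_nonneg b1 b2
    split_ifs with hpq
    · subst hpq
      have b4 := mul_le_mul_of_nonneg_left (hY p hp) b3
      nlinarith
    · have b4 := mul_le_mul_of_nonneg_left (h2 p hp q hq hpq) b3
      linarith
  have hA2 : ∑ p ∈ Q, ∑ q ∈ Q, (w p * w q * (1 + e) + if p = q then Yx X ^ 2 * w p ^ 2 else 0) =
      S0 ^ 2 * (1 + e) + Yx X ^ 2 * ∑ p ∈ Q, w p ^ 2 := by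
    have g1 : S0 ^ 2 = ∑ p ∈ Q, ∑ q ∈ Q, w p * w q := by
      rw [sq, hS0, sum_mul_sum]
    rw [g1, mul_sum, sum_mul, ← sum_add_distrib]
    apply sum_congr rfl
    intro p hp
    rw [sum_add_distrib, sum_mul, sum_ite_eq, if_pos hp]
  have hC : ∑ p ∈ Q, (-2 * S0 * w p) * Ex m (fun h => W h B p) ≤ -2 * S0 ^ 2 * (1 - e') := by
    have c3 : -2 * S0 ^ 2 * (1 - e') = ∑ p ∈ Q, (-2 * S0 * w p) * (1 - e') := by
      rw [← sum_mul, ← mul_sum, ← hS0]
      ring
    rw [c3]
    apply sum_le_sum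
    intro p hp
    have d1 := h1 p hp
    have d2 : 0 ≤ 2 * S0 * w p := by
      have := hw p hp
      positivity
    nlinarith
  rw [hA2] at hA
  nlinarith

/-- two point bound from `prod_upper` (with `I = Fin 2` or `{0,1}`, all of weight type), when there
are no degenerate positions -/
theorem two_point {X : ℕ} (hB : Big X) {a : ℕ} (ha : a ≤ 950) {B : Set Pt} {p q : Pt} (hpq : p ≠ q)
    (hp : p ∈ Box X (Nn X)) (hq : q ∈ Box X (Nn X)) (hpl : (X : ℝ) ≤ Yx X ^ a * lo p.1)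
    (hql : (X : ℝ) ≤ Yx X ^ a * lo q.1) (hnb : nB X B p B q = 0) {m : ℕ} (hm : m ≤ X) :
    Ex m (fun h => W h B p * W h B q) ≤ 1 + (Yx X ^ 12000)⁻¹ := by
  have hX := hB.one_le
  have hy := Yx_one_le hX
  have hρ : 1 ≤ Yx X ^ a := one_le_pow₀ hy
  have hnb' : nB X B q B p = 0 := by
    rw [← hnb]
    unfold nB
    congr 1
    ext y
    simp only [mem_filter]
    rw [det_swap y p q, neg_eq_zero]
    tauto
  have h1 := prod_upper (ι := Fin 2) hX hρ univ (fun _ => False) (fun _ => B) ![p, q]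
    (by intro i _ hi; exact hi.elim)
    (by
      intro i _ j _ hij
      fin_cases i <;> fin_cases j <;> simp_all [hpq.symm])
    (by
      intro i _
      fin_cases i
      · exact hp
      · exact hq)
    (by
      intro i _
      fin_cases i
      · exact hpl
      · exact hql) hm
  have h2 := eU_le hB ha (univ : Finset (Fin 2)) (by simp) (fun _ => B) ![p, q]
  have h3 : ∑ i ∈ (univ : Finset (Fin 2)), ∑ j ∈ (univ : Finset (Fin 2)),
      (if (![p, q] : Fin 2 → Pt) i = ![p, q] j then 0 else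
        (nB X B ((![p, q] : Fin 2 → Pt) i) B ((![p, q] : Fin 2 → Pt) j) : ℝ)) = 0 := by
    simp [Fin.sum_univ_two, hpq, hpq.symm, hnb, hnb']
  rw [h3, mul_zero, add_zero] at h2
  have h4 : Ex m (fun h => W h B p * W h B q) =
      Ex m (fun h => ∏ i ∈ (univ : Finset (Fin 2)), chi False B ((![p, q] : Fin 2 → Pt) i) h) := by
    apply Ex_congr
    intro h _ _
    simp [Fin.prod_univ_two, chi]
  rw [h4]
  linarith

lemma Conc_big {X : ℕ} (hB : Big X) : (10 : ℝ) ^ 20 ≤ Yx X := by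
  have hH1 : (1 : ℝ) ≤ (H : ℝ) ^ 10 := by
    have : (1 : ℝ) ≤ H := by exact_mod_cast H_pos
    exact one_le_pow₀ this
  refine le_trans ?_ hB.H_le
  nlinarith

lemma Conc_card_V_le (X : ℕ) : (V X).card ≤ Nn X := by
  classical
  unfold V Nn
  refine (card_filter_le _ _).trans ?_
  simp

lemma Conc_nB {X : ℕ} {B B' : Set Pt} {k k' : ℕ} (h : k ≠ k') :
    nB X B (X, k) B' (X, k') = 0 := by
  unfold nB
  rw [card_eq_zero]
  ext y
  simp only [mem_filter, notMem_empty, iff_false]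
  rintro ⟨-, h1, -, h2, -⟩
  have h3 : (y.1 : ℤ) < X := by exact_mod_cast h1
  have h4 : det y (X, k) (X, k') = ((X : ℤ) - y.1) * ((k' : ℤ) - k) := by
    unfold det
    push_cast
    ring
  rw [h4] at h2
  rcases mul_eq_zero.mp h2 with h5 | h5
  · omega
  · apply h
    omega

/-- the total weight of column `X` is concentrated around `|V X|` -/
theorem T_conc {X : ℕ} (hB : Big X) :
    Ex (X - 1) (fun h => (T h - (V X).card) ^ 2) ≤ (Nn X : ℝ) ^ 2 * (Yx X ^ 11000)⁻¹ := by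
  classical
  have hX := hB.one_le
  have hy := Yx_one_le hX
  have hy20 := Conc_big hB
  have hρ : 1 ≤ Yx X ^ (0 + 10) := one_le_pow₀ hy
  have hlo : (X : ℝ) ≤ Yx X ^ (0 + 10) * lo X := le_mul_lo le_rfl (by simp) hX
  have hinj : Function.Injective (fun k : ℕ => ((X, k) : Pt)) := by
    intro k k' h
    simpa using h
  set Q : Finset Pt := (V X).image (fun k : ℕ => ((X, k) : Pt)) with hQ
  have hQmem : ∀ p ∈ Q, ∃ k ∈ V X, p = (X, k) := by
    intro p hp
    rw [hQ, mem_image] at hp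
    obtain ⟨k, hk, rfl⟩ := hp
    exact ⟨k, hk, rfl⟩
  have hbox : ∀ k ∈ V X, ((X, k) : Pt) ∈ Box X (Nn X) := by
    intro k hk
    have := V_lt hk
    unfold Box Nn
    simp only [mem_product, mem_range]
    omega
  have hsm := second_moment hX Q (fun _ => 1) (fun _ _ => zero_le_one) ∅
    (by
      intro p hp
      obtain ⟨k, hk, rfl⟩ := hQmem p hp
      exact ⟨hX, le_rfl⟩) (m := X - 1) (e := (Yx X ^ 12000)⁻¹)
    (e' := Yx X * (Yx X ^ 13000)⁻¹) (by positivity)
    (by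
      intro p hp q hq hpq
      obtain ⟨k, hk, rfl⟩ := hQmem p hp
      obtain ⟨k', hk', rfl⟩ := hQmem q hq
      have hkk : k ≠ k' := by
        intro h
        exact hpq (by rw [h])
      exact two_point hB (a := 0 + 10) (by norm_num) hpq (hbox k hk) (hbox k' hk') hlo hlo
        (Conc_nB hkk) (by omega))
    (by
      intro p hp
      obtain ⟨k, hk, rfl⟩ := hQmem p hp
      have h1 := single_lower hX hρ ∅ (hbox k hk) hlo (m := X - 1) (by omega)
      have h2 := eD2_le hB (a := 0 + 10) (k := 0) (by norm_num) (by norm_num)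
      have h3 : Yx X * eD2 X (Yx X ^ (0 + 10)) 0 ≤ Yx X * (Yx X ^ 13000)⁻¹ :=
        mul_le_mul_of_nonneg_left h2 (by linarith)
      linarith) (by positivity)
  have hcard : (Q.card : ℝ) = (V X).card := by
    rw [hQ, card_image_of_injective _ hinj]
  have hcard2 : ((V X).card : ℝ) ≤ Nn X := by exact_mod_cast Conc_card_V_le X
  have hcongr : Ex (X - 1) (fun h => (T h - (V X).card) ^ 2) =
      Ex (X - 1) (fun h => (∑ p ∈ Q, 1 * W h ∅ p - ∑ p ∈ Q, (1 : ℝ)) ^ 2) := by
    apply Ex_congr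
    intro h _ hl
    have hl1 : h.length + 1 = X := by omega
    have e1 : T h = ∑ p ∈ Q, 1 * W h ∅ p := by
      rw [T_eq, hl1, hQ, sum_image (fun a _ b _ hab => hinj hab)]
      simp
    have e2 : ∑ p ∈ Q, (1 : ℝ) = (V X).card := by
      rw [sum_const, nsmul_eq_mul, mul_one, hcard]
    rw [e1, e2]
  rw [hcongr]
  refine hsm.trans ?_
  have e3 : ∑ p ∈ Q, (1 : ℝ) = (V X).card := by
    rw [sum_const, nsmul_eq_mul, mul_one, hcard]
  have e4 : ∑ p ∈ Q, (1 : ℝ) ^ 2 = (V X).card := by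
    rw [one_pow, sum_const, nsmul_eq_mul, mul_one, hcard]
  rw [e3, e4]
  set y := Yx X with hydef
  set N : ℝ := (Nn X : ℝ) with hN
  set c : ℝ := ((V X).card : ℝ) with hc
  have hc0 : 0 ≤ c := Nat.cast_nonneg _
  have hy0 : 0 < y := by linarith
  have hNy : y ^ 100000 ≤ N := by
    rw [hydef, Yx_pow, hN]
    exact_mod_cast X_le_Nn X
  have hN0 : 0 < N := lt_of_lt_of_le (by positivity) hNy
  have hsmall : ∀ m, 11001 ≤ m → (y ^ m)⁻¹ ≤ 1 / 10 * (y ^ 11000)⁻¹ := by
    intro m hm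
    have h1 := Num_pow hy20 (c := 10) (by norm_num) (m := 11000) (n := m) (by omega)
    have h2 : 1 / 10 * (y ^ 11000)⁻¹ = (10 * y ^ 11000)⁻¹ := by
      rw [mul_inv]
      norm_num
    rw [h2]
    exact inv_anti₀ (by positivity) h1
  have s1 := hsmall 12000 (by norm_num)
  have s2 : y * (y ^ 13000)⁻¹ ≤ 1 / 10 * (y ^ 11000)⁻¹ := by
    have h1 : y * (y ^ 13000)⁻¹ = (y ^ 12999)⁻¹ := by
      have : y ^ 13000 = y ^ 12999 * y := by rw [← pow_succ]
      rw [this, mul_inv]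
      field_simp
    rw [h1]
    exact hsmall 12999 (by norm_num)
  have s3 : y ^ 2 ≤ 1 / 10 * (y ^ 11000)⁻¹ * N := by
    have h1 := Num_pow hy20 (c := 10) (by norm_num) (m := 11002) (n := 100000) (by norm_num)
    have h2 : 10 * y ^ 11002 ≤ N := h1.trans hNy
    have h3 : 1 / 10 * (y ^ 11000)⁻¹ * (10 * y ^ 11002) = y ^ 2 := by
      have : y ^ 11002 = y ^ 11000 * y ^ 2 := by rw [← pow_add]
      rw [this]
      field_simp
    rw [← h3]
    gcongr
  set t := (y ^ 11000)⁻¹ with ht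
  have ht0 : 0 < t := by positivity
  have u1 : c ^ 2 * ((y ^ 12000)⁻¹ + 2 * (y * (y ^ 13000)⁻¹)) ≤ N ^ 2 * (3 / 10 * t) := by
    have v1 : (y ^ 12000)⁻¹ + 2 * (y * (y ^ 13000)⁻¹) ≤ 3 / 10 * t := by linarith
    have v2 : 0 ≤ (y ^ 12000)⁻¹ + 2 * (y * (y ^ 13000)⁻¹) := by positivity
    have v3 : c ^ 2 ≤ N ^ 2 := by gcongr
    exact mul_le_mul v3 v1 v2 (by positivity)
  have u2 : y ^ 2 * c ≤ 1 / 10 * t * N * N := by
    have : y ^ 2 * c ≤ (1 / 10 * t * N) * N := by gcongr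
    linarith
  nlinarith [mul_pos (mul_pos hN0 hN0) ht0]

/-- `|V X| ≤ H X`; Chebyshev -/
theorem PT_le {X : ℕ} (hB : Big X) : PT X ≤ (Yx X ^ 11000)⁻¹ := by
  classical
  have hX := hB.one_le
  have hN0 : (0 : ℝ) < Nn X := by exact_mod_cast one_le_Nn hX
  have hN : (Nn X : ℝ) = H * X := by unfold Nn; push_cast; ring
  have hc : ((V X).card : ℝ) ≤ Nn X := by exact_mod_cast Conc_card_V_le X
  have h1 := T_conc hB
  unfold PT
  calc Ex (X - 1) (fun h => if 2 * H * X < T h then (1 : ℝ) else 0)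
      ≤ Ex (X - 1) (fun h => ((Nn X : ℝ) ^ 2)⁻¹ * (T h - (V X).card) ^ 2) := by
        apply Ex_mono
        intro h _ _
        split_ifs with h2
        · have h3 : (Nn X : ℝ) ≤ T h - (V X).card := by
            rw [hN] at hc ⊢
            linarith
          have h4 : (Nn X : ℝ) ^ 2 ≤ (T h - (V X).card) ^ 2 := by gcongr
          rw [inv_mul_eq_div, le_div_iff₀ (by positivity), one_mul]
          exact h4
        · positivity
    _ = ((Nn X : ℝ) ^ 2)⁻¹ * Ex (X - 1) (fun h => (T h - (V X).card) ^ 2) := Ex_const_mul _ _ _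
    _ ≤ ((Nn X : ℝ) ^ 2)⁻¹ * ((Nn X : ℝ) ^ 2 * (Yx X ^ 11000)⁻¹) := by gcongr
    _ = (Yx X ^ 11000)⁻¹ := by
        rw [← mul_assoc, inv_mul_cancel₀ (by positivity), one_mul]

open scoped Classical in
/-- in most cases the probability to pick a point in column `X` is at least `2/5` -/
theorem goodT {X : ℕ} (hB : Big X) :
    Ex (X - 1) (fun h => if ∑ k ∈ V X, pi h k < 2 / 5 then 1 else 0) ≤ (Yx X ^ 2)⁻¹ := by
  have hX := hB.one_le
  have hy20 := Conc_big hB
  have hy1 : (1 : ℝ) ≤ Yx X := le_trans (by norm_num) hy20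
  have hN0 : (0 : ℝ) < Nn X := by exact_mod_cast one_le_Nn hX
  have hN : (Nn X : ℝ) = H * X := by unfold Nn; push_cast; ring
  have hc : ((V X).card : ℝ) ≤ Nn X := by exact_mod_cast Conc_card_V_le X
  have hc2 : 9 / 10 * (Nn X : ℝ) ≤ (V X).card := by
    have h1 := card_DC_ge (H := H) (X := X) H_pos (A := Yx X ^ 300) (one_le_pow₀ hy1) (by
      have h2 := Num_pow hy20 (c := 100) (by norm_num) (m := 600) (n := 100000) (by norm_num)
      rw [Yx_pow] at h2
      calc 100 * (Yx X ^ 300) ^ 2 = 100 * Yx X ^ 600 := by rw [← pow_mul]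
        _ ≤ (X : ℝ) := h2)
    rw [hN]
    exact h1
  have h1 := T_conc hB
  calc Ex (X - 1) (fun h => if ∑ k ∈ V X, pi h k < 2 / 5 then (1 : ℝ) else 0)
      ≤ Ex (X - 1) (fun h => (100 * ((Nn X : ℝ) ^ 2)⁻¹) * (T h - (V X).card) ^ 2) := by
        apply Ex_mono
        intro h _ hl
        have hl1 : h.length + 1 = X := by omega
        split_ifs with h2
        · have h3 : (Nn X : ℝ) / 10 ≤ |T h - (V X).card| := by
            by_contra h4
            push Not at h4
            rw [abs_lt] at h4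
            have h5 : T h ≤ 2 * H * (h.length + 1 : ℕ) := by
              rw [hl1]
              have : (2 : ℝ) * H * X = 2 * Nn X := by rw [hN]; ring
              rw [this]
              linarith
            have h6 : ∑ k ∈ V X, pi h k = T h / (2 * H * X) := by
              rw [T_eq, hl1, sum_div]
              apply sum_congr rfl
              intro k _
              rw [pi_eq, if_pos h5, hl1]
            rw [h6] at h2
            have h7 : (2 : ℝ) * H * X = 2 * Nn X := by rw [hN]; ring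
            rw [h7, div_lt_iff₀ (by positivity)] at h2
            linarith
          have h4 : ((Nn X : ℝ) / 10) ^ 2 ≤ (T h - (V X).card) ^ 2 := by
            rw [← sq_abs (T h - (V X).card)]
            gcongr
          have h5 : 100 * ((Nn X : ℝ) ^ 2)⁻¹ * ((Nn X : ℝ) / 10) ^ 2 = 1 := by
            field_simp
            norm_num
          rw [← h5]
          gcongr
        · positivity
    _ = (100 * ((Nn X : ℝ) ^ 2)⁻¹) * Ex (X - 1) (fun h => (T h - (V X).card) ^ 2) :=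
        Ex_const_mul _ _ _
    _ ≤ (100 * ((Nn X : ℝ) ^ 2)⁻¹) * ((Nn X : ℝ) ^ 2 * (Yx X ^ 11000)⁻¹) := by gcongr
    _ = 100 * (Yx X ^ 11000)⁻¹ := by
        field_simp
    _ ≤ (Yx X ^ 2)⁻¹ := by
        have h2 := Num_pow hy20 (c := 100) (by norm_num) (m := 2) (n := 11000) (by norm_num)
        have hy0 : 0 < Yx X := by linarith
        rw [← div_eq_mul_inv, div_le_iff₀ (by positivity), inv_mul_eq_div,
          le_div_iff₀ (by positivity)]
        exact h2

end

end NTIL
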