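import Mathlib
import Pool.Agent.Lib.MP_2ffb02_co.Geom

set_option autoImplicit false

namespace NTIL

open Finset

namespace MainA

lemma card_dvd_range_le (n d k : ℕ) (hd : 1 ≤ d) :
    (((range n).filter (fun h : ℕ => (d : ℤ) ∣ (k : ℤ) - h)).card : ℝ) ≤ (n : ℝ) / d + 1 := by
  have h1 : ((range n).filter (fun h : ℕ => (d : ℤ) ∣ (k : ℤ) - h)).card =
      Nat.count (fun h => h ≡ k [MOD d]) n := by
    rw [Nat.count_eq_card_filter_range]
    congr 1
    ext h
    simp [Nat.modEq_iff_dvd]
  rw [h1, Nat.count_modEq_card _ hd]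
  have h2 : ((n / d : ℕ) : ℝ) ≤ (n : ℝ) / d := Nat.cast_div_le
  split_ifs <;> push_cast <;> linarith

lemma sum_gcd_le (n k m : ℕ) (hm : 1 ≤ m) :
    (∑ h ∈ (range n).filter (fun h : ℕ => Int.gcd (m : ℤ) ((k : ℤ) - h) ≤ n),
      (Int.gcd (m : ℤ) ((k : ℤ) - h) : ℝ)) ≤ 2 * n * m.divisors.card := by
  have h1 : ∀ h ∈ (range n).filter (fun h : ℕ => Int.gcd (m : ℤ) ((k : ℤ) - h) ≤ n),
      (Int.gcd (m : ℤ) ((k : ℤ) - h) : ℝ) ≤
      ∑ d ∈ m.divisors.filter (fun d => d ≤ n), if (d : ℤ) ∣ (k : ℤ) - h then (d : ℝ) else 0 := by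
    intro h hh
    rw [mem_filter] at hh
    set g := Int.gcd (m : ℤ) ((k : ℤ) - h) with hg
    have hgm : g ∈ m.divisors.filter (fun d => d ≤ n) := by
      rw [mem_filter]
      refine ⟨?_, hh.2⟩
      rw [Nat.mem_divisors]
      refine ⟨?_, by omega⟩
      have := Int.gcd_dvd_left (m : ℤ) ((k : ℤ) - h)
      rw [← hg] at this
      exact_mod_cast this
    have hgd : (g : ℤ) ∣ (k : ℤ) - h := by
      rw [hg]; exact Int.gcd_dvd_right _ _
    have := single_le_sum (f := fun d : ℕ => if (d : ℤ) ∣ (k : ℤ) - h then (d : ℝ) else 0)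
      (s := m.divisors.filter (fun d => d ≤ n)) (fun d _ => by positivity) hgm
    simp only [if_pos hgd] at this
    exact this
  calc _ ≤ ∑ h ∈ (range n).filter (fun h : ℕ => Int.gcd (m : ℤ) ((k : ℤ) - h) ≤ n),
        ∑ d ∈ m.divisors.filter (fun d => d ≤ n), (if (d : ℤ) ∣ (k : ℤ) - h then (d : ℝ) else 0) :=
        sum_le_sum h1
    _ ≤ ∑ h ∈ range n, ∑ d ∈ m.divisors.filter (fun d => d ≤ n),
        (if (d : ℤ) ∣ (k : ℤ) - h then (d : ℝ) else 0) := by
        apply sum_le_sum_of_subset_of_nonneg (filter_subset _ _)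
        intro h _ _
        apply sum_nonneg
        intro d _
        positivity
    _ = ∑ d ∈ m.divisors.filter (fun d => d ≤ n), ∑ h ∈ range n,
        (if (d : ℤ) ∣ (k : ℤ) - h then (d : ℝ) else 0) := sum_comm
    _ ≤ ∑ d ∈ m.divisors.filter (fun d => d ≤ n), (2 * n : ℝ) := by
        apply sum_le_sum
        intro d hd
        rw [mem_filter, Nat.mem_divisors] at hd
        have hd1 : 1 ≤ d := Nat.pos_of_dvd_of_pos hd.1.1 hm
        rw [← sum_filter, sum_const, nsmul_eq_mul]
        have h2 := card_dvd_range_le n d k hd1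
        have h3 : (0 : ℝ) < d := by exact_mod_cast hd1
        calc _ ≤ ((n : ℝ) / d + 1) * d := mul_le_mul_of_nonneg_right h2 h3.le
          _ = n + d := by field_simp
          _ ≤ 2 * n := by
            have : (d : ℝ) ≤ n := by exact_mod_cast hd.2
            linarith
    _ ≤ 2 * n * m.divisors.card := by
        rw [sum_const, nsmul_eq_mul]
        have : ((m.divisors.filter (fun d => d ≤ n)).card : ℝ) ≤ m.divisors.card := by
          exact_mod_cast card_filter_le _ _
        have h0 : (0 : ℝ) ≤ 2 * n := by positivity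
        nlinarith

lemma harm_le (X : ℕ) : (∑ j ∈ Ico 1 X, 1 / (j : ℝ)) ≤ 1 + Real.log X := by
  have h1 := harmonic_le_one_add_log X
  have h2 : (∑ j ∈ Ico 1 X, 1 / (j : ℝ)) ≤ ((harmonic X : ℚ) : ℝ) := by
    unfold harmonic
    push_cast
    rw [Finset.range_eq_Ico]
    have : (∑ j ∈ Ico 1 X, 1 / (j : ℝ)) ≤ ∑ j ∈ Ico 1 (X + 1), 1 / (j : ℝ) := by
      apply sum_le_sum_of_subset_of_nonneg
      · intro j; simp only [mem_Ico]; omega
      · intro j _ _; positivity
    refine this.trans (le_of_eq ?_)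
    have := Finset.sum_Ico_add' (fun j : ℕ => 1 / (j : ℝ)) 0 X 1
    simp only [zero_add] at this
    rw [← this]
    apply sum_congr rfl
    intro j _
    push_cast
    rw [one_div]
  exact h2.trans h1

lemma log_le_sum (s X : ℕ) (hs : 1 ≤ s) (hsX : s ≤ X) :
    Real.log ((X : ℝ) / s) ≤ ∑ j ∈ Ico s X, 1 / (j : ℝ) := by
  induction X, hsX using Nat.le_induction with
  | base =>
    have : (s : ℝ) ≠ 0 := by positivity
    simp [div_self this]
  | succ n hn ih =>
    rw [sum_Ico_succ_top hn]
    have hn0 : (0 : ℝ) < n := by exact_mod_cast (by omega : 0 < n)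
    have hs0 : (0 : ℝ) < s := by exact_mod_cast (by omega : 0 < s)
    have h1 : ((n + 1 : ℕ) : ℝ) / s = ((n : ℝ) / s) * ((n + 1) / n) := by
      push_cast; field_simp
    rw [h1, Real.log_mul (by positivity) (by positivity)]
    have h2 : Real.log (((n : ℝ) + 1) / n) ≤ 1 / n := by
      have := Real.log_le_sub_one_of_pos (x := ((n : ℝ) + 1) / n) (by positivity)
      refine this.trans (le_of_eq ?_)
      field_simp
      ring
    linarith

/-- weight bound -/
lemma log_div_le (s X : ℕ) (hs : 1 ≤ s) (hsX : s < X) :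
    Real.log ((X : ℝ) / s) / ((X : ℝ) - s) ≤ 2 / X * (1 + ∑ j ∈ Ico s X, 1 / (j : ℝ)) := by
  have hs0 : (0 : ℝ) < s := by exact_mod_cast (by omega : 0 < s)
  have hX0 : (0 : ℝ) < X := by exact_mod_cast (by omega : 0 < X)
  have hd : (0 : ℝ) < (X : ℝ) - s := by
    have : (s : ℝ) < X := by exact_mod_cast hsX
    linarith
  have hsum : (0 : ℝ) ≤ ∑ j ∈ Ico s X, 1 / (j : ℝ) := by
    apply sum_nonneg; intro j _; positivity
  rw [div_le_iff₀ hd]
  by_cases h : X ≤ 2 * s
  · have h' : (X : ℝ) ≤ 2 * s := by exact_mod_cast h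
    have h1 : Real.log ((X : ℝ) / s) ≤ (X : ℝ) / s - 1 :=
      Real.log_le_sub_one_of_pos (by positivity)
    have h2 : (X : ℝ) / s - 1 = ((X : ℝ) - s) / s := by field_simp
    have h3 : ((X : ℝ) - s) / s ≤ 2 / X * (X - s) := by
      rw [div_le_iff₀ hs0]
      have : 2 / (X : ℝ) * (X - s) * s = (X - s) * (2 * s / X) := by ring
      rw [this]
      have h4 : 1 ≤ 2 * (s : ℝ) / X := by
        rw [le_div_iff₀ hX0]; linarith
      nlinarith
    have h5 : 2 / (X : ℝ) * (X - s) ≤ 2 / X * (1 + ∑ j ∈ Ico s X, 1 / (j : ℝ)) * (X - s) := by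
      apply mul_le_mul_of_nonneg_right _ hd.le
      have : 0 ≤ 2 / (X : ℝ) := by positivity
      nlinarith
    linarith
  · have h' : 2 * (s : ℝ) < X := by
      push Not at h
      exact_mod_cast h
    have h1 := log_le_sum s X hs hsX.le
    have h2 : 1 ≤ 2 / (X : ℝ) * (X - s) := by
      have : 2 / (X : ℝ) * (X - s) = (2 * (X - s)) / X := by ring
      rw [this, le_div_iff₀ hX0]; linarith
    calc Real.log ((X : ℝ) / s) ≤ ∑ j ∈ Ico s X, 1 / (j : ℝ) := h1
      _ ≤ 1 + ∑ j ∈ Ico s X, 1 / (j : ℝ) := by linarith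
      _ ≤ (2 / (X : ℝ) * (X - s)) * (1 + ∑ j ∈ Ico s X, 1 / (j : ℝ)) := by nlinarith
      _ = _ := by ring

lemma card_dvd_Ico_le (n d X : ℕ) (hd : 1 ≤ d) (hn : n ≤ X) :
    (((Ico 1 n).filter (fun s : ℕ => d ∣ X - s)).card : ℝ) ≤ (n : ℝ) / d + 1 := by
  refine le_trans ?_ (card_dvd_range_le n d X hd)
  apply Nat.cast_le.mpr
  apply card_le_card
  intro s
  simp only [mem_filter, mem_Ico, mem_range]
  rintro ⟨⟨h1, h2⟩, h3⟩
  refine ⟨h2, ?_⟩
  have h4 : (d : ℤ) ∣ ((X - s : ℕ) : ℤ) := Int.natCast_dvd_natCast.mpr h3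
  rw [Nat.cast_sub (by omega : s ≤ X)] at h4
  exact h4

/-- the divisor sum -/
lemma divisor_sum_le (X : ℕ) (hX : 1 ≤ X) :
    (∑ s ∈ Ico 1 X, ((X - s).divisors.card : ℝ) * (Real.log ((X : ℝ) / s) / ((X : ℝ) - s))) ≤
      8 * (1 + Real.log X) := by
  have hX0 : (0 : ℝ) < X := by exact_mod_cast hX
  have hlog : 0 ≤ Real.log X := Real.log_natCast_nonneg X
  have hH := harm_le X
  set w : ℕ → ℝ := fun s => 1 + ∑ j ∈ Ico s X, 1 / (j : ℝ) with hw
  have hw0 : ∀ s, 0 ≤ w s := by
    intro s
    have : (0 : ℝ) ≤ ∑ j ∈ Ico s X, 1 / (j : ℝ) := by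
      apply sum_nonneg; intro j _; positivity
    simp only [hw]; linarith
  have step1 : (∑ s ∈ Ico 1 X, ((X - s).divisors.card : ℝ) *
      (Real.log ((X : ℝ) / s) / ((X : ℝ) - s))) ≤
      2 / X * ∑ s ∈ Ico 1 X, ((X - s).divisors.card : ℝ) * w s := by
    rw [mul_sum]
    apply sum_le_sum
    intro s hs
    rw [mem_Ico] at hs
    have := log_div_le s X hs.1 hs.2
    have h0 : (0 : ℝ) ≤ ((X - s).divisors.card : ℝ) := by positivity
    calc _ ≤ ((X - s).divisors.card : ℝ) * (2 / X * w s) := mul_le_mul_of_nonneg_left this h0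
      _ = _ := by ring
  have step2 : ∑ s ∈ Ico 1 X, ((X - s).divisors.card : ℝ) * w s =
      ∑ d ∈ Ico 1 X, ∑ s ∈ (Ico 1 X).filter (fun s => d ∣ X - s), w s := by
    have h1 : ∀ s ∈ Ico 1 X, ((X - s).divisors.card : ℝ) * w s =
        ∑ d ∈ Ico 1 X, if d ∣ X - s then w s else 0 := by
      intro s hs
      rw [mem_Ico] at hs
      rw [← sum_filter, sum_const, nsmul_eq_mul]
      congr 2
      congr 1
      ext d
      simp only [Nat.mem_divisors, mem_filter, mem_Ico]
      constructor
      · rintro ⟨h1, h2⟩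
        have h3 := Nat.le_of_dvd (by omega) h1
        have h4 := Nat.pos_of_dvd_of_pos h1 (by omega)
        exact ⟨⟨by omega, by omega⟩, h1⟩
      · rintro ⟨_, h1⟩
        exact ⟨h1, by omega⟩
    rw [sum_congr rfl h1, sum_comm]
    apply sum_congr rfl
    intro d _
    rw [sum_filter]
  have step3 : ∀ d ∈ Ico 1 X, ∑ s ∈ (Ico 1 X).filter (fun s => d ∣ X - s), w s ≤
      2 * (X : ℝ) / d + (2 + Real.log X) := by
    intro d hd
    rw [mem_Ico] at hd
    have hd0 : (0 : ℝ) < d := by exact_mod_cast (by omega : 0 < d)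
    have e1 : ∑ s ∈ (Ico 1 X).filter (fun s => d ∣ X - s), w s =
        ((Ico 1 X).filter (fun s => d ∣ X - s)).card +
        ∑ j ∈ Ico 1 X, ((((Ico 1 (j + 1)).filter (fun s => d ∣ X - s)).card : ℝ) * (1 / (j : ℝ))) := by
      simp only [hw]
      rw [sum_add_distrib]
      congr 1
      · simp
      · have h2 : ∀ s ∈ (Ico 1 X).filter (fun s => d ∣ X - s), ∑ j ∈ Ico s X, 1 / (j : ℝ) =
            ∑ j ∈ Ico 1 X, if s ≤ j then 1 / (j : ℝ) else 0 := by
          intro s hs
          rw [mem_filter, mem_Ico] at hs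
          rw [← sum_filter]
          apply sum_congr _ (fun _ _ => rfl)
          ext j
          simp only [mem_Ico, mem_filter]
          omega
        rw [sum_congr rfl h2, sum_comm]
        apply sum_congr rfl
        intro j hj
        rw [mem_Ico] at hj
        rw [← sum_filter, sum_const, nsmul_eq_mul]
        congr 3
        ext s
        simp only [mem_filter, mem_Ico]
        constructor
        · rintro ⟨⟨h3, h4⟩, h5⟩
          exact ⟨⟨h3.1, by omega⟩, h4⟩
        · rintro ⟨h3, h4⟩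
          exact ⟨⟨⟨h3.1, by omega⟩, h4⟩, by omega⟩
    rw [e1]
    have b1 := card_dvd_Ico_le X d X hd.1 le_rfl
    have b2 : ∑ j ∈ Ico 1 X, ((((Ico 1 (j + 1)).filter (fun s => d ∣ X - s)).card : ℝ) *
        (1 / (j : ℝ))) ≤ ∑ j ∈ Ico 1 X, (1 / (d : ℝ) + 1 / (j : ℝ)) := by
      apply sum_le_sum
      intro j hj
      rw [mem_Ico] at hj
      have hj0 : (0 : ℝ) < j := by exact_mod_cast (by omega : 0 < j)
      have hc : (((Ico 1 (j + 1)).filter (fun s => d ∣ X - s)).card : ℝ) ≤ (j : ℝ) / d + 1 := by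
        have h3 : (((Ico 1 (j + 1)).filter (fun s => d ∣ X - s)).card : ℝ) ≤
            (((range (j + 1)).filter (fun s => d ∣ X - s)).card : ℝ) := by
          norm_cast
          apply card_le_card
          intro s
          simp only [mem_filter, mem_Ico, mem_range]
          tauto
        -- number of s in [1, j]
        have h4 : ((Ico 1 (j + 1)).filter (fun s => d ∣ X - s)).card ≤
            ((range j).filter (fun h : ℕ => (d : ℤ) ∣ ((X - 1 : ℕ) : ℤ) - h)).card := by
          apply card_le_card_of_injOn (fun s => s - 1)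
          · intro s hs
            simp only [coe_filter, mem_Ico, Set.mem_ofPred_eq, mem_range] at hs ⊢
            refine ⟨by omega, ?_⟩
            have : ((X - 1 : ℕ) : ℤ) - ((s - 1 : ℕ) : ℤ) = ((X - s : ℕ) : ℤ) := by omega
            rw [this]
            exact_mod_cast hs.2
          · intro s hs t ht hst
            simp only [coe_filter, mem_Ico, Set.mem_ofPred_eq] at hs ht
            have : s - 1 = t - 1 := hst
            omega
        have h5 := card_dvd_range_le j d (X - 1) hd.1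
        have h6 : (((Ico 1 (j + 1)).filter (fun s => d ∣ X - s)).card : ℝ) ≤
            (((range j).filter (fun h : ℕ => (d : ℤ) ∣ ((X - 1 : ℕ) : ℤ) - h)).card : ℝ) := by
          exact_mod_cast h4
        exact h6.trans h5
      calc _ ≤ ((j : ℝ) / d + 1) * (1 / (j : ℝ)) := by
            apply mul_le_mul_of_nonneg_right hc; positivity
        _ = 1 / (d : ℝ) + 1 / (j : ℝ) := by field_simp
    have b3 : ∑ j ∈ Ico 1 X, (1 / (d : ℝ) + 1 / (j : ℝ)) ≤ (X : ℝ) / d + (1 + Real.log X) := by
      rw [sum_add_distrib, sum_const, nsmul_eq_mul]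
      have : ((Ico 1 X).card : ℝ) * (1 / (d : ℝ)) ≤ (X : ℝ) / d := by
        rw [Nat.card_Ico]
        have : ((X - 1 : ℕ) : ℝ) ≤ X := by exact_mod_cast (by omega : X - 1 ≤ X)
        calc _ ≤ (X : ℝ) * (1 / (d : ℝ)) := by
              apply mul_le_mul_of_nonneg_right this; positivity
          _ = _ := by ring
      linarith
    have e2 : 2 * (X : ℝ) / d = X / d + X / d := by ring
    rw [e2]
    linarith
  have step4 : ∑ d ∈ Ico 1 X, ∑ s ∈ (Ico 1 X).filter (fun s => d ∣ X - s), w s ≤
      4 * X * (1 + Real.log X) := by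
    calc _ ≤ ∑ d ∈ Ico 1 X, (2 * (X : ℝ) / d + (2 + Real.log X)) := sum_le_sum step3
      _ = 2 * X * (∑ d ∈ Ico 1 X, 1 / (d : ℝ)) + ((X - 1 : ℕ) : ℝ) * (2 + Real.log X) := by
          rw [sum_add_distrib, sum_const, nsmul_eq_mul, Nat.card_Ico, mul_sum]
          congr 1
          apply sum_congr rfl
          intro d _
          ring
      _ ≤ 2 * X * (1 + Real.log X) + X * (2 + Real.log X) := by
          have h1 : ((X - 1 : ℕ) : ℝ) ≤ X := by exact_mod_cast (by omega : X - 1 ≤ X)
          have h2 : 0 ≤ 2 + Real.log X := by linarith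
          have h3 := mul_le_mul_of_nonneg_right h1 h2
          have h4 := mul_le_mul_of_nonneg_left hH (show (0 : ℝ) ≤ 2 * X by positivity)
          linarith
      _ ≤ 4 * X * (1 + Real.log X) := by
          have : 0 ≤ (X : ℝ) * Real.log X := by positivity
          nlinarith
  calc _ ≤ 2 / X * ∑ s ∈ Ico 1 X, ((X - s).divisors.card : ℝ) * w s := step1
    _ ≤ 2 / X * (4 * X * (1 + Real.log X)) := by
        rw [step2]
        apply mul_le_mul_of_nonneg_left step4; positivity
    _ = 8 * (1 + Real.log X) := by field_simp; ring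

/-- sum along a line -/
lemma line_sum_le (X a s : ℝ) (g : ℕ) (ha : 0 < a) (hs : 0 < s) (hXs : X - g * a = s) (hg : 1 ≤ g) :
    (∑ i ∈ Ico 1 g, 1 / (X - i * a)) ≤ 1 / a * Real.log (X / s) := by
  have key : ∀ n : ℕ, 1 ≤ n → n ≤ g → (∑ i ∈ Ico 1 n, 1 / (X - i * a)) ≤
      1 / a * (Real.log X - Real.log (X - n * a)) := by
    intro n hn
    induction n, hn using Nat.le_induction with
    | base =>
      intro _
      have h1 : 0 < X - 1 * a := by
        have : (1 : ℝ) * a ≤ g * a := by
          apply mul_le_mul_of_nonneg_right _ ha.le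
          exact_mod_cast hg
        linarith
      have h2 : Real.log (X - 1 * a) ≤ Real.log X := by
        apply Real.log_le_log h1; linarith
      simp only [Ico_self, sum_empty, Nat.cast_one]
      have : 0 ≤ 1 / a := by positivity
      have h3 : 0 ≤ Real.log X - Real.log (X - 1 * a) := by linarith
      positivity
    | succ n hn ih =>
      intro hng
      rw [sum_Ico_succ_top hn]
      have ih' := ih (by omega)
      have hpos : 0 < X - ((n + 1 : ℕ) : ℝ) * a := by
        have : ((n + 1 : ℕ) : ℝ) * a ≤ g * a := by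
          apply mul_le_mul_of_nonneg_right _ ha.le
          exact_mod_cast hng
        linarith
      have hpos' : 0 < X - (n : ℝ) * a := by
        push_cast at hpos
        nlinarith
      have h1 : 1 / (X - n * a) ≤ 1 / a * (Real.log (X - n * a) - Real.log (X - ((n + 1 : ℕ) : ℝ) * a)) := by
        rw [← Real.log_div hpos'.ne' hpos.ne']
        have h2 : 1 - (X - ((n + 1 : ℕ) : ℝ) * a) / (X - n * a) ≤
            Real.log ((X - n * a) / (X - ((n + 1 : ℕ) : ℝ) * a)) := by
          have h3 := Real.one_sub_inv_le_log_of_pos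
            (x := (X - n * a) / (X - ((n + 1 : ℕ) : ℝ) * a)) (by positivity)
          rwa [inv_div] at h3
        have h4 : 1 - (X - ((n + 1 : ℕ) : ℝ) * a) / (X - n * a) = a / (X - n * a) := by
          push_cast
          field_simp
          ring
        rw [h4] at h2
        calc 1 / (X - n * a) = 1 / a * (a / (X - n * a)) := by field_simp
          _ ≤ _ := mul_le_mul_of_nonneg_left h2 (by positivity)
      have : 1 / a * (Real.log X - Real.log (X - ((n + 1 : ℕ) : ℝ) * a)) =
          1 / a * (Real.log X - Real.log (X - n * a)) +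
          1 / a * (Real.log (X - n * a) - Real.log (X - ((n + 1 : ℕ) : ℝ) * a)) := by ring
      rw [this]
      linarith
  have h := key g hg le_rfl
  rw [hXs] at h
  have hX : 0 < X := by
    have : 0 ≤ (g : ℝ) * a := by positivity
    linarith
  rwa [Real.log_div hX.ne' hs.ne']

/-- the sum over the middle points `u` for a fixed `z` -/
lemma inner_sum_le {H X k : ℕ} (hH : 1 ≤ H) {z : Pt} (hz : 1 ≤ z.1) (hzX : z.1 < X) :
    (∑ u ∈ (cone H X).filter (fun u : Pt => z.1 < u.1 ∧ u.1 < X ∧ dir z (X, k) = dir u (X, k)),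
      1 / (2 * (H : ℝ) * u.1)) ≤
      1 / (2 * H) * ((dg z (X, k) : ℝ) / ((X : ℝ) - z.1) * Real.log ((X : ℝ) / z.1)) := by
  have hzX' : z.1 < ((X, k) : Pt).1 := hzX
  set g := dg z (X, k) with hg
  have hg0 : 0 < g := dg_pos hzX'
  have ha0 := dir_fst_pos hzX'
  have hag := dir_fst_mul (y := z) (p := (X, k))
  rw [← hg] at hag
  set a := (dir z (X, k)).1 with ha
  have haR : (0 : ℝ) < (a : ℝ) := by exact_mod_cast ha0
  have hagR : (a : ℝ) * g = (X : ℝ) - z.1 := by exact_mod_cast hag
  have hz0 : (0 : ℝ) < z.1 := by exact_mod_cast (by omega : 0 < z.1)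
  have hH0 : (0 : ℝ) < H := by exact_mod_cast (by omega : 0 < H)
  have hline := line_sum_le (X : ℝ) a z.1 g haR hz0 (by linarith) hg0
  -- the map u ↦ dg u v
  have hmap : (∑ u ∈ (cone H X).filter
      (fun u : Pt => z.1 < u.1 ∧ u.1 < X ∧ dir z (X, k) = dir u (X, k)),
      1 / (2 * (H : ℝ) * u.1)) ≤ ∑ i ∈ Ico 1 g, 1 / (2 * (H : ℝ)) * (1 / ((X : ℝ) - i * a)) := by
    have hu : ∀ u ∈ (cone H X).filter
      (fun u : Pt => z.1 < u.1 ∧ u.1 < X ∧ dir z (X, k) = dir u (X, k)),
        (u.1 : ℤ) = X - dg u (X, k) * a ∧ (u.2 : ℤ) = k - dg u (X, k) * (dir z (X, k)).2 := by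
      intro u hu
      rw [mem_filter] at hu
      have h1 := dir_fst_mul (y := u) (p := (X, k))
      have h2 := dir_snd_mul (y := u) (p := (X, k))
      rw [← hu.2.2.2] at h1 h2
      rw [← ha] at h1
      simp only at h1 h2
      constructor <;> linarith
    have hinj : Set.InjOn (fun u : Pt => dg u (X, k)) (((cone H X).filter
      (fun u : Pt => z.1 < u.1 ∧ u.1 < X ∧ dir z (X, k) = dir u (X, k)) : Finset Pt) : Set Pt) := by
      intro u hu1 w hw1 huw
      have e1 := hu u hu1
      have e2 := hu w hw1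
      simp only at huw
      rw [huw] at e1
      have f1 : (u.1 : ℤ) = w.1 := by rw [e1.1, e2.1]
      have f2 : (u.2 : ℤ) = w.2 := by rw [e1.2, e2.2]
      exact Prod.ext (by exact_mod_cast f1) (by exact_mod_cast f2)
    have hrew : (∑ u ∈ (cone H X).filter
      (fun u : Pt => z.1 < u.1 ∧ u.1 < X ∧ dir z (X, k) = dir u (X, k)),
      1 / (2 * (H : ℝ) * u.1)) = ∑ u ∈ (cone H X).filter
      (fun u : Pt => z.1 < u.1 ∧ u.1 < X ∧ dir z (X, k) = dir u (X, k)),
      1 / (2 * (H : ℝ)) * (1 / ((X : ℝ) - (dg u (X, k) : ℕ) * a)) := by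
      apply sum_congr rfl
      intro u hu1
      have e1 := (hu u hu1).1
      have e1R : (u.1 : ℝ) = X - dg u (X, k) * a := by exact_mod_cast e1
      rw [← e1R]
      rw [one_div_mul_one_div]
    rw [hrew]
    rw [← sum_image (f := fun i : ℕ => 1 / (2 * (H : ℝ)) * (1 / ((X : ℝ) - i * a)))
      (g := fun u : Pt => dg u (X, k)) hinj]
    apply sum_le_sum_of_subset_of_nonneg
    · intro i hi
      rw [mem_image] at hi
      obtain ⟨u, hu1, rfl⟩ := hi
      have e1 := (hu u hu1).1
      rw [mem_filter] at hu1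
      rw [mem_Ico]
      constructor
      · exact dg_pos (y := u) (p := (X, k)) hu1.2.2.1
      · have h1 : (z.1 : ℤ) < u.1 := by exact_mod_cast hu1.2.1
        have h2 : ((X, k) : Pt).1 = X := rfl
        rw [h2] at hag
        have h3 : (dg u (X, k) : ℤ) * a < g * a := by linarith
        have h4 := lt_of_mul_lt_mul_right h3 ha0.le
        exact_mod_cast h4
    · intro i hi _
      rw [mem_Ico] at hi
      have h1 : (i : ℝ) * a ≤ g * a := by
        apply mul_le_mul_of_nonneg_right _ haR.le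
        exact_mod_cast hi.2.le
      have h2 : 0 < (X : ℝ) - i * a := by linarith
      positivity
  refine hmap.trans ?_
  rw [← mul_sum]
  apply mul_le_mul_of_nonneg_left _ (by positivity)
  refine hline.trans (le_of_eq ?_)
  congr 1
  rw [← hagR]
  field_simp

end MainA

open MainA in
/-- (M1) the main term coming from poor lines. See PROOF.md. -/
theorem mu_le {H X k : ℕ} (hH : 1 ≤ H) (hX : 1 ≤ X) (hk : k < H * X) {l A : ℝ} (hl : 0 < l)
    (hlA : (X : ℝ) ≤ l * A) :
    (∑ zu ∈ (cone H X ×ˢ cone H X).filter (fun zu : Pt × Pt => l ≤ zu.1.1 ∧ zu.1.1 < zu.2.1 ∧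
        zu.2.1 < X ∧ dir zu.1 (X, k) = dir zu.2 (X, k) ∧ A < nrm (dir zu.2 (X, k))),
      1 / (2 * (H : ℝ) * zu.1.1) * (1 / (2 * (H : ℝ) * zu.2.1))) ≤
      5 / H * (1 + Real.log X) := by
  have hH0 : (0 : ℝ) < H := by exact_mod_cast (by omega : 0 < H)
  have hX0 : (0 : ℝ) < X := by exact_mod_cast (by omega : 0 < X)
  have hA0 : 0 < A := by
    by_contra hc
    push Not at hc
    have : l * A ≤ 0 := mul_nonpos_of_nonneg_of_nonpos hl.le hc
    linarith
  have hlog : 0 ≤ Real.log X := Real.log_natCast_nonneg X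
  -- Step 1: reduce to a sum over z
  have step1 : (∑ zu ∈ (cone H X ×ˢ cone H X).filter
        (fun zu : Pt × Pt => l ≤ zu.1.1 ∧ zu.1.1 < zu.2.1 ∧
        zu.2.1 < X ∧ dir zu.1 (X, k) = dir zu.2 (X, k) ∧ A < nrm (dir zu.2 (X, k))),
      1 / (2 * (H : ℝ) * zu.1.1) * (1 / (2 * (H : ℝ) * zu.2.1))) ≤
      ∑ z ∈ (cone H X).filter (fun z : Pt => 1 ≤ z.1 ∧ z.1 < X ∧ dg z (X, k) ≤ H * z.1),
        1 / (2 * (H : ℝ) * z.1) *
        (1 / (2 * H) * ((dg z (X, k) : ℝ) / ((X : ℝ) - z.1) * Real.log ((X : ℝ) / z.1))) := by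
    rw [sum_filter, sum_product]
    rw [sum_filter (s := cone H X)]
    apply sum_le_sum
    intro z hz
    by_cases hc : 1 ≤ z.1 ∧ z.1 < X ∧ dg z (X, k) ≤ H * z.1
    · rw [if_pos hc]
      refine le_trans ?_ (mul_le_mul_of_nonneg_left (inner_sum_le (k := k) hH hc.1 hc.2.1)
        (by positivity))
      rw [← sum_filter, mul_sum]
      apply sum_le_sum_of_subset_of_nonneg
      · intro u hu
        rw [mem_filter] at hu ⊢
        simp only at hu
        exact ⟨hu.1, hu.2.2.1, hu.2.2.2.1, hu.2.2.2.2.1⟩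
      · intro u _ _
        positivity
    · rw [if_neg hc]
      apply le_of_eq
      apply sum_eq_zero
      intro u hu
      rw [if_neg]
      rintro ⟨h1, h2, h3, h4, h5⟩
      simp only at h1 h2 h3 h4 h5
      apply hc
      have hzpos : 1 ≤ z.1 := by
        by_contra hcc
        have : z.1 = 0 := by omega
        rw [this] at h1
        norm_num at h1
        linarith
      refine ⟨hzpos, by omega, ?_⟩
      have hzX : z.1 < ((X, k) : Pt).1 := by
        show z.1 < X
        omega
      have hd1 := dir_fst_mul (y := z) (p := (X, k))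
      have hd2 := dir_snd_mul (y := z) (p := (X, k))
      have hgpos := dg_pos hzX
      rw [← h4] at h5
      unfold nrm at h5
      set g := dg z (X, k) with hg
      set a := (dir z (X, k)).1 with ha
      set b := (dir z (X, k)).2 with hb
      simp only at hd1 hd2
      -- heights
      unfold cone Box at hz
      simp only [mem_filter, mem_product, mem_range] at hz
      have hz2 : z.2 < H * X := hz.1.2
      have hN : (max a.natAbs b.natAbs) * g ≤ H * X := by
        rcases max_choice a.natAbs b.natAbs with hm | hm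
        · rw [hm]
          have h6 : ((a.natAbs * g : ℕ) : ℤ) = (X : ℤ) - z.1 := by
            rw [← hd1]
            push_cast
            have : 0 < a := dir_fst_pos hzX
            rw [abs_of_pos this]
          have h7 : (X : ℤ) - z.1 ≤ H * X := by
            have : (X : ℤ) ≤ H * X := by
              have : X ≤ H * X := Nat.le_mul_of_pos_left X (by omega)
              exact_mod_cast this
            have : (0 : ℤ) ≤ z.1 := by positivity
            linarith
          have h8 : ((a.natAbs * g : ℕ) : ℤ) ≤ ((H * X : ℕ) : ℤ) := by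
            rw [h6]; exact_mod_cast h7
          exact_mod_cast h8
        · rw [hm]
          have h6 : ((b.natAbs * g : ℕ) : ℤ) = |(k : ℤ) - z.2| := by
            rw [← hd2]
            push_cast
            rw [abs_mul]
            simp
          have h7 : |(k : ℤ) - z.2| ≤ H * X := by
            rw [abs_le]
            constructor
            · have : (z.2 : ℤ) < H * X := by exact_mod_cast hz2
              have : (0 : ℤ) ≤ k := by positivity
              linarith
            · have : (k : ℤ) < H * X := by exact_mod_cast hk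
              have : (0 : ℤ) ≤ z.2 := by positivity
              linarith
          have h8 : ((b.natAbs * g : ℕ) : ℤ) ≤ ((H * X : ℕ) : ℤ) := by
            rw [h6]; exact_mod_cast h7
          exact_mod_cast h8
      have hNR : ((max a.natAbs b.natAbs : ℕ) : ℝ) * g ≤ H * X := by exact_mod_cast hN
      have hgR : (0 : ℝ) < g := by exact_mod_cast hgpos
      have h9 : A * g < H * (l * A) := by
        calc A * g < ((max a.natAbs b.natAbs : ℕ) : ℝ) * g := mul_lt_mul_of_pos_right h5 hgR
          _ ≤ H * X := hNR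
          _ ≤ H * (l * A) := mul_le_mul_of_nonneg_left hlA hH0.le
      have h10 : (g : ℝ) < H * l := by
        have : A * g < A * (H * l) := by linarith
        exact lt_of_mul_lt_mul_left this hA0.le
      have h11 : (g : ℝ) ≤ H * z.1 := by
        have : (H : ℝ) * l ≤ H * z.1 := mul_le_mul_of_nonneg_left h1 hH0.le
        linarith
      exact_mod_cast h11
  -- Step 2: sum over heights
  have step2 : (∑ z ∈ (cone H X).filter (fun z : Pt => 1 ≤ z.1 ∧ z.1 < X ∧ dg z (X, k) ≤ H * z.1),
        1 / (2 * (H : ℝ) * z.1) *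
        (1 / (2 * H) * ((dg z (X, k) : ℝ) / ((X : ℝ) - z.1) * Real.log ((X : ℝ) / z.1)))) ≤
      ∑ s ∈ Ico 1 X, ∑ h ∈ (range (H * s)).filter
        (fun h : ℕ => Int.gcd ((X - s : ℕ) : ℤ) ((k : ℤ) - h) ≤ H * s),
        1 / (2 * (H : ℝ) * s) *
        (1 / (2 * H) * ((Int.gcd ((X - s : ℕ) : ℤ) ((k : ℤ) - h) : ℝ) / ((X : ℝ) - s) *
          Real.log ((X : ℝ) / s))) := by
    rw [sum_sigma']
    apply le_of_eq
    have hcast : ∀ s : ℕ, s < X → (((X - s : ℕ)) : ℤ) = (X : ℤ) - s := by
      intro s hs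
      exact Nat.cast_sub hs.le
    apply sum_nbij' (fun z : Pt => (⟨z.1, z.2⟩ : Σ _ : ℕ, ℕ)) (fun x => (x.1, x.2))
    · intro z hz
      simp only [mem_filter, cone, Box, mem_product, mem_range] at hz
      simp only [mem_sigma, mem_Ico, mem_filter, mem_range]
      refine ⟨⟨hz.2.1, hz.2.2.1⟩, hz.1.2, ?_⟩
      rw [hcast _ hz.2.2.1]
      exact hz.2.2.2
    · intro x hx
      simp only [mem_sigma, mem_Ico, mem_filter, mem_range] at hx
      simp only [mem_filter, cone, Box, mem_product, mem_range]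
      refine ⟨⟨⟨by omega, ?_⟩, hx.2.1⟩, hx.1.1, hx.1.2, ?_⟩
      · calc x.2 < H * x.1 := hx.2.1
          _ ≤ H * X := Nat.mul_le_mul_left H hx.1.2.le
      · have := hx.2.2
        rw [hcast _ hx.1.2] at this
        exact this
    · intro z _; rfl
    · intro x _; rfl
    · intro z hz
      simp only [mem_filter] at hz
      simp only
      rw [hcast _ hz.2.2.1]
      rfl
  -- Step 3: bound the sum of gcds
  have step3 : (∑ s ∈ Ico 1 X, ∑ h ∈ (range (H * s)).filter
        (fun h : ℕ => Int.gcd ((X - s : ℕ) : ℤ) ((k : ℤ) - h) ≤ H * s),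
        1 / (2 * (H : ℝ) * s) *
        (1 / (2 * H) * ((Int.gcd ((X - s : ℕ) : ℤ) ((k : ℤ) - h) : ℝ) / ((X : ℝ) - s) *
          Real.log ((X : ℝ) / s)))) ≤
      1 / (2 * H) * ∑ s ∈ Ico 1 X,
        ((X - s).divisors.card : ℝ) * (Real.log ((X : ℝ) / s) / ((X : ℝ) - s)) := by
    rw [mul_sum]
    apply sum_le_sum
    intro s hs
    rw [mem_Ico] at hs
    have hs0 : (0 : ℝ) < s := by exact_mod_cast (by omega : 0 < s)
    have hXs : (0 : ℝ) < (X : ℝ) - s := by
      have : (s : ℝ) < X := by exact_mod_cast hs.2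
      linarith
    have hL : 0 ≤ Real.log ((X : ℝ) / s) := by
      apply Real.log_nonneg
      rw [le_div_iff₀ hs0]
      linarith
    have h1 := sum_gcd_le (H * s) k (X - s) (by omega)
    have h2 : (∑ h ∈ (range (H * s)).filter
        (fun h : ℕ => Int.gcd ((X - s : ℕ) : ℤ) ((k : ℤ) - h) ≤ H * s),
        1 / (2 * (H : ℝ) * s) *
        (1 / (2 * H) * ((Int.gcd ((X - s : ℕ) : ℤ) ((k : ℤ) - h) : ℝ) / ((X : ℝ) - s) *
          Real.log ((X : ℝ) / s)))) =
        (1 / (2 * (H : ℝ) * s) * (1 / (2 * H)) * (Real.log ((X : ℝ) / s) / ((X : ℝ) - s))) *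
        ∑ h ∈ (range (H * s)).filter
        (fun h : ℕ => Int.gcd ((X - s : ℕ) : ℤ) ((k : ℤ) - h) ≤ H * s),
        (Int.gcd ((X - s : ℕ) : ℤ) ((k : ℤ) - h) : ℝ) := by
      rw [mul_sum]
      apply sum_congr rfl
      intro h _
      ring
    rw [h2]
    calc _ ≤ (1 / (2 * (H : ℝ) * s) * (1 / (2 * H)) * (Real.log ((X : ℝ) / s) / ((X : ℝ) - s))) *
          (2 * ((H * s : ℕ) : ℝ) * (X - s).divisors.card) := by
          apply mul_le_mul_of_nonneg_left h1
          positivity
      _ = _ := by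
          push_cast
          field_simp
  calc _ ≤ _ := step1
    _ ≤ _ := step2
    _ ≤ _ := step3
    _ ≤ 1 / (2 * H) * (8 * (1 + Real.log X)) := by
        apply mul_le_mul_of_nonneg_left (divisor_sum_le X hX)
        positivity
    _ ≤ 5 / H * (1 + Real.log X) := by
        have : 1 / (2 * (H : ℝ)) * (8 * (1 + Real.log X)) = 4 / H * (1 + Real.log X) := by
          field_simp; ring
        rw [this]
        apply mul_le_mul_of_nonneg_right _ (by linarith)
        gcongr
        norm_num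

end NTIL
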