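import Mathlib
import Pool.Agent.Lib.MP_2ffb02_co.Conc
import Pool.Agent.Lib.MP_2ffb02_co.MainA

/-!
# The contribution of poor lines
-/

set_option autoImplicit false

namespace NTIL

open Finset

noncomputable section

open scoped Classical in
/-- pairs `(z,u)` which cover `v` along a poor line -/
def PP (X : ℕ) (v : Pt) : Finset (Pt × Pt) :=
  (cone H X ×ˢ cone H X).filter (fun zu : Pt × Pt => lo X ≤ zu.1.1 ∧ zu.1.1 < zu.2.1 ∧
    zu.2.1 < X ∧ dir zu.1 v = dir zu.2 v ∧ Yx X ^ 300 < nrm (dir zu.2 v) ∧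
    zu.1.2 ∈ V zu.1.1 ∧ zu.2.2 ∈ V zu.2.1)

/-- `1/(2 H t)` -/
def cc (t : ℕ) : ℝ := 1 / (2 * H * t)

def muP (X : ℕ) (v : Pt) : ℝ := ∑ zu ∈ PP X v, cc zu.1.1 * cc zu.2.1

/-- random variable dominating the poor part of `S` -/
def UP (X : ℕ) (v : Pt) (h : Hist) : ℝ :=
  ∑ zu ∈ PP X v, N1 {zu.1} h * (cc zu.2.1 * W h ∅ zu.2)

/-- a multiple of a primitive vector has this vector as direction -/
theorem PoorA_dir_of_mul {p q : Pt} {a b m : ℤ} (ha : (q.1 : ℤ) - p.1 = a * m)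
    (hb : (q.2 : ℤ) - p.2 = b * m) (hm : 0 < m) (hab : Int.gcd a b = 1) :
    dir p q = (a, b) := by
  have hg : (dg p q : ℤ) = m := by
    unfold dg
    rw [ha, hb, Int.gcd_mul_right, hab, one_mul]
    exact Int.natAbs_of_nonneg hm.le
  unfold dir
  rw [hg, ha, hb, Int.mul_ediv_cancel _ hm.ne', Int.mul_ediv_cancel _ hm.ne']

/-- directions along a line -/
theorem PoorA_dir_eq {z u v : Pt} (hzu : z.1 < u.1) (huv : u.1 < v.1) (h : dir z v = dir u v) :
    dir z u = dir u v := by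
  have z1 := dir_fst_mul (y := z) (p := v)
  have z2 := dir_snd_mul (y := z) (p := v)
  have u1 := dir_fst_mul (y := u) (p := v)
  have u2 := dir_snd_mul (y := u) (p := v)
  have hc := dir_coprime huv
  have ha := dir_fst_pos huv
  rw [h] at z1 z2
  have e1 : (u.1 : ℤ) - z.1 = (dir u v).1 * ((dg z v : ℤ) - dg u v) := by
    rw [mul_sub, z1, u1]; ring
  have e2 : (u.2 : ℤ) - z.2 = (dir u v).2 * ((dg z v : ℤ) - dg u v) := by
    rw [mul_sub, z2, u2]; ring
  have hm : 0 < (dg z v : ℤ) - dg u v := by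
    have h3 : 0 < (dir u v).1 * ((dg z v : ℤ) - dg u v) := by
      rw [← e1]
      have : (z.1 : ℤ) < u.1 := by exact_mod_cast hzu
      linarith
    exact (mul_pos_iff_of_pos_left ha).1 h3
  rw [PoorA_dir_of_mul e1 e2 hm hc]

theorem PoorA_mem_Box {X : ℕ} {u : Pt} (hu : u ∈ cone H X) : u ∈ Box X (Nn X) := by
  unfold cone at hu
  exact (mem_filter.1 hu).1

theorem PoorA_pos {X : ℕ} {u : Pt} (hu : u ∈ cone H X) : 1 ≤ u.1 := by
  unfold cone at hu
  have h := (mem_filter.1 hu).2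
  rcases Nat.eq_zero_or_pos u.1 with h1 | h1
  · rw [h1] at h; simp at h
  · exact h1

theorem muP_le {X k : ℕ} (hB : Big X) (hk : k < Nn X) :
    muP X (X, k) ≤ 5 / H * (1 + Real.log X) := by
  classical
  have hX := hB.one_le
  have hY := Yx_one_le hX
  have hX0 : (0 : ℝ) < X := by exact_mod_cast hX
  have hlo : 0 < lo X := by unfold lo; positivity
  have hlA : (X : ℝ) ≤ lo X * Yx X ^ 300 := by
    unfold lo
    rw [div_mul_eq_mul_div, le_div_iff₀ (by positivity)]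
    apply mul_le_mul_of_nonneg_left _ hX0.le
    exact pow_le_pow_right₀ hY (by norm_num)
  have h1 := mu_le (H := H) (X := X) (k := k) H_pos hX hk hlo hlA
  refine le_trans ?_ h1
  unfold muP cc
  refine sum_le_sum_of_subset_of_nonneg ?_ fun zu _ _ => by positivity
  intro zu hzu
  unfold PP at hzu
  rw [mem_filter] at hzu ⊢
  obtain ⟨h2, h3, h4, h5, h6, h7, -, -⟩ := hzu
  exact ⟨h2, h3, h4, h5, h6, h7⟩

/-- number of pairs -/
theorem card_PP_le {X k : ℕ} (hB : Big X) (hk : k < Nn X) :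
    ((PP X (X, k)).card : ℝ) ≤ c1 X := by
  classical
  have hX := hB.one_le
  have hv : ((X, k) : Pt) ∈ Box X (Nn X) := by
    unfold Box
    rw [mem_product, mem_range, mem_range]
    exact ⟨Nat.lt_succ_self X, hk⟩
  have h1 : (PP X (X, k)).card = ∑ u ∈ left X (Nn X) (X, k),
      ((PP X (X, k)).filter (fun zu => zu.2 = u)).card := by
    apply card_eq_sum_card_fiberwise
    intro zu hzu
    rw [mem_coe] at hzu ⊢
    unfold PP at hzu
    rw [mem_filter, mem_product] at hzu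
    unfold left
    rw [mem_filter]
    exact ⟨PoorA_mem_Box hzu.1.2, hzu.2.2.2.1⟩
  have h2 : ∀ u ∈ left X (Nn X) (X, k),
      (((PP X (X, k)).filter (fun zu => zu.2 = u)).card : ℝ) ≤ Lc X (Nn X) u (X, k) := by
    intro u hu
    unfold Lc
    have h3 : ((PP X (X, k)).filter (fun zu => zu.2 = u)).card ≤
        (fib X (Nn X) (X, k) (dir u (X, k))).card := by
      refine card_le_card_of_injOn (fun zu => zu.1) ?_ ?_
      · intro zu hzu
        rw [mem_coe, mem_filter] at hzu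
        obtain ⟨h4, h5⟩ := hzu
        unfold PP at h4
        rw [mem_filter, mem_product] at h4
        obtain ⟨⟨h6, h7⟩, h8, h9, h10, h11, -⟩ := h4
        rw [mem_coe]
        unfold fib
        rw [mem_filter]
        rw [h5] at h11
        exact ⟨PoorA_mem_Box h6, lt_trans h9 h10, h11⟩
      · intro zu hzu zu' hzu' he
        rw [mem_coe, mem_filter] at hzu hzu'
        exact Prod.ext he (hzu.2.trans hzu'.2.symm)
    exact_mod_cast h3
  rw [h1]
  push_cast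
  exact (sum_le_sum h2).trans (sum_Lc_le (X_le_Nn X) (one_le_Nn hX) hv)

/-- at time `X - 1` all columns of `PP` have been decided: `N1 {z} = cc z.1 * chi True ∅ z`.
Lower bound: `pair_lower` for each pair, with `PT_le` in column `z.1 ≥ X / Y^10` (`Good X`),
`Lc z u ≤ Nn X / nrm (dir z u)` and `dir z u = dir u v` has norm `> Y^300`. -/
theorem Ex_UP_ge {X k : ℕ} (hX : 1 ≤ X) (hG : Good X) (hk : k < Nn X) :
    muP X (X, k) * (1 - (Yx X ^ 200)⁻¹) ≤ Ex (X - 1) (UP X (X, k)) := by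
  classical
  have hB : Big X := hG.big hX
  have hX0 : (0 : ℝ) < X := by exact_mod_cast hX
  have hY1 := Yx_one_le hX
  have hH0 : (0 : ℝ) < H := by exact_mod_cast H_pos
  have hH1 : (1 : ℝ) ≤ H := by exact_mod_cast H_pos
  have hY : (10 : ℝ) ^ 20 ≤ Yx X := by
    refine le_trans ?_ hB.H_le
    have : (1 : ℝ) ≤ (H : ℝ) ^ 10 := one_le_pow₀ hH1
    linarith
  set Y := Yx X with hYdef
  have hY0 : 0 < Y := lt_of_lt_of_le (by norm_num) hY
  have hUP : Ex (X - 1) (UP X (X, k)) = ∑ zu ∈ PP X (X, k), cc zu.1.1 * cc zu.2.1 *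
      Ex (X - 1) (fun h => chi True ∅ zu.1 h * W h ∅ zu.2) := by
    have e1 : Ex (X - 1) (UP X (X, k)) = Ex (X - 1) (fun h => ∑ zu ∈ PP X (X, k),
        cc zu.1.1 * cc zu.2.1 * (chi True ∅ zu.1 h * W h ∅ zu.2)) := by
      apply Ex_congr
      intro h hv hl
      unfold UP
      refine sum_congr rfl fun zu hzu => ?_
      unfold PP at hzu
      rw [mem_filter, mem_product] at hzu
      obtain ⟨⟨h6, h7⟩, h8, h9, h10, -⟩ := hzu
      have hz1 := PoorA_pos h6
      have hz0 : (0 : ℝ) < zu.1.1 := by exact_mod_cast hz1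
      have e2 : N1 {zu.1} h = cc zu.1.1 * chi True ∅ zu.1 h := by
        unfold N1 chi cc
        have h11 : zu.1.1 ≤ h.length := by omega
        rw [if_pos (⟨trivial, h11⟩ : True ∧ zu.1.1 ≤ h.length)]
        by_cases h12 : zu.1 ∈ Z h
        · rw [if_pos (by simpa using h12), if_pos h12]
          field_simp
        · rw [if_neg (by simpa using h12), if_neg h12, mul_zero]
      rw [e2]
      ring
    rw [e1, Ex_sum]
    exact sum_congr rfl fun zu _ => Ex_const_mul _ _ _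
  rw [hUP]
  unfold muP
  rw [sum_mul]
  refine sum_le_sum fun zu hzu => ?_
  apply mul_le_mul_of_nonneg_left
  swap
  · unfold cc; positivity
  unfold PP at hzu
  rw [mem_filter, mem_product] at hzu
  obtain ⟨⟨h6, h7⟩, h8, h9, h10, h11, h12, h13, h14⟩ := hzu
  set z := zu.1 with hz
  set u := zu.2 with hu
  have hz1 := PoorA_pos h6
  have hzX : (X : ℝ) ≤ Y ^ 10 * z.1 := by
    unfold lo at h8
    rw [div_le_iff₀ (by positivity)] at h8
    linarith
  have hzlt : z.1 ≤ X := by have : u.1 < X := h10; omega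
  have hult : u.1 ≤ X := le_of_lt h10
  have huX : (X : ℝ) ≤ Y ^ 10 * u.1 := by
    refine hzX.trans ?_
    have : (z.1 : ℝ) ≤ u.1 := by exact_mod_cast h9.le
    gcongr
  have hzlo := le_mul_lo (b := 10) hzlt hzX hX
  have hulo := le_mul_lo (b := 10) hult huX hX
  have hρ : 1 ≤ Y ^ 20 := one_le_pow₀ hY1
  have hpl := pair_lower (X := X) (ρ := Y ^ 20) hX hρ (PoorA_mem_Box h6) (PoorA_mem_Box h7) h9 h13
    hzlo hulo (m := X - 1) (by omega)
  refine le_trans ?_ hpl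
  -- the errors
  have hP0 : ∀ m : ℕ, 0 < Y ^ m := fun m => by positivity
  have e0 := eD2_le hB (a := 20) (k := 0) (by norm_num) (by norm_num)
  have e1 := eD2_le hB (a := 20) (k := 1) (by norm_num) (by norm_num)
  rw [← hYdef] at e0 e1
  have e2 : PT z.1 ≤ (Y ^ 5500)⁻¹ := by
    have hBz : Big z.1 := hG z.1 hzlt (by rw [← hYdef]; exact hzX)
    refine (PT_le hBz).trans ?_
    apply inv_anti₀ (hP0 _)
    -- `X ≤ z.1 ^ 2`
    have h15 : (X : ℝ) ≤ (z.1 : ℝ) ^ 2 := by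
      have h16 : (X : ℝ) * X ≤ (Y ^ 10 * z.1) * (Y ^ 10 * z.1) := by gcongr
      have h17 : Y ^ 20 ≤ X := by
        have := Yx_pow X
        rw [← hYdef] at this
        rw [← this]
        exact pow_le_pow_right₀ hY1 (by norm_num)
      have h18 : (X : ℝ) * X ≤ X * (z.1 : ℝ) ^ 2 := by
        calc (X : ℝ) * X ≤ (Y ^ 10 * z.1) * (Y ^ 10 * z.1) := h16
          _ = Y ^ 20 * (z.1 : ℝ) ^ 2 := by ring
          _ ≤ X * (z.1 : ℝ) ^ 2 := by gcongr
      exact le_of_mul_le_mul_left h18 hX0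
    have h16 : Y ≤ Yx z.1 ^ 2 := by
      rw [hYdef]
      unfold Yx
      rw [← Real.rpow_natCast, ← Real.rpow_mul (Nat.cast_nonneg _), mul_comm,
        Real.rpow_mul (Nat.cast_nonneg _)]
      apply Real.rpow_le_rpow hX0.le _ (by norm_num)
      rw [Real.rpow_natCast]
      exact h15
    calc Y ^ 5500 ≤ (Yx z.1 ^ 2) ^ 5500 := pow_le_pow_left₀ hY0.le h16 _
      _ = Yx z.1 ^ 11000 := by rw [← pow_mul]
  have e3 : be X (Y ^ 20) * Lc X (Nn X) z u ≤ (Y ^ 279)⁻¹ := by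
    have h15 := card_fib_mul_nrm_le (X_le_Nn X) (PoorA_mem_Box h7) (dir z u)
    have h16 : dir z u = dir u (X, k) := PoorA_dir_eq h9 h10 h11
    have h17 : (Lc X (Nn X) z u : ℝ) * Y ^ 300 ≤ Nn X := by
      unfold Lc
      calc ((fib X (Nn X) u (dir z u)).card : ℝ) * Y ^ 300 ≤
          (fib X (Nn X) u (dir z u)).card * nrm (dir z u) := by
            apply mul_le_mul_of_nonneg_left _ (Nat.cast_nonneg _)
            rw [h16]
            exact h12.le
        _ ≤ Nn X := by exact_mod_cast h15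
    unfold be QQf
    rw [← hYdef, div_mul_eq_mul_div, div_le_iff₀ (by positivity), inv_mul_eq_div,
      le_div_iff₀ (hP0 _)]
    have h18 : Y * Y ^ 20 * (Lc X (Nn X) z u : ℝ) * Y ^ 279 = Lc X (Nn X) z u * Y ^ 300 := by
      ring
    rw [h18]
    refine h17.trans ?_
    unfold Nn
    push_cast
    nlinarith [mul_pos hH0 hX0]
  -- conclusion
  have k1 : (Y ^ 13000)⁻¹ ≤ (Y ^ 203)⁻¹ :=
    inv_anti₀ (hP0 _) (pow_le_pow_right₀ hY1 (by norm_num))
  have k2 : (Y ^ 5500)⁻¹ ≤ (Y ^ 203)⁻¹ :=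
    inv_anti₀ (hP0 _) (pow_le_pow_right₀ hY1 (by norm_num))
  have k3 : (Y ^ 279)⁻¹ ≤ (Y ^ 203)⁻¹ :=
    inv_anti₀ (hP0 _) (pow_le_pow_right₀ hY1 (by norm_num))
  have k4 : Y ^ 2 * (Y ^ 203)⁻¹ = (Y ^ 201)⁻¹ := by
    rw [show (203 : ℕ) = 2 + 201 by norm_num, pow_add]
    field_simp
  have k5 : (Y ^ 201)⁻¹ ≤ 1 / 10 ^ 20 * (Y ^ 200)⁻¹ := by
    rw [pow_succ, mul_inv, mul_comm]
    apply mul_le_mul_of_nonneg_right _ (inv_nonneg.2 (hP0 _).le)
    rw [one_div]
    exact inv_anti₀ (by norm_num) hY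
  have k6 : Y ≤ Y ^ 2 := by
    calc Y = Y ^ 1 := (pow_one Y).symm
      _ ≤ Y ^ 2 := pow_le_pow_right₀ hY1 (by norm_num)
  have m1 : 4 * Y ^ 2 * eD2 X (Y ^ 20) 0 ≤ 4 * (Y ^ 201)⁻¹ := by
    rw [← k4]
    calc 4 * Y ^ 2 * eD2 X (Y ^ 20) 0 ≤ 4 * Y ^ 2 * (Y ^ 203)⁻¹ :=
          mul_le_mul_of_nonneg_left (e0.trans k1) (by positivity)
      _ = _ := by ring
  have m2 : Y ^ 2 * PT z.1 ≤ (Y ^ 201)⁻¹ := by
    rw [← k4]
    exact mul_le_mul_of_nonneg_left (e2.trans k2) (by positivity)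
  have m3 : Y ^ 2 * (be X (Y ^ 20) * Lc X (Nn X) z u) ≤ (Y ^ 201)⁻¹ := by
    rw [← k4]
    exact mul_le_mul_of_nonneg_left (e3.trans k3) (by positivity)
  have m4 : Y * eD2 X (Y ^ 20) 1 ≤ (Y ^ 201)⁻¹ := by
    rw [← k4]
    calc Y * eD2 X (Y ^ 20) 1 ≤ Y * (Y ^ 203)⁻¹ :=
          mul_le_mul_of_nonneg_left (e1.trans k1) hY0.le
      _ ≤ Y ^ 2 * (Y ^ 203)⁻¹ := mul_le_mul_of_nonneg_right k6 (inv_nonneg.2 (hP0 _).le)
  have m5 : 0 < (Y ^ 200)⁻¹ := inv_pos.2 (hP0 _)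
  linarith

end

end NTIL
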