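import Mathlib
import Pool.Agent.Lib.MP_2ffb02_co.Defs
import Pool.Agent.Lib.MP_2ffb02_co.Expect

/-!
# Rich lines: deterministic comparison and exponential supermartingale
-/

set_option autoImplicit false

namespace NTIL

open Finset

noncomputable section

/-- the line through `v` with direction `δ`, left of `v` -/
def lin (v : Pt) (δ : ℤ × ℤ) : Set Pt := {y | y.1 < v.1 ∧ dir y v = δ}

open scoped Classical in
/-- allowed points on the line -/
def fV (X : ℕ) (v : Pt) (δ : ℤ × ℤ) : Finset Pt :=
  (cone H X).filter (fun y => y.1 < v.1 ∧ dir y v = δ ∧ y.2 ∈ V y.1)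

/-- weighted total of the blind weights on the line -/
def Ad (X : ℕ) (v : Pt) (δ : ℤ × ℤ) (h : Hist) : ℝ :=
  ∑ y ∈ fV X v δ, 1 / (2 * (H : ℝ) * y.1) * W h (lin v δ) y

open scoped Classical in
/-- total pick probability on the line -/
def Lam (v : Pt) (δ : ℤ × ℤ) : Hist → ℝ
  | [] => 0
  | o :: h => Lam v δ h +
      ∑ k ∈ V (h.length + 1), (if (h.length + 1, k) ∈ lin v δ then pi h k else 0)

open scoped Classical in
/-- increment of `Lam` -/
def dLam (v : Pt) (δ : ℤ × ℤ) (h : Hist) : ℝ :=
  ∑ k ∈ V (h.length + 1), (if (h.length + 1, k) ∈ lin v δ then pi h k else 0)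

lemma Lam_cons (v : Pt) (δ : ℤ × ℤ) (o : Option ℕ) (h : Hist) :
    Lam v δ (o :: h) = Lam v δ h + dLam v δ h := rfl

lemma dLam_nonneg (v : Pt) (δ : ℤ × ℤ) (h : Hist) : 0 ≤ dLam v δ h := by
  unfold dLam
  refine sum_nonneg fun k _ => ?_
  split_ifs
  · exact pi_nonneg _ _
  · exact le_refl _

lemma Lam_nonneg (v : Pt) (δ : ℤ × ℤ) (h : Hist) : 0 ≤ Lam v δ h := by
  induction h with
  | nil => exact le_refl _
  | cons o h ih => rw [Lam_cons]; have := dLam_nonneg v δ h; linarith

lemma D_sub_le (v : Pt) (δ : ℤ × ℤ) (y : Pt) (h : Hist) :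
    D h ∅ y ≤ D h (lin v δ) y + dLam v δ h := by
  rw [D_eq, D_eq]
  unfold dLam
  rw [← sum_add_distrib]
  refine sum_le_sum fun k _ => ?_
  have hp := pi_nonneg h k
  by_cases hk : (h.length + 1, k) ∈ lin v δ
  · rw [if_pos hk]
    have h1 := cvi_le_one h ∅ y k
    have h2 := cvi_nonneg h (lin v δ) y k
    nlinarith
  · rw [if_neg hk, add_zero]
    apply mul_le_mul_of_nonneg_left _ hp
    unfold cvi
    by_cases hc : cov h k y
    · rw [if_pos ⟨hc, by simp⟩, if_pos ⟨hc, hk⟩]
    · rw [if_neg (fun h => hc h.1), if_neg (fun h => hc h.1)]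

/-- comparison of true and blind weights: by induction on `h`; in an active step the exponents
differ by `D h ∅ y - D h (lin v δ) y ≤` the increment of `Lam`. -/
theorem W_le_exp_Lam (v : Pt) (δ : ℤ × ℤ) (y : Pt) (h : Hist) :
    W h ∅ y ≤ Real.exp (Lam v δ h) * W h (lin v δ) y := by
  classical
  induction h with
  | nil => rw [W_nil, W_nil]; simp [Lam]
  | cons o h ih =>
    rw [W_cons, W_cons, Lam_cons]
    have hW := W_nonneg h (lin v δ) y
    split_ifs with h1 h2 h3 h3
    · simp
    · rw [mul_zero, mul_one]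
      positivity
    · exfalso
      apply h2
      obtain ⟨k, hk1, hk2, hk3⟩ := h3
      exact ⟨k, hk1, hk2, by simp⟩
    · rw [mul_one, mul_one]
      calc W h ∅ y * Real.exp (D h ∅ y)
          ≤ (Real.exp (Lam v δ h) * W h (lin v δ) y) *
              Real.exp (D h (lin v δ) y + dLam v δ h) := by
            apply mul_le_mul ih (Real.exp_le_exp.mpr (D_sub_le v δ y h)) (Real.exp_pos _).le
            positivity
        _ = _ := by rw [Real.exp_add, Real.exp_add]; ring
    · refine ih.trans ?_
      apply mul_le_mul_of_nonneg_right _ hW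
      apply Real.exp_le_exp.mpr
      have := dLam_nonneg v δ h
      linarith

/-- weights are frozen from their own column on -/
theorem W_frozen {o : Option ℕ} {h : Hist} {B : Set Pt} {v : Pt} (hv : v.1 ≤ h.length + 1) :
    W (o :: h) B v = W h B v := by
  classical
  have hc : ∀ k, ¬ cov h k v := by
    intro k hk
    have := hk.1
    omega
  rw [W_cons]
  have hD : D h B v = 0 := by
    rw [D_eq]
    refine sum_eq_zero fun k _ => ?_
    unfold cvi
    rw [if_neg (fun h => hc k h.1), mul_zero]
  rw [hD, if_neg (c := ∃ k, o = some k ∧ cov h k v ∧ (h.length + 1, k) ∉ B)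
    (by rintro ⟨k, -, hk, -⟩; exact hc k hk)]
  simp

/-- discrete Gronwall: `1 - exp (- Lam h) ≤ ∑_{y ∈ fV, y.1 ≤ |h|} c_y W h (lin v δ) y` by induction
(at most one point of the line in each column), and `1 - A ≥ exp (-2A)` for `0 ≤ A ≤ 1/2`. -/
theorem Lam_le {X k : ℕ} (hX : 1 ≤ X) (δ : ℤ × ℤ) {h : Hist} (hv : Val h) (hl : h.length < X)
    (hA : Ad X (X, k) δ h ≤ 1 / 2) : Lam (X, k) δ h ≤ 2 * Ad X (X, k) δ h := by
  classical
  have hH := H_pos
  have key : ∀ h : Hist, h.length < X → 1 - Real.exp (-Lam (X, k) δ h) ≤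
      ∑ y ∈ (fV X (X, k) δ).filter (fun y => y.1 ≤ h.length),
        1 / (2 * (H : ℝ) * y.1) * W h (lin (X, k) δ) y := by
    intro h
    induction h with
    | nil =>
      intro _
      have : Lam (X, k) δ [] = 0 := rfl
      rw [this, neg_zero, Real.exp_zero, sub_self]
      exact sum_nonneg fun y _ => mul_nonneg (by positivity) (W_nonneg _ _ _)
    | cons o h ih =>
      intro hl
      rw [List.length_cons] at hl
      have ih' := ih (by omega)
      rw [Lam_cons]
      have e1 : ∑ y ∈ (fV X (X, k) δ).filter (fun y => y.1 ≤ (o :: h).length),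
            1 / (2 * (H : ℝ) * y.1) * W (o :: h) (lin (X, k) δ) y =
          ∑ y ∈ (fV X (X, k) δ).filter (fun y => y.1 ≤ h.length),
            1 / (2 * (H : ℝ) * y.1) * W h (lin (X, k) δ) y +
          ∑ y ∈ (fV X (X, k) δ).filter (fun y => y.1 = h.length + 1),
            1 / (2 * (H : ℝ) * y.1) * W h (lin (X, k) δ) y := by
        rw [← sum_union]
        · have e2 : (fV X (X, k) δ).filter (fun y => y.1 ≤ (o :: h).length) =
              (fV X (X, k) δ).filter (fun y => y.1 ≤ h.length) ∪
              (fV X (X, k) δ).filter (fun y => y.1 = h.length + 1) := by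
            ext y
            simp only [mem_filter, mem_union, List.length_cons]
            constructor
            · rintro ⟨h1, h2⟩
              rcases Nat.lt_or_ge h.length y.1 with h3 | h3
              · exact Or.inr ⟨h1, by omega⟩
              · exact Or.inl ⟨h1, h3⟩
            · rintro (⟨h1, h2⟩ | ⟨h1, h2⟩)
              · exact ⟨h1, by omega⟩
              · exact ⟨h1, by omega⟩
          rw [← e2]
          refine sum_congr rfl fun y hy => ?_
          rw [mem_filter, List.length_cons] at hy
          rw [W_frozen hy.2]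
        · rw [disjoint_left]
          intro y hy hy'
          rw [mem_filter] at hy hy'
          omega
      rw [e1]
      have e3 : ∑ y ∈ (fV X (X, k) δ).filter (fun y => y.1 = h.length + 1),
            1 / (2 * (H : ℝ) * y.1) * W h (lin (X, k) δ) y =
          ∑ j ∈ V (h.length + 1), (if (h.length + 1, j) ∈ lin (X, k) δ then
            1 / (2 * (H : ℝ) * (h.length + 1 : ℕ)) * W h (lin (X, k) δ) (h.length + 1, j)
              else 0) := by
        rw [← sum_filter]
        symm
        refine sum_nbij' (fun j => (h.length + 1, j)) (fun y => y.2) ?_ ?_ ?_ ?_ ?_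
        · intro j hj
          rw [mem_filter] at hj
          obtain ⟨hj1, hj2⟩ := hj
          have hjV : j < H * (h.length + 1) := by
            have := hj1
            unfold V at this
            rw [mem_filter, mem_range] at this
            exact this.1
          rw [mem_filter]
          refine ⟨?_, rfl⟩
          unfold fV
          rw [mem_filter]
          refine ⟨?_, hj2.1, hj2.2, hj1⟩
          unfold cone Box
          rw [mem_filter, mem_product, mem_range, mem_range]
          refine ⟨⟨?_, ?_⟩, hjV⟩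
          · simp only; omega
          · simp only
            refine hjV.trans_le (Nat.mul_le_mul_left _ (by omega))
        · intro y hy
          rw [mem_filter] at hy
          obtain ⟨hy1, hy2⟩ := hy
          unfold fV at hy1
          rw [mem_filter] at hy1
          obtain ⟨-, h1, h2, h3⟩ := hy1
          rw [mem_filter, ← hy2]
          exact ⟨h3, h1, h2⟩
        · intro j _
          rfl
        · intro y hy
          rw [mem_filter] at hy
          rw [← hy.2]
        · intro j _
          rfl
      rw [e3]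
      have e4 : Real.exp (-Lam (X, k) δ h) * dLam (X, k) δ h ≤
          ∑ j ∈ V (h.length + 1), (if (h.length + 1, j) ∈ lin (X, k) δ then
            1 / (2 * (H : ℝ) * (h.length + 1 : ℕ)) * W h (lin (X, k) δ) (h.length + 1, j)
              else 0) := by
        unfold dLam
        rw [mul_sum]
        refine sum_le_sum fun j _ => ?_
        split_ifs with hj
        · have h1 := pi_le_W h j
          have h2 := W_le_exp_Lam (X, k) δ (h.length + 1, j) h
          have h3 : Real.exp (-Lam (X, k) δ h) * W h ∅ (h.length + 1, j) ≤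
              W h (lin (X, k) δ) (h.length + 1, j) := by
            calc _ ≤ Real.exp (-Lam (X, k) δ h) *
                  (Real.exp (Lam (X, k) δ h) * W h (lin (X, k) δ) (h.length + 1, j)) :=
                  mul_le_mul_of_nonneg_left h2 (Real.exp_pos _).le
              _ = _ := by rw [← mul_assoc, ← Real.exp_add, neg_add_cancel, Real.exp_zero, one_mul]
          have hpos : (0 : ℝ) < 2 * H * (h.length + 1 : ℕ) := by positivity
          calc Real.exp (-Lam (X, k) δ h) * pi h j
              ≤ Real.exp (-Lam (X, k) δ h) *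
                (W h ∅ (h.length + 1, j) / (2 * H * (h.length + 1 : ℕ))) :=
                mul_le_mul_of_nonneg_left h1 (Real.exp_pos _).le
            _ = 1 / (2 * (H : ℝ) * (h.length + 1 : ℕ)) *
                (Real.exp (-Lam (X, k) δ h) * W h ∅ (h.length + 1, j)) := by ring
            _ ≤ _ := mul_le_mul_of_nonneg_left h3 (by positivity)
        · rw [mul_zero]
      have e5 : Real.exp (-(Lam (X, k) δ h + dLam (X, k) δ h)) ≥
          Real.exp (-Lam (X, k) δ h) - Real.exp (-Lam (X, k) δ h) * dLam (X, k) δ h := by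
        have h1 := Real.add_one_le_exp (-dLam (X, k) δ h)
        have h2 : Real.exp (-(Lam (X, k) δ h + dLam (X, k) δ h)) =
            Real.exp (-Lam (X, k) δ h) * Real.exp (-dLam (X, k) δ h) := by
          rw [← Real.exp_add]; congr 1; ring
        rw [h2]
        have h3 := Real.exp_pos (-Lam (X, k) δ h)
        nlinarith
      linarith
  have h1 := key h hl
  have h2 : ∑ y ∈ (fV X (X, k) δ).filter (fun y => y.1 ≤ h.length),
        1 / (2 * (H : ℝ) * y.1) * W h (lin (X, k) δ) y ≤ Ad X (X, k) δ h := by
    unfold Ad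
    refine sum_le_sum_of_subset_of_nonneg (filter_subset _ _) fun y _ _ => ?_
    exact mul_nonneg (by positivity) (W_nonneg _ _ _)
  have hA0 : 0 ≤ Ad X (X, k) δ h := by
    unfold Ad
    exact sum_nonneg fun y _ => mul_nonneg (by positivity) (W_nonneg _ _ _)
  set A := Ad X (X, k) δ h with hAdef
  have h3 : 1 - A ≤ Real.exp (-Lam (X, k) δ h) := by linarith
  have h4 : Real.exp (-(2 * A)) ≤ 1 - A := by
    have h5 := Real.add_one_le_exp (2 * A)
    have h6 : Real.exp (-(2 * A)) * Real.exp (2 * A) = 1 := by
      rw [← Real.exp_add, neg_add_cancel, Real.exp_zero]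
    have h7 := Real.exp_pos (-(2 * A))
    have h8 := Real.exp_pos (2 * A)
    have h9 : 1 ≤ (1 - A) * Real.exp (2 * A) := by nlinarith
    by_contra hcon
    push Not at hcon
    have : (1 - A) * Real.exp (2 * A) < Real.exp (-(2 * A)) * Real.exp (2 * A) :=
      mul_lt_mul_of_pos_right hcon h8
    linarith
  have h5 := Real.exp_le_exp.mp (h4.trans h3)
  linarith

/-- compensator of `∑_{z ∈ Z h} f z` -/
def Kf (f : Pt → ℝ) : Hist → ℝ
  | [] => 0
  | _ :: h => Kf f h + ∑ k ∈ V (h.length + 1), pi h k * f (h.length + 1, k)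

/-- exponential supermartingale: `e^s - 1 ≤ 2s` for `0 ≤ s ≤ 1` -/
theorem exp_super (f : Pt → ℝ) (hf : ∀ y, 0 ≤ f y) (hf1 : ∀ y, f y ≤ 1) (n : ℕ) :
    Ex n (fun h => Real.exp (∑ z ∈ Z h, f z - 2 * Kf f h)) ≤ 1 := by
  classical
  have h0 : Real.exp (∑ z ∈ Z [], f z - 2 * Kf f []) = 1 := by
    simp [Z_nil, Kf]
  have h1 := Ex_le_telescope (F := fun h => Real.exp (∑ z ∈ Z h, f z - 2 * Kf f h))
    (err := fun _ => 0) n ?_
  · rw [h0] at h1
    simp only [Ex_const, sum_const_zero, add_zero] at h1
    exact h1
  · intro h _ _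
    rw [add_zero]
    set K := ∑ k ∈ V (h.length + 1), pi h k * f (h.length + 1, k) with hK
    set E := Real.exp (∑ z ∈ Z h, f z - 2 * Kf f h) with hE
    have hEpos : 0 < E := Real.exp_pos _
    have hsome : ∀ k, Real.exp (∑ z ∈ Z (some k :: h), f z - 2 * Kf f (some k :: h)) =
        E * Real.exp (-2 * K) * Real.exp (f (h.length + 1, k)) := by
      intro k
      have hn : (h.length + 1, k) ∉ Z h := by
        intro hc
        have := (Z_col hc).2
        simp at this
      have e1 : Kf f (some k :: h) = Kf f h + K := rfl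
      rw [Z_some, sum_insert hn, e1, hE, ← Real.exp_add, ← Real.exp_add]
      congr 1
      ring
    have hnone : Real.exp (∑ z ∈ Z (none :: h), f z - 2 * Kf f (none :: h)) =
        E * Real.exp (-2 * K) := by
      have e1 : Kf f (none :: h) = Kf f h + K := rfl
      rw [Z_none, e1, hE, ← Real.exp_add]
      congr 1
      ring
    unfold stp
    simp only [hsome, hnone]
    have e2 : ∀ k, Real.exp (f (h.length + 1, k)) ≤ 1 + 2 * f (h.length + 1, k) := by
      intro k
      have h2 := Real.abs_exp_sub_one_le (x := f (h.length + 1, k))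
        (by rw [abs_of_nonneg (hf _)]; exact hf1 _)
      rw [abs_of_nonneg (hf _)] at h2
      have h3 := le_abs_self (Real.exp (f (h.length + 1, k)) - 1)
      linarith
    have hEK : 0 < E * Real.exp (-2 * K) := by positivity
    calc (∑ k ∈ V (h.length + 1), pi h k * (E * Real.exp (-2 * K) *
            Real.exp (f (h.length + 1, k)))) +
          (1 - ∑ k ∈ V (h.length + 1), pi h k) * (E * Real.exp (-2 * K))
        ≤ (∑ k ∈ V (h.length + 1), (E * Real.exp (-2 * K)) * (pi h k +
            2 * (pi h k * f (h.length + 1, k)))) +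
          (1 - ∑ k ∈ V (h.length + 1), pi h k) * (E * Real.exp (-2 * K)) := by
          refine add_le_add (sum_le_sum fun k _ => ?_) (le_refl _)
          have h3 := mul_le_mul_of_nonneg_left (e2 k) (pi_nonneg h k)
          calc pi h k * (E * Real.exp (-2 * K) * Real.exp (f (h.length + 1, k)))
              = (E * Real.exp (-2 * K)) * (pi h k * Real.exp (f (h.length + 1, k))) := by ring
            _ ≤ (E * Real.exp (-2 * K)) * (pi h k * (1 + 2 * f (h.length + 1, k))) :=
                mul_le_mul_of_nonneg_left h3 hEK.le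
            _ = _ := by ring
      _ = E * (Real.exp (-2 * K) * (1 + 2 * K)) := by
          rw [← mul_sum, sum_add_distrib, ← mul_sum, ← hK]
          ring
      _ ≤ E * 1 := by
          apply mul_le_mul_of_nonneg_left _ hEpos.le
          have h4 := Real.add_one_le_exp (2 * K)
          have h5 : Real.exp (-2 * K) * Real.exp (2 * K) = 1 := by
            rw [← Real.exp_add]; simp
          calc Real.exp (-2 * K) * (1 + 2 * K) ≤ Real.exp (-2 * K) * Real.exp (2 * K) := by
                apply mul_le_mul_of_nonneg_left _ (Real.exp_pos _).le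
                linarith
            _ = 1 := h5
      _ = E := mul_one E

open scoped Classical in
/-- poor part of `S` -/
def Sp (A : ℝ) (v : Pt) : Hist → ℝ
  | [] => 0
  | _ :: h => Sp A v h + ∑ k ∈ V (h.length + 1),
      (if cov h k v ∧ A < nrm (dir (h.length + 1, k) v) then pi h k else 0)

open scoped Classical in
/-- rich part of `S` -/
def Sr (A : ℝ) (v : Pt) : Hist → ℝ
  | [] => 0
  | _ :: h => Sr A v h + ∑ k ∈ V (h.length + 1),
      (if cov h k v ∧ (nrm (dir (h.length + 1, k) v) : ℝ) ≤ A then pi h k else 0)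

theorem S_eq_Sp_add_Sr (A : ℝ) (v : Pt) (h : Hist) : S h v = Sp A v h + Sr A v h := by
  classical
  induction h with
  | nil => rw [S_nil]; simp [Sp, Sr]
  | cons o h ih =>
 
    have e1 : Sp A v (o :: h) = Sp A v h + ∑ k ∈ V (h.length + 1),
      (if cov h k v ∧ A < nrm (dir (h.length + 1, k) v) then pi h k else 0) := rfl
    have e2 : Sr A v (o :: h) = Sr A v h + ∑ k ∈ V (h.length + 1),
      (if cov h k v ∧ (nrm (dir (h.length + 1, k) v) : ℝ) ≤ A then pi h k else 0) := rfl
    rw [S_cons, ih, D_eq, e1, e2]
    have : ∑ k ∈ V (h.length + 1), pi h k * cvi h ∅ v k =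
        ∑ k ∈ V (h.length + 1),
          (if cov h k v ∧ A < nrm (dir (h.length + 1, k) v) then pi h k else 0) +
        ∑ k ∈ V (h.length + 1),
          (if cov h k v ∧ (nrm (dir (h.length + 1, k) v) : ℝ) ≤ A then pi h k else 0) := by
      rw [← sum_add_distrib]
      refine sum_congr rfl fun k _ => ?_
      unfold cvi
      by_cases hc : cov h k v
      · rcases lt_or_ge A (nrm (dir (h.length + 1, k) v) : ℝ) with h1 | h1
        · rw [if_pos ⟨hc, by simp⟩, if_pos ⟨hc, h1⟩, if_neg (fun h => not_le.mpr h1 h.2)]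
          ring
        · rw [if_pos ⟨hc, by simp⟩, if_neg (fun h => not_lt.mpr h1 h.2), if_pos ⟨hc, h1⟩]
          ring
      · rw [if_neg (fun h => hc h.1), if_neg (fun h => hc h.1), if_neg (fun h => hc h.1)]
        ring
    rw [this]
    ring

open scoped Classical in
/-- every covering of `v` along the rich line `δ` uses an earlier pick on that line -/
theorem Sr_le (A : ℝ) (v : Pt) (h : Hist) :
    Sr A v h ≤ ∑ δ ∈ dirs ⌊A⌋₊, (if ∃ z ∈ Z h, z ∈ lin v δ then Lam v δ h else 0) := by
  induction h with
  | nil =>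
    simp only [Sr]
    refine sum_nonneg fun δ _ => ?_
    split_ifs
    · exact Lam_nonneg _ _ _
    · exact le_refl _
  | cons o h ih =>
    have e1 : Sr A v (o :: h) = Sr A v h + ∑ k ∈ V (h.length + 1),
      (if cov h k v ∧ (nrm (dir (h.length + 1, k) v) : ℝ) ≤ A then pi h k else 0) := rfl
    rw [e1]
    have e2 : ∑ k ∈ V (h.length + 1),
        (if cov h k v ∧ (nrm (dir (h.length + 1, k) v) : ℝ) ≤ A then pi h k else 0) ≤
        ∑ δ ∈ dirs ⌊A⌋₊, (if ∃ z ∈ Z h, z ∈ lin v δ then dLam v δ h else 0) := by
      have e3 : ∀ δ, (if ∃ z ∈ Z h, z ∈ lin v δ then dLam v δ h else 0) =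
          ∑ k ∈ V (h.length + 1), (if ∃ z ∈ Z h, z ∈ lin v δ then
            (if (h.length + 1, k) ∈ lin v δ then pi h k else 0) else 0) := by
        intro δ
        split_ifs with h1
        · unfold dLam
          exact sum_congr rfl fun k _ => by congr
        · simp
      simp only [e3]
      rw [sum_comm]
      refine sum_le_sum fun k _ => ?_
      have hnn : ∀ δ ∈ dirs ⌊A⌋₊, 0 ≤ (if ∃ z ∈ Z h, z ∈ lin v δ then
            (if (h.length + 1, k) ∈ lin v δ then pi h k else 0) else 0) := by
        intro δ _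
        split_ifs
        · exact pi_nonneg _ _
        · exact le_refl _
        · exact le_refl _
      split_ifs with h1
      · obtain ⟨⟨hlt, z, hz, hz1, -, hz3⟩, hA⟩ := h1
        have hdir : dir z v = dir (h.length + 1, k) v := by
          rw [← det_eq_zero_iff (by omega) (by simpa using hlt)]
          exact hz3
        have hpos := dir_fst_pos (y := (h.length + 1, k)) (p := v) hlt
        have hδ : dir (h.length + 1, k) v ∈ dirs ⌊A⌋₊ := by
          have h2 := Nat.le_floor hA
          unfold nrm at h2
          rw [max_le_iff] at h2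
          unfold dirs
          rw [mem_product, mem_Icc, mem_Icc]
          omega
        refine le_trans ?_ (single_le_sum hnn hδ)
        rw [if_pos ⟨z, hz, by omega, hdir⟩, if_pos ⟨hlt, rfl⟩]
      · exact sum_nonneg hnn
    calc _ ≤ (∑ δ ∈ dirs ⌊A⌋₊, (if ∃ z ∈ Z h, z ∈ lin v δ then Lam v δ h else 0)) +
          ∑ δ ∈ dirs ⌊A⌋₊, (if ∃ z ∈ Z h, z ∈ lin v δ then dLam v δ h else 0) :=
          add_le_add ih e2
      _ = ∑ δ ∈ dirs ⌊A⌋₊, (if ∃ z ∈ Z h, z ∈ lin v δ then Lam v δ (o :: h) else 0) := by
          rw [← sum_add_distrib]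
          refine sum_congr rfl fun δ _ => ?_
          split_ifs
          · rw [Lam_cons]
          · ring
      _ ≤ _ := by
          refine sum_le_sum fun δ _ => ?_
          split_ifs with h1 h2 h2
          · exact le_refl _
          · exfalso
            apply h2
            obtain ⟨z, hz, hz'⟩ := h1
            exact ⟨z, Z_subset_cons o h hz, hz'⟩
          · exact Lam_nonneg _ _ _
          · exact le_refl _

open scoped Classical in
/-- with `b δ ≥ Lam v δ h`: the number of picks on each line is at least one if there is one; and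
the compensator of `∑ f z`, `f z = b (dir z v)` for `z` on a rich line, is `∑_δ b δ Lam v δ h`. -/
theorem Sr_le_sum (A : ℝ) (v : Pt) (b : ℤ × ℤ → ℝ) (hb : ∀ δ, 0 ≤ b δ) (h : Hist)
    (hL : ∀ δ ∈ dirs ⌊A⌋₊, Lam v δ h ≤ b δ) :
    Sr A v h ≤ ∑ z ∈ Z h, (if z.1 < v.1 ∧ dir z v ∈ dirs ⌊A⌋₊ then b (dir z v) else 0) := by
  refine (Sr_le A v h).trans ?_
  have e1 : ∀ z : Pt, (if z.1 < v.1 ∧ dir z v ∈ dirs ⌊A⌋₊ then b (dir z v) else 0) =
      ∑ δ ∈ dirs ⌊A⌋₊, (if z ∈ lin v δ then b δ else 0) := by
    intro z
    by_cases hz : z.1 < v.1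
    · have e2 : ∀ δ, (if z ∈ lin v δ then b δ else 0) = if dir z v = δ then b δ else 0 := by
        intro δ
        have : z ∈ lin v δ ↔ dir z v = δ := ⟨fun h => h.2, fun h => ⟨hz, h⟩⟩
        simp only [this]
      simp only [e2, sum_ite_eq, hz, true_and]
    · rw [if_neg (fun h => hz h.1)]
      symm
      refine sum_eq_zero fun δ _ => ?_
      rw [if_neg (fun h => hz h.1)]
  simp only [e1]
  rw [sum_comm]
  refine sum_le_sum fun δ hδ => ?_
  have hnn : ∀ z ∈ Z h, 0 ≤ (if z ∈ lin v δ then b δ else 0) := by
    intro z _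
    split_ifs
    · exact hb δ
    · exact le_refl _
  split_ifs with h1
  · obtain ⟨z, hz, hz'⟩ := h1
    refine (hL δ hδ).trans (le_trans ?_ (single_le_sum hnn hz))
    rw [if_pos hz']
  · exact sum_nonneg hnn

open scoped Classical in
theorem Kf_eq (A : ℝ) (v : Pt) (b : ℤ × ℤ → ℝ) (h : Hist) :
    Kf (fun z => if z.1 < v.1 ∧ dir z v ∈ dirs ⌊A⌋₊ then b (dir z v) else 0) h =
      ∑ δ ∈ dirs ⌊A⌋₊, b δ * Lam v δ h := by
  induction h with
  | nil => simp [Kf, Lam]
  | cons o h ih =>
    have e0 : ∀ f, Kf f (o :: h) = Kf f h + ∑ k ∈ V (h.length + 1), pi h k * f (h.length + 1, k) :=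
      fun f => rfl
    rw [e0, ih]
    simp only [Lam_cons, mul_add, sum_add_distrib]
    congr 1
    unfold dLam
    simp only [mul_sum]
    rw [sum_comm]
    refine sum_congr rfl fun k _ => ?_
    by_cases hz : h.length + 1 < v.1
    · have e2 : ∀ δ, b δ * (if (h.length + 1, k) ∈ lin v δ then pi h k else 0) =
          if dir (h.length + 1, k) v = δ then pi h k * b δ else 0 := by
        intro δ
        have : (h.length + 1, k) ∈ lin v δ ↔ dir (h.length + 1, k) v = δ :=
          ⟨fun h => h.2, fun h => ⟨hz, h⟩⟩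
        simp only [this]
        split_ifs
        · ring
        · ring
      simp only [e2, sum_ite_eq, hz, true_and]
      split_ifs
      · rfl
      · ring
    · rw [if_neg (fun h => hz h.1), mul_zero]
      symm
      refine sum_eq_zero fun δ _ => ?_
      rw [if_neg (fun h => hz h.1), mul_zero]

end

end NTIL
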