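import Mathlib
import Pool.Agent.Lib.MP_2ffb02_co.PoorA
import Pool.Agent.Lib.MP_2ffb02_co.RichA
import Pool.Agent.Lib.MP_2ffb02_co.MainC

/-!
# One column: deterministic facts and early coverage
-/

set_option autoImplicit false

namespace NTIL

open Finset

noncomputable section

lemma ColumnA_mem_cone_iff {H X : ℕ} {y : Pt} : y ∈ cone H X ↔ y.1 ≤ X ∧ y.2 < H * X ∧ y.2 < H * y.1 := by
  unfold cone Box
  simp only [mem_filter, mem_product, mem_range]
  constructor
  · rintro ⟨⟨h1, h2⟩, h3⟩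
    exact ⟨by omega, h2, h3⟩
  · rintro ⟨h1, h2, h3⟩
    exact ⟨⟨by omega, h2⟩, h3⟩

lemma ColumnA_mem_cone_of {X : ℕ} {y : Pt} (h1 : y.1 ≤ X) (h2 : y.2 ∈ V y.1) : y ∈ cone H X := by
  rw [ColumnA_mem_cone_iff]
  have h3 := V_lt h2
  exact ⟨h1, lt_of_lt_of_le h3 (Nat.mul_le_mul_left _ h1), h3⟩

lemma ColumnA_N1_single_cons {o : Option ℕ} {h : Hist} {z : Pt} (hz : z.1 ≤ h.length) :
    N1 {z} (o :: h) = N1 {z} h := by
  classical
  unfold N1
  simp only [singleton_subset_iff]
  rw [if_congr (mem_Z_cons_of_le hz) rfl rfl]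

lemma ColumnA_N1_single_of_mem {h : Hist} {z : Pt} (hz : z ∈ Z h) : N1 {z} h = 1 := by
  classical
  unfold N1
  rw [if_pos (singleton_subset_iff.mpr hz)]

lemma ColumnA_cc_nonneg (t : ℕ) : 0 ≤ cc t := by
  unfold cc
  positivity

lemma ColumnA_UPterm_nonneg (zu : Pt × Pt) (h : Hist) :
    0 ≤ N1 {zu.1} h * (cc zu.2.1 * W h ∅ zu.2) :=
  mul_nonneg (N1_nonneg _ _) (mul_nonneg (ColumnA_cc_nonneg _) (W_nonneg _ _ _))

open scoped Classical in
/-- truncated sum -/
lemma ColumnA_Sp_le_trunc {X k : ℕ} {h : Hist} (hv : Val h)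
    (hl : h.length < X) : Sp (Yx X ^ 300) (X, k) h ≤
      ∑ zu ∈ (PP X (X, k)).filter (fun zu => zu.2.1 ≤ h.length),
        N1 {zu.1} h * (cc zu.2.1 * W h ∅ zu.2) := by
  induction h with
  | nil =>
    unfold Sp
    exact sum_nonneg fun zu _ => ColumnA_UPterm_nonneg zu _
  | cons o h ih =>
    simp only [List.length_cons] at hl
    have ih' := ih hv.2 (by omega)
    have hsplit : ∑ zu ∈ (PP X (X, k)).filter (fun zu => zu.2.1 ≤ (o :: h).length),
        N1 {zu.1} (o :: h) * (cc zu.2.1 * W (o :: h) ∅ zu.2) =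
        ∑ zu ∈ (PP X (X, k)).filter (fun zu => zu.2.1 ≤ h.length),
          N1 {zu.1} h * (cc zu.2.1 * W h ∅ zu.2) +
        ∑ zu ∈ (PP X (X, k)).filter (fun zu => zu.2.1 = h.length + 1),
          N1 {zu.1} h * (cc zu.2.1 * W h ∅ zu.2) := by
      rw [← sum_union]
      · have hset : (PP X (X, k)).filter (fun zu => zu.2.1 ≤ (o :: h).length) =
            (PP X (X, k)).filter (fun zu => zu.2.1 ≤ h.length) ∪
            (PP X (X, k)).filter (fun zu => zu.2.1 = h.length + 1) := by
          ext zu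
          simp only [mem_filter, mem_union, List.length_cons]
          constructor
          · rintro ⟨h1, h2⟩
            rcases Nat.lt_or_ge h.length zu.2.1 with h3 | h3
            · right; exact ⟨h1, by omega⟩
            · left; exact ⟨h1, h3⟩
          · rintro (⟨h1, h2⟩ | ⟨h1, h2⟩)
            · exact ⟨h1, by omega⟩
            · exact ⟨h1, by omega⟩
        rw [hset]
        apply sum_congr rfl
        intro zu hzu
        have h1 : zu.2.1 ≤ h.length + 1 := by
          simp only [mem_union, mem_filter] at hzu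
          rcases hzu with hzu | hzu <;> omega
        have h2 : zu ∈ PP X (X, k) := by
          simp only [mem_union, mem_filter] at hzu
          rcases hzu with hzu | hzu
          · exact hzu.1
          · exact hzu.1
        have h3 : zu.1.1 < zu.2.1 := by
          unfold PP at h2
          rw [mem_filter] at h2
          exact h2.2.2.1
        rw [ColumnA_N1_single_cons (by omega), W_frozen h1]
      · rw [disjoint_filter]
        intro zu _ h1 h2
        omega
    rw [hsplit]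
    have hSp : Sp (Yx X ^ 300) (X, k) (o :: h) = Sp (Yx X ^ 300) (X, k) h +
        ∑ k' ∈ V (h.length + 1), (if cov h k' (X, k) ∧
          Yx X ^ 300 < nrm (dir (h.length + 1, k') (X, k)) then pi h k' else 0) := rfl
    rw [hSp]
    apply add_le_add ih'
    have hfib : ∑ zu ∈ (PP X (X, k)).filter (fun zu => zu.2.1 = h.length + 1),
          N1 {zu.1} h * (cc zu.2.1 * W h ∅ zu.2) =
        ∑ k' ∈ V (h.length + 1), ∑ zu ∈ ((PP X (X, k)).filter
          (fun zu => zu.2.1 = h.length + 1)).filter (fun zu => zu.2.2 = k'),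
          N1 {zu.1} h * (cc zu.2.1 * W h ∅ zu.2) := by
      rw [sum_fiberwise_of_maps_to]
      intro zu hzu
      unfold PP at hzu
      simp only [mem_filter] at hzu
      have h1 := hzu.1.2.2.2.2.2.2.2
      rw [hzu.2] at h1
      exact h1
    rw [hfib]
    apply sum_le_sum
    intro k' hk'
    split_ifs with hc
    · obtain ⟨⟨hr, z, hz, hzr, hlo, hdet⟩, hn⟩ := hc
      simp only at hr hlo
      have hzV := Z_mem_V hv.2 hz
      have hmem : (z, ((h.length + 1, k') : Pt)) ∈ ((PP X (X, k)).filter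
          (fun zu => zu.2.1 = h.length + 1)).filter (fun zu => zu.2.2 = k') := by
        unfold PP
        simp only [mem_filter, mem_product]
        refine ⟨⟨⟨⟨ColumnA_mem_cone_of (by omega) hzV, ColumnA_mem_cone_of (by simp only; omega) hk'⟩,
          hlo, hzr, hr, ?_, hn, hzV, hk'⟩, trivial⟩, trivial⟩
        rw [← det_eq_zero_iff (by simp only; omega) (by simp only; omega)]
        exact hdet
      refine le_trans ?_ (single_le_sum (f := fun zu : Pt × Pt =>
        N1 {zu.1} h * (cc zu.2.1 * W h ∅ zu.2)) (fun zu _ => ColumnA_UPterm_nonneg zu h) hmem)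
      simp only
      rw [ColumnA_N1_single_of_mem hz, one_mul]
      refine (pi_le_W h k').trans (le_of_eq ?_)
      unfold cc
      push_cast
      ring
    · exact sum_nonneg fun zu _ => ColumnA_UPterm_nonneg zu _

/-- the poor part of `S` is dominated by `UP` (at time `X - 1`).  By induction on `h`, with
`∑_{zu ∈ PP, zu.2.1 ≤ |h|}` on the right (weights are frozen, `W_frozen`; `pi_le_W`). -/
theorem Sp_le {X k : ℕ} (hX : 1 ≤ X) (hk : k < Nn X) {h : Hist} (hv : Val h)
    (hl : h.length < X) : Sp (Yx X ^ 300) (X, k) h ≤ UP X (X, k) h := by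
  classical
  refine (ColumnA_Sp_le_trunc hv hl).trans ?_
  unfold UP
  exact sum_le_sum_of_subset_of_nonneg (filter_subset _ _) fun zu _ _ => ColumnA_UPterm_nonneg zu h

/-- `v` is collinear with two points of `Zs` in different columns left of `v` -/
def cvd (Zs : Finset Pt) (v : Pt) : Prop :=
  ∃ z ∈ Zs, ∃ y ∈ Zs, z.1 < y.1 ∧ y.1 < v.1 ∧ det z y v = 0

/-- if `v` never froze (`S ≤ Th`) and is covered by a pair with `lo ≤ z.1` then its weight is `0`
-/
theorem W_eq_zero {v : Pt} {h : Hist} (hl : h.length < v.1) (hS : S h v ≤ Th v.1)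
    {z y : Pt} (hz : z ∈ Z h) (hy : y ∈ Z h) (hzy : z.1 < y.1) (hlo : lo v.1 ≤ z.1)
    (hd : det z y v = 0) : W h ∅ v = 0 := by
  classical
  induction h with
  | nil => simp [Z_nil] at hz
  | cons o h ih =>
    rw [S_cons] at hS
    simp only [List.length_cons] at hl
    rw [W_cons, if_pos hS]
    by_cases hy1 : y.1 ≤ h.length
    · rw [mem_Z_cons_of_le hy1] at hy
      rw [mem_Z_cons_of_le (by omega)] at hz
      rw [ih (by omega) (by linarith [D_nonneg h ∅ v]) hz hy]
      ring
    · have h2 := (Z_col hy).2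
      simp only [List.length_cons] at h2
      have h3 : y.1 = h.length + 1 := by omega
      obtain ⟨a, b⟩ := y
      simp only at h3
      subst h3
      rw [mem_Z_cons_new] at hy
      simp only at hzy
      rw [mem_Z_cons_of_le (by omega)] at hz
      have hex : ∃ k, o = some k ∧ cov h k v ∧ (h.length + 1, k) ∉ (∅ : Set Pt) :=
        ⟨b, hy, ⟨by omega, z, hz, hzy, hlo, hd⟩, by simp⟩
      rw [if_pos hex, mul_zero]

lemma ColumnA_sqrt_eq_Yx {X : ℕ} : Real.sqrt X = Yx X ^ 50000 := by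
  have h1 : (X : ℝ) = (Yx X ^ 50000) ^ 2 := by
    rw [← pow_mul]
    exact (Yx_pow X).symm
  have h2 : 0 ≤ Yx X ^ 50000 := by
    have : 0 ≤ Yx X := by unfold Yx; positivity
    positivity
  calc Real.sqrt X = Real.sqrt ((Yx X ^ 50000) ^ 2) := by rw [← h1]
    _ = Yx X ^ 50000 := Real.sqrt_sq h2

open scoped Classical in
lemma ColumnA_early_det (X : ℕ) {h : Hist} (hv : Val h) :
    (∑ k ∈ range (Nn X), (if ∃ z ∈ Z h, ∃ y ∈ Z h, z.1 < y.1 ∧ y.1 < X ∧
      (z.1 : ℝ) < lo X ∧ det z y (X, k) = 0 then (1 : ℝ) else 0)) ≤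
    ∑ z ∈ (cone H X).filter (fun z => (z.1 : ℝ) < lo X),
      ∑ y ∈ (cone H X).filter (fun y => z.1 < y.1 ∧ y.1 < X),
        ((range (H * X)).filter (fun k => det z y (X, k) = 0)).card * N1 {z, y} h := by
  have h1 : ∀ k ∈ range (Nn X), (if ∃ z ∈ Z h, ∃ y ∈ Z h, z.1 < y.1 ∧ y.1 < X ∧
      (z.1 : ℝ) < lo X ∧ det z y (X, k) = 0 then (1 : ℝ) else 0) ≤
      ∑ z ∈ (cone H X).filter (fun z => (z.1 : ℝ) < lo X),
      ∑ y ∈ (cone H X).filter (fun y => z.1 < y.1 ∧ y.1 < X),
        (if det z y (X, k) = 0 then (1 : ℝ) else 0) * N1 {z, y} h := by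
    intro k _
    have hnn : ∀ z y : Pt, 0 ≤ (if det z y (X, k) = 0 then (1 : ℝ) else 0) * N1 {z, y} h := by
      intro z y
      apply mul_nonneg _ (N1_nonneg _ _)
      split_ifs <;> norm_num
    split_ifs with hc
    · obtain ⟨z, hz, y, hy, hzy, hyX, hlo, hd⟩ := hc
      have hz1 : z ∈ (cone H X).filter (fun z => (z.1 : ℝ) < lo X) := by
        rw [mem_filter]
        exact ⟨ColumnA_mem_cone_of (by omega) (Z_mem_V hv hz), hlo⟩
      have hy1 : y ∈ (cone H X).filter (fun y => z.1 < y.1 ∧ y.1 < X) := by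
        rw [mem_filter]
        exact ⟨ColumnA_mem_cone_of (by omega) (Z_mem_V hv hy), hzy, hyX⟩
      refine le_trans ?_ (single_le_sum (f := fun z : Pt =>
        ∑ y ∈ (cone H X).filter (fun y => z.1 < y.1 ∧ y.1 < X),
        (if det z y (X, k) = 0 then (1 : ℝ) else 0) * N1 {z, y} h)
        (fun z _ => sum_nonneg fun y _ => hnn z y) hz1)
      refine le_trans ?_ (single_le_sum (f := fun y : Pt =>
        (if det z y (X, k) = 0 then (1 : ℝ) else 0) * N1 {z, y} h)
        (fun y _ => hnn z y) hy1)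
      rw [if_pos hd, one_mul]
      unfold N1
      rw [if_pos]
      intro q hq
      rw [mem_insert, mem_singleton] at hq
      rcases hq with rfl | rfl
      · exact hz
      · exact hy
    · exact sum_nonneg fun z _ => sum_nonneg fun y _ => hnn z y
  refine (sum_le_sum h1).trans (le_of_eq ?_)
  rw [sum_comm]
  apply sum_congr rfl
  intro z _
  rw [sum_comm]
  apply sum_congr rfl
  intro y _
  rw [← sum_mul]
  congr 1
  rw [← sum_filter, sum_const, nsmul_eq_mul, mul_one]
  rfl

open scoped Classical in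
/-- expected number of candidates covered by pairs with `z.1 < lo X`, from `Ex_N1_le` (pairs) and
`early_le` with `l = lo X`. -/
theorem early_prob {X : ℕ} (hB : Big X) :
    Ex (X - 1) (fun h => ∑ k ∈ range (Nn X), (if ∃ z ∈ Z h, ∃ y ∈ Z h, z.1 < y.1 ∧ y.1 < X ∧
      (z.1 : ℝ) < lo X ∧ det z y (X, k) = 0 then (1 : ℝ) else 0)) ≤ X / Yx X ^ 4 := by
  have hX := hB.one_le
  have hX0 : (0 : ℝ) < X := by exact_mod_cast hX
  have hY1 := Yx_one_le hX
  have hY0 := Yx_pos hX
  have hH0 : (0 : ℝ) < H := by exact_mod_cast H_pos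
  have hYbig : (10 : ℝ) ^ 20 ≤ Yx X := by
    refine le_trans ?_ hB.H_le
    have h1 : (1 : ℝ) ≤ (H : ℝ) ^ 10 := one_le_pow₀ (by exact_mod_cast H_pos)
    nlinarith
  have hlog : 1 + Real.log X ≤ Yx X := by
    refine le_trans ?_ hB.log_le
    have : Real.log X ≤ Real.log (Nn X) := by
      apply Real.log_le_log hX0
      exact_mod_cast X_le_Nn X
    linarith
  have hlog0 : 0 ≤ Real.log X := Real.log_nonneg (by exact_mod_cast hX)
  have hlo0 : 0 < lo X := by
    unfold lo
    positivity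
  have h1 : Ex (X - 1) (fun h => ∑ k ∈ range (Nn X), (if ∃ z ∈ Z h, ∃ y ∈ Z h, z.1 < y.1 ∧ y.1 < X ∧
      (z.1 : ℝ) < lo X ∧ det z y (X, k) = 0 then (1 : ℝ) else 0)) ≤
      ∑ z ∈ (cone H X).filter (fun z => (z.1 : ℝ) < lo X),
      ∑ y ∈ (cone H X).filter (fun y => z.1 < y.1 ∧ y.1 < X),
        ((range (H * X)).filter (fun k => det z y (X, k) = 0)).card * Ex (X - 1) (N1 {z, y}) := by
    refine (Ex_mono fun h hv _ => ColumnA_early_det X hv).trans (le_of_eq ?_)
    rw [Ex_sum]
    apply sum_congr rfl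
    intro z _
    rw [Ex_sum]
    apply sum_congr rfl
    intro y _
    rw [Ex_const_mul]
  have h2 : ∀ z ∈ (cone H X).filter (fun z => (z.1 : ℝ) < lo X),
      ∀ y ∈ (cone H X).filter (fun y => z.1 < y.1 ∧ y.1 < X),
        ((range (H * X)).filter (fun k => det z y (X, k) = 0)).card * Ex (X - 1) (N1 {z, y}) ≤
        Yx X ^ 2 / (4 * (H : ℝ) ^ 2) * (1 / ((z.1 : ℝ) * y.1) *
          ((range (H * X)).filter (fun k => det z y (X, k) = 0)).card) := by
    intro z hz y hy
    rw [mem_filter, ColumnA_mem_cone_iff] at hz hy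
    have hz1 : 1 ≤ z.1 := by
      rcases Nat.eq_zero_or_pos z.1 with h0 | h0
      · rw [h0] at hz; simp at hz
      · exact h0
    have hy1 : 1 ≤ y.1 := by omega
    have hne : z ≠ y := by
      intro he
      rw [he] at hy
      omega
    have h3 : Ex (X - 1) (N1 {z, y}) ≤ bb z.1 * bb y.1 := by
      refine (Ex_N1_le {z, y} (X - 1)).trans (le_of_eq ?_)
      rw [prod_pair hne]
    have h4 : ∀ s : ℕ, 1 ≤ s → s ≤ X → bb s ≤ Yx X / (2 * H * s) := by
      intro s hs hsX
      unfold bb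
      have := Yx_mono hsX
      have hs0 : (0 : ℝ) < s := by exact_mod_cast hs
      gcongr
    have hz0 : (0 : ℝ) < z.1 := by exact_mod_cast hz1
    have hy0 : (0 : ℝ) < y.1 := by exact_mod_cast hy1
    have h5 : bb z.1 * bb y.1 ≤ Yx X ^ 2 / (4 * (H : ℝ) ^ 2) * (1 / ((z.1 : ℝ) * y.1)) := by
      calc bb z.1 * bb y.1 ≤ (Yx X / (2 * H * z.1)) * (Yx X / (2 * H * y.1)) :=
            mul_le_mul (h4 _ hz1 hz.1.1) (h4 _ hy1 hy.1.1) (bb_nonneg _) (by positivity)
        _ = Yx X ^ 2 / (4 * (H : ℝ) ^ 2) * (1 / ((z.1 : ℝ) * y.1)) := by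
            field_simp
            norm_num
    calc (((range (H * X)).filter (fun k => det z y (X, k) = 0)).card : ℝ) *
          Ex (X - 1) (N1 {z, y})
        ≤ (((range (H * X)).filter (fun k => det z y (X, k) = 0)).card : ℝ) *
          (Yx X ^ 2 / (4 * (H : ℝ) ^ 2) * (1 / ((z.1 : ℝ) * y.1))) :=
          mul_le_mul_of_nonneg_left (h3.trans h5) (Nat.cast_nonneg _)
      _ = _ := by ring
  have h6 := early_le (H := H) (X := X) H_pos hX hlo0
  calc _ ≤ _ := h1
    _ ≤ ∑ z ∈ (cone H X).filter (fun z => (z.1 : ℝ) < lo X),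
        ∑ y ∈ (cone H X).filter (fun y => z.1 < y.1 ∧ y.1 < X),
        Yx X ^ 2 / (4 * (H : ℝ) ^ 2) * (1 / ((z.1 : ℝ) * y.1) *
          ((range (H * X)).filter (fun k => det z y (X, k) = 0)).card) :=
        sum_le_sum fun z hz => sum_le_sum fun y hy => h2 z hz y hy
    _ = Yx X ^ 2 / (4 * (H : ℝ) ^ 2) * ∑ z ∈ (cone H X).filter (fun z => (z.1 : ℝ) < lo X),
        ∑ y ∈ (cone H X).filter (fun y => z.1 < y.1 ∧ y.1 < X),
        (1 / ((z.1 : ℝ) * y.1) *
          ((range (H * X)).filter (fun k => det z y (X, k) = 0)).card) := by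
        rw [mul_sum]
        apply sum_congr rfl
        intro z _
        rw [mul_sum]
    _ ≤ Yx X ^ 2 / (4 * (H : ℝ) ^ 2) * (4 * (H : ℝ) ^ 2 * (1 + Real.log X) *
          (lo X * (1 + Real.log X) + Real.sqrt X)) := by
        apply mul_le_mul_of_nonneg_left _ (by positivity)
        convert h6 using 4
    _ = Yx X ^ 2 * (1 + Real.log X) * (lo X * (1 + Real.log X) + Real.sqrt X) := by
        field_simp
    _ ≤ Yx X ^ 2 * Yx X * (lo X * Yx X + Real.sqrt X) := by
        gcongr
    _ = X / Yx X ^ 6 + Yx X ^ 50003 := by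
        rw [ColumnA_sqrt_eq_Yx]
        unfold lo
        have : Yx X ^ 50003 = Yx X ^ 3 * Yx X ^ 50000 := by rw [← pow_add]
        rw [this]
        field_simp
    _ ≤ X / Yx X ^ 4 := by
        have e1 : (X : ℝ) / Yx X ^ 6 = X / Yx X ^ 4 * (1 / Yx X ^ 2) := by
          field_simp
        have e2 : (1 : ℝ) / Yx X ^ 2 ≤ 1 / 2 := by
          apply one_div_le_one_div_of_le (by norm_num)
          nlinarith
        have e3 : Yx X ^ 50003 ≤ X / Yx X ^ 4 * (1 / 2) := by
          have e4 : (X : ℝ) / Yx X ^ 4 = Yx X ^ 99996 := by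
            rw [div_eq_iff (by positivity), ← pow_add, Yx_pow]
          rw [e4]
          have e5 : Yx X ^ 99996 = Yx X ^ 50003 * (Yx X ^ 49993) := by rw [← pow_add]
          rw [e5]
          have e6 : (2 : ℝ) ≤ Yx X ^ 49993 := by
            calc (2 : ℝ) ≤ Yx X := by linarith
              _ ≤ Yx X ^ 49993 := le_self_pow₀ hY1 (by norm_num)
          have e7 : 0 < Yx X ^ 50003 := by positivity
          nlinarith
        have e8 : 0 ≤ (X : ℝ) / Yx X ^ 4 := by positivity
        rw [e1]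
        nlinarith

end

end NTIL
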