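import Mathlib
import Pool.Agent.Lib.MP_2ffb02_co.ColumnA

/-!
# Dyadic blocks: martingale and counting
-/

set_option autoImplicit false

namespace NTIL

open Finset

noncomputable section

open scoped Classical in
/-- good picks -/
def GP (h : Hist) : Finset Pt := (Z h).filter (fun v => ¬ cvd (Z h) v)

open scoped Classical in
/-- number of picks of block `j` -/
def NP (j : ℕ) : Hist → ℝ
  | [] => 0
  | o :: h => NP j h + (if 2 ^ j ≤ h.length + 1 ∧ h.length + 1 < 2 ^ (j + 1) ∧ o ≠ none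
      then 1 else 0)

open scoped Classical in
/-- compensated number of picks of block `j` (a martingale with increments `≤ 1`) -/
def MP (j : ℕ) : Hist → ℝ
  | [] => 0
  | o :: h => MP j h + (if 2 ^ j ≤ h.length + 1 ∧ h.length + 1 < 2 ^ (j + 1)
      then (if o ≠ none then 1 else 0) - ∑ k ∈ V (h.length + 1), pi h k else 0)

open scoped Classical in
/-- number of columns of block `j` with small pick probability -/
def BT (j : ℕ) : Hist → ℝ
  | [] => 0
  | _ :: h => BT j h + (if 2 ^ j ≤ h.length + 1 ∧ h.length + 1 < 2 ^ (j + 1) ∧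
      ∑ k ∈ V (h.length + 1), pi h k < 2 / 5 then 1 else 0)

open scoped Classical in
/-- number of picks of block `j` which are covered -/
def BP (j : ℕ) : Hist → ℝ
  | [] => 0
  | o :: h => BP j h + (if 2 ^ j ≤ h.length + 1 ∧ h.length + 1 < 2 ^ (j + 1) ∧
      (∃ k, o = some k ∧ cvd (Z h) (h.length + 1, k)) then 1 else 0)

open scoped Classical in
lemma blockSum_le (j n : ℕ) {c : ℝ} (hc : 0 ≤ c) :
    ∑ m ∈ range n, (if 2 ^ j ≤ m + 1 ∧ m + 1 < 2 ^ (j + 1) then c else 0) ≤ 2 ^ j * c := by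
  rw [← sum_filter, sum_const, nsmul_eq_mul]
  apply mul_le_mul_of_nonneg_right _ hc
  have h1 : (range n).filter (fun m => 2 ^ j ≤ m + 1 ∧ m + 1 < 2 ^ (j + 1)) ⊆
      Ico (2 ^ j - 1) (2 ^ (j + 1) - 1) := by
    intro m hm
    rw [mem_filter] at hm
    rw [mem_Ico]
    omega
  have h2 := card_le_card h1
  rw [Nat.card_Ico] at h2
  have h3 : 1 ≤ 2 ^ j := Nat.one_le_two_pow
  have h4 : 2 ^ (j + 1) = 2 * 2 ^ j := by rw [pow_succ]; ring
  have h5 : ((range n).filter (fun m => 2 ^ j ≤ m + 1 ∧ m + 1 < 2 ^ (j + 1))).card ≤ 2 ^ j := by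
    omega
  exact_mod_cast h5

open scoped Classical in
lemma blockSum_eq (j n : ℕ) (hn : 2 ^ (j + 1) ≤ n) :
    ∑ m ∈ range n, (if 2 ^ j ≤ m + 1 ∧ m + 1 < 2 ^ (j + 1) then (1 : ℝ) else 0) = 2 ^ j := by
  rw [← sum_filter, sum_const, nsmul_eq_mul, mul_one]
  have h3 : 1 ≤ 2 ^ j := Nat.one_le_two_pow
  have h4 : 2 ^ (j + 1) = 2 * 2 ^ j := by rw [pow_succ]; ring
  have h1 : (range n).filter (fun m => 2 ^ j ≤ m + 1 ∧ m + 1 < 2 ^ (j + 1)) =
      Ico (2 ^ j - 1) (2 ^ (j + 1) - 1) := by
    ext m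
    rw [mem_filter, mem_Ico, mem_range]
    omega
  rw [h1, Nat.card_Ico]
  have h5 : 2 ^ (j + 1) - 1 - (2 ^ j - 1) = 2 ^ j := by omega
  rw [h5]
  norm_num

theorem Ex_MP_sq_le (j n : ℕ) : Ex n (fun h => MP j h ^ 2) ≤ 2 ^ j := by
  classical
  have hstep : ∀ h : Hist, Val h → h.length < n → stp (fun h => MP j h ^ 2) h ≤
      MP j h ^ 2 + (if 2 ^ j ≤ h.length + 1 ∧ h.length + 1 < 2 ^ (j + 1) then 1 else 0) := by
    intro h _ _
    by_cases hb : 2 ^ j ≤ h.length + 1 ∧ h.length + 1 < 2 ^ (j + 1)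
    · have hp0 : 0 ≤ ∑ k ∈ V (h.length + 1), pi h k := sum_nonneg fun k _ => pi_nonneg _ _
      have hp1 := sum_pi_le_one h
      have hsome : ∀ k, MP j (some k :: h) =
          MP j h + (1 - ∑ k ∈ V (h.length + 1), pi h k) := by
        intro k
        simp only [MP, if_pos hb]
        simp
      have hnone : MP j (none :: h) = MP j h + (0 - ∑ k ∈ V (h.length + 1), pi h k) := by
        simp only [MP, if_pos hb]
        simp
      unfold stp
      simp only [hsome, hnone]
      rw [← sum_mul, if_pos hb]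
      generalize ∑ k ∈ V (h.length + 1), pi h k = p at *
      nlinarith [mul_nonneg hp0 hp0]
    · have hall : ∀ o, MP j (o :: h) = MP j h := by
        intro o
        simp only [MP, if_neg hb, add_zero]
      rw [if_neg hb, add_zero]
      have : stp (fun h => MP j h ^ 2) h = stp (fun _ => MP j h ^ 2) h := by
        unfold stp
        simp only [hall]
      rw [this, stp_const]
  refine (Ex_le_telescope (err := fun h => if 2 ^ j ≤ h.length + 1 ∧
    h.length + 1 < 2 ^ (j + 1) then 1 else 0) n hstep).trans ?_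
  have h0 : (MP j [] : ℝ) ^ 2 = 0 := by simp [MP]
  rw [h0, zero_add]
  have h1 : ∀ m ∈ range n, Ex m (fun h => if 2 ^ j ≤ h.length + 1 ∧
      h.length + 1 < 2 ^ (j + 1) then (1 : ℝ) else 0) =
      (if 2 ^ j ≤ m + 1 ∧ m + 1 < 2 ^ (j + 1) then 1 else 0) := by
    intro m _
    rw [← Ex_const m (if 2 ^ j ≤ m + 1 ∧ m + 1 < 2 ^ (j + 1) then (1 : ℝ) else 0)]
    apply Ex_congr
    intro h _ hl
    rw [hl]
  rw [sum_congr rfl h1]
  simpa using blockSum_le j n (c := 1) (by norm_num)

open scoped Classical in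
/-- `BT j (o :: h) - BT j h` only depends on `h` -/
theorem Ex_BT_le (j n : ℕ) {δ : ℝ}
    (hδ : ∀ X, 2 ^ j ≤ X → X < 2 ^ (j + 1) →
      Ex (X - 1) (fun h => if ∑ k ∈ V X, pi h k < 2 / 5 then 1 else 0) ≤ δ) (hδ0 : 0 ≤ δ) :
    Ex n (BT j) ≤ 2 ^ j * δ := by
  have hstep : ∀ h : Hist, Val h → h.length < n → stp (BT j) h ≤
      BT j h + (if 2 ^ j ≤ h.length + 1 ∧ h.length + 1 < 2 ^ (j + 1) ∧
        ∑ k ∈ V (h.length + 1), pi h k < 2 / 5 then 1 else 0) := by
    intro h _ _
    have : stp (BT j) h = stp (fun _ => BT j h + (if 2 ^ j ≤ h.length + 1 ∧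
        h.length + 1 < 2 ^ (j + 1) ∧ ∑ k ∈ V (h.length + 1), pi h k < 2 / 5 then 1 else 0)) h :=
      rfl
    rw [this, stp_const]
  refine (Ex_le_telescope (err := fun h => if 2 ^ j ≤ h.length + 1 ∧ h.length + 1 < 2 ^ (j + 1) ∧
        ∑ k ∈ V (h.length + 1), pi h k < 2 / 5 then 1 else 0) n hstep).trans ?_
  have h0 : BT j [] = 0 := rfl
  rw [h0, zero_add]
  refine le_trans (sum_le_sum fun m _ => ?_) (blockSum_le j n hδ0)
  by_cases hb : 2 ^ j ≤ m + 1 ∧ m + 1 < 2 ^ (j + 1)
  · rw [if_pos hb]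
    refine le_trans (Ex_congr fun h _ hl => ?_).le (hδ (m + 1) hb.1 hb.2)
    subst hl
    simp only [hb.1, hb.2, true_and]
  · rw [if_neg hb]
    refine ((Ex_congr (G := fun _ => 0) fun h _ hl => ?_).trans (Ex_const m 0)).le
    rw [if_neg]
    intro hc
    apply hb
    rw [← hl]
    exact ⟨hc.1, hc.2.1⟩

open scoped Classical in
theorem Ex_BP_le (j n : ℕ) {δ : ℝ}
    (hδ : ∀ X, 2 ^ j ≤ X → X < 2 ^ (j + 1) →
      Ex (X - 1) (fun h => ∑ k ∈ V X, pi h k * (if cvd (Z h) (X, k) then 1 else 0)) ≤ δ)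
    (hδ0 : 0 ≤ δ) :
    Ex n (BP j) ≤ 2 ^ j * δ := by
  have hstep : ∀ h : Hist, Val h → h.length < n → stp (BP j) h ≤
      BP j h + (if 2 ^ j ≤ h.length + 1 ∧ h.length + 1 < 2 ^ (j + 1) then
        ∑ k ∈ V (h.length + 1), pi h k * (if cvd (Z h) (h.length + 1, k) then 1 else 0)
        else 0) := by
    intro h _ _
    by_cases hb : 2 ^ j ≤ h.length + 1 ∧ h.length + 1 < 2 ^ (j + 1)
    · rw [if_pos hb]
      have hsome : ∀ k, BP j (some k :: h) =
          BP j h + (if cvd (Z h) (h.length + 1, k) then 1 else 0) := by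
        intro k
        simp only [BP, hb.1, hb.2, true_and, Option.some.injEq, exists_eq_left']
      have hnone : BP j (none :: h) = BP j h := by
        simp only [BP]
        rw [if_neg, add_zero]
        rintro ⟨_, _, k, hk, _⟩
        simp at hk
      unfold stp
      simp only [hsome, hnone, mul_add, sum_add_distrib]
      rw [← sum_mul]
      apply le_of_eq
      ring
    · rw [if_neg hb, add_zero]
      have hall : ∀ o, BP j (o :: h) = BP j h := by
        intro o
        simp only [BP]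
        rw [if_neg, add_zero]
        intro hc
        exact hb ⟨hc.1, hc.2.1⟩
      have : stp (BP j) h = stp (fun _ => BP j h) h := by
        unfold stp
        simp only [hall]
      rw [this, stp_const]
  refine (Ex_le_telescope (err := fun h => if 2 ^ j ≤ h.length + 1 ∧
    h.length + 1 < 2 ^ (j + 1) then
        ∑ k ∈ V (h.length + 1), pi h k * (if cvd (Z h) (h.length + 1, k) then 1 else 0)
        else 0) n hstep).trans ?_
  have h0 : BP j [] = 0 := rfl
  rw [h0, zero_add]
  refine le_trans (sum_le_sum fun m _ => ?_) (blockSum_le j n hδ0)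
  by_cases hb : 2 ^ j ≤ m + 1 ∧ m + 1 < 2 ^ (j + 1)
  · rw [if_pos hb]
    refine le_trans (Ex_congr fun h _ hl => ?_).le (hδ (m + 1) hb.1 hb.2)
    subst hl
    rw [if_pos hb]
  · rw [if_neg hb]
    refine ((Ex_congr (G := fun _ => 0) fun h _ hl => ?_).trans (Ex_const m 0)).le
    rw [hl, if_neg hb]

open scoped Classical in
lemma NP_sub_MP_ge (j : ℕ) (h : Hist) :
    2 / 5 * ((∑ m ∈ range h.length,
      (if 2 ^ j ≤ m + 1 ∧ m + 1 < 2 ^ (j + 1) then (1 : ℝ) else 0)) - BT j h) + MP j h ≤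
      NP j h := by
  induction h with
  | nil => simp [BT, MP, NP]
  | cons o h ih =>
    rw [List.length_cons, sum_range_succ]
    by_cases hb : 2 ^ j ≤ h.length + 1 ∧ h.length + 1 < 2 ^ (j + 1)
    · have e1 : NP j (o :: h) = NP j h + (if o ≠ none then 1 else 0) := by
        simp only [NP, hb.1, hb.2, true_and]
      have e2 : MP j (o :: h) = MP j h + ((if o ≠ none then 1 else 0) -
          ∑ k ∈ V (h.length + 1), pi h k) := by
        simp only [MP, if_pos hb]
      have e3 : BT j (o :: h) = BT j h + (if ∑ k ∈ V (h.length + 1), pi h k < 2 / 5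
          then 1 else 0) := by
        simp only [BT, hb.1, hb.2, true_and]
      rw [e1, e2, e3, if_pos hb]
      have hp0 : 0 ≤ ∑ k ∈ V (h.length + 1), pi h k := sum_nonneg fun k _ => pi_nonneg _ _
      split_ifs <;> linarith
    · have e1 : NP j (o :: h) = NP j h := by
        simp only [NP]
        rw [if_neg, add_zero]
        exact fun hc => hb ⟨hc.1, hc.2.1⟩
      have e2 : MP j (o :: h) = MP j h := by
        simp only [MP, if_neg hb, add_zero]
      have e3 : BT j (o :: h) = BT j h := by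
        simp only [BT]
        rw [if_neg, add_zero]
        exact fun hc => hb ⟨hc.1, hc.2.1⟩
      rw [e1, e2, e3, if_neg hb]
      linarith

lemma cvd_cons {o : Option ℕ} {h : Hist} {v : Pt} (hv : v.1 ≤ h.length + 1) :
    cvd (Z (o :: h)) v ↔ cvd (Z h) v := by
  constructor
  · rintro ⟨z, hz, y, hy, hzy, hyv, hd⟩
    rw [mem_Z_cons_of_le (by omega)] at hz hy
    exact ⟨z, hz, y, hy, hzy, hyv, hd⟩
  · rintro ⟨z, hz, y, hy, hzy, hyv, hd⟩
    exact ⟨z, Z_subset_cons _ _ hz, y, Z_subset_cons _ _ hy, hzy, hyv, hd⟩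

lemma mem_GP {h : Hist} {v : Pt} : v ∈ GP h ↔ v ∈ Z h ∧ ¬ cvd (Z h) v := by
  classical
  unfold GP
  rw [mem_filter]

lemma GP_subset_cons (o : Option ℕ) (h : Hist) : GP h ⊆ GP (o :: h) := by
  intro v hv
  rw [mem_GP] at hv ⊢
  refine ⟨Z_subset_cons _ _ hv.1, ?_⟩
  rw [cvd_cons (by have := (Z_col hv.1).2; omega)]
  exact hv.2

open scoped Classical in
lemma NP_sub_BP_le (j : ℕ) (h : Hist) :
    NP j h - BP j h ≤
      (((GP h).filter (fun p => 2 ^ j ≤ p.1 ∧ p.1 < 2 ^ (j + 1))).card : ℝ) := by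
  induction h with
  | nil => simp [NP, BP]
  | cons o h ih =>
    have hsub : (GP h).filter (fun p => 2 ^ j ≤ p.1 ∧ p.1 < 2 ^ (j + 1)) ⊆
        (GP (o :: h)).filter (fun p => 2 ^ j ≤ p.1 ∧ p.1 < 2 ^ (j + 1)) :=
      filter_subset_filter _ (GP_subset_cons o h)
    have hmono : (((GP h).filter (fun p => 2 ^ j ≤ p.1 ∧ p.1 < 2 ^ (j + 1))).card : ℝ) ≤
        (((GP (o :: h)).filter (fun p => 2 ^ j ≤ p.1 ∧ p.1 < 2 ^ (j + 1))).card : ℝ) := by
      exact_mod_cast card_le_card hsub
    by_cases hb : 2 ^ j ≤ h.length + 1 ∧ h.length + 1 < 2 ^ (j + 1)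
    · have e1 : NP j (o :: h) = NP j h + (if o ≠ none then 1 else 0) := by
        simp only [NP, hb.1, hb.2, true_and]
      have e2 : BP j (o :: h) = BP j h + (if ∃ k, o = some k ∧ cvd (Z h) (h.length + 1, k)
          then 1 else 0) := by
        simp only [BP, hb.1, hb.2, true_and]
      rw [e1, e2]
      by_cases hg : ∃ k, o = some k ∧ ¬ cvd (Z h) (h.length + 1, k)
      · obtain ⟨k, hk, hkc⟩ := hg
        have hnew : (h.length + 1, k) ∈ (GP (o :: h)).filter
            (fun p => 2 ^ j ≤ p.1 ∧ p.1 < 2 ^ (j + 1)) := by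
          rw [mem_filter, mem_GP]
          refine ⟨⟨mem_Z_cons_new.mpr hk, ?_⟩, hb⟩
          rw [cvd_cons (le_refl _)]
          exact hkc
        have hold : (h.length + 1, k) ∉ (GP h).filter
            (fun p => 2 ^ j ≤ p.1 ∧ p.1 < 2 ^ (j + 1)) := by
          rw [mem_filter, mem_GP]
          rintro ⟨⟨h1, _⟩, _⟩
          have := (Z_col h1).2
          simp at this
        have hsub2 : insert (h.length + 1, k) ((GP h).filter
            (fun p => 2 ^ j ≤ p.1 ∧ p.1 < 2 ^ (j + 1))) ⊆ (GP (o :: h)).filter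
            (fun p => 2 ^ j ≤ p.1 ∧ p.1 < 2 ^ (j + 1)) := by
          intro x hx
          rw [mem_insert] at hx
          rcases hx with hx | hx
          · rw [hx]; exact hnew
          · exact hsub hx
        have hcard := card_le_card hsub2
        rw [card_insert_of_notMem hold] at hcard
        have hcard' : (((GP h).filter (fun p => 2 ^ j ≤ p.1 ∧ p.1 < 2 ^ (j + 1))).card : ℝ) + 1 ≤
          (((GP (o :: h)).filter (fun p => 2 ^ j ≤ p.1 ∧ p.1 < 2 ^ (j + 1))).card : ℝ) := by
          exact_mod_cast hcard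
        split_ifs <;> linarith
      · have hle : (if o ≠ none then (1 : ℝ) else 0) ≤
            (if ∃ k, o = some k ∧ cvd (Z h) (h.length + 1, k) then 1 else 0) := by
          cases o with
          | none => simp
          | some k =>
            have hc : cvd (Z h) (h.length + 1, k) := by
              by_contra hcc
              exact hg ⟨k, rfl, hcc⟩
            rw [if_pos (by simp), if_pos ⟨k, rfl, hc⟩]
        linarith
    · have e1 : NP j (o :: h) = NP j h := by
        simp only [NP]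
        rw [if_neg, add_zero]
        exact fun hc => hb ⟨hc.1, hc.2.1⟩
      have e2 : BP j (o :: h) = BP j h := by
        simp only [BP]
        rw [if_neg, add_zero]
        exact fun hc => hb ⟨hc.1, hc.2.1⟩
      rw [e1, e2]
      linarith

/-- counting: at time `n ≥ 2^(j+1)` the number of good picks of block `j` -/
theorem GP_block_ge (j : ℕ) {h : Hist} (hl : 2 ^ (j + 1) ≤ h.length) :
    2 / 5 * (2 ^ j - BT j h) + MP j h - BP j h ≤
      (((GP h).filter (fun p => 2 ^ j ≤ p.1 ∧ p.1 < 2 ^ (j + 1))).card : ℝ) := by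
  have h1 := NP_sub_MP_ge j h
  rw [blockSum_eq j h.length hl] at h1
  have h2 := NP_sub_BP_le j h
  linarith

end

end NTIL
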