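import Mathlib
import Pool.Agent.Lib.MP_2ffb02_co.PoorA

/-!
# The contribution of poor lines: second moment
-/

set_option autoImplicit false

namespace NTIL

open Finset

noncomputable section

/-! ### auxiliary lemmas -/

lemma PoorB_mem {X : ℕ} {v : Pt} {a : Pt × Pt} (ha : a ∈ PP X v) :
    a.1 ∈ cone H X ∧ a.2 ∈ cone H X ∧ lo X ≤ a.1.1 ∧ a.1.1 < a.2.1 ∧ a.2.1 < X ∧
    dir a.1 v = dir a.2 v ∧ Yx X ^ 300 < nrm (dir a.2 v) := by
  classical
  unfold PP at ha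
  rw [mem_filter, mem_product] at ha
  exact ⟨ha.1.1, ha.1.2, ha.2.1, ha.2.2.1, ha.2.2.2.1, ha.2.2.2.2.1, ha.2.2.2.2.2.1⟩

lemma PoorB_cone {X : ℕ} {p : Pt} (hp : p ∈ cone H X) : p ∈ Box X (Nn X) := by
  unfold cone at hp
  rw [mem_filter] at hp
  exact hp.1

lemma PoorB_col {X s : ℕ} (hX : 1 ≤ X) (h : lo X ≤ s) : (X : ℝ) ≤ Yx X ^ 10 * s ∧ 1 ≤ s := by
  have hY := Yx_pos hX
  unfold lo at h
  rw [div_le_iff₀ (by positivity)] at h
  constructor
  · linarith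
  · rcases Nat.eq_zero_or_pos s with h0 | h0
    · subst h0
      have hX' : (1 : ℝ) ≤ X := by exact_mod_cast hX
      simp at h
      omega
    · exact h0

lemma PoorB_cc_nonneg (s : ℕ) : 0 ≤ cc s := by unfold cc; positivity

lemma PoorB_cc_le_bb {s : ℕ} (hs : 1 ≤ s) : cc s ≤ bb s := by
  unfold cc bb
  have := Yx_one_le hs
  gcongr

lemma PoorB_bb_le {X s : ℕ} (hX : 1 ≤ X) (hs : s ≤ X) (h : lo X ≤ s) :
    bb s ≤ be X (Yx X ^ 10) :=
  bb_le_be hX (one_le_pow₀ (Yx_one_le hX)) hs (PoorB_col hX h).1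

lemma PoorB_cc_le {X s : ℕ} (hX : 1 ≤ X) (hs : s ≤ X) (h : lo X ≤ s) :
    cc s ≤ be X (Yx X ^ 10) :=
  (PoorB_cc_le_bb (PoorB_col hX h).2).trans (PoorB_bb_le hX hs h)

/-- the point `v` is in the box -/
lemma PoorB_v {X k : ℕ} (hk : k < Nn X) : ((X, k) : Pt) ∈ Box X (Nn X) := by
  rw [CountA_mem_Box]
  exact ⟨le_rfl, hk⟩

lemma PoorB_fib {X k : ℕ} {b : Pt × Pt} (hb : b ∈ PP X (X, k)) :
    b.1 ∈ fib X (Nn X) (X, k) (dir b.2 (X, k)) ∧ b.2 ∈ fib X (Nn X) (X, k) (dir b.2 (X, k)) := by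
  obtain ⟨h1, h2, h3, h4, h5, h6, h7⟩ := PoorB_mem hb
  have e1 := CountA_mem_Box.1 (PoorB_cone h1)
  have e2 := CountA_mem_Box.1 (PoorB_cone h2)
  refine ⟨CountA_mem_fib.2 ⟨e1, lt_trans h4 h5, h6⟩, CountA_mem_fib.2 ⟨e2, h5, rfl⟩⟩

lemma PoorB_L {X k : ℕ} (hk : k < Nn X) {a : Pt × Pt} (ha : a ∈ PP X (X, k)) :
    (Lc X (Nn X) a.2 (X, k) : ℝ) * Yx X ^ 300 ≤ Nn X := by
  obtain ⟨h1, h2, h3, h4, h5, h6, h7⟩ := PoorB_mem ha
  have h := card_fib_mul_nrm_le (X_le_Nn X) (PoorB_v hk) (dir a.2 (X, k))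
  have h' : ((fib X (Nn X) (X, k) (dir a.2 (X, k))).card : ℝ) * nrm (dir a.2 (X, k)) ≤ Nn X := by
    exact_mod_cast h
  unfold Lc
  refine le_trans ?_ h'
  exact mul_le_mul_of_nonneg_left h7.le (Nat.cast_nonneg _)

lemma PoorB_E_le {X : ℕ} (hX : 1 ≤ X) {z u z' u' : Pt} (hz : lo X ≤ z.1) (hzX : z.1 ≤ X)
    (hu : lo X ≤ u.1) (huX : u.1 ≤ X) (hz' : lo X ≤ z'.1) (hzX' : z'.1 ≤ X)
    (hu' : lo X ≤ u'.1) (huX' : u'.1 ≤ X) (m : ℕ) :
    Ex m (fun h => (N1 {z} h * (cc u.1 * W h ∅ u)) * (N1 {z'} h * (cc u'.1 * W h ∅ u'))) ≤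
      be X (Yx X ^ 10) ^ 2 * Yx X ^ 2 *
        (be X (Yx X ^ 10) ^ 2 + if z' = z then be X (Yx X ^ 10) else 0) := by
  classical
  have hY := Yx_one_le hX
  have hβ : 0 ≤ be X (Yx X ^ 10) := be_nonneg hX (one_le_pow₀ hY)
  set β := be X (Yx X ^ 10) with hβd
  have hpt : ∀ h : Hist, (N1 {z} h * (cc u.1 * W h ∅ u)) * (N1 {z'} h * (cc u'.1 * W h ∅ u')) ≤
      β ^ 2 * Yx X ^ 2 * N1 ({z} ∪ {z'}) h := by
    intro h
    rw [← N1_mul]
    have a1 : cc u.1 * W h ∅ u ≤ β * Yx X :=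
      mul_le_mul (PoorB_cc_le hX huX hu)
        ((W_le_Yx (PoorB_col hX hu).2).trans (Yx_mono huX)) (W_nonneg _ _ _) hβ
    have a2 : cc u'.1 * W h ∅ u' ≤ β * Yx X :=
      mul_le_mul (PoorB_cc_le hX huX' hu')
        ((W_le_Yx (PoorB_col hX hu').2).trans (Yx_mono huX')) (W_nonneg _ _ _) hβ
    have b1 := N1_nonneg {z} h
    have b2 := N1_nonneg {z'} h
    have c1 : 0 ≤ cc u.1 * W h ∅ u := mul_nonneg (PoorB_cc_nonneg _) (W_nonneg _ _ _)
    have c2 : 0 ≤ cc u'.1 * W h ∅ u' := mul_nonneg (PoorB_cc_nonneg _) (W_nonneg _ _ _)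
    calc (N1 {z} h * (cc u.1 * W h ∅ u)) * (N1 {z'} h * (cc u'.1 * W h ∅ u'))
        ≤ (N1 {z} h * (β * Yx X)) * (N1 {z'} h * (β * Yx X)) := by
          apply mul_le_mul (mul_le_mul_of_nonneg_left a1 b1) (mul_le_mul_of_nonneg_left a2 b2)
            (mul_nonneg b2 c2)
          exact mul_nonneg b1 (by positivity)
      _ = _ := by ring
  have h1 := Ex_mono (n := m) (fun h _ _ => hpt h)
  rw [Ex_const_mul] at h1
  refine h1.trans ?_
  apply mul_le_mul_of_nonneg_left _ (by positivity)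
  have h2 : Ex m (N1 ({z} ∪ {z'})) ≤ β ^ (({z} ∪ {z'} : Finset Pt)).card := by
    apply Ex_N1_le_pow
    intro q hq
    rw [mem_union, mem_singleton, mem_singleton] at hq
    rcases hq with rfl | rfl
    · exact PoorB_bb_le hX hzX hz
    · exact PoorB_bb_le hX hzX' hz'
  refine h2.trans ?_
  by_cases hzz : z' = z
  · subst hzz
    rw [if_pos rfl]
    have : (({z'} ∪ {z'} : Finset Pt)).card = 1 := by simp
    rw [this, pow_one]
    have := sq_nonneg β
    linarith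
  · rw [if_neg hzz]
    have : (({z} ∪ {z'} : Finset Pt)).card = 2 := by
      rw [card_union_of_disjoint]
      · simp
      · simp [Ne.symm hzz]
    rw [this, add_zero]

/-- numerical form of `be` -/
lemma PoorB_be_N {X : ℕ} (hX : 1 ≤ X) : be X (Yx X ^ 10) * Nn X = Yx X ^ 11 / 2 := by
  rw [be_mul_Nn hX]
  unfold QQf
  ring

lemma PoorB_c1 {X : ℕ} (hB : Big X) : c1 X ≤ 4 * (Nn X : ℝ) ^ 2 * Yx X := by
  unfold c1
  exact mul_le_mul_of_nonneg_left hB.log_le (by positivity)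

lemma PoorB_c1_nonneg (X : ℕ) : 0 ≤ c1 X := by
  unfold c1
  have : 0 ≤ Real.log (Nn X) := Real.log_natCast_nonneg _
  positivity

lemma PoorB_Y_ge {X : ℕ} (hB : Big X) : (10 : ℝ) ^ 20 ≤ Yx X := by
  refine le_trans ?_ hB.H_le
  have : (1 : ℝ) ≤ (H : ℝ) ^ 10 := one_le_pow₀ (by exact_mod_cast H_pos)
  nlinarith

/-- quadruples on the same line: `E N1{z} N1{z'} ≤ be^2` (or `be` if `z = z'`, `0` if the columns
agree) -/
theorem Ex_UP_sq_same {X k : ℕ} (hX : 1 ≤ X) (hG : Good X) (hk : k < Nn X) :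
    ∑ a ∈ PP X (X, k), ∑ b ∈ (PP X (X, k)).filter (fun b => dir b.2 (X, k) = dir a.2 (X, k)),
      Ex (X - 1) (fun h => (N1 {a.1} h * (cc a.2.1 * W h ∅ a.2)) *
        (N1 {b.1} h * (cc b.2.1 * W h ∅ b.2))) ≤ (Yx X ^ 100)⁻¹ := by
  classical
  have hB := hG.big hX
  have hY1 := Yx_one_le hX
  have hYb := PoorB_Y_ge hB
  have hYpos : 0 < Yx X := by linarith
  have hβ : 0 ≤ be X (Yx X ^ 10) := be_nonneg hX (one_le_pow₀ hY1)
  have hβN := PoorB_be_N hX
  set β := be X (Yx X ^ 10) with hβd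
  set Y := Yx X with hYd
  set N : ℝ := (Nn X : ℝ) with hNd
  have hN : 0 < N := by
    have := one_le_Nn hX
    rw [hNd]
    exact_mod_cast this
  set R : ℝ := N / Y ^ 300 with hR
  have hR0 : 0 ≤ R := by positivity
  -- one term
  have key : ∀ a ∈ PP X (X, k),
      ∑ b ∈ (PP X (X, k)).filter (fun b => dir b.2 (X, k) = dir a.2 (X, k)),
        Ex (X - 1) (fun h => (N1 {a.1} h * (cc a.2.1 * W h ∅ a.2)) *
          (N1 {b.1} h * (cc b.2.1 * W h ∅ b.2))) ≤
        β ^ 2 * Y ^ 2 * (β ^ 2 * R ^ 2 + β * R) := by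
    intro a ha
    obtain ⟨a1, a2, a3, a4, a5, a6, a7⟩ := PoorB_mem ha
    set Fa := (PP X (X, k)).filter (fun b => dir b.2 (X, k) = dir a.2 (X, k)) with hFa
    set L := Lc X (Nn X) a.2 (X, k) with hL
    have hLR : (L : ℝ) ≤ R := by
      rw [hR, le_div_iff₀ (by positivity)]
      exact PoorB_L hk ha
    have hmono : ∀ b ∈ Fa, Ex (X - 1) (fun h => (N1 {a.1} h * (cc a.2.1 * W h ∅ a.2)) *
          (N1 {b.1} h * (cc b.2.1 * W h ∅ b.2))) ≤
          β ^ 2 * Y ^ 2 * (β ^ 2 + if b.1 = a.1 then β else 0) := by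
      intro b hb
      have hb' := (mem_filter.1 hb).1
      obtain ⟨b1, b2, b3, b4, b5, b6, b7⟩ := PoorB_mem hb'
      have a4' : (a.1.1 : ℝ) ≤ a.2.1 := by exact_mod_cast a4.le
      have b4' : (b.1.1 : ℝ) ≤ b.2.1 := by exact_mod_cast b4.le
      exact PoorB_E_le hX a3 (by omega) (a3.trans a4') (by omega) b3 (by omega)
        (b3.trans b4') (by omega) (X - 1)
    refine (sum_le_sum hmono).trans ?_
    rw [← mul_sum, sum_add_distrib]
    apply mul_le_mul_of_nonneg_left _ (by positivity)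
    -- cardinalities
    have hc1 : Fa.card ≤ L * L := by
      have : Fa ⊆ (fib X (Nn X) (X, k) (dir a.2 (X, k))) ×ˢ
          (fib X (Nn X) (X, k) (dir a.2 (X, k))) := by
        intro b hb
        obtain ⟨hb1, hb2⟩ := mem_filter.1 hb
        have := PoorB_fib hb1
        rw [hb2] at this
        exact mem_product.2 this
      refine (card_le_card this).trans ?_
      rw [card_product]
      exact le_refl _
    have hc2 : (Fa.filter (fun b => b.1 = a.1)).card ≤ L := by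
      rw [hL]
      unfold Lc
      apply card_le_card_of_injOn (fun b => b.2)
      · intro b hb
        obtain ⟨hb0, hb3⟩ := mem_filter.1 hb
        obtain ⟨hb1, hb2⟩ := mem_filter.1 hb0
        have := (PoorB_fib hb1).2
        rw [hb2] at this
        exact this
      · intro b hb c hc hbc
        have hb3 := (mem_filter.1 (mem_coe.1 hb)).2
        have hc3 := (mem_filter.1 (mem_coe.1 hc)).2
        exact Prod.ext (hb3.trans hc3.symm) hbc
    apply add_le_add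
    · rw [sum_const, nsmul_eq_mul, mul_comm]
      apply mul_le_mul_of_nonneg_left _ (by positivity)
      calc (Fa.card : ℝ) ≤ (L : ℝ) * L := by exact_mod_cast hc1
        _ ≤ R * R := mul_le_mul hLR hLR (Nat.cast_nonneg _) hR0
        _ = R ^ 2 := by ring
    · rw [← sum_filter, sum_const, nsmul_eq_mul, mul_comm]
      apply mul_le_mul_of_nonneg_left _ hβ
      calc ((Fa.filter (fun b => b.1 = a.1)).card : ℝ) ≤ L := by exact_mod_cast hc2
        _ ≤ R := hLR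
  refine (sum_le_card_nsmul _ _ _ key).trans ?_
  rw [nsmul_eq_mul]
  have hc := card_PP_le hB hk
  have hc1 := PoorB_c1 hB
  have hcard : ((PP X (X, k)).card : ℝ) ≤ 4 * N ^ 2 * Y := hc.trans hc1
  have hmain : ((PP X (X, k)).card : ℝ) * (β ^ 2 * Y ^ 2 * (β ^ 2 * R ^ 2 + β * R)) ≤
      4 * N ^ 2 * Y * (β ^ 2 * Y ^ 2 * (β ^ 2 * R ^ 2 + β * R)) :=
    mul_le_mul_of_nonneg_right hcard (by positivity)
  refine hmain.trans ?_
  have e1 : 4 * N ^ 2 * Y * (β ^ 2 * Y ^ 2 * (β ^ 2 * R ^ 2 + β * R)) =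
      4 * Y ^ 3 * ((β * N) ^ 4 / Y ^ 600 + (β * N) ^ 3 / Y ^ 300) := by
    rw [hR]
    field_simp
  rw [e1, hβN]
  have e2 : 4 * Y ^ 3 * ((Y ^ 11 / 2) ^ 4 / Y ^ 600 + (Y ^ 11 / 2) ^ 3 / Y ^ 300) =
      (1 / 4 * Y ^ 47 / Y ^ 600 + 1 / 2 * Y ^ 36 / Y ^ 300) := by
    ring
  rw [e2]
  have e3 : 1 / 4 * Y ^ 47 / Y ^ 600 ≤ 1 / 4 * (Y ^ 100)⁻¹ := by
    rw [div_le_iff₀ (by positivity)]
    have : 1 / 4 * (Y ^ 100)⁻¹ * Y ^ 600 = 1 / 4 * Y ^ 500 := by
      field_simp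
    rw [this]
    have := pow_le_pow_right₀ hY1 (show 47 ≤ 500 by norm_num)
    linarith
  have e4 : 1 / 2 * Y ^ 36 / Y ^ 300 ≤ 1 / 2 * (Y ^ 100)⁻¹ := by
    rw [div_le_iff₀ (by positivity)]
    have : 1 / 2 * (Y ^ 100)⁻¹ * Y ^ 300 = 1 / 2 * Y ^ 200 := by
      field_simp
    rw [this]
    have := pow_le_pow_right₀ hY1 (show 36 ≤ 200 by norm_num)
    linarith
  have e5 : 0 ≤ (Y ^ 100)⁻¹ := by positivity
  linarith

lemma PoorB_nB_le (X : ℕ) (B B' : Set Pt) (p q : Pt) :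
    nB X B p B' q ≤ nl X (Nn X) p q := by
  classical
  unfold nB nl
  apply card_le_card
  intro y hy
  rw [mem_filter] at hy ⊢
  exact ⟨hy.1, hy.2.1, hy.2.2.1, hy.2.2.2.1⟩

/-- one quadruple on two different lines: `prod_upper` with four factors -/
theorem Ex_UP_sq_one {X k : ℕ} (hX : 1 ≤ X) (hG : Good X) (hk : k < Nn X) {a b : Pt × Pt}
    (ha : a ∈ PP X (X, k)) (hb : b ∈ PP X (X, k)) (hab : dir b.2 (X, k) ≠ dir a.2 (X, k)) :
    Ex (X - 1) (fun h => (N1 {a.1} h * (cc a.2.1 * W h ∅ a.2)) *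
        (N1 {b.1} h * (cc b.2.1 * W h ∅ b.2))) ≤
      (cc a.1.1 * cc a.2.1) * (cc b.1.1 * cc b.2.1) * (1 + (Yx X ^ 12000)⁻¹ +
        Yx X ^ 131 / Nn X * (2 * (nl X (Nn X) a.1 a.2 + nl X (Nn X) a.1 b.1 +
          nl X (Nn X) a.1 b.2 + nl X (Nn X) a.2 b.1 + nl X (Nn X) a.2 b.2 +
          nl X (Nn X) b.1 b.2))) := by
  classical
  obtain ⟨a1, a2, a3, a4, a5, a6, a7⟩ := PoorB_mem ha
  obtain ⟨b1, b2, b3, b4, b5, b6, b7⟩ := PoorB_mem hb
  obtain ⟨z, u⟩ := a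
  obtain ⟨z', u'⟩ := b
  simp only at a1 a2 a3 a4 a5 a6 a7 b1 b2 b3 b4 b5 b6 b7 hab ⊢
  have hB := hG.big hX
  have hY1 := Yx_one_le hX
  have hYpos : 0 < Yx X := by linarith
  have a4' : (z.1 : ℝ) ≤ u.1 := by exact_mod_cast a4.le
  have b4' : (z'.1 : ℝ) ≤ u'.1 := by exact_mod_cast b4.le
  have ca := PoorB_col hX a3
  have cu := PoorB_col hX (a3.trans a4')
  have cb := PoorB_col hX b3
  have cu' := PoorB_col hX (b3.trans b4')
  -- the points are different
  have n1 : z ≠ u := by intro h; rw [h] at a4; exact lt_irrefl _ a4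
  have n2 : z' ≠ u' := by intro h; rw [h] at b4; exact lt_irrefl _ b4
  have n3 : z ≠ z' := by intro h; apply hab; rw [← b6, ← h, a6]
  have n4 : z ≠ u' := by intro h; apply hab; rw [← h, a6]
  have n5 : u ≠ z' := by intro h; apply hab; rw [← b6, ← h]
  have n6 : u ≠ u' := by intro h; apply hab; rw [← h]
  set p : Fin 4 → Pt := ![z, u, z', u'] with hp
  set pk : Fin 4 → Prop := ![True, False, True, False] with hpk
  have hp0 : p 0 = z := rfl
  have hp1 : p 1 = u := rfl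
  have hp2 : p 2 = z' := rfl
  have hp3 : p 3 = u' := rfl
  have hprod := prod_upper (X := X) (ρ := Yx X ^ 20) hX (one_le_pow₀ hY1) (univ : Finset (Fin 4))
    pk (fun _ => (∅ : Set Pt)) p (fun i _ _ => rfl)
    (by
      intro i _ j _ hij
      fin_cases i <;> fin_cases j <;> first | exact absurd rfl hij | skip
      · exact n1
      · exact n3
      · exact n4
      · exact n1.symm
      · exact n5
      · exact n6
      · exact n3.symm
      · exact n5.symm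
      · exact n2
      · exact n4.symm
      · exact n6.symm
      · exact n2.symm)
    (by
      intro i _
      fin_cases i
      · exact PoorB_cone a1
      · exact PoorB_cone a2
      · exact PoorB_cone b1
      · exact PoorB_cone b2)
    (by
      intro i _
      fin_cases i
      · exact le_mul_lo (b := 10) (by show z.1 ≤ X; omega) ca.1 hX
      · exact le_mul_lo (b := 10) (by show u.1 ≤ X; omega) cu.1 hX
      · exact le_mul_lo (b := 10) (by show z'.1 ≤ X; omega) cb.1 hX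
      · exact le_mul_lo (b := 10) (by show u'.1 ≤ X; omega) cu'.1 hX)
    (m := X - 1) (by omega)
  have hU := eU_le hB (a := 20) (by norm_num) (univ : Finset (Fin 4)) (by simp)
    (fun _ => (∅ : Set Pt)) p
  have hle : ∀ i j : Fin 4, (if p i = p j then (0:ℝ) else (nB X ∅ (p i) ∅ (p j) : ℝ)) ≤
      if i = j then 0 else (nl X (Nn X) (p i) (p j) : ℝ) := by
    intro i j
    by_cases hij : i = j
    · subst hij
      rw [if_pos rfl, if_pos rfl]
    · rw [if_neg hij]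
      split_ifs
      · exact Nat.cast_nonneg _
      · exact_mod_cast PoorB_nB_le X ∅ ∅ (p i) (p j)
  have hsum : ∑ i : Fin 4, ∑ j : Fin 4,
      (if p i = p j then (0:ℝ) else (nB X ∅ (p i) ∅ (p j) : ℝ)) ≤
      2 * (nl X (Nn X) z u + nl X (Nn X) z z' +
          nl X (Nn X) z u' + nl X (Nn X) u z' + nl X (Nn X) u u' +
          nl X (Nn X) z' u' : ℝ) := by
    refine (sum_le_sum fun i _ => sum_le_sum fun j _ => hle i j).trans ?_
    simp only [Fin.sum_univ_four]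
    rw [hp0, hp1, hp2, hp3]
    rw [nl_comm X (Nn X) u z, nl_comm X (Nn X) z' z, nl_comm X (Nn X) z' u,
      nl_comm X (Nn X) u' z, nl_comm X (Nn X) u' u, nl_comm X (Nn X) u' z']
    simp
    apply le_of_eq
    ring
  have hE : Ex (X - 1) (fun h => (N1 {z} h * (cc u.1 * W h ∅ u)) *
        (N1 {z'} h * (cc u'.1 * W h ∅ u'))) =
      (cc z.1 * cc u.1) * (cc z'.1 * cc u'.1) *
        Ex (X - 1) (fun h => ∏ i : Fin 4, chi (pk i) ((fun _ => (∅ : Set Pt)) i) (p i) h) := by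
    rw [← Ex_const_mul]
    apply Ex_congr
    intro h _ hl
    rw [Fin.prod_univ_four]
    have x0 : chi (pk 0) ∅ (p 0) h * cc z.1 = N1 {z} h := by
      show chi True ∅ z h * cc z.1 = N1 {z} h
      unfold chi N1 cc
      have hz0 : (0 : ℝ) < z.1 := by exact_mod_cast ca.2
      have hH0 : (0 : ℝ) < H := by exact_mod_cast H_pos
      rw [if_pos ⟨trivial, by omega⟩]
      by_cases hz : z ∈ Z h
      · rw [if_pos hz, if_pos (by simpa using hz)]
        field_simp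
      · rw [if_neg hz, if_neg (by simpa using hz)]
        simp
    have x2 : chi (pk 2) ∅ (p 2) h * cc z'.1 = N1 {z'} h := by
      show chi True ∅ z' h * cc z'.1 = N1 {z'} h
      unfold chi N1 cc
      have hz0 : (0 : ℝ) < z'.1 := by exact_mod_cast cb.2
      have hH0 : (0 : ℝ) < H := by exact_mod_cast H_pos
      rw [if_pos ⟨trivial, by omega⟩]
      by_cases hz : z' ∈ Z h
      · rw [if_pos hz, if_pos (by simpa using hz)]
        field_simp
      · rw [if_neg hz, if_neg (by simpa using hz)]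
        simp
    have x1 : chi (pk 1) ∅ (p 1) h = W h ∅ u := by
      show chi False ∅ u h = W h ∅ u
      unfold chi
      rw [if_neg (by simp)]
    have x3 : chi (pk 3) ∅ (p 3) h = W h ∅ u' := by
      show chi False ∅ u' h = W h ∅ u'
      unfold chi
      rw [if_neg (by simp)]
    simp only
    rw [x1, x3, ← x0, ← x2]
    ring
  rw [hE]
  have hcc : 0 ≤ (cc z.1 * cc u.1) * (cc z'.1 * cc u'.1) :=
    mul_nonneg (mul_nonneg (PoorB_cc_nonneg _) (PoorB_cc_nonneg _))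
      (mul_nonneg (PoorB_cc_nonneg _) (PoorB_cc_nonneg _))
  apply mul_le_mul_of_nonneg_left _ hcc
  have hN : (0 : ℝ) < Nn X := by exact_mod_cast one_le_Nn hX
  have hcoef : 0 ≤ Yx X ^ 131 / Nn X := by positivity
  have h3 := mul_le_mul_of_nonneg_left hsum hcoef
  have h4 : (6 * (20 + 1) + 5) = 131 := by norm_num
  rw [h4] at hU
  linarith

/-- the direction to a further point of the line -/
lemma PoorB_dir_eq {z u v : Pt} (h1 : z.1 < u.1) (h2 : u.1 < v.1) (hd : dir z v = dir u v) :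
    dir z u = dir u v := by
  have e := (det_eq_zero_iff (lt_trans h1 h2) h2).2 hd
  have z1 := dir_fst_mul (y := z) (p := u)
  have z2 := dir_snd_mul (y := z) (p := u)
  have y1 := dir_fst_mul (y := u) (p := v)
  have y2 := dir_snd_mul (y := u) (p := v)
  have gz : (0 : ℤ) < dg z u := by exact_mod_cast dg_pos h1
  have gy : (0 : ℤ) < dg u v := by exact_mod_cast dg_pos h2
  have az := dir_fst_pos h1
  have ay := dir_fst_pos h2
  have cz := dir_coprime h1
  have cy := dir_coprime h2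
  set a := (dir z u).1 with ha
  set b := (dir z u).2 with hb
  set c := (dir u v).1 with hc
  set d := (dir u v).2 with hd'
  have h3 : a * d = b * c := by
    unfold det at e
    have e1 : (v.2 : ℤ) - z.2 = d * dg u v + b * dg z u := by rw [y2, z2]; ring
    have e2 : (v.1 : ℤ) - z.1 = c * dg u v + a * dg z u := by rw [y1, z1]; ring
    rw [e1, e2, ← z1, ← z2] at e
    have e3 : ((dg z u : ℤ) * dg u v) * (a * d - b * c) = 0 := by linear_combination e
    rcases mul_eq_zero.1 e3 with h | h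
    · exfalso
      have : (0 : ℤ) < (dg z u : ℤ) * dg u v := mul_pos gz gy
      omega
    · linarith
  have hac : a ∣ c := by
    have : a ∣ c * b := ⟨d, by rw [h3]; ring⟩
    exact (Int.isCoprime_iff_gcd_eq_one.mpr cz).dvd_of_dvd_mul_right this
  have hca : c ∣ a := by
    have : c ∣ a * d := ⟨b, by rw [h3]; ring⟩
    exact (Int.isCoprime_iff_gcd_eq_one.mpr cy).dvd_of_dvd_mul_right this
  have hac' : a = c := Int.dvd_antisymm az.le ay.le hac hca
  have hbd : b = d := by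
    rw [hac'] at h3
    have : c * (b - d) = 0 := by linear_combination -h3
    rcases mul_eq_zero.mp this with h | h
    · omega
    · linarith
  exact Prod.ext hac' hbd

lemma PoorB_nl_self {X k : ℕ} {a : Pt × Pt} (ha : a ∈ PP X (X, k)) :
    (nl X (Nn X) a.1 a.2 : ℝ) * Yx X ^ 300 ≤ Nn X := by
  obtain ⟨a1, a2, a3, a4, a5, a6, a7⟩ := PoorB_mem ha
  have h := nl_mul_nrm_le (X_le_Nn X) (PoorB_cone a2) a4
  have hd : dir a.1 a.2 = dir a.2 (X, k) := PoorB_dir_eq a4 a5 a6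
  rw [hd] at h
  have h' : (nl X (Nn X) a.1 a.2 : ℝ) * nrm (dir a.2 (X, k)) ≤ Nn X := by exact_mod_cast h
  refine le_trans ?_ h'
  exact mul_le_mul_of_nonneg_left a7.le (Nat.cast_nonneg _)

/-- the sum over all pairs in `PP` of a nonnegative function of one of the points -/
lemma PoorB_sum_fst {X k : ℕ} (f : Pt → ℝ) (hf : ∀ p, 0 ≤ f p) :
    ∑ a ∈ PP X (X, k), f a.1 ≤
      ∑ p ∈ left X (Nn X) (X, k), (Lc X (Nn X) p (X, k) : ℝ) * f p := by
  classical
  have hmaps : ∀ a ∈ PP X (X, k), a.1 ∈ left X (Nn X) (X, k) := by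
    intro a ha
    obtain ⟨h1, h2, h3, h4, h5, h6, h7⟩ := PoorB_mem ha
    exact CountA_mem_left.2 ⟨CountA_mem_Box.1 (PoorB_cone h1), lt_trans h4 h5⟩
  rw [← sum_fiberwise_of_maps_to hmaps]
  apply sum_le_sum
  intro p hp
  have h1 : ∀ a ∈ (PP X (X, k)).filter (fun a => a.1 = p), f a.1 = f p := by
    intro a ha
    rw [(mem_filter.1 ha).2]
  rw [sum_congr rfl h1, sum_const, nsmul_eq_mul]
  apply mul_le_mul_of_nonneg_right _ (hf p)
  have : ((PP X (X, k)).filter (fun a => a.1 = p)).card ≤ Lc X (Nn X) p (X, k) := by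
    unfold Lc
    apply card_le_card_of_injOn (fun a => a.2)
    · intro a ha
      obtain ⟨ha1, ha2⟩ := mem_filter.1 ha
      have := (PoorB_fib ha1).2
      obtain ⟨h1, h2, h3, h4, h5, h6, h7⟩ := PoorB_mem ha1
      rw [← h6, ha2] at this
      exact this
    · intro a ha b hb hab
      have h2 := (mem_filter.1 (mem_coe.1 ha)).2
      have h3 := (mem_filter.1 (mem_coe.1 hb)).2
      exact Prod.ext (h2.trans h3.symm) hab
  exact_mod_cast this

lemma PoorB_sum_snd {X k : ℕ} (f : Pt → ℝ) (hf : ∀ p, 0 ≤ f p) :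
    ∑ a ∈ PP X (X, k), f a.2 ≤
      ∑ p ∈ left X (Nn X) (X, k), (Lc X (Nn X) p (X, k) : ℝ) * f p := by
  classical
  have hmaps : ∀ a ∈ PP X (X, k), a.2 ∈ left X (Nn X) (X, k) := by
    intro a ha
    obtain ⟨h1, h2, h3, h4, h5, h6, h7⟩ := PoorB_mem ha
    exact CountA_mem_left.2 ⟨CountA_mem_Box.1 (PoorB_cone h2), h5⟩
  rw [← sum_fiberwise_of_maps_to hmaps]
  apply sum_le_sum
  intro p hp
  have h1 : ∀ a ∈ (PP X (X, k)).filter (fun a => a.2 = p), f a.2 = f p := by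
    intro a ha
    rw [(mem_filter.1 ha).2]
  rw [sum_congr rfl h1, sum_const, nsmul_eq_mul]
  apply mul_le_mul_of_nonneg_right _ (hf p)
  have : ((PP X (X, k)).filter (fun a => a.2 = p)).card ≤ Lc X (Nn X) p (X, k) := by
    unfold Lc
    apply card_le_card_of_injOn (fun a => a.1)
    · intro a ha
      obtain ⟨ha1, ha2⟩ := mem_filter.1 ha
      have := (PoorB_fib ha1).1
      rw [ha2] at this
      exact this
    · intro a ha b hb hab
      have h2 := (mem_filter.1 (mem_coe.1 ha)).2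
      have h3 := (mem_filter.1 (mem_coe.1 hb)).2
      exact Prod.ext hab (h2.trans h3.symm)
  exact_mod_cast this

/-- the sum (C5), as a sum over all pairs of points -/
def PoorB_C (X k : ℕ) : ℝ :=
  ∑ p ∈ left X (Nn X) (X, k), ∑ q ∈ (left X (Nn X) (X, k)).filter
    (fun q => dir q (X, k) ≠ dir p (X, k)),
      (Lc X (Nn X) p (X, k) : ℝ) * Lc X (Nn X) q (X, k) * nl X (Nn X) p q

/-- the general cross term -/
lemma PoorB_cross {X k : ℕ} (π1 π2 : Pt × Pt → Pt)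
    (h1 : π1 = Prod.fst ∨ π1 = Prod.snd) (h2 : π2 = Prod.fst ∨ π2 = Prod.snd) :
    ∑ a ∈ PP X (X, k), ∑ b ∈ (PP X (X, k)).filter (fun b => dir b.2 (X, k) ≠ dir a.2 (X, k)),
      (nl X (Nn X) (π1 a) (π2 b) : ℝ) ≤ PoorB_C X k := by
  classical
  set g : Pt → Pt → ℝ := fun p q => if dir q (X, k) ≠ dir p (X, k) then (nl X (Nn X) p q : ℝ)
    else 0 with hg
  have hg0 : ∀ p q, 0 ≤ g p q := by
    intro p q
    simp only [hg]
    split_ifs
    · exact Nat.cast_nonneg _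
    · exact le_refl _
  have hdir : ∀ (π : Pt × Pt → Pt), (π = Prod.fst ∨ π = Prod.snd) → ∀ a ∈ PP X (X, k),
      dir (π a) (X, k) = dir a.2 (X, k) := by
    intro π hπ a ha
    obtain ⟨_, _, _, _, _, h6, _⟩ := PoorB_mem ha
    rcases hπ with rfl | rfl
    · exact h6
    · rfl
  have hsum : ∀ (π : Pt × Pt → Pt), (π = Prod.fst ∨ π = Prod.snd) → ∀ f : Pt → ℝ,
      (∀ p, 0 ≤ f p) → ∑ a ∈ PP X (X, k), f (π a) ≤
      ∑ p ∈ left X (Nn X) (X, k), (Lc X (Nn X) p (X, k) : ℝ) * f p := by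
    intro π hπ f hf
    rcases hπ with rfl | rfl
    · exact PoorB_sum_fst f hf
    · exact PoorB_sum_snd f hf
  calc ∑ a ∈ PP X (X, k), ∑ b ∈ (PP X (X, k)).filter (fun b => dir b.2 (X, k) ≠ dir a.2 (X, k)),
      (nl X (Nn X) (π1 a) (π2 b) : ℝ)
      = ∑ a ∈ PP X (X, k), ∑ b ∈ PP X (X, k), g (π1 a) (π2 b) := by
        apply sum_congr rfl
        intro a ha
        rw [sum_filter]
        apply sum_congr rfl
        intro b hb
        simp only [hg]
        rw [hdir π1 h1 a ha, hdir π2 h2 b hb]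
    _ ≤ ∑ a ∈ PP X (X, k), ∑ q ∈ left X (Nn X) (X, k),
          (Lc X (Nn X) q (X, k) : ℝ) * g (π1 a) q := by
        apply sum_le_sum
        intro a _
        exact hsum π2 h2 (fun q => g (π1 a) q) (fun q => hg0 _ _)
    _ ≤ ∑ p ∈ left X (Nn X) (X, k), (Lc X (Nn X) p (X, k) : ℝ) *
          ∑ q ∈ left X (Nn X) (X, k), (Lc X (Nn X) q (X, k) : ℝ) * g p q := by
        exact hsum π1 h1 (fun p => ∑ q ∈ left X (Nn X) (X, k),
          (Lc X (Nn X) q (X, k) : ℝ) * g p q)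
          (fun p => sum_nonneg fun q _ => mul_nonneg (Nat.cast_nonneg _) (hg0 _ _))
    _ = PoorB_C X k := by
        unfold PoorB_C
        apply sum_congr rfl
        intro p _
        rw [mul_sum, sum_filter]
        apply sum_congr rfl
        intro q _
        simp only [hg]
        split_ifs
        · ring
        · simp

lemma PoorB_C_le {X k : ℕ} (hX : 1 ≤ X) (hG : Good X) (hk : k < Nn X) :
    PoorB_C X k ≤ (Nn X : ℝ) ^ 5 * (Yx X ^ 296)⁻¹ := by
  have hB := hG.big hX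
  have hY1 := Yx_one_le hX
  have hYb := PoorB_Y_ge hB
  have hlog := hB.log_le
  have hYX := Yx_pow X
  have hXN' : (X : ℝ) ≤ Nn X := by exact_mod_cast X_le_Nn X
  have hN1 : (1 : ℝ) ≤ Nn X := by exact_mod_cast one_le_Nn hX
  set Y := Yx X with hYd
  set N : ℝ := (Nn X : ℝ) with hNd
  have hYpos : 0 < Y := by linarith
  have hN : 0 < N := by linarith
  have hlog0 : 0 ≤ Real.log N := Real.log_nonneg hN1
  set K : ℕ := ⌊Y ^ 300⌋₊ with hK
  have hY300 : 1 ≤ Y ^ 300 := one_le_pow₀ hY1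
  have hKle : (K : ℝ) ≤ Y ^ 300 := Nat.floor_le (by positivity)
  have hKlt : Y ^ 300 < K + 1 := Nat.lt_floor_add_one _
  have hK1 : 1 ≤ K := by
    rw [hK]
    exact Nat.le_floor (by simpa using hY300)
  have hKR : (1 : ℝ) ≤ K := by exact_mod_cast hK1
  have hK2 : Y ^ 300 ≤ 2 * K := by linarith
  have h := sum_nl_le (X_le_Nn X) (one_le_Nn hX) hK1 (PoorB_v hk)
  unfold PoorB_C
  refine h.trans ?_
  rw [← hNd]
  -- first term
  have t1 : (N / K) * (4 * N ^ 2 * (1 + Real.log N)) ^ 2 ≤ 32 * N ^ 5 * (Y ^ 298)⁻¹ := by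
    have e1 : N / K ≤ 2 * N / Y ^ 300 := by
      rw [div_le_div_iff₀ (by linarith) (by positivity)]
      nlinarith
    have e2 : 4 * N ^ 2 * (1 + Real.log N) ≤ 4 * N ^ 2 * Y :=
      mul_le_mul_of_nonneg_left hlog (by positivity)
    calc (N / K) * (4 * N ^ 2 * (1 + Real.log N)) ^ 2
        ≤ (2 * N / Y ^ 300) * (4 * N ^ 2 * Y) ^ 2 := by gcongr
      _ = 32 * N ^ 5 * (Y ^ 298)⁻¹ := by
          field_simp
          norm_num
  have t2 : 6 * (K : ℝ) ^ 2 * N * (4 * N ^ 2 * (1 + Real.log N)) * (9 * N ^ (3 / 2 : ℝ)) ≤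
      216 * N ^ 5 * (Y ^ 49399)⁻¹ := by
    have e2 : 4 * N ^ 2 * (1 + Real.log N) ≤ 4 * N ^ 2 * Y :=
      mul_le_mul_of_nonneg_left hlog (by positivity)
    have e3 : N ^ (3 / 2 : ℝ) ≤ N ^ 2 * (Y ^ 50000)⁻¹ := by
      have h1 : Y ^ 50000 ≤ N ^ (1 / 2 : ℝ) := by
        have h2 : (Y ^ 50000) ^ 2 ≤ N := by
          rw [← pow_mul]
          norm_num
          rw [hYX]
          exact hXN'
        rw [← Real.sqrt_eq_rpow]
        exact Real.le_sqrt_of_sq_le h2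
      have h3 : N ^ (3 / 2 : ℝ) * N ^ (1 / 2 : ℝ) = N ^ 2 := by
        rw [← Real.rpow_add hN]
        norm_num
      rw [← div_eq_mul_inv, le_div_iff₀ (by positivity), ← h3]
      exact mul_le_mul_of_nonneg_left h1 (by positivity)
    calc 6 * (K : ℝ) ^ 2 * N * (4 * N ^ 2 * (1 + Real.log N)) * (9 * N ^ (3 / 2 : ℝ))
        ≤ 6 * (Y ^ 300) ^ 2 * N * (4 * N ^ 2 * Y) * (9 * (N ^ 2 * (Y ^ 50000)⁻¹)) := by gcongr
      _ = 216 * N ^ 5 * (Y ^ 601 / Y ^ 50000) := by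
          generalize Y ^ 50000 = P
          ring
      _ = 216 * N ^ 5 * (Y ^ 49399)⁻¹ := by
          have e4 : Y ^ 50000 = Y ^ 601 * Y ^ 49399 := by rw [← pow_add]
          have e5 : Y ^ 601 ≠ 0 := by positivity
          rw [e4]
          generalize Y ^ 49399 = P
          generalize Y ^ 601 = Q at e5 ⊢
          rw [div_mul_eq_div_div, div_self e5, one_div]
  have hN5 : 0 ≤ N ^ 5 := by positivity
  have u1 : 32 * (Y ^ 298)⁻¹ ≤ 1 / 2 * (Y ^ 296)⁻¹ := by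
    have : (Y ^ 296)⁻¹ = Y ^ 2 * (Y ^ 298)⁻¹ := by
      field_simp
    rw [this]
    have h0 : 0 ≤ (Y ^ 298)⁻¹ := by positivity
    have : (64 : ℝ) ≤ Y ^ 2 := by nlinarith
    nlinarith
  have u2 : 216 * (Y ^ 49399)⁻¹ ≤ 1 / 2 * (Y ^ 296)⁻¹ := by
    have e : (Y ^ 49399)⁻¹ ≤ (Y ^ 298)⁻¹ := by
      apply inv_anti₀ (by positivity)
      exact pow_le_pow_right₀ hY1 (by norm_num)
    have : (Y ^ 296)⁻¹ = Y ^ 2 * (Y ^ 298)⁻¹ := by
      field_simp
    rw [this]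
    have h0 : 0 ≤ (Y ^ 298)⁻¹ := by positivity
    have : (432 : ℝ) ≤ Y ^ 2 := by nlinarith
    nlinarith
  nlinarith [mul_le_mul_of_nonneg_left u1 hN5, mul_le_mul_of_nonneg_left u2 hN5]

lemma PoorB_muP_nonneg (X : ℕ) (v : Pt) : 0 ≤ muP X v := by
  unfold muP
  exact sum_nonneg fun a _ => mul_nonneg (PoorB_cc_nonneg _) (PoorB_cc_nonneg _)

lemma PoorB_muP_le {X k : ℕ} (hX : 1 ≤ X) (hG : Good X) (hk : k < Nn X) :
    muP X (X, k) ≤ Yx X := by
  have hB := hG.big hX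
  have hlog := hB.log_le
  have hX' : (1 : ℝ) ≤ X := by exact_mod_cast hX
  have hXN' : (X : ℝ) ≤ Nn X := by exact_mod_cast X_le_Nn X
  have h1 : Real.log X ≤ Real.log (Nn X) := Real.log_le_log (by linarith) hXN'
  have h0 : 0 ≤ Real.log X := Real.log_nonneg hX'
  have hH : (5 : ℝ) / H ≤ 1 := by
    have : (10 : ℝ) ^ 9 ≤ H := by exact_mod_cast H_ge
    rw [div_le_one (by linarith)]
    linarith
  calc muP X (X, k) ≤ 5 / H * (1 + Real.log X) := muP_le hB hk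
    _ ≤ 1 * (1 + Real.log X) := mul_le_mul_of_nonneg_right hH (by linarith)
    _ ≤ Yx X := by linarith

/-- sum over all quadruples on different lines, with (C5) -/
theorem Ex_UP_sq_diff {X k : ℕ} (hX : 1 ≤ X) (hG : Good X) (hk : k < Nn X) :
    ∑ a ∈ PP X (X, k), ∑ b ∈ (PP X (X, k)).filter (fun b => dir b.2 (X, k) ≠ dir a.2 (X, k)),
      Ex (X - 1) (fun h => (N1 {a.1} h * (cc a.2.1 * W h ∅ a.2)) *
        (N1 {b.1} h * (cc b.2.1 * W h ∅ b.2))) ≤ muP X (X, k) ^ 2 + (Yx X ^ 50)⁻¹ := by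
  classical
  have hB := hG.big hX
  have hY1 := Yx_one_le hX
  have hYb := PoorB_Y_ge hB
  have hmu0 := PoorB_muP_nonneg X (X, k)
  have hmuY := PoorB_muP_le hX hG hk
  have hC := PoorB_C_le hX hG hk
  have hβ : 0 ≤ be X (Yx X ^ 10) := be_nonneg hX (one_le_pow₀ hY1)
  have hβN := PoorB_be_N hX
  have hN1 : (1 : ℝ) ≤ Nn X := by exact_mod_cast one_le_Nn hX
  set β := be X (Yx X ^ 10) with hβd
  set Y := Yx X with hYd
  set μ := muP X (X, k) with hμ
  set N : ℝ := (Nn X : ℝ) with hNd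
  have hYpos : 0 < Y := by linarith
  have hN : 0 < N := by linarith
  set w : Pt × Pt → ℝ := fun a => cc a.1.1 * cc a.2.1 with hw
  have hw0 : ∀ a, 0 ≤ w a := fun a => mul_nonneg (PoorB_cc_nonneg _) (PoorB_cc_nonneg _)
  have hwβ : ∀ a ∈ PP X (X, k), w a ≤ β ^ 2 := by
    intro a ha
    obtain ⟨a1, a2, a3, a4, a5, a6, a7⟩ := PoorB_mem ha
    have a4' : (a.1.1 : ℝ) ≤ a.2.1 := by exact_mod_cast a4.le
    rw [sq]
    exact mul_le_mul (PoorB_cc_le hX (by omega) a3) (PoorB_cc_le hX (by omega) (a3.trans a4'))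
      (PoorB_cc_nonneg _) hβ
  set n : Pt → Pt → ℝ := fun p q => (nl X (Nn X) p q : ℝ) with hn
  have hn0 : ∀ p q, 0 ≤ n p q := fun p q => Nat.cast_nonneg _
  have hnself : ∀ a ∈ PP X (X, k), n a.1 a.2 ≤ N / Y ^ 300 := by
    intro a ha
    rw [le_div_iff₀ (by positivity)]
    exact PoorB_nl_self ha
  set c : ℝ := 2 * Y ^ 131 / N with hc
  have hc0 : 0 ≤ c := by positivity
  set e : ℝ := 1 + (Y ^ 12000)⁻¹ + c * (2 * (N / Y ^ 300)) with he
  have he0 : 0 ≤ e := by positivity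
  set cr : Pt × Pt → Pt × Pt → ℝ := fun a b => n a.1 b.1 + n a.1 b.2 + n a.2 b.1 + n a.2 b.2
    with hcr
  have hcr0 : ∀ a b, 0 ≤ cr a b := fun a b => by
    simp only [hcr]
    have := hn0 a.1 b.1
    have := hn0 a.1 b.2
    have := hn0 a.2 b.1
    have := hn0 a.2 b.2
    linarith
  have key : ∀ a ∈ PP X (X, k),
      ∀ b ∈ (PP X (X, k)).filter (fun b => dir b.2 (X, k) ≠ dir a.2 (X, k)),
      Ex (X - 1) (fun h => (N1 {a.1} h * (cc a.2.1 * W h ∅ a.2)) *
        (N1 {b.1} h * (cc b.2.1 * W h ∅ b.2))) ≤ w a * w b * e + β ^ 4 * c * cr a b := by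
    intro a ha b hb
    obtain ⟨hb1, hb2⟩ := mem_filter.1 hb
    refine (Ex_UP_sq_one hX hG hk ha hb1 hb2).trans ?_
    have s1 := hnself a ha
    have s2 := hnself b hb1
    have hww : 0 ≤ w a * w b := mul_nonneg (hw0 a) (hw0 b)
    have hwwβ : w a * w b ≤ β ^ 4 := by
      calc w a * w b ≤ β ^ 2 * β ^ 2 := mul_le_mul (hwβ a ha) (hwβ b hb1) (hw0 b) (by positivity)
        _ = β ^ 4 := by ring
    have hexp : (cc a.1.1 * cc a.2.1) * (cc b.1.1 * cc b.2.1) * (1 + (Y ^ 12000)⁻¹ +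
        Y ^ 131 / N * (2 * (nl X (Nn X) a.1 a.2 + nl X (Nn X) a.1 b.1 +
          nl X (Nn X) a.1 b.2 + nl X (Nn X) a.2 b.1 + nl X (Nn X) a.2 b.2 +
          nl X (Nn X) b.1 b.2))) = w a * w b * (1 + (Y ^ 12000)⁻¹ +
          c * (n a.1 a.2 + n b.1 b.2)) + w a * w b * (c * cr a b) := by
      simp only [hw, hc, hn, hcr]
      ring
    rw [hexp]
    apply add_le_add
    · apply mul_le_mul_of_nonneg_left _ hww
      rw [he]
      have : c * (n a.1 a.2 + n b.1 b.2) ≤ c * (2 * (N / Y ^ 300)) :=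
        mul_le_mul_of_nonneg_left (by linarith) hc0
      linarith
    · calc w a * w b * (c * cr a b) ≤ β ^ 4 * (c * cr a b) :=
            mul_le_mul_of_nonneg_right hwwβ (mul_nonneg hc0 (hcr0 a b))
        _ = β ^ 4 * c * cr a b := by ring
  refine (sum_le_sum fun a ha => sum_le_sum fun b hb => key a ha b hb).trans ?_
  simp only [sum_add_distrib]
  -- main term
  have m1 : ∑ a ∈ PP X (X, k),
      ∑ b ∈ (PP X (X, k)).filter (fun b => dir b.2 (X, k) ≠ dir a.2 (X, k)), w a * w b * e ≤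
      μ ^ 2 * e := by
    calc ∑ a ∈ PP X (X, k),
      ∑ b ∈ (PP X (X, k)).filter (fun b => dir b.2 (X, k) ≠ dir a.2 (X, k)), w a * w b * e
        ≤ ∑ a ∈ PP X (X, k), ∑ b ∈ PP X (X, k), w a * w b * e := by
          apply sum_le_sum
          intro a _
          apply sum_le_sum_of_subset_of_nonneg (filter_subset _ _)
          intro b _ _
          exact mul_nonneg (mul_nonneg (hw0 a) (hw0 b)) he0
      _ = μ ^ 2 * e := by
          rw [hμ]
          unfold muP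
          rw [sq, sum_mul_sum, sum_mul]
          apply sum_congr rfl
          intro a _
          rw [sum_mul]
  -- cross terms
  have m2 : ∑ a ∈ PP X (X, k),
      ∑ b ∈ (PP X (X, k)).filter (fun b => dir b.2 (X, k) ≠ dir a.2 (X, k)),
        β ^ 4 * c * cr a b ≤ β ^ 4 * c * (4 * PoorB_C X k) := by
    simp only [← mul_sum]
    apply mul_le_mul_of_nonneg_left _ (by positivity)
    simp only [hcr, sum_add_distrib]
    have i1 := PoorB_cross (X := X) (k := k) Prod.fst Prod.fst (Or.inl rfl) (Or.inl rfl)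
    have i2 := PoorB_cross (X := X) (k := k) Prod.fst Prod.snd (Or.inl rfl) (Or.inr rfl)
    have i3 := PoorB_cross (X := X) (k := k) Prod.snd Prod.fst (Or.inr rfl) (Or.inl rfl)
    have i4 := PoorB_cross (X := X) (k := k) Prod.snd Prod.snd (Or.inr rfl) (Or.inr rfl)
    linarith
  refine (add_le_add m1 m2).trans ?_
  -- numerics
  have k1 : β ^ 4 * c * (4 * PoorB_C X k) ≤ 1 / 4 * (Y ^ 50)⁻¹ := by
    calc β ^ 4 * c * (4 * PoorB_C X k) ≤ β ^ 4 * c * (4 * (N ^ 5 * (Y ^ 296)⁻¹)) := by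
          apply mul_le_mul_of_nonneg_left _ (by positivity)
          linarith
      _ = 8 * (β * N) ^ 4 * (Y ^ 131 * (Y ^ 296)⁻¹) := by
          rw [hc]
          field_simp
          ring
      _ = 1 / 2 * (Y ^ 175 * (Y ^ 296)⁻¹) := by
          rw [hβN]
          ring
      _ = 1 / 2 * (Y ^ 121)⁻¹ := by
          congr 1
          field_simp
      _ ≤ 1 / 4 * (Y ^ 50)⁻¹ := by
          have e1 : (Y ^ 121)⁻¹ ≤ (Y ^ 51)⁻¹ := by
            apply inv_anti₀ (by positivity)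
            exact pow_le_pow_right₀ hY1 (by norm_num)
          have e2 : (Y ^ 50)⁻¹ = Y * (Y ^ 51)⁻¹ := by field_simp
          have e3 : 0 ≤ (Y ^ 51)⁻¹ := by positivity
          rw [e2]
          nlinarith
  have k2 : μ ^ 2 * e ≤ μ ^ 2 + 1 / 2 * (Y ^ 50)⁻¹ := by
    have f1 : μ ^ 2 ≤ Y ^ 2 := by gcongr
    have f2 : e = 1 + ((Y ^ 12000)⁻¹ + 4 * (Y ^ 169)⁻¹) := by
      rw [he, hc]
      have : 2 * Y ^ 131 / N * (2 * (N / Y ^ 300)) = 4 * (Y ^ 169)⁻¹ := by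
        field_simp
        norm_num
      rw [this]
      ring
    rw [f2, mul_add, mul_one]
    have g0 : 0 ≤ (Y ^ 12000)⁻¹ + 4 * (Y ^ 169)⁻¹ := by positivity
    have g1 : μ ^ 2 * ((Y ^ 12000)⁻¹ + 4 * (Y ^ 169)⁻¹) ≤
        Y ^ 2 * ((Y ^ 12000)⁻¹ + 4 * (Y ^ 169)⁻¹) := mul_le_mul_of_nonneg_right f1 g0
    have g2 : (Y ^ 12000)⁻¹ ≤ (Y ^ 169)⁻¹ := by
      apply inv_anti₀ (by positivity)
      exact pow_le_pow_right₀ hY1 (by norm_num)
    have g3 : Y ^ 2 * (Y ^ 169)⁻¹ = (Y ^ 167)⁻¹ := by field_simp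
    have g4 : (Y ^ 167)⁻¹ ≤ (Y ^ 51)⁻¹ := by
      apply inv_anti₀ (by positivity)
      exact pow_le_pow_right₀ hY1 (by norm_num)
    have g5 : (Y ^ 50)⁻¹ = Y * (Y ^ 51)⁻¹ := by field_simp
    have g6 : 0 ≤ (Y ^ 51)⁻¹ := by positivity
    have g7 : Y ^ 2 * ((Y ^ 12000)⁻¹ + 4 * (Y ^ 169)⁻¹) ≤ 5 * (Y ^ 167)⁻¹ := by
      rw [← g3]
      have : 0 ≤ Y ^ 2 := by positivity
      nlinarith
    rw [g5]
    nlinarith
  have k3 : 0 ≤ (Y ^ 50)⁻¹ := by positivity
  linarith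

open scoped Classical in
theorem poor_prob {X k : ℕ} (hX : 1 ≤ X) (hG : Good X) (hk : k < Nn X) :
    Ex (X - 1) (fun h => if muP X (X, k) + 1 < UP X (X, k) h then 1 else 0) ≤ (Yx X ^ 20)⁻¹ := by
  have hB := hG.big hX
  have hY1 := Yx_one_le hX
  have hYb := PoorB_Y_ge hB
  have hmu0 := PoorB_muP_nonneg X (X, k)
  have hmuY := PoorB_muP_le hX hG hk
  have hsame := Ex_UP_sq_same hX hG hk
  have hdiff := Ex_UP_sq_diff hX hG hk
  have hlow := Ex_UP_ge hX hG hk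
  set Y := Yx X with hYd
  set μ := muP X (X, k) with hμ
  have hYpos : 0 < Y := by linarith
  have hsq : Ex (X - 1) (fun h => UP X (X, k) h ^ 2) ≤ (Y ^ 100)⁻¹ + (μ ^ 2 + (Y ^ 50)⁻¹) := by
    have e1 : Ex (X - 1) (fun h => UP X (X, k) h ^ 2) =
        ∑ a ∈ PP X (X, k), ∑ b ∈ PP X (X, k),
          Ex (X - 1) (fun h => (N1 {a.1} h * (cc a.2.1 * W h ∅ a.2)) *
            (N1 {b.1} h * (cc b.2.1 * W h ∅ b.2))) := by
      simp only [← Ex_sum]
      apply Ex_congr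
      intro h _ _
      unfold UP
      rw [sq, sum_mul_sum]
    rw [e1]
    refine le_trans ?_ (add_le_add hsame hdiff)
    rw [← sum_add_distrib]
    apply le_of_eq
    apply sum_congr rfl
    intro a _
    exact (sum_filter_add_sum_filter_not _ _ _).symm
  have h1 : Ex (X - 1) (fun h => if μ + 1 < UP X (X, k) h then 1 else 0) ≤
      Ex (X - 1) (fun h => (UP X (X, k) h ^ 2 - 2 * μ * UP X (X, k) h) + μ ^ 2) := by
    apply Ex_mono
    intro h _ _
    split_ifs with hc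
    · nlinarith
    · nlinarith [sq_nonneg (UP X (X, k) h - μ)]
  refine h1.trans ?_
  rw [Ex_add, Ex_sub, Ex_const, Ex_const_mul]
  have h2 : 2 * μ * (μ * (1 - (Y ^ 200)⁻¹)) ≤ 2 * μ * Ex (X - 1) (UP X (X, k)) :=
    mul_le_mul_of_nonneg_left hlow (by positivity)
  have h3 : μ ^ 2 ≤ Y ^ 2 := by gcongr
  have h4 : μ ^ 2 * (Y ^ 200)⁻¹ ≤ (Y ^ 198)⁻¹ := by
    have e : Y ^ 2 * (Y ^ 200)⁻¹ = (Y ^ 198)⁻¹ := by field_simp
    rw [← e]
    exact mul_le_mul_of_nonneg_right h3 (by positivity)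
  have i1 : (Y ^ 198)⁻¹ ≤ (Y ^ 21)⁻¹ := by
    apply inv_anti₀ (by positivity)
    exact pow_le_pow_right₀ hY1 (by norm_num)
  have i2 : (Y ^ 100)⁻¹ ≤ (Y ^ 21)⁻¹ := by
    apply inv_anti₀ (by positivity)
    exact pow_le_pow_right₀ hY1 (by norm_num)
  have i3 : (Y ^ 50)⁻¹ ≤ (Y ^ 21)⁻¹ := by
    apply inv_anti₀ (by positivity)
    exact pow_le_pow_right₀ hY1 (by norm_num)
  have i4 : (Y ^ 20)⁻¹ = Y * (Y ^ 21)⁻¹ := by field_simp
  have i5 : 0 ≤ (Y ^ 21)⁻¹ := by positivity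
  rw [i4]
  have hη : Ex (X - 1) (fun h => UP X (X, k) h) = Ex (X - 1) (UP X (X, k)) := rfl
  rw [hη]
  nlinarith

end

end NTIL
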