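import Mathlib
import Pool.Agent.Lib.MP_2ffb02_co.Geom

set_option autoImplicit false

namespace NTIL

open Finset

/-- harmonic sum along a progression -/
theorem MainB_hsum (x a : ℝ) (ha : 0 < a) (n : ℕ) (hn : 0 < x - n * a) :
    ∑ i ∈ range n, 1 / (x - (i + 1) * a) ≤
      1 / (x - n * a) + 1 / a * Real.log (x / (x - n * a)) := by
  induction n with
  | zero =>
    simp only [Nat.cast_zero, zero_mul, sub_zero] at hn ⊢
    rw [div_self hn.ne', Real.log_one]
    simp only [range_zero, sum_empty, mul_zero, add_zero]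
    positivity
  | succ n ih =>
    push_cast at hn ⊢
    have hn' : 0 < x - n * a := by linarith
    have hx : 0 < x := by
      have : 0 ≤ (n : ℝ) * a := by positivity
      linarith
    rw [sum_range_succ]
    have h1 := ih hn'
    set t := x - n * a with ht
    have ht' : x - (n + 1) * a = t - a := by rw [ht]; ring
    rw [ht'] at hn ⊢
    have h2 : 1 / t ≤ 1 / a * Real.log (t / (t - a)) := by
      have := Real.one_sub_inv_le_log_of_pos (div_pos hn' hn)
      rw [inv_div] at this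
      have h3 : 1 - (t - a) / t = a / t := by field_simp; ring
      rw [h3] at this
      calc 1 / t = 1 / a * (a / t) := by field_simp
        _ ≤ _ := by
          apply mul_le_mul_of_nonneg_left this
          positivity
    have h3 : Real.log (x / (t - a)) = Real.log (x / t) + Real.log (t / (t - a)) := by
      rw [← Real.log_mul (by positivity) (div_pos hn' hn).ne']
      congr 1
      field_simp
    rw [h3, mul_add]
    linarith

/-- sum of logarithms along a progression -/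
theorem MainB_lsum (x a : ℝ) (ha : 0 < a) (n : ℕ) (hn : 0 < x - n * a) :
    ∑ i ∈ range n, Real.log (x / (x - (i + 1) * a)) ≤
      Real.log (x / (x - n * a)) + x / a := by
  have key : ∀ n : ℕ, 0 < x - n * a → a * ∑ i ∈ range n, Real.log (x / (x - (i + 1) * a)) ≤
      a * Real.log (x / (x - n * a)) + (x - (x - n * a) * (1 + Real.log (x / (x - n * a)))) := by
    intro n
    induction n with
    | zero =>
      intro hn
      simp only [Nat.cast_zero, zero_mul, sub_zero] at hn ⊢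
      rw [div_self hn.ne', Real.log_one]
      simp
    | succ n ih =>
      intro hn
      push_cast at hn ⊢
      have hn' : 0 < x - n * a := by linarith
      have hx : 0 < x := by
        have : 0 ≤ (n : ℝ) * a := by positivity
        linarith
      rw [sum_range_succ, mul_add]
      have h1 := ih hn'
      set t := x - n * a with ht
      have ht' : x - (n + 1) * a = t - a := by rw [ht]; ring
      rw [ht'] at hn ⊢
      have h2 := Real.log_le_sub_one_of_pos (div_pos hn' hn)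
      rw [Real.log_div hn'.ne' hn.ne'] at h2
      rw [Real.log_div hx.ne' hn'.ne'] at h1
      rw [Real.log_div hx.ne' hn.ne']
      have h3 : (t - a) * (Real.log t - Real.log (t - a)) ≤ a := by
        calc (t - a) * (Real.log t - Real.log (t - a)) ≤ (t - a) * (t / (t - a) - 1) :=
              mul_le_mul_of_nonneg_left h2 hn.le
          _ = a := by field_simp; ring
      nlinarith [h1, h3]
  have h1 := key n hn
  have hx : 0 < x := by
    have : 0 ≤ (n : ℝ) * a := by positivity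
    linarith
  have hle : x - n * a ≤ x := by
    have : 0 ≤ (n : ℝ) * a := by positivity
    linarith
  have h2 : 0 ≤ Real.log (x / (x - n * a)) := Real.log_nonneg (by rwa [le_div_iff₀ hn, one_mul])
  have h3 : 0 ≤ (x - n * a) * (1 + Real.log (x / (x - n * a))) := by positivity
  have h4 : a * ∑ i ∈ range n, Real.log (x / (x - (i + 1) * a)) ≤
      a * (Real.log (x / (x - n * a)) + x / a) := by
    have : a * (x / a) = x := by field_simp
    rw [mul_add, this]
    linarith
  exact le_of_mul_le_mul_left h4 ha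

/-- (M3') points on rich lines through a Diophantine point are not too far left -/
theorem col_ge_of_DC {H X k : ℕ} (hH : 1 ≤ H) (hX : 1 ≤ X) (hk : k < H * X) {A : ℝ}
    (hDC : DC A (X, k)) {u : Pt} (hu : u ∈ cone H X) (hu1 : u.1 < X)
    (hn : (nrm (dir u (X, k)) : ℝ) ≤ A) :
    (X : ℝ) ≤ 300 * H * ((dir u (X, k)).1 : ℝ) ^ 3 * u.1 := by
  have hlt : u.1 < ((X, k) : Pt).1 := hu1
  have e1 := dir_fst_mul (y := u) (p := (X, k))
  have e2 := dir_snd_mul (y := u) (p := (X, k))
  have g0 : (0 : ℤ) < dg u (X, k) := by exact_mod_cast dg_pos hlt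
  have a0 := dir_fst_pos hlt
  have hu' := hu
  simp only [cone, Box, mem_filter, mem_product, mem_range] at hu'
  obtain ⟨⟨hu2, hu3⟩, hu4⟩ := hu'
  set a := (dir u (X, k)).1 with ha
  set b := (dir u (X, k)).2 with hb
  set g := dg u (X, k) with hg
  simp only at e1 e2
  have hnat : (a.natAbs : ℤ) = a := Int.natAbs_of_nonneg a0.le
  have ha1 : 1 ≤ a.natAbs := by omega
  have haA : (a.natAbs : ℝ) ≤ A := by
    refine le_trans ?_ hn
    have : a.natAbs ≤ nrm (dir u (X, k)) := le_max_left _ _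
    exact_mod_cast this
  have hD := hDC a.natAbs ha1 haA b
  simp only at hD
  rw [hnat] at hD
  have hDa : ((a.natAbs : ℕ) : ℝ) = (a : ℝ) := by
    rw [Nat.cast_natAbs, abs_of_pos a0]
  rw [hDa] at hD
  have e3 : a * k - b * X = a * u.2 - b * u.1 := by
    have e4 : (k : ℤ) = b * g + u.2 := by linarith
    have e5 : (X : ℤ) = a * g + u.1 := by linarith
    rw [e4, e5]; ring
  rw [e3] at hD
  have haR : (1 : ℝ) ≤ a := by exact_mod_cast a0
  have hHR : (1 : ℝ) ≤ H := by exact_mod_cast hH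
  have hu0 : (0 : ℝ) ≤ u.1 := by positivity
  by_cases hc : X ≤ 2 * u.1
  · have h1 : (X : ℝ) ≤ 2 * u.1 := by exact_mod_cast hc
    have h2 : (1 : ℝ) ≤ (a : ℝ) ^ 3 := one_le_pow₀ haR
    have h3 : (1 : ℝ) ≤ H * (a : ℝ) ^ 3 := by nlinarith
    nlinarith
  · push Not at hc
    -- |b| ≤ 2 H a
    have hb1 : |b| * g < H * X := by
      have : |b| * g = |(k : ℤ) - u.2| := by
        rw [← e2, abs_mul, abs_of_pos g0]
      rw [this, abs_lt]
      have h1 : (k : ℤ) < H * X := by exact_mod_cast hk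
      have h2 : (u.2 : ℤ) < H * X := by exact_mod_cast hu3
      constructor <;> omega
    have hb2 : |b| * g < (2 * H * a) * g := by
      have h1 : (X : ℤ) < 2 * (a * g) := by rw [e1]; omega
      have h2 : (H : ℤ) * X ≤ H * (2 * (a * g)) := mul_le_mul_of_nonneg_left h1.le (by positivity)
      nlinarith
    have hb3 : |b| < 2 * H * a := lt_of_mul_lt_mul_right hb2 g0.le
    have hb4 : (|b| : ℝ) ≤ 2 * H * a := by exact_mod_cast hb3.le
    have hu2' : (u.2 : ℝ) ≤ H * u.1 := by exact_mod_cast hu4.le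
    have h5 : |((a * u.2 - b * u.1 : ℤ) : ℝ)| ≤ 3 * H * a * u.1 := by
      push_cast
      calc |(a : ℝ) * u.2 - b * u.1| ≤ |(a : ℝ) * u.2| + |(b : ℝ) * u.1| := abs_sub _ _
        _ = a * u.2 + |(b : ℝ)| * u.1 := by
          rw [abs_mul, abs_mul, abs_of_nonneg (by linarith : (0 : ℝ) ≤ a),
            abs_of_nonneg (by positivity : (0 : ℝ) ≤ (u.2 : ℝ)), abs_of_nonneg hu0]
        _ ≤ a * (H * u.1) + (2 * H * a) * u.1 := by
          gcongr
        _ = 3 * H * a * u.1 := by ring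
    calc (X : ℝ) ≤ 100 * (a : ℝ) ^ 2 * |((a * u.2 - b * u.1 : ℤ) : ℝ)| := by
          convert hD using 2
          norm_cast
      _ ≤ 100 * (a : ℝ) ^ 2 * (3 * H * a * u.1) := by gcongr
      _ = 300 * H * (a : ℝ) ^ 3 * u.1 := by ring

/-- points on a line through `(X,k)`: the multiplicity determines the point -/
theorem MainB_eq_of_dg {X k : ℕ} {δ : ℤ × ℤ} {u u' : Pt}
    (hd : dir u (X, k) = δ) (hd' : dir u' (X, k) = δ)
    (hg : dg u (X, k) = dg u' (X, k)) : u = u' := by
  have e1 := dir_fst_mul (y := u) (p := (X, k))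
  have e2 := dir_snd_mul (y := u) (p := (X, k))
  have f1 := dir_fst_mul (y := u') (p := (X, k))
  have f2 := dir_snd_mul (y := u') (p := (X, k))
  rw [hd, hg] at e1 e2
  rw [hd'] at f1 f2
  simp only at e1 e2 f1 f2
  have h1 : u.1 = u'.1 := by omega
  have h2 : u.2 = u'.2 := by omega
  exact Prod.ext h1 h2

/-- harmonic sum over the points of a line right of a given point `z` -/
theorem MainB_sum_line {H X k : ℕ} {δ : ℤ × ℤ} {z : Pt}
    (hz : z ∈ (cone H X).filter (fun u => u.1 < X ∧ dir u (X, k) = δ)) :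
    (∑ u ∈ ((cone H X).filter (fun u => u.1 < X ∧ dir u (X, k) = δ)).filter
        (fun u => z.1 ≤ u.1), 1 / (u.1 : ℝ)) ≤
      1 / (z.1 : ℝ) + 1 / (δ.1 : ℝ) * Real.log (X / z.1) := by
  rw [mem_filter] at hz
  obtain ⟨hzc, hz1, hzd⟩ := hz
  have hlt : z.1 < ((X, k) : Pt).1 := hz1
  have a0 := dir_fst_pos hlt
  have e1 := dir_fst_mul (y := z) (p := (X, k))
  rw [hzd] at a0 e1
  simp only at e1
  have hz0 : 0 < z.1 := by
    simp only [cone, mem_filter] at hzc
    rcases Nat.eq_zero_or_pos z.1 with h | h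
    · rw [h] at hzc; simp at hzc
    · exact h
  set n := dg z (X, k) with hn
  have haR : (0 : ℝ) < δ.1 := by exact_mod_cast a0
  have e1R : (z.1 : ℝ) = X - n * δ.1 := by
    have : ((δ.1 * n : ℤ) : ℝ) = ((X - z.1 : ℤ) : ℝ) := by rw [e1]
    push_cast at this
    linarith
  have hz0R : (0 : ℝ) < z.1 := by exact_mod_cast hz0
  have hs := MainB_hsum X δ.1 haR n (by rw [← e1R]; exact hz0R)
  rw [← e1R] at hs
  refine le_trans ?_ hs
  have hpt : ∀ u ∈ ((cone H X).filter (fun u => u.1 < X ∧ dir u (X, k) = δ)).filter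
      (fun u => z.1 ≤ u.1), 0 < dg u (X, k) ∧ dg u (X, k) ≤ n ∧
        (u.1 : ℝ) = X - dg u (X, k) * δ.1 := by
    intro u hu
    rw [mem_filter, mem_filter] at hu
    obtain ⟨⟨-, hu1, hud⟩, huz⟩ := hu
    have hltu : u.1 < ((X, k) : Pt).1 := hu1
    have gp := dg_pos hltu
    have f1 := dir_fst_mul (y := u) (p := (X, k))
    rw [hud] at f1
    simp only at f1
    refine ⟨gp, ?_, ?_⟩
    · have h1 : δ.1 * (dg u (X, k) : ℤ) ≤ δ.1 * n := by
        rw [f1, e1]
        have : (z.1 : ℤ) ≤ u.1 := by exact_mod_cast huz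
        linarith
      exact_mod_cast le_of_mul_le_mul_left h1 a0
    · have : ((δ.1 * (dg u (X, k) : ℤ) : ℤ) : ℝ) = ((X - u.1 : ℤ) : ℝ) := by rw [f1]
      push_cast at this
      linarith
  have hinj : Set.InjOn (fun u : Pt => dg u (X, k) - 1)
      (((cone H X).filter (fun u => u.1 < X ∧ dir u (X, k) = δ)).filter
      (fun u => z.1 ≤ u.1) : Finset Pt) := by
    intro u hu u' hu' he
    have h1 := (hpt u hu).1
    have h2 := (hpt u' hu').1
    simp only at he
    rw [mem_coe, mem_filter, mem_filter] at hu hu'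
    exact MainB_eq_of_dg hu.1.2.2 hu'.1.2.2 (by omega)
  calc _ = ∑ u ∈ ((cone H X).filter (fun u => u.1 < X ∧ dir u (X, k) = δ)).filter
        (fun u => z.1 ≤ u.1), (fun i : ℕ => 1 / ((X : ℝ) - (i + 1) * δ.1)) (dg u (X, k) - 1) := by
        refine sum_congr rfl fun u hu => ?_
        obtain ⟨h1, h2, h3⟩ := hpt u hu
        have h4 : (((dg u (X, k) - 1 : ℕ) : ℝ)) + 1 = dg u (X, k) := by
          have : dg u (X, k) - 1 + 1 = dg u (X, k) := by omega
          exact_mod_cast this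
        simp only
        rw [h4, ← h3]
    _ = ∑ i ∈ (((cone H X).filter (fun u => u.1 < X ∧ dir u (X, k) = δ)).filter
        (fun u => z.1 ≤ u.1)).image (fun u : Pt => dg u (X, k) - 1),
          1 / ((X : ℝ) - (i + 1) * δ.1) := by
        rw [sum_image hinj]
    _ ≤ _ := by
        refine sum_le_sum_of_subset_of_nonneg ?_ ?_
        · intro i hi
          rw [mem_image] at hi
          obtain ⟨u, hu, rfl⟩ := hi
          obtain ⟨h1, h2, -⟩ := hpt u hu
          rw [mem_range]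
          omega
        · intro i hi _
          rw [mem_range] at hi
          have h1 : ((i : ℝ) + 1) * δ.1 ≤ n * δ.1 := by
            apply mul_le_mul_of_nonneg_right _ haR.le
            exact_mod_cast hi
          have : 0 < (X : ℝ) - (i + 1) * δ.1 := by linarith
          positivity

/-- the logarithm of the ratio -/
theorem MainB_log_le {a : ℝ} (ha : 1 ≤ a) : Real.log a ≤ a / 2 := by
  have h1 := Real.log_le_sub_one_of_pos (show 0 < a / 2 by linarith)
  rw [Real.log_div (by linarith) (by norm_num)] at h1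
  have := Real.log_two_lt_d9
  linarith

/-- (M3) -/
theorem Gd_le {H X k : ℕ} (hH : 1 ≤ H) (hX : 1 ≤ X) (hk : k < H * X) {A : ℝ} (hA : 1 ≤ A)
    (hDC : DC A (X, k)) (hbig : 300 * H * A ^ 3 ≤ X) {δ : ℤ × ℤ} (hδ : (nrm δ : ℝ) ≤ A) :
    Gd H X (X, k) δ ≤ (Real.log (300 * H) + 3) / (2 * H) := by
  have hHR : (1 : ℝ) ≤ H := by exact_mod_cast hH
  have hlogH : 0 ≤ Real.log (300 * H) := Real.log_nonneg (by linarith)
  unfold Gd
  show ∑ u ∈ (cone H X).filter (fun u => u.1 < X ∧ dir u (X, k) = δ), 1 / (2 * (H : ℝ) * u.1) ≤ _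
  set F := (cone H X).filter (fun u => u.1 < X ∧ dir u (X, k) = δ) with hF
  rcases F.eq_empty_or_nonempty with h0 | h0
  · rw [h0, sum_empty]; positivity
  obtain ⟨z, hz, hmin⟩ := F.exists_min_image (fun u => u.1) h0
  have hline := MainB_sum_line (H := H) (X := X) (k := k) (δ := δ) (z := z) hz
  rw [← hF, filter_true_of_mem (fun u hu => hmin u hu)] at hline
  have hz' := hz
  rw [hF, mem_filter] at hz'
  obtain ⟨hzc, hz1, hzd⟩ := hz'
  have hlt : z.1 < ((X, k) : Pt).1 := hz1
  have a0 := dir_fst_pos hlt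
  have hcol := col_ge_of_DC hH hX hk hDC hzc hz1 (by rw [hzd]; exact hδ)
  rw [hzd] at a0 hcol
  have haR : (1 : ℝ) ≤ δ.1 := by exact_mod_cast a0
  have haA : (δ.1 : ℝ) ≤ A := by
    refine le_trans ?_ hδ
    have h1 : δ.1.natAbs ≤ nrm δ := le_max_left _ _
    have h2 : (δ.1.natAbs : ℤ) = δ.1 := Int.natAbs_of_nonneg a0.le
    have h3 : (δ.1 : ℤ) ≤ (nrm δ : ℤ) := by omega
    exact_mod_cast h3
  have hXR : (0 : ℝ) < X := by exact_mod_cast hX
  have hz0 : (0 : ℝ) < z.1 := by
    by_contra hcon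
    push Not at hcon
    have h1 : (z.1 : ℝ) = 0 := le_antisymm hcon (by positivity)
    rw [h1] at hcol
    linarith
  set a : ℝ := ((δ.1 : ℤ) : ℝ) with ha
  have h1 : 1 / (z.1 : ℝ) ≤ 1 := by
    rw [div_le_one hz0]
    have h2 : 300 * H * a ^ 3 * z.1 ≤ 300 * H * A ^ 3 * z.1 := by gcongr
    have h3 : (X : ℝ) * 1 ≤ X * z.1 := by
      rw [mul_one]
      exact hcol.trans (h2.trans (mul_le_mul_of_nonneg_right hbig hz0.le))
    exact le_of_mul_le_mul_left h3 hXR
  have h2 : Real.log (X / z.1) ≤ Real.log (300 * H) + 3 * Real.log a := by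
    have h3 : 3 * Real.log a = Real.log (a ^ 3) := by
      rw [Real.log_pow]; norm_num
    rw [h3, ← Real.log_mul (by positivity) (by positivity)]
    apply Real.log_le_log (by positivity)
    rw [div_le_iff₀ hz0]
    exact hcol
  have h3 : 1 / a * Real.log (X / z.1) ≤ Real.log (300 * H) + 3 / 2 := by
    have h4 := MainB_log_le haR
    rw [div_mul_eq_mul_div, one_mul, div_le_iff₀ (by linarith)]
    nlinarith
  have h4 : ∑ u ∈ F, 1 / (2 * (H : ℝ) * u.1) = 1 / (2 * (H : ℝ)) * ∑ u ∈ F, 1 / (u.1 : ℝ) := by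
    rw [mul_sum]
    refine sum_congr rfl fun u _ => ?_
    rw [one_div_mul_one_div]
  rw [h4, div_mul_eq_mul_div, one_mul]
  apply div_le_div_of_nonneg_right _ (by positivity)
  linarith

theorem MainB_harm (n : ℕ) : ∑ i ∈ range n, 1 / ((i : ℝ) + 1) ≤ 1 + Real.log n := by
  have h1 := harmonic_le_one_add_log n
  have h2 : ((harmonic n : ℚ) : ℝ) = ∑ i ∈ range n, 1 / ((i : ℝ) + 1) := by
    unfold harmonic
    push_cast
    refine sum_congr rfl fun i _ => ?_
    rw [one_div]
  rwa [h2] at h1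

theorem MainB_sq_le {ι : Type*} (F : Finset ι) (c : ι → ℝ) (t : ι → ℕ)
    (hc : ∀ i ∈ F, 0 ≤ c i) :
    (∑ i ∈ F, c i) ^ 2 ≤ 2 * ∑ z ∈ F, c z * ∑ u ∈ F.filter (fun u => t z ≤ t u), c u := by
  have h1 : (∑ i ∈ F, c i) ^ 2 = ∑ z ∈ F, ∑ u ∈ F, c z * c u := by rw [sq, sum_mul_sum]
  have h2 : ∑ z ∈ F, c z * ∑ u ∈ F.filter (fun u => t z ≤ t u), c u =
      ∑ z ∈ F, ∑ u ∈ F, if t z ≤ t u then c z * c u else 0 := by
    refine sum_congr rfl fun z _ => ?_
    rw [sum_filter, mul_sum]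
    refine sum_congr rfl fun u _ => ?_
    split_ifs <;> simp
  have h3 : ∑ z ∈ F, ∑ u ∈ F, (if t z ≤ t u then c z * c u else 0) =
      ∑ z ∈ F, ∑ u ∈ F, if t u ≤ t z then c z * c u else 0 := by
    rw [sum_comm]
    refine sum_congr rfl fun z _ => sum_congr rfl fun u _ => ?_
    rw [mul_comm]
  rw [h1, two_mul, h2]
  nth_rewrite 2 [h3]
  rw [← sum_add_distrib]
  refine sum_le_sum fun z hz => ?_
  rw [← sum_add_distrib]
  refine sum_le_sum fun u hu => ?_
  have hzu : 0 ≤ c z * c u := mul_nonneg (hc z hz) (hc u hu)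
  split_ifs with h4 h5 h5
  · linarith
  · linarith
  · linarith
  · omega

theorem MainB_Gd_sq_le (H X k : ℕ) (δ : ℤ × ℤ) :
    Gd H X (X, k) δ ^ 2 ≤ 1 / (2 * (H : ℝ) ^ 2) *
      ∑ z ∈ (cone H X).filter (fun u => u.1 < X ∧ dir u (X, k) = δ),
        (1 / (z.1 : ℝ)) * (1 / (z.1 : ℝ) + 1 / (δ.1 : ℝ) * Real.log (X / z.1)) := by
  have h4 : Gd H X (X, k) δ = 1 / (2 * (H : ℝ)) *
      ∑ u ∈ (cone H X).filter (fun u => u.1 < X ∧ dir u (X, k) = δ), 1 / (u.1 : ℝ) := by
    unfold Gd
    rw [mul_sum]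
    refine sum_congr rfl fun u _ => ?_
    rw [one_div_mul_one_div]
  have h5 := MainB_sq_le ((cone H X).filter (fun u => u.1 < X ∧ dir u (X, k) = δ))
    (fun u => 1 / (u.1 : ℝ)) (fun u => u.1) (fun i _ => by positivity)
  have h6 : ∑ z ∈ (cone H X).filter (fun u => u.1 < X ∧ dir u (X, k) = δ), 1 / (z.1 : ℝ) *
      ∑ u ∈ ((cone H X).filter (fun u => u.1 < X ∧ dir u (X, k) = δ)).filter
        (fun u => z.1 ≤ u.1), 1 / (u.1 : ℝ) ≤
      ∑ z ∈ (cone H X).filter (fun u => u.1 < X ∧ dir u (X, k) = δ),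
        (1 / (z.1 : ℝ)) * (1 / (z.1 : ℝ) + 1 / (δ.1 : ℝ) * Real.log (X / z.1)) := by
    refine sum_le_sum fun z hz => ?_
    exact mul_le_mul_of_nonneg_left (MainB_sum_line hz) (by positivity)
  rw [h4, mul_pow]
  calc _ ≤ (1 / (2 * (H : ℝ))) ^ 2 * (2 * ∑ z ∈ (cone H X).filter
        (fun u => u.1 < X ∧ dir u (X, k) = δ),
        (1 / (z.1 : ℝ)) * (1 / (z.1 : ℝ) + 1 / (δ.1 : ℝ) * Real.log (X / z.1))) := by
        refine mul_le_mul_of_nonneg_left (h5.trans ?_) (by positivity)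
        exact mul_le_mul_of_nonneg_left h6 (by norm_num)
    _ = _ := by
        rw [← mul_assoc]
        congr 1
        rcases Nat.eq_zero_or_pos H with h | h
        · subst h; simp
        · have : (0 : ℝ) < H := by exact_mod_cast h
          field_simp

theorem MainB_card_fiber {H X k a g : ℕ} (hg : 1 ≤ g) (hga : (g : ℝ) * a ≤ X) (S : Finset Pt)
    (hS : ∀ z ∈ S, z ∈ cone H X ∧ (dir z (X, k)).1 = a ∧ dg z (X, k) = g) :
    (S.card : ℝ) ≤ H * (X - g * a) / g + 1 := by
  rcases S.eq_empty_or_nonempty with h0 | ⟨z₀, hz₀⟩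
  · rw [h0, card_empty, Nat.cast_zero]
    have : (0 : ℝ) ≤ X - g * a := by linarith
    positivity
  have hfst : ∀ z ∈ S, (a : ℤ) * g = X - z.1 := by
    intro z hz
    obtain ⟨-, h1, h2⟩ := hS z hz
    have := dir_fst_mul (y := z) (p := (X, k))
    rw [h1, h2] at this
    exact this
  have hsnd : ∀ z ∈ S, (g : ℤ) ∣ k - z.2 := by
    intro z hz
    obtain ⟨-, h1, h2⟩ := hS z hz
    have := dir_snd_mul (y := z) (p := (X, k))
    rw [h2] at this
    exact ⟨_, by rw [mul_comm]; exact this.symm⟩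
  have hcard : S.card ≤ H * z₀.1 / g + 1 := by
    rw [← card_range (H * z₀.1 / g + 1)]
    refine card_le_card_of_injOn (fun z => z.2 / g) ?_ ?_
    · intro z hz
      have h1 := hfst z hz
      have h2 := hfst z₀ hz₀
      have h3 : z.1 = z₀.1 := by omega
      have h4 := (hS z hz).1
      simp only [cone, mem_filter] at h4
      rw [mem_coe, mem_range, Nat.lt_succ_iff, ← h3]
      exact Nat.div_le_div_right h4.2.le
    · intro z hz z' hz' he
      rw [mem_coe] at hz hz'
      have h1 := hfst z hz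
      have h2 := hfst z' hz'
      have h3 := hsnd z hz
      have h4 := hsnd z' hz'
      have h5 : (g : ℤ) ∣ (z.2 : ℤ) - z'.2 := by
        have := dvd_sub h4 h3
        have e : ((k : ℤ) - z'.2) - (k - z.2) = z.2 - z'.2 := by ring
        rwa [e] at this
      have h6 : (z'.2 : ℤ) ≡ z.2 [ZMOD g] := Int.modEq_iff_dvd.2 h5
      have h7 : z'.2 ≡ z.2 [MOD g] := by exact_mod_cast h6
      have h8 : z.2 = z'.2 := by
        simp only at he
        have e1 := Nat.div_add_mod z.2 g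
        have e2 := Nat.div_add_mod z'.2 g
        rw [he] at e1
        have e3 : z'.2 % g = z.2 % g := h7
        omega
      exact Prod.ext (by omega) h8
  have h1 := hfst z₀ hz₀
  have h2 : (z₀.1 : ℝ) = X - g * a := by
    have : ((a * g : ℤ) : ℝ) = ((X - z₀.1 : ℤ) : ℝ) := by rw [h1]
    push_cast at this
    linarith
  have hgR : (0 : ℝ) < g := by exact_mod_cast hg
  calc (S.card : ℝ) ≤ ((H * z₀.1 / g + 1 : ℕ) : ℝ) := by exact_mod_cast hcard
    _ ≤ ((H * z₀.1 : ℕ) : ℝ) / g + 1 := by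
        push_cast
        gcongr
        have := Nat.cast_div_le (α := ℝ) (m := H * z₀.1) (n := g)
        push_cast at this
        exact_mod_cast this
    _ = H * (X - g * a) / g + 1 := by
        rw [← h2]; push_cast; ring

theorem MainB_lam {H a : ℝ} (hH : 1000 ≤ H) (ha : 1 ≤ a) :
    0 ≤ Real.log (300 * H * a ^ 3) ∧ Real.log (300 * H * a ^ 3) ^ 2 ≤ H * a ∧
      Real.log (300 * H * a ^ 3) ≤ H * a := by
  have hHa : 1000 ≤ H * a := by nlinarith
  set w := Real.sqrt (H * a) with hw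
  have hw2 : w ^ 2 = H * a := Real.sq_sqrt (by linarith)
  have hw31 : 31 ≤ w := by
    rw [hw]
    apply Real.le_sqrt_of_sq_le
    norm_num
    linarith
  have h0 : 0 ≤ Real.log (300 * H * a ^ 3) := by
    apply Real.log_nonneg
    have : 1 ≤ a ^ 3 := one_le_pow₀ ha
    nlinarith
  have h1 : Real.log (300 * H * a ^ 3) ≤ w := by
    have e1 : Real.log (300 * H * a ^ 3) ≤ Real.log (2 ^ 9 * (w ^ 6)) := by
      apply Real.log_le_log (by positivity)
      have : w ^ 6 = (H * a) ^ 3 := by rw [← hw2]; ring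
      rw [this]
      have h3 : H * a ^ 3 ≤ (H * a) ^ 3 := by
        rw [mul_pow]
        apply mul_le_mul_of_nonneg_right _ (by positivity)
        nlinarith [sq_nonneg H]
      nlinarith [h3, show 0 ≤ (H * a) ^ 3 by positivity]
    have e2 : Real.log (2 ^ 9 * (w ^ 6)) = 9 * Real.log 2 + 6 * Real.log w := by
      rw [Real.log_mul (by positivity) (by positivity), Real.log_pow, Real.log_pow]
      norm_num
    have e3 : Real.log w ≤ 4 * Real.log 2 + w / 16 - 1 := by
      have h4 := Real.log_le_sub_one_of_pos (show 0 < w / 16 by linarith)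
      rw [Real.log_div (by linarith) (by norm_num)] at h4
      have h5 : Real.log 16 = 4 * Real.log 2 := by
        rw [show (16 : ℝ) = 2 ^ 4 by norm_num, Real.log_pow]; norm_num
      rw [h5] at h4
      linarith
    have := Real.log_two_lt_d9
    rw [e2] at e1
    linarith
  refine ⟨h0, ?_, ?_⟩
  · rw [← hw2]
    exact pow_le_pow_left₀ h0 h1 2
  · rw [← hw2]
    nlinarith

/-- one term -/
theorem MainB_term1 {H x a s sa Λ : ℝ} (i : ℕ) (hH : 0 ≤ H) (ha : 0 < a) (hsa : 0 < sa)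
    (hs : sa ≤ s) (hsx : x - (i + 1) * a = s) (hΛ : Real.log (x / sa) ≤ Λ) (hx : 0 < x) :
    (H * s / (i + 1) + 1) * (1 / s * (1 / s + 1 / a * Real.log (x / s))) ≤
      H / sa * (1 / ((i : ℝ) + 1)) + H / x * (1 + Real.log (x / s)) +
        (1 / sa + Λ / a) * (1 / s) := by
  have hs0 : 0 < s := hsa.trans_le hs
  have hg : (0 : ℝ) < (i : ℝ) + 1 := by positivity
  set g : ℝ := (i : ℝ) + 1 with hgdef
  have hxs : x - s = g * a := by linarith
  have hsle : s ≤ x := by
    have : 0 < g * a := by positivity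
    linarith
  have hL0 : 0 ≤ Real.log (x / s) := Real.log_nonneg (by rwa [le_div_iff₀ hs0, one_mul])
  have hLΛ : Real.log (x / s) ≤ Λ := by
    refine le_trans (Real.log_le_log (by positivity) ?_) hΛ
    gcongr
  set L := Real.log (x / s) with hLdef
  have hLs : L * s ≤ x - s := by
    have := Real.log_le_sub_one_of_pos (show 0 < x / s by positivity)
    have h2 : L ≤ x / s - 1 := this
    calc L * s ≤ (x / s - 1) * s := mul_le_mul_of_nonneg_right h2 hs0.le
      _ = x - s := by field_simp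
  have e : (H * s / g + 1) * (1 / s * (1 / s + 1 / a * L)) =
      H / s * (1 / g) + H * (L / (g * a)) + (1 / s + L / a) * (1 / s) := by
    field_simp
  rw [e]
  have t1 : H / s * (1 / g) ≤ H / sa * (1 / g) := by
    apply mul_le_mul_of_nonneg_right _ (by positivity)
    exact div_le_div_of_nonneg_left hH hsa hs
  have t2 : H * (L / (g * a)) ≤ H / x * (1 + L) := by
    have h3 : L / (g * a) ≤ (1 + L) / x := by
      rw [div_le_div_iff₀ (by positivity) hx, ← hxs]
      nlinarith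
    calc H * (L / (g * a)) ≤ H * ((1 + L) / x) := mul_le_mul_of_nonneg_left h3 hH
      _ = H / x * (1 + L) := by ring
  have t3 : (1 / s + L / a) * (1 / s) ≤ (1 / sa + Λ / a) * (1 / s) := by
    apply mul_le_mul_of_nonneg_right _ (by positivity)
    gcongr
  linarith

theorem MainB_small {H x A a Λ τ : ℝ} (hH : 1000 ≤ H) (ha : 1 ≤ a) (haA : a ≤ A)
    (hx : (H * A) ^ 10 ≤ x) (hΛ0 : 0 ≤ Λ) (hΛ1 : Λ ≤ H * a) (hτ0 : 0 < τ)
    (hτ : τ = 300 * H * a ^ 3 / x) :
    H * τ * (1 + Real.log x) + H * Λ / x + τ ^ 2 + 2 * Λ * τ / a ≤ 1 / A := by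
  have hA : 1 ≤ A := ha.trans haA
  have hH0 : 0 < H := by linarith
  have hA0 : 0 < A := by linarith
  have ha0 : 0 < a := by linarith
  set y := H * A with hy
  have hy1 : 1000 ≤ y := by
    rw [hy]
    calc (1000 : ℝ) = 1000 * 1 := by norm_num
      _ ≤ H * A := by gcongr
  have hy0 : 0 < y := by linarith
  have hx0 : 0 < x := lt_of_lt_of_le (by positivity) hx
  have hx1 : 1 ≤ x := le_trans (one_le_pow₀ (by linarith)) hx
  have hlog0 : 0 ≤ Real.log x := Real.log_nonneg hx1
  -- the small terms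
  set q := Real.sqrt x with hq
  have hq2 : q ^ 2 = x := Real.sq_sqrt hx0.le
  have hqy : y ^ 5 ≤ q := by
    rw [hq]
    apply Real.le_sqrt_of_sq_le
    calc (y ^ 5) ^ 2 = y ^ 10 := by ring
      _ ≤ x := hx
  have hq0 : 0 < q := lt_of_lt_of_le (by positivity) hqy
  have hlogx : 1 + Real.log x ≤ 2 * q := by
    rw [← hq2, Real.log_pow]
    have := Real.log_le_sub_one_of_pos hq0
    push_cast
    linarith
  have hHA : H * a ^ 3 ≤ H * A ^ 3 := by gcongr
  have hHa3 : H * a ^ 3 ≤ y ^ 3 := by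
    refine hHA.trans ?_
    rw [hy, mul_pow]
    apply mul_le_mul_of_nonneg_right _ (by positivity)
    exact le_self_pow₀ (by linarith) (by norm_num)
  have hτ2 : τ ≤ 300 * y ^ 3 / x := by
    rw [hτ]
    apply div_le_div_of_nonneg_right _ hx0.le
    linarith
  have hΛy : Λ ≤ y := hΛ1.trans (by rw [hy]; gcongr)
  have hAy : A ≤ y := by
    rw [hy]
    calc A = 1 * A := (one_mul A).symm
      _ ≤ H * A := by gcongr; linarith
  have h4 : H * τ * (1 + Real.log x) * A ≤ 6 / 10 := by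
    have e1 : H * τ * (1 + Real.log x) * A ≤ H * (300 * H * A ^ 3 / x) * (2 * q) * A := by
      rw [hτ]
      have : 300 * H * a ^ 3 ≤ 300 * H * A ^ 3 := by linarith
      gcongr
    have e2 : H * (300 * H * A ^ 3 / x) * (2 * q) * A = 600 * (H ^ 2 * A ^ 4) / q := by
      rw [← hq2]; field_simp; ring
    have e3 : H ^ 2 * A ^ 4 ≤ y ^ 4 := by
      rw [hy, mul_pow]
      apply mul_le_mul_of_nonneg_right _ (by positivity)
      exact pow_le_pow_right₀ (by linarith) (by norm_num)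
    rw [e2] at e1
    refine e1.trans ?_
    rw [div_le_iff₀ hq0]
    have e4 : y ^ 4 * 1000 ≤ y ^ 5 := by
      rw [pow_succ y 4]
      exact mul_le_mul_of_nonneg_left hy1 (by positivity)
    linarith
  have hbig : ∀ j : ℕ, j ≤ 5 → y ^ j * 1000 ^ 5 ≤ x := by
    intro j hj
    calc y ^ j * 1000 ^ 5 ≤ y ^ 5 * y ^ 5 := by
          apply mul_le_mul
          · exact pow_le_pow_right₀ (by linarith) hj
          · exact pow_le_pow_left₀ (by norm_num) hy1 5
          · positivity
          · positivity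
      _ = y ^ 10 := by ring
      _ ≤ x := hx
  have h5 : H * Λ / x * A ≤ 1 / 10 := by
    have e1 : H * Λ / x * A = y * Λ / x := by rw [hy]; ring
    rw [e1, div_le_iff₀ hx0]
    have e2 := hbig 2 (by norm_num)
    have e3 : y * Λ ≤ y ^ 2 := by rw [sq]; gcongr
    nlinarith [sq_nonneg y]
  have h6 : τ ^ 2 * A ≤ 1 / 10 := by
    have e1 : τ * (A * 1000) ≤ 300 * y ^ 3 / x * (y * 1000) := by gcongr
    have e2 := hbig 4 (by norm_num)
    have e4 : 300 * y ^ 3 / x * (y * 1000) ≤ 1 := by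
      rw [div_mul_eq_mul_div, div_le_one hx0]
      nlinarith [show 0 ≤ y ^ 4 by positivity]
    have e5 : τ ≤ 1 := by
      have : τ * 1 ≤ τ * (A * 1000) := by
        apply mul_le_mul_of_nonneg_left _ hτ0.le
        linarith
      linarith
    have e6 : τ * A ≤ 1 / 1000 := by linarith
    nlinarith
  have h7 : 2 * Λ * τ / a * A ≤ 1 / 10 := by
    have e1 : 2 * Λ * τ / a ≤ 2 * Λ * τ := div_le_self (by positivity) ha
    have e2 : 2 * Λ * τ / a * A ≤ 2 * y * (300 * y ^ 3 / x) * y := by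
      calc 2 * Λ * τ / a * A ≤ 2 * Λ * τ * A := by gcongr
        _ ≤ 2 * y * (300 * y ^ 3 / x) * y := by gcongr
    refine e2.trans ?_
    have e3 : 2 * y * (300 * y ^ 3 / x) * y = 600 * y ^ 5 / x := by ring
    rw [e3, div_le_iff₀ hx0]
    have e4 := hbig 5 le_rfl
    nlinarith [show 0 ≤ y ^ 5 by positivity]
  · rw [le_div_iff₀ hA0]
    have : (H * τ * (1 + Real.log x) + H * Λ / x + τ ^ 2 + 2 * Λ * τ / a) * A =
      H * τ * (1 + Real.log x) * A + H * Λ / x * A + τ ^ 2 * A + 2 * Λ * τ / a * A := by ring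
    rw [this]
    linarith

theorem MainB_term {H x A a : ℝ} (hH : 1000 ≤ H) (ha : 1 ≤ a) (haA : a ≤ A)
    (hx : (H * A) ^ 10 ≤ x) (n : ℕ) (hn : x / (300 * H * a ^ 3) ≤ x - n * a) :
    ∑ i ∈ range n, (H * (x - (i + 1) * a) / (i + 1) + 1) *
      (1 / (x - (i + 1) * a) *
        (1 / (x - (i + 1) * a) + 1 / a * Real.log (x / (x - (i + 1) * a)))) ≤
      3 * H / a + 1 / A := by
  have hA : 1 ≤ A := ha.trans haA
  have hH0 : 0 < H := by linarith
  have hA0 : 0 < A := by linarith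
  have ha0 : 0 < a := by linarith
  set y := H * A with hy
  have hy1 : 1000 ≤ y := by rw [hy]; nlinarith
  have hy0 : 0 < y := by linarith
  have hx0 : 0 < x := lt_of_lt_of_le (by positivity) hx
  obtain ⟨hΛ0, hΛ2, hΛ1⟩ := MainB_lam hH ha
  set Λ := Real.log (300 * H * a ^ 3) with hΛ
  set sa := x / (300 * H * a ^ 3) with hsa
  have hsa0 : 0 < sa := by positivity
  have hxsa : x / sa = 300 * H * a ^ 3 := by rw [hsa]; field_simp
  have hn0 : 0 < x - n * a := hsa0.trans_le hn
  have hx1 : 1 ≤ x := le_trans (one_le_pow₀ (by linarith)) hx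
  -- termwise bound
  have hsum : ∑ i ∈ range n, (H * (x - (i + 1) * a) / (i + 1) + 1) *
      (1 / (x - (i + 1) * a) *
        (1 / (x - (i + 1) * a) + 1 / a * Real.log (x / (x - (i + 1) * a)))) ≤
      ∑ i ∈ range n, (H / sa * (1 / ((i : ℝ) + 1)) +
        H / x * (1 + Real.log (x / (x - (i + 1) * a))) +
        (1 / sa + Λ / a) * (1 / (x - (i + 1) * a))) := by
    refine sum_le_sum fun i hi => ?_
    rw [mem_range] at hi
    have h1 : ((i : ℝ) + 1) * a ≤ n * a := by
      apply mul_le_mul_of_nonneg_right _ ha0.le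
      exact_mod_cast hi
    exact MainB_term1 i hH0.le ha0 hsa0 (by linarith) rfl (by rw [hxsa]) hx0
  refine hsum.trans ?_
  rw [sum_add_distrib, sum_add_distrib, ← mul_sum, ← mul_sum, ← mul_sum, sum_add_distrib,
    sum_const, card_range, nsmul_eq_mul, mul_one]
  have hnx : (n : ℝ) ≤ x / a := by
    rw [le_div_iff₀ ha0]; linarith
  have hlog0 : 0 ≤ Real.log x := Real.log_nonneg hx1
  have h1 : ∑ i ∈ range n, 1 / ((i : ℝ) + 1) ≤ 1 + Real.log x := by
    refine (MainB_harm n).trans ?_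
    rcases Nat.eq_zero_or_pos n with h | h
    · subst h; simp only [Nat.cast_zero, Real.log_zero]; linarith
    · have h2 : (0 : ℝ) < n := by exact_mod_cast h
      have h3 : (n : ℝ) ≤ x := hnx.trans (div_le_self hx0.le ha)
      have := Real.log_le_log h2 h3
      linarith
  have hlogn : Real.log (x / (x - n * a)) ≤ Λ := by
    apply Real.log_le_log (by positivity)
    rw [← hxsa]
    gcongr
  have h2 : ∑ i ∈ range n, Real.log (x / (x - (i + 1) * a)) ≤ Λ + x / a :=
    (MainB_lsum x a ha0 n hn0).trans (by linarith)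
  have h3 : ∑ i ∈ range n, 1 / (x - (i + 1) * a) ≤ 1 / sa + Λ / a := by
    refine (MainB_hsum x a ha0 n hn0).trans ?_
    have h4 : 1 / (x - n * a) ≤ 1 / sa := one_div_le_one_div_of_le hsa0 hn
    have h5 : 1 / a * Real.log (x / (x - n * a)) ≤ Λ / a := by
      rw [div_mul_eq_mul_div, one_mul]
      gcongr
    linarith
  have hτ : 1 / sa = 300 * H * a ^ 3 / x := by rw [hsa]; field_simp
  set τ := 1 / sa with hτdef
  have hτ0 : 0 < τ := by positivity
  have hHsa : H / sa = H * τ := by rw [hτdef]; ring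
  have step1 : H / sa * ∑ i ∈ range n, 1 / ((i : ℝ) + 1) +
      H / x * (n + ∑ i ∈ range n, Real.log (x / (x - (i + 1) * a))) +
      (τ + Λ / a) * ∑ i ∈ range n, 1 / (x - (i + 1) * a) ≤
      H * τ * (1 + Real.log x) + H / x * (x / a + (Λ + x / a)) + (τ + Λ / a) * (τ + Λ / a) := by
    rw [hHsa]
    gcongr
  refine step1.trans ?_
  have step2 : H * τ * (1 + Real.log x) + H / x * (x / a + (Λ + x / a)) +
      (τ + Λ / a) * (τ + Λ / a) = 2 * H / a + Λ ^ 2 / a ^ 2 +
        (H * τ * (1 + Real.log x) + H * Λ / x + τ ^ 2 + 2 * Λ * τ / a) := by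
    field_simp
    ring
  rw [step2]
  have step3 : Λ ^ 2 / a ^ 2 ≤ H / a := by
    rw [div_le_div_iff₀ (by positivity) ha0]
    nlinarith
  have h8 := MainB_small hH ha haA hx hΛ0 hΛ1 hτ0 hτ
  have h9 : 3 * H / a = 2 * H / a + H / a := by ring
  rw [h9]
  linarith

/-- (M2) -/
theorem sum_Gd_sq_le {H X k : ℕ} (hH : 1000 ≤ H) (hX : 1 ≤ X) (hk : k < H * X) {A : ℝ}
    (hA : 1 ≤ A) (hDC : DC A (X, k)) (hbig : (H * A) ^ 10 ≤ (X : ℝ)) :
    (∑ δ ∈ dirs ⌊A⌋₊, Gd H X (X, k) δ ^ 2) ≤ 2 / H * (1 + Real.log A) + 1 := by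
  classical
  have hHR : (1000 : ℝ) ≤ H := by exact_mod_cast hH
  have hH0 : (0 : ℝ) < H := by linarith
  have hXR : (0 : ℝ) < X := by exact_mod_cast hX
  have hKA : ((⌊A⌋₊ : ℕ) : ℝ) ≤ A := Nat.floor_le (by linarith)
  set K := ⌊A⌋₊ with hK
  set w : ℝ → ℝ → ℝ := fun a s => 1 / s * (1 / s + 1 / a * Real.log (X / s)) with hw
  set n : ℕ → ℕ := fun a => ⌊((X : ℝ) - X / (300 * H * (a : ℝ) ^ 3)) / a⌋₊ with hn
  set S : Finset Pt := (cone H X).filter (fun z => z.1 < X ∧ dir z (X, k) ∈ dirs K) with hS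
  -- the sum over the points
  have h1 : ∑ δ ∈ dirs K, Gd H X (X, k) δ ^ 2 ≤
      1 / (2 * (H : ℝ) ^ 2) * ∑ z ∈ S, w ((dir z (X, k)).1 : ℝ) z.1 := by
    have e1 : ∑ z ∈ S, w ((dir z (X, k)).1 : ℝ) z.1 = ∑ δ ∈ dirs K,
        ∑ z ∈ (cone H X).filter (fun u => u.1 < X ∧ dir u (X, k) = δ), w (δ.1 : ℝ) z.1 := by
      rw [← sum_fiberwise_of_maps_to (s := S) (t := dirs K) (g := fun z => dir z (X, k))
        (fun z hz => (mem_filter.1 hz).2.2)]
      refine sum_congr rfl fun δ hδ => ?_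
      have e2 : S.filter (fun z => dir z (X, k) = δ) =
          (cone H X).filter (fun u => u.1 < X ∧ dir u (X, k) = δ) := by
        ext z
        rw [hS, mem_filter, mem_filter, mem_filter]
        constructor
        · rintro ⟨⟨h1, h2, -⟩, h4⟩
          exact ⟨h1, h2, h4⟩
        · rintro ⟨h1, h2, h4⟩
          exact ⟨⟨h1, h2, by rw [h4]; exact hδ⟩, h4⟩
      rw [e2]
      refine sum_congr rfl fun z hz => ?_
      rw [(mem_filter.1 hz).2.2]
    rw [e1, mul_sum]
    exact sum_le_sum fun δ _ => MainB_Gd_sq_le H X k δ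
  -- grouping according to the direction and the multiplicity
  have hna : ∀ a : ℕ, 1 ≤ a → (X : ℝ) / (300 * H * (a : ℝ) ^ 3) ≤ X - n a * a := by
    intro a ha
    have haR : (1 : ℝ) ≤ a := by exact_mod_cast ha
    have h2 : (1 : ℝ) ≤ 300 * H * (a : ℝ) ^ 3 := by
      have : (1 : ℝ) ≤ (a : ℝ) ^ 3 := one_le_pow₀ haR
      nlinarith
    have h3 : (X : ℝ) / (300 * H * (a : ℝ) ^ 3) ≤ X := div_le_self hXR.le h2
    have h4 : ((n a : ℕ) : ℝ) ≤ ((X : ℝ) - X / (300 * H * (a : ℝ) ^ 3)) / a :=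
      Nat.floor_le (div_nonneg (by linarith) (by linarith))
    rw [le_div_iff₀ (by linarith)] at h4
    linarith
  set T : Finset (Σ _ : ℕ, ℕ) := (Icc 1 K).sigma (fun a => range (n a)) with hT
  have hmaps : ∀ z ∈ S, (⟨(dir z (X, k)).1.natAbs, dg z (X, k) - 1⟩ : Σ _ : ℕ, ℕ) ∈ T := by
    intro z hz
    rw [hS, mem_filter] at hz
    obtain ⟨hzc, hz1, hzd⟩ := hz
    have hlt : z.1 < ((X, k) : Pt).1 := hz1
    have a0 := dir_fst_pos hlt
    have g0 := dg_pos hlt
    have e1 := dir_fst_mul (y := z) (p := (X, k))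
    simp only [dirs, mem_product, mem_Icc] at hzd
    obtain ⟨⟨d1, d2⟩, d3, d4⟩ := hzd
    have hnrm : nrm (dir z (X, k)) ≤ K := by
      unfold nrm
      omega
    have hcol := col_ge_of_DC (by omega) hX hk hDC hzc hz1
      (le_trans (by exact_mod_cast hnrm) hKA)
    rw [hT, mem_sigma, mem_Icc, mem_range]
    refine ⟨⟨?_, ?_⟩, ?_⟩
    · show 1 ≤ (dir z (X, k)).1.natAbs
      omega
    · show (dir z (X, k)).1.natAbs ≤ K
      omega
    set a := (dir z (X, k)).1 with ha
    have hcast : ((a.natAbs : ℕ) : ℝ) = (a : ℝ) := by rw [Nat.cast_natAbs, abs_of_pos a0]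
    have haR : (0 : ℝ) < a := by exact_mod_cast a0
    have e2 : (a : ℝ) * dg z (X, k) = X - z.1 := by
      have : ((a * (dg z (X, k) : ℤ) : ℤ) : ℝ) = ((X - z.1 : ℤ) : ℝ) := by rw [e1]
      push_cast at this
      exact this
    have e3 : dg z (X, k) ≤ n a.natAbs := by
      apply Nat.le_floor
      rw [hcast, le_div_iff₀ haR]
      have : (X : ℝ) / (300 * H * (a : ℝ) ^ 3) ≤ z.1 := by
        rw [div_le_iff₀ (by positivity)]
        linarith
      linarith
    show dg z (X, k) - 1 < n a.natAbs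
    omega
  have h2 : ∑ z ∈ S, w ((dir z (X, k)).1 : ℝ) z.1 ≤ ∑ a ∈ Icc 1 K, ∑ i ∈ range (n a),
      ((H : ℝ) * (X - (i + 1) * a) / (i + 1) + 1) * w a (X - (i + 1) * a) := by
    rw [← sum_fiberwise_of_maps_to hmaps, hT, sum_sigma]
    refine sum_le_sum fun a ha => sum_le_sum fun i hi => ?_
    rw [mem_Icc] at ha
    rw [mem_range] at hi
    have haR : (1 : ℝ) ≤ a := by exact_mod_cast ha.1
    have hs := hna a ha.1
    have hi' : ((i : ℝ) + 1) * a ≤ n a * a := by
      apply mul_le_mul_of_nonneg_right _ (by linarith)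
      exact_mod_cast hi
    have hs0 : 0 < (X : ℝ) / (300 * H * (a : ℝ) ^ 3) := by positivity
    have hs1 : 0 < (X : ℝ) - (i + 1) * a := by linarith
    have hfib : ∀ z ∈ S.filter (fun z => (⟨(dir z (X, k)).1.natAbs, dg z (X, k) - 1⟩ :
        Σ _ : ℕ, ℕ) = ⟨a, i⟩), z ∈ cone H X ∧ (dir z (X, k)).1 = a ∧ dg z (X, k) = i + 1 := by
      intro z hz
      rw [mem_filter, hS, mem_filter] at hz
      obtain ⟨⟨hzc, hz1, hzd⟩, he⟩ := hz
      have hlt : z.1 < ((X, k) : Pt).1 := hz1
      have a0 := dir_fst_pos hlt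
      have g0 := dg_pos hlt
      simp only [Sigma.mk.injEq, heq_eq_eq] at he
      refine ⟨hzc, by omega, by omega⟩
    have hcard := MainB_card_fiber (H := H) (X := X) (k := k) (a := a) (g := i + 1)
      (by omega) (by push_cast; linarith) _ hfib
    have hw0 : 0 ≤ w a (X - (i + 1) * a) := by
      have hlog : 0 ≤ Real.log ((X : ℝ) / (X - (i + 1) * a)) := by
        apply Real.log_nonneg
        rw [le_div_iff₀ hs1]
        nlinarith
      rw [hw]
      positivity
    have hval : ∀ z ∈ S.filter (fun z => (⟨(dir z (X, k)).1.natAbs, dg z (X, k) - 1⟩ :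
        Σ _ : ℕ, ℕ) = ⟨a, i⟩), w ((dir z (X, k)).1 : ℝ) z.1 = w a (X - (i + 1) * a) := by
      intro z hz
      obtain ⟨h3, h4, h5⟩ := hfib z hz
      have e1 := dir_fst_mul (y := z) (p := (X, k))
      rw [h4, h5] at e1
      have e2 : (z.1 : ℝ) = X - (i + 1) * a := by
        have : (((a : ℤ) * ((i + 1 : ℕ) : ℤ) : ℤ) : ℝ) = ((X - z.1 : ℤ) : ℝ) := by rw [e1]
        push_cast at this
        linarith
      rw [h4, e2]
      norm_cast
    rw [sum_congr rfl hval, sum_const, nsmul_eq_mul]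
    apply mul_le_mul_of_nonneg_right _ hw0
    push_cast at hcard
    exact hcard
  have h3 : ∀ a ∈ Icc 1 K, ∑ i ∈ range (n a),
      ((H : ℝ) * (X - (i + 1) * a) / (i + 1) + 1) * w a (X - (i + 1) * a) ≤
        3 * H * (1 / (a : ℝ)) + 1 / A := by
    intro a ha
    rw [mem_Icc] at ha
    have haR : (1 : ℝ) ≤ a := by exact_mod_cast ha.1
    have haA : (a : ℝ) ≤ A := le_trans (by exact_mod_cast ha.2) hKA
    have := MainB_term hHR haR haA hbig (n a) (hna a ha.1)
    rw [mul_one_div]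
    exact this
  have h4 : ∑ a ∈ Icc 1 K, (3 * (H : ℝ) * (1 / (a : ℝ)) + 1 / A) ≤
      3 * H * (1 + Real.log A) + 1 := by
    rw [sum_add_distrib, ← mul_sum, sum_const, nsmul_eq_mul, Nat.card_Icc, Nat.add_sub_cancel]
    have e1 : ∑ a ∈ Icc 1 K, 1 / (a : ℝ) ≤ 1 + Real.log A := by
      have e2 : ∀ K : ℕ, ∑ a ∈ Icc 1 K, 1 / (a : ℝ) = ∑ i ∈ range K, 1 / ((i : ℝ) + 1) := by
        intro K
        induction K with
        | zero => simp
        | succ K ih =>
          rw [sum_Icc_succ_top (by omega), ih, sum_range_succ]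
          push_cast
          rfl
      rw [e2]
      refine (MainB_harm K).trans ?_
      have hK1 : 1 ≤ K := Nat.le_floor (by simpa using hA)
      have : Real.log K ≤ Real.log A := Real.log_le_log (by exact_mod_cast hK1) hKA
      linarith
    have e3 : (K : ℝ) * (1 / A) ≤ 1 := by
      rw [mul_one_div, div_le_one (by linarith)]
      exact hKA
    have e4 : 3 * (H : ℝ) * ∑ a ∈ Icc 1 K, 1 / (a : ℝ) ≤ 3 * H * (1 + Real.log A) :=
      mul_le_mul_of_nonneg_left e1 (by positivity)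
    linarith
  have h5 : ∑ z ∈ S, w ((dir z (X, k)).1 : ℝ) z.1 ≤ 3 * H * (1 + Real.log A) + 1 :=
    h2.trans ((sum_le_sum h3).trans h4)
  refine h1.trans ?_
  have hlogA : 0 ≤ Real.log A := Real.log_nonneg hA
  calc 1 / (2 * (H : ℝ) ^ 2) * ∑ z ∈ S, w ((dir z (X, k)).1 : ℝ) z.1 ≤
      1 / (2 * (H : ℝ) ^ 2) * (3 * H * (1 + Real.log A) + 1) :=
        mul_le_mul_of_nonneg_left h5 (by positivity)
    _ = 3 / 2 / H * (1 + Real.log A) + 1 / (2 * (H : ℝ) ^ 2) := by field_simp
    _ ≤ 2 / H * (1 + Real.log A) + 1 := by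
        have e1 : 3 / 2 / (H : ℝ) ≤ 2 / H := by
          apply div_le_div_of_nonneg_right _ hH0.le
          norm_num
        have e2 : 3 / 2 / (H : ℝ) * (1 + Real.log A) ≤ 2 / H * (1 + Real.log A) :=
          mul_le_mul_of_nonneg_right e1 (by linarith)
        have e3 : 1 / (2 * (H : ℝ) ^ 2) ≤ 1 := by
          rw [div_le_one (by positivity)]
          nlinarith
        linarith

end NTIL
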