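import Mathlib
import Pool.Agent.Lib.MP_2ffb02_co.RichA
import Pool.Agent.Lib.MP_2ffb02_co.Conc
import Pool.Agent.Lib.MP_2ffb02_co.MainB

/-!
# The contribution of rich lines
-/

set_option autoImplicit false

namespace NTIL

open Finset

noncomputable section

def Gp (X : ℕ) (v : Pt) (δ : ℤ × ℤ) : ℝ := ∑ y ∈ fV X v δ, 1 / (2 * (H : ℝ) * y.1)

theorem Gp_le (X : ℕ) (v : Pt) (δ : ℤ × ℤ) : Gp X v δ ≤ Gd H X v δ := by
  classical
  unfold Gp Gd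
  apply sum_le_sum_of_subset_of_nonneg
  · intro y hy
    unfold fV at hy
    rw [mem_filter] at hy ⊢
    exact ⟨hy.1, hy.2.1, hy.2.2.1⟩
  · intro y _ _
    positivity

lemma Gp_nonneg (X : ℕ) (v : Pt) (δ : ℤ × ℤ) : 0 ≤ Gp X v δ := by
  unfold Gp
  apply sum_nonneg
  intro y _
  positivity

/-! ### auxiliary facts -/

lemma RichB_mem_fV {X : ℕ} {v : Pt} {δ : ℤ × ℤ} {y : Pt} (hy : y ∈ fV X v δ) :
    y ∈ cone H X ∧ y.1 < v.1 ∧ dir y v = δ ∧ y.2 ∈ V y.1 := by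
  classical
  unfold fV at hy
  rw [mem_filter] at hy
  exact hy

lemma RichB_mem_cone {X : ℕ} {y : Pt} (hy : y ∈ cone H X) :
    y ∈ Box X (Nn X) ∧ 1 ≤ y.1 ∧ y.1 ≤ X := by
  unfold cone at hy
  rw [mem_filter] at hy
  refine ⟨hy.1, ?_, ?_⟩
  · rcases Nat.eq_zero_or_pos y.1 with h | h
    · exfalso
      have := hy.2
      rw [h, mul_zero] at this
      omega
    · exact h
  · have h1 := hy.1
    unfold Box at h1
    rw [mem_product, mem_range] at h1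
    omega

lemma RichB_nrm_le {A : ℝ} (hA : 0 ≤ A) {δ : ℤ × ℤ} (hδ : δ ∈ dirs ⌊A⌋₊) :
    (nrm δ : ℝ) ≤ A ∧ 1 ≤ δ.1 ∧ ((δ.1 : ℤ) : ℝ) ≤ A := by
  unfold dirs at hδ
  rw [mem_product, mem_Icc, mem_Icc] at hδ
  obtain ⟨⟨h1, h2⟩, h3, h4⟩ := hδ
  have hfl : ((⌊A⌋₊ : ℕ) : ℝ) ≤ A := Nat.floor_le hA
  refine ⟨?_, h1, ?_⟩
  · have h5 : nrm δ ≤ ⌊A⌋₊ := by
      unfold nrm
      apply max_le
      · omega
      · omega
    exact le_trans (by exact_mod_cast h5) hfl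
  · refine le_trans ?_ hfl
    exact_mod_cast h2

lemma RichB_H_le {X : ℕ} (hB : Big X) : (10 : ℝ) ^ 100 ≤ Yx X ∧ 300 * (H : ℝ) ≤ Yx X ∧
    (H : ℝ) ^ 10 ≤ Yx X := by
  have h1 : ((10 : ℝ) ^ 9) ≤ (H : ℝ) := by exact_mod_cast H_ge
  have h2 := hB.H_le
  have h3 : ((10 : ℝ) ^ 9) ^ 10 ≤ (H : ℝ) ^ 10 := pow_le_pow_left₀ (by positivity) h1 10
  have h4 : (H : ℝ) ≤ (H : ℝ) ^ 10 := by
    have : (1 : ℝ) ≤ H := le_trans (by norm_num) h1
    exact le_self_pow₀ this (by norm_num)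
  refine ⟨?_, ?_, ?_⟩
  · calc (10 : ℝ) ^ 100 ≤ 10 ^ 20 * ((10 : ℝ) ^ 9) ^ 10 := by norm_num
      _ ≤ 10 ^ 20 * (H : ℝ) ^ 10 := by gcongr
      _ ≤ Yx X := h2
  · have : (0 : ℝ) ≤ (H : ℝ) ^ 10 := by positivity
    nlinarith
  · have : (0 : ℝ) ≤ (H : ℝ) ^ 10 := by positivity
    nlinarith

lemma RichB_inv_le {Y : ℝ} (hY : 1 ≤ Y) {n m : ℕ} (h : n ≤ m) : (Y ^ m)⁻¹ ≤ (Y ^ n)⁻¹ := by
  apply inv_anti₀ (by positivity)
  exact pow_le_pow_right₀ hY h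

lemma RichB_DC {X k : ℕ} (hk : k ∈ V X) : DC (Yx X ^ 300) (X, k) := by
  classical
  unfold V at hk
  rw [mem_filter] at hk
  exact hk.2

/-- columns of points on rich lines -/
lemma RichB_col {X k : ℕ} (hB : Big X) (hk : k ∈ V X) {δ : ℤ × ℤ}
    (hδ : δ ∈ dirs ⌊Yx X ^ 300⌋₊) {y : Pt} (hy : y ∈ fV X (X, k) δ) :
    (X : ℝ) ≤ Yx X ^ 901 * y.1 := by
  have hX := hB.one_le
  have hY := Yx_one_le hX
  obtain ⟨h1, h2, h3, -⟩ := RichB_mem_fV hy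
  have hA : (0 : ℝ) ≤ Yx X ^ 300 := by positivity
  obtain ⟨h4, h5, h6⟩ := RichB_nrm_le hA hδ
  have h7 := col_ge_of_DC (le_trans (by norm_num) H_ge) hX (V_lt hk) (RichB_DC hk) h1 h2
    (by rw [h3]; exact h4)
  rw [h3] at h7
  have h8 : (0 : ℝ) ≤ ((δ.1 : ℤ) : ℝ) := by exact_mod_cast (by omega : (0 : ℤ) ≤ δ.1)
  have h9 : ((δ.1 : ℤ) : ℝ) ^ 3 ≤ (Yx X ^ 300) ^ 3 := pow_le_pow_left₀ h8 h6 3
  have h10 := (RichB_H_le hB).2.1
  have h11 : (0 : ℝ) ≤ y.1 := Nat.cast_nonneg _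
  calc (X : ℝ) ≤ 300 * H * ((δ.1 : ℤ) : ℝ) ^ 3 * y.1 := h7
    _ ≤ Yx X * (Yx X ^ 300) ^ 3 * y.1 := by gcongr
    _ = Yx X ^ 901 * y.1 := by ring

lemma RichB_big {X : ℕ} (hB : Big X) : 300 * (H : ℝ) * (Yx X ^ 300) ^ 3 ≤ X := by
  have hX := hB.one_le
  have hY := Yx_one_le hX
  have h10 := (RichB_H_le hB).2.1
  calc 300 * (H : ℝ) * (Yx X ^ 300) ^ 3 ≤ Yx X * (Yx X ^ 300) ^ 3 := by gcongr
    _ = Yx X ^ 901 := by ring
    _ ≤ Yx X ^ 100000 := pow_le_pow_right₀ hY (by norm_num)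
    _ = X := Yx_pow X

lemma RichB_Gd {X k : ℕ} (hB : Big X) (hk : k ∈ V X) {δ : ℤ × ℤ}
    (hδ : δ ∈ dirs ⌊Yx X ^ 300⌋₊) : Gd H X (X, k) δ ≤ 1 / 10000 := by
  have hX := hB.one_le
  have hY := Yx_one_le hX
  have hA : (1 : ℝ) ≤ Yx X ^ 300 := one_le_pow₀ hY
  obtain ⟨h4, h5, h6⟩ := RichB_nrm_le (le_trans zero_le_one hA) hδ
  have h := Gd_le (le_trans (by norm_num) H_ge) hX (V_lt hk) hA (RichB_DC hk) (RichB_big hB) h4
  refine h.trans ?_
  have hH : (H : ℝ) = 10 ^ 9 := by rw [H_def]; norm_num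
  rw [hH]
  have h12 : Real.log (300 * 10 ^ 9) ≤ 39 := by
    have h13 : Real.log (300 * 10 ^ 9) ≤ Real.log ((2 : ℝ) ^ 39) := by
      apply Real.log_le_log (by norm_num)
      norm_num
    rw [Real.log_pow] at h13
    have h14 := Real.log_two_lt_d9
    have h15 : ((39 : ℕ) : ℝ) = 39 := by norm_num
    rw [h15] at h13
    linarith
  rw [div_le_div_iff₀ (by norm_num) (by norm_num)]
  linarith

lemma RichB_Gp {X k : ℕ} (hB : Big X) (hk : k ∈ V X) {δ : ℤ × ℤ}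
    (hδ : δ ∈ dirs ⌊Yx X ^ 300⌋₊) : Gp X (X, k) δ ≤ 1 / 10000 :=
  (Gp_le X (X, k) δ).trans (RichB_Gd hB hk hδ)

/-- no degenerate positions -/
lemma RichB_nB {X k : ℕ} {δ : ℤ × ℤ} {p q : Pt} (hp : p ∈ fV X (X, k) δ)
    (hq : q ∈ fV X (X, k) δ) (hpq : p ≠ q) :
    nB X (lin (X, k) δ) p (lin (X, k) δ) q = 0 := by
  classical
  obtain ⟨-, hp1, hp2, -⟩ := RichB_mem_fV hp
  obtain ⟨-, hq1, hq2, -⟩ := RichB_mem_fV hq
  set v : Pt := (X, k) with hv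
  unfold nB
  rw [card_eq_zero, filter_eq_empty_iff]
  rintro y - ⟨h1, h2, h3, h4, -⟩
  apply h4
  have hd : det p q v = 0 := (det_eq_zero_iff hp1 hq1).2 (by rw [hp2, hq2])
  have hne : ((q.1 : ℤ) - p.1) ≠ 0 := by
    intro h0
    unfold det at hd
    rw [h0] at hd
    have h5 : ((q.2 : ℤ) - p.2) * ((v.1 : ℤ) - p.1) = 0 := by linarith
    rcases mul_eq_zero.1 h5 with h6 | h6
    · apply hpq
      apply Prod.ext <;> omega
    · omega
  have hyv : y.1 < v.1 := h1.trans hp1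
  have hdet : det y p v = 0 := by
    apply mul_left_cancel₀ hne
    unfold det at hd h3 ⊢
    linear_combination (-((y.1 : ℤ) - p.1)) * hd + ((v.1 : ℤ) - p.1) * h3
  have h7 := (det_eq_zero_iff hyv hp1).1 hdet
  exact ⟨hyv, by rw [h7, hp2]⟩

/-- all points of rich lines have columns `≥ X / Y^901`, so `X ≤ Y^950 lo y.1`
(`col_ge_of_DC`, `le_mul_lo`); no degenerate positions since the weights are blind to the line;
`second_moment`, `two_point`, `single_lower`. -/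
theorem Ad_conc {X k : ℕ} (hB : Big X) (hk : k ∈ V X) {δ : ℤ × ℤ}
    (hδ : δ ∈ dirs ⌊Yx X ^ 300⌋₊) :
    Ex (X - 1) (fun h => (Ad X (X, k) δ h - Gp X (X, k) δ) ^ 2) ≤ (Yx X ^ 10000)⁻¹ := by
  have hX := hB.one_le
  have hY := Yx_one_le hX
  have hY100 := (RichB_H_le hB).1
  set Y := Yx X with hYdef
  have hYpos : 0 < Y := lt_of_lt_of_le one_pos hY
  have hlo : ∀ p ∈ fV X (X, k) δ, (X : ℝ) ≤ Y ^ 911 * lo p.1 := by
    intro p hp
    obtain ⟨h1, h2, -, -⟩ := RichB_mem_fV hp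
    obtain ⟨-, -, h3⟩ := RichB_mem_cone h1
    have := le_mul_lo (b := 901) h3 (RichB_col hB hk hδ hp) hX
    simpa using this
  have hbox : ∀ p ∈ fV X (X, k) δ, p ∈ Box X (Nn X) ∧ 1 ≤ p.1 ∧ p.1 ≤ X := by
    intro p hp
    exact RichB_mem_cone (RichB_mem_fV hp).1
  have hm : X - 1 ≤ X := Nat.sub_le _ _
  have key := second_moment (X := X) hX (fV X (X, k) δ) (fun y => 1 / (2 * (H : ℝ) * y.1))
    (fun p _ => by positivity) (lin (X, k) δ) (fun p hp => (hbox p hp).2) (m := X - 1)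
    (e := (Y ^ 12000)⁻¹) (e' := Y * (Y ^ 13000)⁻¹) (by positivity)
    (fun p hp q hq hpq => two_point hB (a := 911) (by norm_num) hpq (hbox p hp).1 (hbox q hq).1
      (hlo p hp) (hlo q hq) (RichB_nB hp hq hpq) hm)
    (fun p hp => by
      have h1 := single_lower hX (one_le_pow₀ hY : (1 : ℝ) ≤ Y ^ 911) (lin (X, k) δ)
        (hbox p hp).1 (hlo p hp) hm
      have h2 := eD2_le hB (a := 911) (k := 0) (by norm_num) (by norm_num)
      have h3 : Yx X * eD2 X (Y ^ 911) 0 ≤ Y * (Y ^ 13000)⁻¹ :=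
        mul_le_mul_of_nonneg_left h2 hYpos.le
      linarith)
    (by positivity)
  have hG1 : Gp X (X, k) δ ≤ 1 := (RichB_Gp hB hk hδ).trans (by norm_num)
  have hG0 := Gp_nonneg X (X, k) δ
  have hw2 : ∑ p ∈ fV X (X, k) δ, (1 / (2 * (H : ℝ) * p.1)) ^ 2 ≤ (Y ^ 90000)⁻¹ := by
    have hXpos : (0 : ℝ) < X := by exact_mod_cast hX
    have hHpos : (1 : ℝ) ≤ H := by exact_mod_cast H_pos
    have h1 : ∀ p ∈ fV X (X, k) δ, (1 / (2 * (H : ℝ) * p.1)) ^ 2 ≤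
        Y ^ 901 / X * (1 / (2 * (H : ℝ) * p.1)) := by
      intro p hp
      have h2 := RichB_col hB hk hδ hp
      rw [← hYdef] at h2
      have h3 : (1 : ℝ) ≤ p.1 := by exact_mod_cast (hbox p hp).2.1
      rw [sq]
      apply mul_le_mul_of_nonneg_right _ (by positivity)
      rw [div_le_div_iff₀ (by positivity) hXpos]
      have h4 : Y ^ 901 * p.1 ≤ Y ^ 901 * (2 * H * p.1) := by
        apply mul_le_mul_of_nonneg_left _ (by positivity)
        nlinarith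
      linarith
    calc ∑ p ∈ fV X (X, k) δ, (1 / (2 * (H : ℝ) * p.1)) ^ 2
        ≤ ∑ p ∈ fV X (X, k) δ, Y ^ 901 / X * (1 / (2 * (H : ℝ) * p.1)) := sum_le_sum h1
      _ = Y ^ 901 / X * Gp X (X, k) δ := by rw [← mul_sum]; rfl
      _ ≤ Y ^ 901 / X * 1 := by gcongr
      _ = Y ^ 901 / Y ^ 100000 := by rw [mul_one, ← Yx_pow X]
      _ = (Y ^ 99099)⁻¹ := by
          rw [show (100000 : ℕ) = 99099 + 901 by norm_num, pow_add]
          field_simp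
      _ ≤ (Y ^ 90000)⁻¹ := RichB_inv_le hY (by norm_num)
  have hAd : (fun h => (Ad X (X, k) δ h - Gp X (X, k) δ) ^ 2) =
      (fun h => (∑ p ∈ fV X (X, k) δ, (fun y : Pt => 1 / (2 * (H : ℝ) * y.1)) p *
        W h (lin (X, k) δ) p - ∑ p ∈ fV X (X, k) δ, (fun y : Pt => 1 / (2 * (H : ℝ) * y.1)) p) ^ 2) := by
    funext h
    rfl
  rw [hAd]
  refine key.trans ?_
  have hG : (∑ p ∈ fV X (X, k) δ, (fun y : Pt => 1 / (2 * (H : ℝ) * y.1)) p) = Gp X (X, k) δ := rfl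
  rw [hG]
  have e1 : Y * (Y ^ 13000)⁻¹ = (Y ^ 12999)⁻¹ := by
    rw [show (13000 : ℕ) = 12999 + 1 by norm_num, pow_succ]
    field_simp
  have e2 : (Y ^ 12999)⁻¹ ≤ (Y ^ 12000)⁻¹ := RichB_inv_le hY (by norm_num)
  have e3 : (Y ^ 12000)⁻¹ ≤ (Y ^ 10001)⁻¹ := RichB_inv_le hY (by norm_num)
  have e4 : Y ^ 2 * (Y ^ 90000)⁻¹ ≤ (Y ^ 10001)⁻¹ := by
    have : Y ^ 2 * (Y ^ 90000)⁻¹ = (Y ^ 89998)⁻¹ := by
      rw [show (90000 : ℕ) = 89998 + 2 by norm_num, pow_add]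
      field_simp
    rw [this]
    exact RichB_inv_le hY (by norm_num)
  have e5 : (Y ^ 10001)⁻¹ = (Y ^ 10000)⁻¹ * Y⁻¹ := by
    rw [show (10001 : ℕ) = 10000 + 1 by norm_num, pow_succ, mul_inv]
  have e6 : Y⁻¹ ≤ 1 / 4 := by
    rw [one_div]
    apply inv_anti₀ (by norm_num)
    exact le_trans (by norm_num) hY100
  have e7 : Gp X (X, k) δ ^ 2 ≤ 1 := pow_le_one₀ hG0 hG1
  have e8 : 0 ≤ (Y ^ 12000)⁻¹ + 2 * (Y * (Y ^ 13000)⁻¹) := by positivity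
  have e9 : 0 < (Y ^ 10000)⁻¹ := by positivity
  have e10 : Y ^ 2 * ∑ p ∈ fV X (X, k) δ, (1 / (2 * (H : ℝ) * p.1)) ^ 2 ≤
      Y ^ 2 * (Y ^ 90000)⁻¹ := mul_le_mul_of_nonneg_left hw2 (by positivity)
  calc Gp X (X, k) δ ^ 2 * ((Y ^ 12000)⁻¹ + 2 * (Y * (Y ^ 13000)⁻¹)) +
        Yx X ^ 2 * ∑ p ∈ fV X (X, k) δ, (1 / (2 * (H : ℝ) * p.1)) ^ 2
      ≤ 1 * ((Y ^ 12000)⁻¹ + 2 * (Y * (Y ^ 13000)⁻¹)) + Y ^ 2 * (Y ^ 90000)⁻¹ :=
        add_le_add (mul_le_mul_of_nonneg_right e7 e8) e10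
    _ ≤ (Y ^ 10001)⁻¹ + 2 * (Y ^ 10001)⁻¹ + (Y ^ 10001)⁻¹ := by rw [e1]; linarith
    _ = 4 * (Y ^ 10001)⁻¹ := by ring
    _ ≤ (Y ^ 10000)⁻¹ := by rw [e5]; nlinarith

open scoped Classical in
/-- union bound over the `≤ 3 Y^600` rich lines, Chebyshev with `η = Y^{-600}`; on the complement
`Lam ≤ 2 Ad ≤ b δ := 2 (Gp δ + η)`; `exp_super` with `f = 1000 b`;
`∑ b² ≤ 8 ∑ Gd² + 1 ≤ 8 (2/H (1 + log A) + 1) + 1 ≤ Th X / 8`. -/
theorem rich_prob {X k : ℕ} (hB : Big X) (hk : k ∈ V X) :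
    Ex (X - 1) (fun h => if Th X / 2 < Sr (Yx X ^ 300) (X, k) h then 1 else 0) ≤
      (Yx X ^ 20)⁻¹ := by
  have hX := hB.one_le
  have hY := Yx_one_le hX
  obtain ⟨hY100, hH300, hH10⟩ := RichB_H_le hB
  have hTh := Th_eq_log hX
  set Y := Yx X with hYdef
  have hYpos : 0 < Y := lt_of_lt_of_le one_pos hY
  have hA1 : (1 : ℝ) ≤ Y ^ 300 := one_le_pow₀ hY
  set D := dirs ⌊Y ^ 300⌋₊ with hDdef
  set v : Pt := (X, k) with hv
  have hH : (H : ℝ) = 10 ^ 9 := by rw [H_def]; norm_num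
  set η : ℝ := (Y ^ 600)⁻¹ with hη
  have hηpos : 0 < η := by positivity
  have hY4 : (4 : ℝ) ≤ Y := le_trans (by norm_num) hY100
  have hY1000 : (100000 : ℝ) ≤ Y := le_trans (by norm_num) hY100
  have hηle : η ≤ 1 / 100000 := by
    rw [hη, one_div]
    apply inv_anti₀ (by norm_num)
    calc (100000 : ℝ) ≤ Y ^ 1 := by rw [pow_one]; exact hY1000
      _ ≤ Y ^ 600 := pow_le_pow_right₀ hY (by norm_num)
  -- number of rich lines
  have hDcard : (D.card : ℝ) ≤ 3 * Y ^ 600 := by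
    have h1 : D.card = ⌊Y ^ 300⌋₊ * (2 * ⌊Y ^ 300⌋₊ + 1) := CountB_card_dirs _
    have h2 : ((⌊Y ^ 300⌋₊ : ℕ) : ℝ) ≤ Y ^ 300 := Nat.floor_le (by positivity)
    have h3 : (0 : ℝ) ≤ ((⌊Y ^ 300⌋₊ : ℕ) : ℝ) := Nat.cast_nonneg _
    rw [h1]
    push_cast
    calc ((⌊Y ^ 300⌋₊ : ℕ) : ℝ) * (2 * ((⌊Y ^ 300⌋₊ : ℕ) : ℝ) + 1)
        ≤ Y ^ 300 * (2 * Y ^ 300 + Y ^ 300) := by
          apply mul_le_mul h2 _ (by positivity) (by positivity)
          linarith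
      _ = 3 * Y ^ 600 := by ring
  set b : ℤ × ℤ → ℝ := fun δ => 2 * (Gp X v δ + η) with hb
  have hb0 : ∀ δ, 0 ≤ b δ := by
    intro δ
    have := Gp_nonneg X v δ
    simp only [hb]
    linarith
  have hb1 : ∀ δ ∈ D, b δ ≤ 1 / 1000 := by
    intro δ hδ
    have := RichB_Gp hB hk hδ
    simp only [hb]
    linarith
  set f : Pt → ℝ := fun z => if z.1 < v.1 ∧ dir z v ∈ D then (fun δ => 1000 * b δ) (dir z v) else 0
    with hf
  have hf0 : ∀ y, 0 ≤ f y := by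
    intro y
    simp only [hf]
    split_ifs
    · have := hb0 (dir y v)
      positivity
    · exact le_rfl
  have hf1 : ∀ y, f y ≤ 1 := by
    intro y
    simp only [hf]
    split_ifs with h1
    · have := hb1 _ h1.2
      linarith
    · exact zero_le_one
  have hsup := exp_super f hf0 hf1 (X - 1)
  -- sum of squares
  have hsq : ∑ δ ∈ D, b δ ^ 2 ≤ Th X / 8 := by
    have h1 := sum_Gd_sq_le (H := H) (X := X) (k := k) (le_trans (by norm_num) H_ge) hX (V_lt hk)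
      hA1 (RichB_DC hk) (by
        calc ((H : ℝ) * Y ^ 300) ^ 10 = (H : ℝ) ^ 10 * Y ^ 3000 := by
              rw [mul_pow, ← pow_mul]
          _ ≤ Y * Y ^ 3000 := by gcongr
          _ = Y ^ 3001 := by rw [pow_succ Y 3000]; ring
          _ ≤ Y ^ 100000 := pow_le_pow_right₀ hY (by norm_num)
          _ = X := Yx_pow X)
    have h2 : Real.log (Y ^ 300) = 300 * Th X := by
      rw [Real.log_pow, hTh]; norm_num
    rw [h2] at h1
    have h3 : ∀ δ ∈ D, b δ ^ 2 ≤ 8 * Gd H X v δ ^ 2 + 8 * η ^ 2 := by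
      intro δ _
      have h4 := Gp_nonneg X v δ
      have h5 := Gp_le X v δ
      have h6 : Gp X v δ ^ 2 ≤ Gd H X v δ ^ 2 := pow_le_pow_left₀ h4 h5 2
      simp only [hb]
      nlinarith [sq_nonneg (Gp X v δ - η)]
    have h4 : ∑ δ ∈ D, b δ ^ 2 ≤ 8 * ∑ δ ∈ D, Gd H X v δ ^ 2 + D.card * (8 * η ^ 2) := by
      calc ∑ δ ∈ D, b δ ^ 2 ≤ ∑ δ ∈ D, (8 * Gd H X v δ ^ 2 + 8 * η ^ 2) := sum_le_sum h3
        _ = _ := by rw [sum_add_distrib, ← mul_sum, sum_const, nsmul_eq_mul]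
    have h5 : (D.card : ℝ) * (8 * η ^ 2) ≤ 1 := by
      have h6 : Y ^ 600 * η = 1 := by rw [hη]; exact mul_inv_cancel₀ (by positivity)
      calc (D.card : ℝ) * (8 * η ^ 2) ≤ (3 * Y ^ 600) * (8 * η ^ 2) := by gcongr
        _ = 24 * (Y ^ 600 * η) * η := by ring
        _ = 24 * η := by rw [h6]; ring
        _ ≤ 1 := by linarith
    have h6 : (200 : ℝ) ≤ Th X := by
      rw [hTh]
      have h7 : Real.log ((10 : ℝ) ^ 100) ≤ Real.log Y := Real.log_le_log (by positivity) hY100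
      rw [Real.log_pow] at h7
      have h8 : Real.log ((2 : ℝ) ^ 3) ≤ Real.log 10 := by
        apply Real.log_le_log (by norm_num)
        norm_num
      rw [Real.log_pow] at h8
      have h9 := Real.log_two_gt_d9
      have h10 : ((3 : ℕ) : ℝ) = 3 := by norm_num
      have h11 : ((100 : ℕ) : ℝ) = 100 := by norm_num
      rw [h10] at h8
      rw [h11] at h7
      linarith
    rw [hH] at h1
    have h12 : (2 : ℝ) / 10 ^ 9 * (1 + 300 * Th X) ≤ 1 / 1000 * Th X := by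
      have : (2 : ℝ) / 10 ^ 9 * (1 + 300 * Th X) ≤ 2 / 10 ^ 9 * (Th X + 300 * Th X) := by
        gcongr
        linarith
      refine this.trans ?_
      have h13 : (2 : ℝ) / 10 ^ 9 * (Th X + 300 * Th X) = 602 / 10 ^ 9 * Th X := by ring
      rw [h13]
      apply mul_le_mul_of_nonneg_right _ (by linarith)
      norm_num
    linarith
  -- pointwise bound
  have hpt : ∀ h : Hist, Val h → h.length = X - 1 →
      (if Th X / 2 < Sr (Y ^ 300) v h then (1 : ℝ) else 0) ≤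
        (∑ δ ∈ D, Y ^ 1200 * (Ad X v δ h - Gp X v δ) ^ 2) +
          Real.exp (-(250 * Th X)) * Real.exp (∑ z ∈ Z h, f z - 2 * Kf f h) := by
    intro h hvh hl
    have hlX : h.length < X := by omega
    have hs0 : ∀ δ ∈ D, 0 ≤ Y ^ 1200 * (Ad X v δ h - Gp X v δ) ^ 2 :=
      fun δ _ => mul_nonneg (pow_nonneg hYpos.le _) (sq_nonneg _)
    have hS0 := sum_nonneg hs0
    have hE0 : 0 ≤ Real.exp (-(250 * Th X)) * Real.exp (∑ z ∈ Z h, f z - 2 * Kf f h) := by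
      positivity
    split_ifs with hS
    · by_cases hbad : ∃ δ ∈ D, Gp X v δ + η < Ad X v δ h
      · obtain ⟨δ, hδ, hδ2⟩ := hbad
        have h1 : 1 ≤ Y ^ 1200 * (Ad X v δ h - Gp X v δ) ^ 2 := by
          have h2 : η ^ 2 ≤ (Ad X v δ h - Gp X v δ) ^ 2 :=
            pow_le_pow_left₀ hηpos.le (by linarith) 2
          have h3 : Y ^ 1200 * η ^ 2 = 1 := by
            rw [hη, inv_pow, ← pow_mul]
            exact mul_inv_cancel₀ (by positivity)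
          rw [← h3]
          gcongr
        have h2 := single_le_sum hs0 hδ
        linarith
      · push Not at hbad
        have hL : ∀ δ ∈ D, Lam v δ h ≤ b δ := by
          intro δ hδ
          have h1 := hbad δ hδ
          have h2 := RichB_Gp hB hk hδ
          have h3 : Ad X v δ h ≤ 1 / 2 := by
            have : Gp X v δ ≤ 1 / 10000 := h2
            linarith
          have h4 := Lam_le hX δ hvh hlX h3
          simp only [hb]
          have h5 : Lam v δ h ≤ 2 * Ad X v δ h := h4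
          linarith
        have h1 := Sr_le_sum (Y ^ 300) v b hb0 h hL
        have h2 : ∑ z ∈ Z h, f z = 1000 * ∑ z ∈ Z h,
            (if z.1 < v.1 ∧ dir z v ∈ dirs ⌊Y ^ 300⌋₊ then b (dir z v) else 0) := by
          rw [mul_sum]
          apply sum_congr rfl
          intro z _
          simp only [hf]
          split_ifs <;> ring
        have h3 : Kf f h = ∑ δ ∈ D, (1000 * b δ) * Lam v δ h :=
          Kf_eq (Y ^ 300) v (fun δ => 1000 * b δ) h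
        have h4 : Kf f h ≤ 1000 * ∑ δ ∈ D, b δ ^ 2 := by
          rw [h3, mul_sum]
          apply sum_le_sum
          intro δ hδ
          have h5 := hL δ hδ
          have h6 := hb0 δ
          calc 1000 * b δ * Lam v δ h ≤ 1000 * b δ * b δ := by gcongr
            _ = 1000 * b δ ^ 2 := by ring
        have h5 : 250 * Th X ≤ ∑ z ∈ Z h, f z - 2 * Kf f h := by
          rw [h2]
          linarith
        have h6 : 1 ≤ Real.exp (-(250 * Th X)) * Real.exp (∑ z ∈ Z h, f z - 2 * Kf f h) := by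
          rw [← Real.exp_add]
          apply Real.one_le_exp
          linarith
        linarith
    · linarith
  have h1 := Ex_mono hpt
  rw [Ex_add, Ex_sum] at h1
  have h2 : ∑ δ ∈ D, Ex (X - 1) (fun h => Y ^ 1200 * (Ad X v δ h - Gp X v δ) ^ 2) ≤
      (Y ^ 21)⁻¹ := by
    have h3 : ∀ δ ∈ D, Ex (X - 1) (fun h => Y ^ 1200 * (Ad X v δ h - Gp X v δ) ^ 2) ≤
        Y ^ 1200 * (Y ^ 10000)⁻¹ := by
      intro δ hδ
      rw [Ex_const_mul]
      exact mul_le_mul_of_nonneg_left (Ad_conc hB hk hδ) (by positivity)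
    calc ∑ δ ∈ D, Ex (X - 1) (fun h => Y ^ 1200 * (Ad X v δ h - Gp X v δ) ^ 2)
        ≤ ∑ δ ∈ D, Y ^ 1200 * (Y ^ 10000)⁻¹ := sum_le_sum h3
      _ = D.card * (Y ^ 1200 * (Y ^ 10000)⁻¹) := by rw [sum_const, nsmul_eq_mul]
      _ ≤ (3 * Y ^ 600) * (Y ^ 1200 * (Y ^ 10000)⁻¹) := by gcongr
      _ ≤ (Y * Y ^ 600) * (Y ^ 1200 * (Y ^ 10000)⁻¹) := by
          gcongr
          linarith
      _ = (Y ^ 8199)⁻¹ := by
          rw [show (10000 : ℕ) = 8199 + 1801 by norm_num, pow_add]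
          have e1 : Y * Y ^ 600 = Y ^ 601 := by ring
          have e2 : Y ^ 601 * Y ^ 1200 = Y ^ 1801 := by ring
          rw [e1, ← mul_assoc, e2, mul_inv, mul_comm (Y ^ 8199)⁻¹, ← mul_assoc,
            mul_inv_cancel₀ (by positivity), one_mul]
      _ ≤ (Y ^ 21)⁻¹ := RichB_inv_le hY (by norm_num)
  have h3 : Ex (X - 1) (fun h => Real.exp (-(250 * Th X)) *
      Real.exp (∑ z ∈ Z h, f z - 2 * Kf f h)) ≤ (Y ^ 21)⁻¹ := by
    rw [Ex_const_mul]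
    calc Real.exp (-(250 * Th X)) * Ex (X - 1) (fun h => Real.exp (∑ z ∈ Z h, f z - 2 * Kf f h))
        ≤ Real.exp (-(250 * Th X)) * 1 := by gcongr
      _ = (Y ^ 250)⁻¹ := by
          rw [mul_one, Real.exp_neg]
          congr 1
          rw [show (250 : ℝ) * Th X = ((250 : ℕ) : ℝ) * Th X by norm_num, Real.exp_nat_mul,
            exp_Th hX]
      _ ≤ (Y ^ 21)⁻¹ := RichB_inv_le hY (by norm_num)
  have h4 : (Y ^ 21)⁻¹ = (Y ^ 20)⁻¹ * Y⁻¹ := by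
    rw [pow_succ, mul_inv]
  have h5 : Y⁻¹ ≤ 1 / 4 := by
    rw [one_div]
    exact inv_anti₀ (by norm_num) hY4
  have h6 : 0 < (Y ^ 20)⁻¹ := by positivity
  calc Ex (X - 1) (fun h => if Th X / 2 < Sr (Y ^ 300) v h then 1 else 0)
      ≤ (Y ^ 21)⁻¹ + (Y ^ 21)⁻¹ := h1.trans (add_le_add h2 h3)
    _ ≤ (Y ^ 20)⁻¹ := by rw [h4]; nlinarith

end

end NTIL
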