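import Mathlib
import Pool.Agent.Lib.MP_2ffb02_co.PoorB
import Pool.Agent.Lib.MP_2ffb02_co.RichB
import Pool.Agent.Lib.MP_2ffb02_co.ColumnA

/-!
# One column: conclusion
-/

set_option autoImplicit false

namespace NTIL

open Finset

noncomputable section

lemma ColumnB_Yx_ge {X : ℕ} (hB : Big X) : (10 : ℝ) ^ 20 ≤ Yx X := by
  have h3 : (1 : ℝ) ≤ (H : ℝ) ^ 10 := one_le_pow₀ (by exact_mod_cast H_pos)
  have h4 := hB.H_le
  nlinarith

lemma ColumnB_Th_ge {X : ℕ} (hB : Big X) : 3 ≤ Th X := by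
  rw [Th_eq_log hB.one_le, Real.le_log_iff_exp_le (Yx_pos hB.one_le)]
  have h1 : Real.exp 3 ≤ 27 := by
    have h0 : Real.exp 3 = Real.exp 1 ^ 3 := by rw [← Real.exp_nat_mul]; norm_num
    have h2 := Real.exp_one_lt_d9
    have h3 : Real.exp 1 ≤ 3 := by linarith
    rw [h0]
    calc Real.exp 1 ^ 3 ≤ 3 ^ 3 := pow_le_pow_left₀ (Real.exp_pos 1).le h3 3
      _ = 27 := by norm_num
  have h2 := ColumnB_Yx_ge hB
  have h3 : (27 : ℝ) ≤ 10 ^ 20 := by norm_num
  linarith

lemma ColumnB_muP_le {X k : ℕ} (hB : Big X) (hk : k < Nn X) :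
    muP X (X, k) + 1 ≤ Th X / 2 := by
  have h1 := muP_le hB hk
  have h2 := ColumnB_Th_ge hB
  have h3 : Real.log X = 100000 * Th X := by unfold Th; ring
  have hH : (10 : ℝ) ^ 9 ≤ H := by exact_mod_cast H_ge
  have h4 : (5 : ℝ) / H ≤ 5 / 10 ^ 9 := by
    apply div_le_div_of_nonneg_left (by norm_num) (by norm_num) hH
  rw [h3] at h1
  have h5 : 5 / (H : ℝ) * (1 + 100000 * Th X) ≤ 5 / 10 ^ 9 * (1 + 100000 * Th X) := by
    apply mul_le_mul_of_nonneg_right h4
    linarith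
  linarith

open scoped Classical in
/-- `poor_prob`, `muP_le`, `rich_prob`, `S_eq_Sp_add_Sr`; `5/H (1+log X) + 1 ≤ Th X / 2`. -/
theorem S_tail {X k : ℕ} (hX : 1 ≤ X) (hG : Good X) (hk : k ∈ V X) :
    Ex (X - 1) (fun h => if Th X < S h (X, k) then 1 else 0) ≤ (Yx X ^ 10)⁻¹ := by
  have hB := hG.big hX
  have hkN : k < Nn X := V_lt hk
  have hY : (10 : ℝ) ^ 20 ≤ Yx X := ColumnB_Yx_ge hB
  have hmu := ColumnB_muP_le hB hkN
  calc Ex (X - 1) (fun h => if Th X < S h (X, k) then 1 else 0)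
      ≤ Ex (X - 1) (fun h => (if muP X (X, k) + 1 < UP X (X, k) h then 1 else 0) +
          (if Th X / 2 < Sr (Yx X ^ 300) (X, k) h then 1 else 0)) := by
        apply Ex_mono
        intro h hv hl
        by_cases h1 : Th X < S h (X, k)
        · rw [if_pos h1]
          by_cases h2 : muP X (X, k) + 1 < UP X (X, k) h
          · rw [if_pos h2]
            split_ifs <;> norm_num
          · by_cases h3 : Th X / 2 < Sr (Yx X ^ 300) (X, k) h
            · rw [if_pos h3]
              split_ifs <;> norm_num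
            · exfalso
              push Not at h2 h3
              have h4 := Sp_le hX hkN hv (by omega : h.length < X)
              have h5 := S_eq_Sp_add_Sr (Yx X ^ 300) (X, k) h
              linarith
        · rw [if_neg h1]
          split_ifs <;> norm_num
    _ ≤ (Yx X ^ 20)⁻¹ + (Yx X ^ 20)⁻¹ := by
        rw [Ex_add]
        exact add_le_add (poor_prob hX hG hkN) (rich_prob hB hk)
    _ ≤ (Yx X ^ 10)⁻¹ := by
        have h1 : (1 : ℝ) ≤ Yx X := by
          have : (1 : ℝ) ≤ 10 ^ 20 := by norm_num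
          linarith
        have h2 : (2 : ℝ) ≤ Yx X ^ 10 := by
          calc (2 : ℝ) ≤ Yx X := by
                have : (2 : ℝ) ≤ 10 ^ 20 := by norm_num
                linarith
            _ = Yx X ^ 1 := (pow_one _).symm
            _ ≤ Yx X ^ 10 := pow_le_pow_right₀ h1 (by norm_num)
        have h3 : (0 : ℝ) < Yx X ^ 10 := by linarith
        have h4 : Yx X ^ 20 = Yx X ^ 10 * Yx X ^ 10 := by rw [← pow_add]
        rw [h4, mul_inv, ← two_mul, ← mul_assoc]
        have h5 : 2 * (Yx X ^ 10)⁻¹ ≤ 1 := by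
          rw [← div_eq_mul_inv, div_le_one h3]
          exact h2
        have h6 : 0 ≤ (Yx X ^ 10)⁻¹ := inv_nonneg.2 h3.le
        nlinarith

open scoped Classical in
/-- the pick of column `X` is covered with probability `≤ Y^{-2}` -/
theorem badpick {X : ℕ} (hX : 1 ≤ X) (hG : Good X) :
    Ex (X - 1) (fun h => ∑ k ∈ V X, pi h k * (if cvd (Z h) (X, k) then 1 else 0)) ≤
      (Yx X ^ 2)⁻¹ := by
  have hB := hG.big hX
  have hY : (10 : ℝ) ^ 20 ≤ Yx X := ColumnB_Yx_ge hB
  have hY1 : (1 : ℝ) ≤ Yx X := by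
    have : (1 : ℝ) ≤ 10 ^ 20 := by norm_num
    linarith
  have hY0 : (0 : ℝ) < Yx X := by linarith
  have hX0 : (0 : ℝ) < X := by exact_mod_cast hX
  have hH0 : (0 : ℝ) < H := by exact_mod_cast H_pos
  have hH1 : (1 : ℝ) ≤ H := by exact_mod_cast H_pos
  have hVsub : V X ⊆ range (Nn X) := by
    intro k hk
    rw [mem_range]
    exact V_lt hk
  -- pointwise bound
  have hpt : ∀ h : Hist, Val h → h.length = X - 1 →
      ∑ k ∈ V X, pi h k * (if cvd (Z h) (X, k) then (1 : ℝ) else 0) ≤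
      bb X * (∑ k ∈ V X, (if Th X < S h (X, k) then (1 : ℝ) else 0) +
        ∑ k ∈ range (Nn X), (if ∃ z ∈ Z h, ∃ y ∈ Z h, z.1 < y.1 ∧ y.1 < X ∧
          (z.1 : ℝ) < lo X ∧ det z y (X, k) = 0 then (1 : ℝ) else 0)) := by
    intro h hv hl
    have hl1 : h.length + 1 = X := by omega
    have h1 : ∑ k ∈ V X, pi h k * (if cvd (Z h) (X, k) then (1 : ℝ) else 0) ≤
        ∑ k ∈ V X, bb X * ((if Th X < S h (X, k) then (1 : ℝ) else 0) +
          (if ∃ z ∈ Z h, ∃ y ∈ Z h, z.1 < y.1 ∧ y.1 < X ∧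
          (z.1 : ℝ) < lo X ∧ det z y (X, k) = 0 then (1 : ℝ) else 0)) := by
      refine sum_le_sum fun k hk => ?_
      have hpb : pi h k ≤ bb X := by
        have := pi_le_bb h k
        rwa [hl1] at this
      have hbb := bb_nonneg X
      have hpi := pi_nonneg h k
      by_cases hc : cvd (Z h) (X, k)
      · rw [if_pos hc, mul_one]
        obtain ⟨z, hz, y, hy, hzy, hyX, hdet⟩ := hc
        by_cases hearly : (z.1 : ℝ) < lo X
        · rw [if_pos (⟨z, hz, y, hy, hzy, hyX, hearly, hdet⟩ : ∃ z ∈ Z h, ∃ y ∈ Z h, z.1 < y.1 ∧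
            y.1 < X ∧ (z.1 : ℝ) < lo X ∧ det z y (X, k) = 0)]
          split_ifs <;> nlinarith
        · by_cases hS : Th X < S h (X, k)
          · rw [if_pos hS]
            split_ifs <;> nlinarith
          · push Not at hearly hS
            have hW := W_eq_zero (v := (X, k)) (h := h) (by simp only; omega) hS hz hy hzy
              hearly hdet
            have h2 := pi_le_W h k
            rw [hl1, hW, zero_div] at h2
            have h3 : (0 : ℝ) ≤ (if Th X < S h (X, k) then (1 : ℝ) else 0) +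
              (if ∃ z ∈ Z h, ∃ y ∈ Z h, z.1 < y.1 ∧ y.1 < X ∧
              (z.1 : ℝ) < lo X ∧ det z y (X, k) = 0 then (1 : ℝ) else 0) := by
              split_ifs <;> norm_num
            exact h2.trans (mul_nonneg hbb h3)
      · rw [if_neg hc, mul_zero]
        apply mul_nonneg hbb
        split_ifs <;> norm_num
    refine h1.trans ?_
    rw [← mul_sum, sum_add_distrib]
    apply mul_le_mul_of_nonneg_left _ (bb_nonneg X)
    refine add_le_add le_rfl (sum_le_sum_of_subset_of_nonneg hVsub fun k _ _ => ?_)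
    split_ifs <;> norm_num
  calc Ex (X - 1) (fun h => ∑ k ∈ V X, pi h k * (if cvd (Z h) (X, k) then 1 else 0))
      ≤ Ex (X - 1) (fun h => bb X * (∑ k ∈ V X, (if Th X < S h (X, k) then (1 : ℝ) else 0) +
        ∑ k ∈ range (Nn X), (if ∃ z ∈ Z h, ∃ y ∈ Z h, z.1 < y.1 ∧ y.1 < X ∧
          (z.1 : ℝ) < lo X ∧ det z y (X, k) = 0 then (1 : ℝ) else 0))) := Ex_mono hpt
    _ = bb X * (∑ k ∈ V X, Ex (X - 1) (fun h => if Th X < S h (X, k) then (1 : ℝ) else 0) +
        Ex (X - 1) (fun h => ∑ k ∈ range (Nn X), (if ∃ z ∈ Z h, ∃ y ∈ Z h, z.1 < y.1 ∧ y.1 < X ∧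
          (z.1 : ℝ) < lo X ∧ det z y (X, k) = 0 then (1 : ℝ) else 0))) := by
        rw [Ex_const_mul, Ex_add, Ex_sum]
    _ ≤ bb X * (Nn X * (Yx X ^ 10)⁻¹ + X / Yx X ^ 4) := by
        apply mul_le_mul_of_nonneg_left _ (bb_nonneg X)
        refine add_le_add ?_ (early_prob hB)
        calc ∑ k ∈ V X, Ex (X - 1) (fun h => if Th X < S h (X, k) then (1 : ℝ) else 0)
            ≤ ∑ k ∈ V X, (Yx X ^ 10)⁻¹ := sum_le_sum fun k hk => S_tail hX hG hk
          _ = (V X).card * (Yx X ^ 10)⁻¹ := by rw [sum_const, nsmul_eq_mul]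
          _ ≤ Nn X * (Yx X ^ 10)⁻¹ := by
              apply mul_le_mul_of_nonneg_right _ (by positivity)
              have := card_le_card hVsub
              rw [card_range] at this
              exact_mod_cast this
    _ = (Yx X ^ 9)⁻¹ / 2 + (Yx X ^ 3)⁻¹ / (2 * H) := by
        unfold bb Nn
        push_cast
        field_simp
    _ ≤ (Yx X ^ 2)⁻¹ / 2 + (Yx X ^ 2)⁻¹ / 2 := by
        have h1 : (Yx X ^ 9)⁻¹ ≤ (Yx X ^ 2)⁻¹ :=
          inv_anti₀ (by positivity) (pow_le_pow_right₀ hY1 (by norm_num))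
        have h2 : (Yx X ^ 3)⁻¹ ≤ (Yx X ^ 2)⁻¹ :=
          inv_anti₀ (by positivity) (pow_le_pow_right₀ hY1 (by norm_num))
        refine add_le_add (by linarith) ?_
        calc (Yx X ^ 3)⁻¹ / (2 * H) ≤ (Yx X ^ 3)⁻¹ / 2 := by
              apply div_le_div_of_nonneg_left (by positivity) (by norm_num) (by linarith)
          _ ≤ (Yx X ^ 2)⁻¹ / 2 := by linarith
    _ = (Yx X ^ 2)⁻¹ := by ring

end

end NTIL
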