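import Mathlib
import Pool.Agent.Lib.MP_2ffb02_co.Geom

set_option autoImplicit false

namespace NTIL

open Finset

private def toZ : Pt → ℤ × ℤ := fun p => ((p.1 : ℤ), (p.2 : ℤ))

private lemma toZ_injective : Function.Injective toZ := by
  intro p q h
  simp only [toZ, Prod.mk.injEq, Nat.cast_inj] at h
  exact Prod.ext h.1 h.2

private lemma det_swap12 (z y v : Pt) : det y z v = - det z y v := by
  unfold det; ring

private lemma det_swap23 (z y v : Pt) : det z v y = - det z y v := by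
  unfold det; ring

private lemma det_ne_zero_of_three {A : Set Pt}
    (hcol : ∀ p ∈ A, ∀ q ∈ A, p.1 = q.1 → p = q)
    (hdet : ∀ z ∈ A, ∀ y ∈ A, ∀ v ∈ A, z.1 < y.1 → y.1 < v.1 → det z y v ≠ 0)
    {p q r : Pt} (hp : p ∈ A) (hq : q ∈ A) (hr : r ∈ A) (hpq : p ≠ q) (hpr : p ≠ r)
    (hqr : q ≠ r) : det p q r ≠ 0 := by
  have h1 : p.1 ≠ q.1 := fun h => hpq (hcol p hp q hq h)
  have h2 : p.1 ≠ r.1 := fun h => hpr (hcol p hp r hr h)
  have h3 : q.1 ≠ r.1 := fun h => hqr (hcol q hq r hr h)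
  rcases lt_or_gt_of_ne h1 with a | a <;> rcases lt_or_gt_of_ne h2 with b | b <;>
    rcases lt_or_gt_of_ne h3 with c | c
  · exact hdet p hp q hq r hr a c
  · have := hdet p hp r hr q hq b c
    rw [det_swap23] at this
    simpa using this
  · omega
  · have := hdet r hr p hp q hq b a
    rw [det_swap12, det_swap23] at this
    simpa using this
  · have := hdet q hq p hp r hr a b
    rw [det_swap12] at this
    simpa using this
  · omega
  · have := hdet q hq r hr p hp c b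
    rw [det_swap23, det_swap12] at this
    simpa using this
  · have := hdet r hr q hq p hp c a
    rw [det_swap12, det_swap23, det_swap12] at this
    simpa using this

/-- (M6) from finite sets to an infinite set (compactness) -/
theorem infinite_of_finite (H j0 : ℕ) (κ : ℝ) (hH : 1 ≤ H) (hκ : 0 < κ)
    (hfin : ∀ J : ℕ, ∃ Q : Finset Pt, (∀ p ∈ Q, p.2 < H * p.1) ∧
      (∀ p ∈ Q, ∀ q ∈ Q, p.1 = q.1 → p = q) ∧
      (∀ z ∈ Q, ∀ y ∈ Q, ∀ v ∈ Q, z.1 < y.1 → y.1 < v.1 → det z y v ≠ 0) ∧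
      (∀ j, j0 ≤ j → j ≤ J →
        κ * 2 ^ j ≤ ((Q.filter (fun p => 2 ^ j ≤ p.1 ∧ p.1 < 2 ^ (j + 1))).card : ℝ))) :
    ∃ A : Set (ℤ × ℤ),
      (∀ p ∈ A, ∀ q ∈ A, ∀ r ∈ A, p ≠ q → p ≠ r → q ≠ r →
        (q.1 - p.1) * (r.2 - p.2) - (q.2 - p.2) * (r.1 - p.1) ≠ 0) ∧
      ∃ c : ℝ, 0 < c ∧ ∃ N₀ : ℕ, ∀ N : ℕ, N₀ ≤ N →
        c * (N : ℝ) ≤
          ((A ∩ {p : ℤ × ℤ | |p.1| ≤ (N : ℤ) ∧ |p.2| ≤ (N : ℤ)}).ncard : ℝ) := by
  classical
  choose Q hQ1 hQ2 hQ3 hQ4 using hfin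
  let U : Ultrafilter ℕ := Filter.hyperfilter ℕ
  let A₀ : Set Pt := {p | ∀ᶠ J in (U : Filter ℕ), p ∈ Q J}
  have hA1 : ∀ p ∈ A₀, p.2 < H * p.1 := by
    intro p hp
    obtain ⟨J, hJ⟩ := (show ∀ᶠ J in (U : Filter ℕ), p ∈ Q J from hp).exists
    exact hQ1 J p hJ
  have hA2 : ∀ p ∈ A₀, ∀ q ∈ A₀, p.1 = q.1 → p = q := by
    intro p hp q hq h
    have hp' : ∀ᶠ J in (U : Filter ℕ), p ∈ Q J := hp
    have hq' : ∀ᶠ J in (U : Filter ℕ), q ∈ Q J := hq
    obtain ⟨J, hJ⟩ := (hp'.and hq').exists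
    exact hQ2 J p hJ.1 q hJ.2 h
  have hA3 : ∀ z ∈ A₀, ∀ y ∈ A₀, ∀ v ∈ A₀, z.1 < y.1 → y.1 < v.1 → det z y v ≠ 0 := by
    intro z hz y hy v hv h1 h2
    have hz' : ∀ᶠ J in (U : Filter ℕ), z ∈ Q J := hz
    have hy' : ∀ᶠ J in (U : Filter ℕ), y ∈ Q J := hy
    have hv' : ∀ᶠ J in (U : Filter ℕ), v ∈ Q J := hv
    obtain ⟨J, hJ⟩ := (hz'.and (hy'.and hv')).exists
    exact hQ3 J z hJ.1 y hJ.2.1 v hJ.2.2 h1 h2
  -- the blocks
  let F : ℕ → Finset Pt := fun j =>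
    ((range (2 ^ (j + 1))) ×ˢ (range (H * 2 ^ (j + 1)))).filter (fun p => 2 ^ j ≤ p.1)
  have hA4 : ∀ j, j0 ≤ j → κ * 2 ^ j ≤ (((F j).filter (fun p => p ∈ A₀)).card : ℝ) := by
    intro j hj
    have h1 : ∀ᶠ J in (U : Filter ℕ), ∀ p ∈ F j, (p ∈ Q J → p ∈ A₀) := by
      rw [Filter.eventually_all_finset]
      intro p _
      by_cases hp : p ∈ A₀
      · exact Filter.Eventually.of_forall fun _ _ => hp
      · have : ¬ ∀ᶠ J in (U : Filter ℕ), p ∈ Q J := hp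
        rw [← Ultrafilter.eventually_not] at this
        exact this.mono fun J hJ h => absurd h hJ
    have h2 : ∀ᶠ J in (U : Filter ℕ), j ≤ J := by
      have : (U : Filter ℕ) ≤ Filter.atTop := Nat.hyperfilter_le_atTop
      exact this (Filter.eventually_ge_atTop j)
    obtain ⟨J, hJ1, hJ2⟩ := (h1.and h2).exists
    refine (hQ4 J j hj hJ2).trans ?_
    rw [Nat.cast_le]
    apply Finset.card_le_card
    intro p hp
    rw [Finset.mem_filter] at hp
    have hF : p ∈ F j := by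
      simp only [F, Finset.mem_filter, Finset.mem_product, Finset.mem_range]
      refine ⟨⟨hp.2.2, ?_⟩, hp.2.1⟩
      calc p.2 < H * p.1 := hQ1 J p hp.1
        _ ≤ H * 2 ^ (j + 1) := Nat.mul_le_mul_left _ hp.2.2.le
    rw [Finset.mem_filter]
    exact ⟨hF, hJ1 p hF hp.1⟩
  refine ⟨toZ '' A₀, ?_, κ / (4 * H), ?_, H * 2 ^ (j0 + 1), ?_⟩
  · rintro _ ⟨p, hp, rfl⟩ _ ⟨q, hq, rfl⟩ _ ⟨r, hr, rfl⟩ hpq hpr hqr
    exact det_ne_zero_of_three hA2 hA3 hp hq hr (fun h => hpq (by rw [h]))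
      (fun h => hpr (by rw [h])) (fun h => hqr (by rw [h]))
  · have : (0 : ℝ) < H := by exact_mod_cast hH
    positivity
  · intro N hN
    have hHpos : 0 < H := hH
    set M := N / H with hM
    have hMge : 2 ^ (j0 + 1) ≤ M := by
      rw [hM, Nat.le_div_iff_mul_le hHpos, mul_comm]
      exact hN
    have hM0 : M ≠ 0 := by
      have : 0 < 2 ^ (j0 + 1) := by positivity
      omega
    obtain ⟨j, hj⟩ : ∃ j, Nat.log 2 M = j + 1 := by
      have h : j0 + 1 ≤ Nat.log 2 M := by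
        rw [Nat.le_log_iff_pow_le one_lt_two hM0]
        exact hMge
      exact ⟨Nat.log 2 M - 1, by omega⟩
    have hjj0 : j0 ≤ j := by
      have h : j0 + 1 ≤ Nat.log 2 M := by
        rw [Nat.le_log_iff_pow_le one_lt_two hM0]
        exact hMge
      omega
    have hlo : 2 ^ (j + 1) ≤ M := by
      rw [← hj]; exact Nat.pow_log_le_self 2 hM0
    have hhi : M < 2 ^ (j + 2) := by
      have := Nat.lt_pow_succ_log_self (b := 2) one_lt_two M
      rw [hj] at this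
      exact this
    have hbox : H * 2 ^ (j + 1) ≤ N := by
      calc H * 2 ^ (j + 1) ≤ H * M := Nat.mul_le_mul_left _ hlo
        _ ≤ N := by rw [hM]; exact Nat.mul_div_le N H
    have hbox' : 2 ^ (j + 1) ≤ N := by
      calc 2 ^ (j + 1) = 1 * 2 ^ (j + 1) := (one_mul _).symm
        _ ≤ H * 2 ^ (j + 1) := Nat.mul_le_mul_right _ hH
        _ ≤ N := hbox
    have hNlt : N < H * 2 ^ (j + 2) := by
      calc N < H * (N / H + 1) := Nat.lt_mul_div_succ N hHpos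
        _ ≤ H * 2 ^ (j + 2) := Nat.mul_le_mul_left _ (by rw [← hM]; omega)
    have hfinite : (toZ '' A₀ ∩ {p : ℤ × ℤ | |p.1| ≤ (N : ℤ) ∧ |p.2| ≤ (N : ℤ)}).Finite := by
      apply Set.Finite.subset (Finset.finite_toSet
        ((Finset.Icc (-(N : ℤ)) N) ×ˢ (Finset.Icc (-(N : ℤ)) N)))
      rintro p ⟨_, hp⟩
      simp only [Set.mem_setOf_eq, abs_le] at hp
      simp only [Finset.coe_product, Finset.coe_Icc, Set.mem_prod, Set.mem_Icc]
      exact hp
    have hsub : (((F j).filter (fun p => p ∈ A₀)).image toZ : Set (ℤ × ℤ)) ⊆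
        toZ '' A₀ ∩ {p : ℤ × ℤ | |p.1| ≤ (N : ℤ) ∧ |p.2| ≤ (N : ℤ)} := by
      intro z hz
      rw [Finset.mem_coe, Finset.mem_image] at hz
      obtain ⟨p, hp, rfl⟩ := hz
      simp only [F, Finset.mem_filter, Finset.mem_product, Finset.mem_range] at hp
      refine ⟨⟨p, hp.2, rfl⟩, ?_⟩
      simp only [Set.mem_setOf_eq, toZ, Nat.abs_cast, Nat.cast_le]
      exact ⟨by omega, by omega⟩
    have hcard : ((F j).filter (fun p => p ∈ A₀)).card ≤
        (toZ '' A₀ ∩ {p : ℤ × ℤ | |p.1| ≤ (N : ℤ) ∧ |p.2| ≤ (N : ℤ)}).ncard := by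
      rw [← Finset.card_image_of_injective _ toZ_injective, ← Set.ncard_coe_finset]
      exact Set.ncard_le_ncard hsub hfinite
    have hfinal : κ / (4 * H) * N ≤ κ * 2 ^ j := by
      have h1 : (N : ℝ) ≤ H * 2 ^ (j + 2) := by exact_mod_cast hNlt.le
      have h2 : (0 : ℝ) < H := by exact_mod_cast hH
      rw [div_mul_eq_mul_div, div_le_iff₀ (by positivity)]
      calc κ * N ≤ κ * (H * 2 ^ (j + 2)) := mul_le_mul_of_nonneg_left h1 hκ.le
        _ = κ * 2 ^ j * (4 * H) := by ring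
    exact hfinal.trans ((hA4 j hjj0).trans (by exact_mod_cast hcard))

end NTIL
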