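import Mathlib
import Pool.Agent.Lib.MP_2ffb02_co.BlocksA
import Pool.Agent.Lib.MP_2ffb02_co.ColumnB
import Pool.Agent.Lib.MP_2ffb02_co.Final

/-!
# Dyadic blocks: union bound
-/

set_option autoImplicit false

namespace NTIL

open Finset

noncomputable section

lemma BlocksB_BT_nonneg (j : ℕ) (h : Hist) : 0 ≤ BT j h := by
  classical
  induction h with
  | nil => unfold BT; exact le_refl _
  | cons o h ih =>
    unfold BT
    apply add_nonneg ih
    split_ifs <;> norm_num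

lemma BlocksB_BP_nonneg (j : ℕ) (h : Hist) : 0 ≤ BP j h := by
  classical
  induction h with
  | nil => unfold BP; exact le_refl _
  | cons o h ih =>
    unfold BP
    apply add_nonneg ih
    split_ifs <;> norm_num

/-- the summation ratio -/
def BlocksB_r : ℝ := (2 : ℝ) ^ (-(1 / 50000) : ℝ)

lemma BlocksB_r_pos : 0 < BlocksB_r := by
  unfold BlocksB_r
  positivity

lemma BlocksB_r_lt : BlocksB_r < 1 := by
  unfold BlocksB_r
  exact Real.rpow_lt_one_of_one_lt_of_neg (by norm_num) (by norm_num)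

lemma BlocksB_Yx (j : ℕ) : (Yx (2 ^ j) ^ 2)⁻¹ = BlocksB_r ^ j := by
  unfold Yx BlocksB_r
  push_cast
  rw [← Real.rpow_natCast (2 : ℝ) j, ← Real.rpow_mul (by norm_num), ← Real.rpow_natCast _ 2,
    ← Real.rpow_mul (by norm_num), ← Real.rpow_neg (by norm_num), ← Real.rpow_natCast _ j,
    ← Real.rpow_mul (by norm_num)]
  congr 1
  push_cast
  ring

lemma BlocksB_choose : ∃ j0 : ℕ, 64 * ((1 / 2 : ℝ) ^ j0 / (1 - 1 / 2)) +
    16 * (BlocksB_r ^ j0 / (1 - BlocksB_r)) < 1 := by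
  have h1 : Filter.Tendsto (fun j : ℕ => 64 * ((1 / 2 : ℝ) ^ j / (1 - 1 / 2)) +
    16 * (BlocksB_r ^ j / (1 - BlocksB_r))) Filter.atTop (nhds 0) := by
    have h2 := tendsto_pow_atTop_nhds_zero_of_lt_one (r := (1 / 2 : ℝ)) (by norm_num) (by norm_num)
    have h3 := tendsto_pow_atTop_nhds_zero_of_lt_one BlocksB_r_pos.le BlocksB_r_lt
    have h4 := ((h2.div_const (1 - 1 / 2)).const_mul 64).add
      ((h3.div_const (1 - BlocksB_r)).const_mul 16)
    simpa using h4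
  exact (h1.eventually (gt_mem_nhds one_pos)).exists

/-- union bound over the blocks `j0 ≤ j ≤ J`: `E ∑_j [64 MP² / 4^j + 8 BT / 2^j + 8 BP / 2^j] < 1`
with `goodT`, `badpick`. -/
theorem exists_good : ∃ j0 : ℕ, ∀ J : ℕ, ∃ Q : Finset Pt, (∀ p ∈ Q, p.2 < H * p.1) ∧
      (∀ p ∈ Q, ∀ q ∈ Q, p.1 = q.1 → p = q) ∧
      (∀ z ∈ Q, ∀ y ∈ Q, ∀ v ∈ Q, z.1 < y.1 → y.1 < v.1 → det z y v ≠ 0) ∧
      (∀ j, j0 ≤ j → j ≤ J →
        (1 / 10 : ℝ) * 2 ^ j ≤
          ((Q.filter (fun p => 2 ^ j ≤ p.1 ∧ p.1 < 2 ^ (j + 1))).card : ℝ)) := by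
  classical
  obtain ⟨X₀, hX₀, hgood⟩ := eventually_good
  obtain ⟨j1, hj1⟩ := BlocksB_choose
  set r := BlocksB_r with hr
  have hr0 : 0 < r := BlocksB_r_pos
  have hr1 : r < 1 := BlocksB_r_lt
  -- choose the starting block
  obtain ⟨j0, hj01, hj0X, hj0⟩ : ∃ j0 : ℕ, j1 ≤ j0 ∧ X₀ ≤ 2 ^ j0 ∧
      64 * ((1 / 2 : ℝ) ^ j0 / (1 - 1 / 2)) + 16 * (r ^ j0 / (1 - r)) < 1 := by
    refine ⟨max j1 X₀, le_max_left _ _, ?_, ?_⟩
    · calc X₀ ≤ 2 ^ X₀ := Nat.lt_two_pow_self.le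
        _ ≤ 2 ^ (max j1 X₀) := Nat.pow_le_pow_right (by norm_num) (le_max_right _ _)
    · refine lt_of_le_of_lt ?_ hj1
      have e1 : (1 / 2 : ℝ) ^ (max j1 X₀) ≤ (1 / 2 : ℝ) ^ j1 :=
        pow_le_pow_of_le_one (by norm_num) (by norm_num) (le_max_left _ _)
      have e2 : r ^ (max j1 X₀) ≤ r ^ j1 := pow_le_pow_of_le_one hr0.le hr1.le (le_max_left _ _)
      have e3 : 0 < 1 - r := by linarith
      gcongr
  refine ⟨j0, fun J => ?_⟩
  set n := 2 ^ (J + 1) with hn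
  -- the expectations
  have hδ : ∀ j, j0 ≤ j → ∀ X, 2 ^ j ≤ X → (Yx X ^ 2)⁻¹ ≤ r ^ j := by
    intro j _ X hX
    rw [← BlocksB_Yx]
    have h1 : 1 ≤ 2 ^ j := Nat.one_le_two_pow
    have h2 := Yx_pos h1
    have h3 := Yx_mono hX
    gcongr
  have hX0 : ∀ j, j0 ≤ j → ∀ X, 2 ^ j ≤ X → X₀ ≤ X := by
    intro j hj X hX
    calc X₀ ≤ 2 ^ j0 := hj0X
      _ ≤ 2 ^ j := Nat.pow_le_pow_right (by norm_num) hj
      _ ≤ X := hX
  have hBT : ∀ j, j0 ≤ j → Ex n (BT j) ≤ 2 ^ j * r ^ j := by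
    intro j hj
    apply Ex_BT_le j n _ (by positivity)
    intro X hX _
    have h1 := hX0 j hj X hX
    have h2 := hgood X h1
    have h3 : 1 ≤ X := hX₀.trans h1
    exact (goodT (h2.big h3)).trans (hδ j hj X hX)
  have hBP : ∀ j, j0 ≤ j → Ex n (BP j) ≤ 2 ^ j * r ^ j := by
    intro j hj
    apply Ex_BP_le j n _ (by positivity)
    intro X hX _
    have h1 := hX0 j hj X hX
    have h2 := hgood X h1
    have h3 : 1 ≤ X := hX₀.trans h1
    exact (badpick h3 h2).trans (hδ j hj X hX)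
  have hterm : ∀ j ∈ Ico j0 (J + 1),
      Ex n (fun h => 64 / 4 ^ j * MP j h ^ 2 + (8 / 2 ^ j * BT j h + 8 / 2 ^ j * BP j h)) ≤
        64 * (1 / 2 : ℝ) ^ j + 16 * r ^ j := by
    intro j hj
    rw [mem_Ico] at hj
    rw [Ex_add, Ex_add, Ex_const_mul, Ex_const_mul, Ex_const_mul]
    have h1 : 64 / 4 ^ j * Ex n (fun h => MP j h ^ 2) ≤ 64 * (1 / 2 : ℝ) ^ j := by
      calc 64 / 4 ^ j * Ex n (fun h => MP j h ^ 2) ≤ 64 / 4 ^ j * 2 ^ j :=
            mul_le_mul_of_nonneg_left (Ex_MP_sq_le j n) (by positivity)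
        _ = 64 * (1 / 2 : ℝ) ^ j := by
            have : (4 : ℝ) ^ j = 2 ^ j * 2 ^ j := by
              rw [← mul_pow]; norm_num
            rw [this, one_div, inv_pow]
            field_simp
    have h2 : 8 / 2 ^ j * Ex n (BT j) ≤ 8 * r ^ j := by
      calc 8 / 2 ^ j * Ex n (BT j) ≤ 8 / 2 ^ j * (2 ^ j * r ^ j) :=
            mul_le_mul_of_nonneg_left (hBT j hj.1) (by positivity)
        _ = 8 * r ^ j := by field_simp
    have h3 : 8 / 2 ^ j * Ex n (BP j) ≤ 8 * r ^ j := by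
      calc 8 / 2 ^ j * Ex n (BP j) ≤ 8 / 2 ^ j * (2 ^ j * r ^ j) :=
            mul_le_mul_of_nonneg_left (hBP j hj.1) (by positivity)
        _ = 8 * r ^ j := by field_simp
    have h2' : 8 / 2 ^ j * Ex n (fun h => BT j h) ≤ 8 * r ^ j := h2
    have h3' : 8 / 2 ^ j * Ex n (fun h => BP j h) ≤ 8 * r ^ j := h3
    linarith
  have hsum : Ex n (fun h => ∑ j ∈ Ico j0 (J + 1),
      (64 / 4 ^ j * MP j h ^ 2 + (8 / 2 ^ j * BT j h + 8 / 2 ^ j * BP j h))) < 1 := by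
    rw [Ex_sum]
    refine lt_of_le_of_lt (sum_le_sum hterm) ?_
    rw [sum_add_distrib, ← mul_sum, ← mul_sum]
    refine lt_of_le_of_lt ?_ hj0
    have e1 := geom_sum_Ico_le_of_lt_one (x := (1 / 2 : ℝ)) (m := j0) (n := J + 1)
      (by norm_num) (by norm_num)
    have e2 := geom_sum_Ico_le_of_lt_one (x := r) (m := j0) (n := J + 1) hr0.le hr1
    gcongr
  -- a good history
  obtain ⟨h, hv, hl, hF⟩ : ∃ h : Hist, Val h ∧ h.length = n ∧ ∑ j ∈ Ico j0 (J + 1),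
      (64 / 4 ^ j * MP j h ^ 2 + (8 / 2 ^ j * BT j h + 8 / 2 ^ j * BP j h)) < 1 := by
    by_contra hc
    push Not at hc
    have h1 : Ex n (fun _ => (1 : ℝ)) ≤ Ex n (fun h => ∑ j ∈ Ico j0 (J + 1),
      (64 / 4 ^ j * MP j h ^ 2 + (8 / 2 ^ j * BT j h + 8 / 2 ^ j * BP j h))) :=
      Ex_mono fun h hv hl => hc h hv hl
    rw [Ex_const] at h1
    linarith
  refine ⟨GP h, ?_, ?_, ?_, ?_⟩
  · intro p hp
    unfold GP at hp
    rw [mem_filter] at hp
    exact V_lt (Z_mem_V hv hp.1)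
  · intro p hp q hq hpq
    unfold GP at hp hq
    rw [mem_filter] at hp hq
    exact Z_unique hp.1 hq.1 hpq
  · intro z hz y hy v hv' hzy hyv hd
    unfold GP at hz hy hv'
    rw [mem_filter] at hz hy hv'
    exact hv'.2 ⟨z, hz.1, y, hy.1, hzy, hyv, hd⟩
  · intro j hj hjJ
    have hlen : 2 ^ (j + 1) ≤ h.length := by
      rw [hl, hn]
      exact Nat.pow_le_pow_right (by norm_num) (by omega)
    refine le_trans ?_ (GP_block_ge j hlen)
    have hnn : ∀ i ∈ Ico j0 (J + 1), 0 ≤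
        (64 / 4 ^ i * MP i h ^ 2 + (8 / 2 ^ i * BT i h + 8 / 2 ^ i * BP i h)) := by
      intro i _
      have := BlocksB_BT_nonneg i h
      have := BlocksB_BP_nonneg i h
      positivity
    have h1 : 64 / 4 ^ j * MP j h ^ 2 + (8 / 2 ^ j * BT j h + 8 / 2 ^ j * BP j h) < 1 :=
      lt_of_le_of_lt (single_le_sum hnn (mem_Ico.mpr ⟨hj, by omega⟩)) hF
    have hp : (0 : ℝ) < 2 ^ j := by positivity
    have hBT0 := BlocksB_BT_nonneg j h
    have hBP0 := BlocksB_BP_nonneg j h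
    have a1 : 0 ≤ 64 / 4 ^ j * MP j h ^ 2 := by positivity
    have a2 : 0 ≤ 8 / 2 ^ j * BT j h := by positivity
    have a3 : 0 ≤ 8 / 2 ^ j * BP j h := by positivity
    have b2 : BT j h ≤ 2 ^ j / 8 := by
      have : 8 / 2 ^ j * BT j h < 1 := by linarith
      rw [div_mul_eq_mul_div, div_lt_one hp] at this
      linarith
    have b3 : BP j h ≤ 2 ^ j / 8 := by
      have : 8 / 2 ^ j * BP j h < 1 := by linarith
      rw [div_mul_eq_mul_div, div_lt_one hp] at this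
      linarith
    have b1 : -(2 ^ j / 8) ≤ MP j h := by
      have h4 : (4 : ℝ) ^ j = 2 ^ j * 2 ^ j := by
        rw [← mul_pow]; norm_num
      have : 64 / 4 ^ j * MP j h ^ 2 < 1 := by linarith
      rw [div_mul_eq_mul_div, div_lt_one (by positivity), h4] at this
      by_contra hc
      push Not at hc
      nlinarith
    linarith

end

end NTIL
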